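import Pool.Agent.Run7.h291.WN.Stm
import Pool.Agent.Run7.h772.WN.A
import Pool.Agent.Run7.h772.WN.B
import Pool.Agent.Helper112.Arith

set_option autoImplicit false

/-!
# (ZML) moments of zeta without the small primes near the line `1`
-/

namespace Run7.h772.WN

open Finset Filter MeasureTheory Topology Complex

/-- the primes below `z` -/
def Pz (z : ℕ) : Finset ℕ := (range z).filter Nat.Prime

lemma Pz_prime (z : ℕ) : ∀ p ∈ Pz z, p.Prime := fun p hp => (Finset.mem_filter.1 hp).2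

/-- the coefficients of the `m`-th power of the sifted sum -/
def cf (z N m k : ℕ) : ℕ :=
  ((Fintype.piFinset fun _ : Fin m => SP (Pz z) N).filter fun t => ∏ i, t i = k).card

lemma prod_cpow {m : ℕ} (t : Fin m → ℕ) (w : ℂ) (s : Finset (Fin m)) :
    ∏ i ∈ s, ((t i : ℕ) : ℂ) ^ w = ((∏ i ∈ s, t i : ℕ) : ℂ) ^ w := by
  classical
  induction s using Finset.induction_on with
  | empty => simp
  | insert a s ha ih => rw [Finset.prod_insert ha, Finset.prod_insert ha, ih, nat_mul_cpow]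

lemma pow_expand (z N m : ℕ) (w : ℂ) : (∑ n ∈ SP (Pz z) N, (n:ℂ) ^ w) ^ m =
    ∑ k ∈ Icc 1 (N ^ m), (cf z N m k : ℂ) * (k:ℂ) ^ w := by
  classical
  have h1 : (∑ n ∈ SP (Pz z) N, (n:ℂ) ^ w) ^ m =
      ∏ _i : Fin m, ∑ n ∈ SP (Pz z) N, (n:ℂ) ^ w := by simp
  rw [h1, Finset.prod_univ_sum]
  have h2 : ∀ t ∈ Fintype.piFinset fun _ : Fin m => SP (Pz z) N, (∏ i, t i) ∈ Icc 1 (N ^ m) := by
    intro t ht
    rw [Fintype.mem_piFinset] at ht
    rw [Finset.mem_Icc]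
    constructor
    · exact Finset.one_le_prod' fun i _ => (mem_SP.1 (ht i)).1.1
    · calc ∏ i, t i ≤ ∏ _i : Fin m, N := Finset.prod_le_prod' fun i _ => (mem_SP.1 (ht i)).1.2
        _ = N ^ m := by simp
  rw [← Finset.sum_fiberwise_of_maps_to h2]
  refine Finset.sum_congr rfl fun k _ => ?_
  have h3 : ∀ t ∈ (Fintype.piFinset fun _ : Fin m => SP (Pz z) N).filter (fun t => ∏ i, t i = k),
      ∏ i, ((t i : ℕ) : ℂ) ^ w = (k : ℂ) ^ w := by
    intro t ht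
    rw [prod_cpow, (Finset.mem_filter.1 ht).2]
  rw [Finset.sum_congr rfl h3, Finset.sum_const, nsmul_eq_mul, cf]

lemma cf_one {z N m : ℕ} (hN : 1 ≤ N) : cf z N m 1 = 1 := by
  classical
  unfold cf
  rw [Finset.card_eq_one]
  refine ⟨fun _ => 1, ?_⟩
  ext t
  rw [Finset.mem_filter, Fintype.mem_piFinset, Finset.mem_singleton]
  constructor
  · rintro ⟨-, h2⟩
    funext i
    exact Nat.dvd_one.1 (h2 ▸ Finset.dvd_prod_of_mem t (Finset.mem_univ i))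
  · rintro rfl
    refine ⟨fun i => mem_SP.2 ⟨⟨le_rfl, hN⟩, fun p hp hd => ?_⟩, by simp⟩
    have := (Pz_prime z p hp).one_lt
    have := Nat.dvd_one.1 hd
    omega

lemma cf_zero {z N m k : ℕ} (hk : 2 ≤ k) (hkz : k < z) : cf z N m k = 0 := by
  classical
  unfold cf
  rw [Finset.card_eq_zero, Finset.filter_eq_empty_iff]
  intro t ht h
  rw [Fintype.mem_piFinset] at ht
  obtain ⟨p, hp, hpk⟩ := Nat.exists_prime_and_dvd (by omega : k ≠ 1)
  have hpz : p < z := (Nat.le_of_dvd (by omega) hpk).trans_lt hkz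
  rw [← h] at hpk
  obtain ⟨i, -, hi⟩ := (hp.prime.dvd_finsetProd_iff _).1 hpk
  exact (mem_SP.1 (ht i)).2 p (Finset.mem_filter.2 ⟨Finset.mem_range.2 hpz, hp⟩) hi

lemma cf_le {z N m k : ℕ} (hk : 1 ≤ k) : cf z N m k ≤ k.divisors.card ^ m := by
  classical
  unfold cf
  have h1 : ((Fintype.piFinset fun _ : Fin m => SP (Pz z) N).filter fun t => ∏ i, t i = k) ⊆
      Fintype.piFinset fun _ : Fin m => k.divisors := by
    intro t ht
    rw [Finset.mem_filter] at ht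
    rw [Fintype.mem_piFinset]
    intro i
    rw [Nat.mem_divisors]
    exact ⟨ht.2 ▸ Finset.dvd_prod_of_mem t (Finset.mem_univ i), by omega⟩
  refine (Finset.card_le_card h1).trans (le_of_eq ?_)
  rw [Fintype.card_piFinset]
  simp

lemma G_pow {z N m : ℕ} (hz : 2 ≤ z) (hN : 1 ≤ N) (w : ℂ) :
    (∑ n ∈ SP (Pz z) N, (n:ℂ) ^ w) ^ m - 1 = ∑ k ∈ Icc z (N ^ m), (cf z N m k : ℂ) * (k:ℂ) ^ w := by
  rw [pow_expand]
  have h0 : 1 ≤ N ^ m := Nat.one_le_pow _ _ hN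
  have h1 : Icc 1 (N ^ m) = insert 1 (Icc 2 (N ^ m)) := by
    ext k
    simp only [Finset.mem_Icc, Finset.mem_insert]
    omega
  rw [h1, Finset.sum_insert (by simp), cf_one hN]
  have h2 : ∑ k ∈ Icc 2 (N ^ m), (cf z N m k : ℂ) * (k:ℂ) ^ w =
      ∑ k ∈ Icc z (N ^ m), (cf z N m k : ℂ) * (k:ℂ) ^ w := by
    symm
    refine Finset.sum_subset (fun k hk => ?_) fun k hk hk2 => ?_
    · rw [Finset.mem_Icc] at hk ⊢
      omega
    · rw [Finset.mem_Icc] at hk hk2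
      rw [cf_zero hk.1 (by omega)]
      simp
  rw [h2]
  simp

lemma cpow_split {k : ℕ} (hk : 1 ≤ k) (δ h : ℝ) : (k:ℂ) ^ (-(1 + 2 * δ + h * I : ℂ)) =
    (((k:ℝ) ^ (-(1 + 2 * δ)) : ℝ) : ℂ) * Complex.exp (-(h * Real.log k * I)) := by
  have hk0 : (k:ℂ) ≠ 0 := by exact_mod_cast (by omega : k ≠ 0)
  have hk1 : (0:ℝ) ≤ k := Nat.cast_nonneg k
  have h1 : (((k:ℝ) ^ (-(1 + 2 * δ)) : ℝ) : ℂ) = (k:ℂ) ^ (-(1 + 2 * δ) : ℂ) := by
    rw [Complex.ofReal_cpow hk1]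
    push_cast
    rfl
  rw [h1, Complex.cpow_def_of_ne_zero hk0, Complex.cpow_def_of_ne_zero hk0, ← Complex.exp_add,
    ← Complex.natCast_log]
  congr 1
  ring

/-- the sifted sum -/
noncomputable def Gs (z N : ℕ) (δ h : ℝ) : ℂ :=
  ∑ n ∈ SP (Pz z) N, (n:ℂ) ^ (-(1 + 2 * δ + h * I : ℂ))

/-- the mean square of `G ^ m - 1` -/
theorem G_mean (m : ℕ) (hm : 1 ≤ m) : ∃ A : ℝ, 0 < A ∧ ∀ z : ℕ, 2 ≤ z → ∀ N : ℕ, 1 ≤ N →
    ∀ δ : ℝ, 0 < δ → ∀ H : ℝ, 0 ≤ H → ∫ h in (0:ℝ)..H, ‖Gs z N δ h ^ m - 1‖ ^ 2 ≤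
      A * ((z:ℝ) ^ (-(1 / 2 : ℝ)) * H + (N:ℝ) ^ (1 / 4 : ℝ)) := by
  have hm0 : (1:ℝ) ≤ m := by exact_mod_cast hm
  set ε0 : ℝ := 1 / (16 * m ^ 2) with hε0
  have hε0p : 0 < ε0 := by positivity
  obtain ⟨C0, hC0, hdiv⟩ := Pool.Agent.Helper112.divisor_bound ε0 hε0p
  set ε : ℝ := 1 / (16 * m) with hε
  have hεp : 0 < ε := by positivity
  have hε1 : ε ≤ 1 / 8 := by
    rw [hε]
    exact one_div_le_one_div_of_le (by norm_num) (by linarith)
  have hsum : Summable fun k : ℕ => (k:ℝ) ^ (-(5 / 4) : ℝ) := Real.summable_nat_rpow.2 (by norm_num)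
  set S0 : ℝ := ∑' k : ℕ, (k:ℝ) ^ (-(5 / 4) : ℝ) with hS0
  have hS0n : 0 ≤ S0 := tsum_nonneg fun k => Real.rpow_nonneg (Nat.cast_nonneg k) _
  set A : ℝ := C0 ^ m with hA
  have hA0 : 0 < A := by positivity
  refine ⟨A ^ 2 * S0 + 2 * A ^ 2 * (17 * m) ^ 2, by positivity, fun z hz N hN δ hδ H hH => ?_⟩
  -- the coefficients
  set a : ℕ → ℝ := fun k => cf z N m k * (k:ℝ) ^ (-(1 + 2 * δ)) with ha
  have hN0 : (1:ℝ) ≤ N := by exact_mod_cast hN
  have e1 : ∀ h : ℝ, Gs z N δ h ^ m - 1 =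
      ∑ k ∈ Icc z (N ^ m), (a k : ℂ) * Complex.exp (-(h * Real.log k * I)) := by
    intro h
    unfold Gs
    rw [G_pow hz hN]
    refine Finset.sum_congr rfl fun k hk => ?_
    rw [Finset.mem_Icc] at hk
    rw [cpow_split (by omega), ha]
    push_cast
    ring
  simp_rw [e1]
  have hcf : ∀ k : ℕ, 1 ≤ k → (cf z N m k : ℝ) ≤ A * (k:ℝ) ^ ε := by
    intro k hk
    have hk0 : (0:ℝ) ≤ k := Nat.cast_nonneg k
    have h1 : (cf z N m k : ℝ) ≤ (k.divisors.card : ℝ) ^ m := by exact_mod_cast cf_le hk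
    refine h1.trans ?_
    refine (pow_le_pow_left₀ (Nat.cast_nonneg _) (hdiv k hk) m).trans (le_of_eq ?_)
    rw [mul_pow, ← Real.rpow_natCast ((k:ℝ) ^ ε0), ← Real.rpow_mul hk0]
    congr 2
    rw [hε0, hε]
    field_simp
  have hak0 : ∀ k, 0 ≤ a k := fun k => by
    rw [ha]; exact mul_nonneg (Nat.cast_nonneg _) (Real.rpow_nonneg (Nat.cast_nonneg k) _)
  have hak : ∀ k : ℕ, 1 ≤ k → a k ≤ A * ((k:ℝ) ^ ε / k) := by
    intro k hk
    have hk1 : (1:ℝ) ≤ k := by exact_mod_cast hk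
    have h1 : (k:ℝ) ^ (-(1 + 2 * δ)) ≤ 1 / k := by
      rw [one_div, ← Real.rpow_neg_one]
      exact Real.rpow_le_rpow_of_exponent_le hk1 (by linarith)
    calc a k ≤ (A * (k:ℝ) ^ ε) * (1 / k) :=
          mul_le_mul (hcf k hk) h1 (Real.rpow_nonneg (by linarith) _) (by positivity)
      _ = _ := by ring
  have hms := mean_sq_small (K := Icc z (N ^ m)) (M := N ^ m)
    (fun k hk => ⟨by rw [Finset.mem_Icc] at hk; omega, (Finset.mem_Icc.1 hk).2⟩) a hA0.le hεp.le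
    (fun k _ => hak0 k) (fun k hk => hak k (by rw [Finset.mem_Icc] at hk; omega)) H
  refine hms.trans ?_
  -- the diagonal
  have hdiag : ∑ k ∈ Icc z (N ^ m), a k ^ 2 ≤ A ^ 2 * S0 * (z:ℝ) ^ (-(1 / 2 : ℝ)) := by
    have h1 : ∀ k ∈ Icc z (N ^ m), a k ^ 2 ≤
        A ^ 2 * (z:ℝ) ^ (-(1 / 2 : ℝ)) * (k:ℝ) ^ (-(5 / 4) : ℝ) := by
      intro k hk
      rw [Finset.mem_Icc] at hk
      have hk1 : (1:ℝ) ≤ k := by exact_mod_cast (by omega : 1 ≤ k)
      have hk0 : (0:ℝ) < k := by linarith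
      have hz0 : (0:ℝ) < z := by exact_mod_cast (by omega : 0 < z)
      have h2 := pow_le_pow_left₀ (hak0 k) (hak k (by omega)) 2
      refine h2.trans ?_
      have h3 : (k:ℝ) ^ ε / k = (k:ℝ) ^ (ε - 1) := by
        rw [Real.rpow_sub hk0, Real.rpow_one]
      rw [h3, mul_pow, ← Real.rpow_natCast ((k:ℝ) ^ (ε - 1)), ← Real.rpow_mul hk0.le, mul_assoc]
      refine mul_le_mul_of_nonneg_left ?_ (by positivity)
      have h4 : (k:ℝ) ^ ((ε - 1) * (2:ℕ)) ≤ (k:ℝ) ^ (-(1 / 2 : ℝ)) * (k:ℝ) ^ (-(5 / 4) : ℝ) := by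
        rw [← Real.rpow_add hk0]
        refine Real.rpow_le_rpow_of_exponent_le hk1 ?_
        push_cast
        linarith
      refine h4.trans (mul_le_mul_of_nonneg_right ?_ (Real.rpow_nonneg hk0.le _))
      exact Real.rpow_le_rpow_of_nonpos hz0 (by exact_mod_cast hk.1) (by norm_num)
    refine (Finset.sum_le_sum h1).trans ?_
    rw [← Finset.mul_sum]
    have h5 : ∑ k ∈ Icc z (N ^ m), (k:ℝ) ^ (-(5 / 4) : ℝ) ≤ S0 :=
      hsum.sum_le_tsum _ fun k _ => Real.rpow_nonneg (Nat.cast_nonneg k) _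
    have h6 : 0 ≤ A ^ 2 * (z:ℝ) ^ (-(1 / 2 : ℝ)) := by positivity
    calc _ ≤ A ^ 2 * (z:ℝ) ^ (-(1 / 2 : ℝ)) * S0 := mul_le_mul_of_nonneg_left h5 h6
      _ = _ := by ring
  -- the off-diagonal terms
  have hoff : 2 * (A ^ 2 * ((N ^ m : ℕ) : ℝ) ^ (2 * ε)) * (1 + Real.log ((N ^ m : ℕ) : ℝ)) ^ 2 ≤
      2 * A ^ 2 * (17 * m) ^ 2 * (N:ℝ) ^ (1 / 4 : ℝ) := by
    have h1 : ((N ^ m : ℕ) : ℝ) ^ (2 * ε) = (N:ℝ) ^ (1 / 8 : ℝ) := by
      push_cast
      rw [← Real.rpow_natCast (N:ℝ) m, ← Real.rpow_mul (by linarith)]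
      congr 1
      rw [hε]
      field_simp
      norm_num
    have h2 : Real.log ((N ^ m : ℕ) : ℝ) = m * Real.log N := by
      push_cast
      rw [Real.log_pow]
    have h3 : Real.log N ≤ 16 * (N:ℝ) ^ (1 / 16 : ℝ) := by
      have := Real.log_le_rpow_div (by linarith : (0:ℝ) ≤ N) (by norm_num : (0:ℝ) < 1 / 16)
      linarith
    have h4 : (1:ℝ) ≤ (N:ℝ) ^ (1 / 16 : ℝ) := Real.one_le_rpow hN0 (by norm_num)
    have h5 : 1 + Real.log ((N ^ m : ℕ) : ℝ) ≤ 17 * m * (N:ℝ) ^ (1 / 16 : ℝ) := by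
      rw [h2]
      have h6 : m * Real.log N ≤ m * (16 * (N:ℝ) ^ (1 / 16 : ℝ)) := by gcongr
      have h7 : (1:ℝ) ≤ m * (N:ℝ) ^ (1 / 16 : ℝ) := one_le_mul_of_one_le_of_one_le hm0 h4
      linarith
    have h8 : 0 ≤ 1 + Real.log ((N ^ m : ℕ) : ℝ) := by
      rw [h2]
      have := Real.log_nonneg hN0
      positivity
    have h9 := pow_le_pow_left₀ h8 h5 2
    have h10 : (17 * m * (N:ℝ) ^ (1 / 16 : ℝ)) ^ 2 = (17 * m) ^ 2 * (N:ℝ) ^ (1 / 8 : ℝ) := by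
      rw [mul_pow, ← Real.rpow_natCast ((N:ℝ) ^ (1 / 16 : ℝ)), ← Real.rpow_mul (by linarith)]
      norm_num
    have h11 : (N:ℝ) ^ (1 / 4 : ℝ) = (N:ℝ) ^ (1 / 8 : ℝ) * (N:ℝ) ^ (1 / 8 : ℝ) := by
      rw [← Real.rpow_add (by linarith)]
      norm_num
    rw [h10] at h9
    rw [h1, h11]
    have h12 : 0 ≤ 2 * (A ^ 2 * (N:ℝ) ^ (1 / 8 : ℝ)) := by positivity
    calc _ ≤ 2 * (A ^ 2 * (N:ℝ) ^ (1 / 8 : ℝ)) * ((17 * m) ^ 2 * (N:ℝ) ^ (1 / 8 : ℝ)) :=
          mul_le_mul_of_nonneg_left h9 h12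
      _ = _ := by ring
  have h13 : 0 ≤ (z:ℝ) ^ (-(1 / 2 : ℝ)) * H := by positivity
  have h14 : 0 ≤ (N:ℝ) ^ (1 / 4 : ℝ) := by positivity
  have h15 := mul_le_mul_of_nonneg_left hdiag hH
  have h16 : 0 ≤ 2 * A ^ 2 * (17 * m) ^ 2 := by positivity
  have h17 : 0 ≤ A ^ 2 * S0 := by positivity
  nlinarith [mul_nonneg h16 h13, mul_nonneg h17 h14]

lemma pow_sub_pow_le {x y : ℂ} {R : ℝ} (hx : ‖x‖ ≤ R) (hy : ‖y‖ ≤ R) (hR : 1 ≤ R) (m : ℕ) :
    ‖x ^ m - y ^ m‖ ≤ ‖x - y‖ * (m * R ^ m) := by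
  rw [← (Commute.all x y).mul_geom_sum₂, norm_mul]
  refine mul_le_mul_of_nonneg_left ?_ (norm_nonneg _)
  refine (norm_sum_le _ _).trans ?_
  have h1 : ∀ i ∈ range m, ‖x ^ i * y ^ (m - 1 - i)‖ ≤ R ^ m := by
    intro i hi
    rw [Finset.mem_range] at hi
    rw [norm_mul, norm_pow, norm_pow]
    calc ‖x‖ ^ i * ‖y‖ ^ (m - 1 - i) ≤ R ^ i * R ^ (m - 1 - i) := by gcongr
      _ = R ^ (i + (m - 1 - i)) := (pow_add _ _ _).symm
      _ ≤ R ^ m := pow_le_pow_right₀ hR (by omega)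
  refine (Finset.sum_le_sum h1).trans (le_of_eq ?_)
  simp

/-- the elementary inequality -/
lemma elem_ineq {x : ℂ} {q τ : ℝ} {m : ℕ} (hq : 0 ≤ q) (hqm : q ≤ 2 * m) (hτ : 0 < τ) :
    max (‖x‖ ^ q - 1) 0 ≤ τ + (1 / τ + 1) * ‖x ^ m - 1‖ ^ 2 := by
  set w := ‖x ^ m - 1‖ with hw
  have hw0 : 0 ≤ w := norm_nonneg _
  have h2w : 2 * w ≤ τ + 1 / τ * w ^ 2 := by
    have h1 : 0 ≤ (τ - w) ^ 2 / τ := by positivity
    have h2 : (τ - w) ^ 2 / τ = τ - 2 * w + 1 / τ * w ^ 2 := by field_simp; ring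
    linarith
  have hR0 : 0 ≤ τ + (1 / τ + 1) * w ^ 2 := by positivity
  refine max_le ?_ hR0
  rcases le_or_gt ‖x‖ 1 with hx | hx
  · have := Real.rpow_le_one (norm_nonneg x) hx hq
    linarith
  · have h1 : ‖x‖ ^ q ≤ ‖x‖ ^ ((2 * m : ℕ) : ℝ) :=
      Real.rpow_le_rpow_of_exponent_le hx.le (by push_cast; exact hqm)
    rw [Real.rpow_natCast] at h1
    have h2 : ‖x‖ ^ (2 * m) = ‖x ^ m‖ ^ 2 := by
      rw [norm_pow, ← pow_mul, mul_comm]
    have h3 : ‖x ^ m‖ ≤ w + 1 := by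
      have := norm_add_le (x ^ m - 1) 1
      rw [sub_add_cancel, norm_one] at this
      exact this
    have h4 : ‖x ^ m‖ ^ 2 ≤ (w + 1) ^ 2 := pow_le_pow_left₀ (norm_nonneg _) h3 2
    rw [h2] at h1
    nlinarith

lemma zz_cont (z : ℕ) {δ : ℝ} (hδ : 0 < δ) : Continuous fun h : ℝ => Run7.h291.WN.zz z δ h := by
  unfold Run7.h291.WN.zz
  have hs : Continuous fun h : ℝ => (1 + 2 * δ + h * I : ℂ) := by fun_prop
  refine Continuous.mul ?_ ?_
  · rw [continuous_iff_continuousAt]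
    intro h
    have hne : (1 + 2 * δ + h * I : ℂ) ≠ 1 := by
      intro h1
      have := congrArg Complex.re h1
      rw [s_re] at this
      simp at this
      linarith
    exact ContinuousAt.comp (g := riemannZeta) (f := fun h : ℝ => (1 + 2 * δ + h * I : ℂ))
      (differentiableAt_riemannZeta hne).continuousAt hs.continuousAt
  · refine continuous_finsetProd _ fun p hp => ?_
    have hp0 : (p:ℂ) ≠ 0 := by exact_mod_cast (Finset.mem_filter.1 hp).2.ne_zero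
    exact continuous_const.sub (hs.neg.const_cpow (Or.inl hp0))

lemma Gs_cont (z N : ℕ) (δ : ℝ) : Continuous fun h : ℝ => Gs z N δ h := by
  unfold Gs
  refine continuous_finsetSum _ fun n hn => ?_
  have hn0 : (n:ℂ) ≠ 0 := by
    have := (mem_SP.1 hn).1.1
    exact_mod_cast (by omega : n ≠ 0)
  have hs : Continuous fun h : ℝ => (1 + 2 * δ + h * I : ℂ) := by fun_prop
  exact hs.neg.const_cpow (Or.inl hn0)

lemma int_inv_sq {H : ℝ} (hH : 1 ≤ H) : ∫ h in (1:ℝ)..H, (1 / h) ^ 2 ≤ 1 := by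
  have h1 : ∫ h in (1:ℝ)..H, (1 / h) ^ 2 = ∫ h in (1:ℝ)..H, h ^ (-2 : ℝ) := by
    refine intervalIntegral.integral_congr fun h hh => ?_
    rw [Set.uIcc_of_le hH] at hh
    have h0 : 0 < h := by linarith [hh.1]
    change (1 / h) ^ 2 = h ^ (-2 : ℝ)
    rw [Real.rpow_neg h0.le, one_div, inv_pow]
    norm_cast
  rw [h1, integral_rpow (Or.inr ⟨by norm_num, by rw [Set.uIcc_of_le hH]; simp⟩)]
  have h2 : 0 ≤ H ^ (-2 + 1 : ℝ) := Real.rpow_nonneg (by linarith) _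
  rw [Real.one_rpow]
  norm_num
  norm_num at h2
  linarith

/-- (ZML) -/
theorem zml : Run7.h291.WN.S_ZML := by
  intro Q hQ
  obtain ⟨m, hm⟩ : ∃ m : ℕ, Q ≤ m := exists_nat_ge Q
  set M : ℕ := m + 1 with hM
  have hM1 : 1 ≤ M := by omega
  have hQM : Q ≤ 2 * (M : ℝ) := by
    rw [hM]; push_cast
    have : (0:ℝ) ≤ m := Nat.cast_nonneg m
    linarith
  obtain ⟨A, hA, hG⟩ := G_mean M hM1
  refine ⟨1 / 4, 4 * A + 6, by norm_num, by positivity, fun z hz => ?_⟩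
  obtain ⟨Cz, hCz, hsift⟩ := sifted (Pz z) (Pz_prime z)
  set D : ℝ := (2 * Cz * M) ^ 2 * (2 + 2 * Cz + 8 * M) ^ (2 * M) with hD
  have hM0 : (1:ℝ) ≤ M := by exact_mod_cast hM1
  have hD0 : 0 ≤ D := by positivity
  have hz0 : (0:ℝ) < z := by exact_mod_cast (by omega : 0 < z)
  set K : ℝ := 4 * D + 4 * A with hK
  have hK0 : 0 ≤ K := by positivity
  refine ⟨max 1 ((K * (z:ℝ) ^ (1 / 2 : ℝ)) ^ 2), le_max_left _ _, fun H hH δ hδ hδ1 q hq hqQ => ?_⟩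
  have hH1 : 1 ≤ H := (le_max_left _ _).trans hH
  have hH0 : 0 < H := by linarith
  set sH : ℝ := H ^ (1 / 2 : ℝ) with hsH
  have hsH0 : 0 < sH := Real.rpow_pos_of_pos hH0 _
  have hsH2 : sH * sH = H := by
    rw [hsH, ← Real.rpow_add hH0]
    norm_num
  -- `K * sH ≤ z ^ (-1/2) * H`
  have hKH : K * sH ≤ (z:ℝ) ^ (-(1 / 2 : ℝ)) * H := by
    have h1 : (K * (z:ℝ) ^ (1 / 2 : ℝ)) ^ 2 ≤ sH ^ 2 := by
      rw [sq sH, hsH2]
      exact (le_max_right _ _).trans hH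
    have h2 : K * (z:ℝ) ^ (1 / 2 : ℝ) ≤ sH := (pow_le_pow_iff_left₀ (by positivity) hsH0.le (by norm_num)).1 h1
    have h3 : (z:ℝ) ^ (-(1 / 2 : ℝ)) * (z:ℝ) ^ (1 / 2 : ℝ) = 1 := by
      rw [← Real.rpow_add hz0]
      norm_num
    have h4 : 0 ≤ (z:ℝ) ^ (-(1 / 2 : ℝ)) * sH := by positivity
    calc K * sH = (z:ℝ) ^ (-(1 / 2 : ℝ)) * sH * (K * (z:ℝ) ^ (1 / 2 : ℝ)) := by
          linear_combination (-(K * sH)) * h3
      _ ≤ (z:ℝ) ^ (-(1 / 2 : ℝ)) * sH * sH := mul_le_mul_of_nonneg_left h2 h4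
      _ = (z:ℝ) ^ (-(1 / 2 : ℝ)) * H := by rw [mul_assoc, hsH2]
  -- the length of the sums
  set N : ℕ := ⌈H ^ 2⌉₊ with hN
  have hNH : H ^ 2 ≤ N := Nat.le_ceil _
  have hHsq : 1 ≤ H ^ 2 := one_le_pow₀ hH1
  have hN1 : (1:ℝ) ≤ N := hHsq.trans hNH
  have hNn : 1 ≤ N := by exact_mod_cast hN1
  have hN2 : (N:ℝ) ≤ 2 * H ^ 2 := by
    have := Nat.ceil_lt_add_one (by positivity : 0 ≤ H ^ 2)
    rw [← hN] at this
    linarith
  have hN4 : (N:ℝ) ^ (1 / 4 : ℝ) ≤ 2 * sH := by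
    calc (N:ℝ) ^ (1 / 4 : ℝ) ≤ (2 * H ^ 2) ^ (1 / 4 : ℝ) := Real.rpow_le_rpow (by linarith) hN2 (by norm_num)
      _ = (2:ℝ) ^ (1 / 4 : ℝ) * (H ^ 2) ^ (1 / 4 : ℝ) := Real.mul_rpow (by norm_num) (by positivity)
      _ ≤ 2 * sH := by
          have h1 : (2:ℝ) ^ (1 / 4 : ℝ) ≤ 2 ^ (1:ℝ) :=
            Real.rpow_le_rpow_of_exponent_le (by norm_num) (by norm_num)
          rw [Real.rpow_one] at h1
          have h2 : (H ^ 2) ^ (1 / 4 : ℝ) = sH := by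
            rw [← Real.rpow_natCast H 2, ← Real.rpow_mul hH0.le, hsH]
            norm_num
          rw [h2]
          gcongr
  -- the difference of the powers
  set x : ℝ → ℂ := fun h => Run7.h291.WN.zz z δ h with hx
  set g : ℝ → ℂ := fun h => Gs z N δ h with hg
  have hxg : ∀ h : ℝ, 1 ≤ h → h ≤ H → ‖x h - g h‖ ≤ 2 * Cz * (1 / h) := by
    intro h h1 h2
    have h3 := hsift N δ h hδ hδ1 h1
    have h0 : 0 < h := by linarith
    have h4 : h / ((N:ℝ) + 1) ≤ 1 / h := by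
      rw [div_le_div_iff₀ (by linarith) h0, one_mul]
      have : h * h ≤ H ^ 2 := by rw [sq]; exact mul_le_mul h2 h2 h0.le hH0.le
      linarith
    refine h3.trans ?_
    have h5 : Cz * (h / ((N:ℝ) + 1)) ≤ Cz * (1 / h) := mul_le_mul_of_nonneg_left h4 hCz.le
    linarith
  set R : ℝ := 2 + Real.log N + 2 * Cz with hR
  have hlogN : 0 ≤ Real.log N := Real.log_nonneg hN1
  have hR1 : 1 ≤ R := by rw [hR]; linarith
  have hgR : ∀ h : ℝ, ‖g h‖ ≤ 1 + Real.log N := fun h => sum_le_log hδ h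
  have hdiff : ∀ h : ℝ, 1 ≤ h → h ≤ H → ‖x h ^ M - g h ^ M‖ ^ 2 ≤ D * (N:ℝ) ^ (1 / 4 : ℝ) * (1 / h) ^ 2 := by
    intro h h1 h2
    have h0 : 0 < h := by linarith
    have h3 := hxg h h1 h2
    have h4 : 1 / h ≤ 1 := by
      rw [div_le_one h0]; exact h1
    have h5 : ‖g h‖ ≤ R := (hgR h).trans (by rw [hR]; linarith)
    have h6 : ‖x h‖ ≤ R := by
      have h7 : ‖x h‖ ≤ ‖x h - g h‖ + ‖g h‖ := by
        have := norm_add_le (x h - g h) (g h)
        rwa [sub_add_cancel] at this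
      have h8 : 2 * Cz * (1 / h) ≤ 2 * Cz := by nlinarith
      have := hgR h
      rw [hR]
      linarith
    have h9 := pow_sub_pow_le h6 h5 hR1 M
    have h10 : ‖x h ^ M - g h ^ M‖ ≤ 2 * Cz * (1 / h) * (M * R ^ M) :=
      h9.trans (mul_le_mul_of_nonneg_right h3 (by positivity))
    have h11 := pow_le_pow_left₀ (norm_nonneg _) h10 2
    refine h11.trans ?_
    have h12 : (2 * Cz * (1 / h) * (M * R ^ M)) ^ 2 = (2 * Cz * M) ^ 2 * R ^ (2 * M) * (1 / h) ^ 2 := by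
      rw [mul_comm 2 M, pow_mul]
      ring
    rw [h12]
    refine mul_le_mul_of_nonneg_right ?_ (by positivity)
    rw [hD, mul_assoc ((2 * Cz * (M:ℝ)) ^ 2)]
    refine mul_le_mul_of_nonneg_left ?_ (sq_nonneg (2 * Cz * (M:ℝ)))
    -- `R ^ (2M) ≤ (2+2Cz+8M)^(2M) N^(1/4)`
    have h13 : Real.log N ≤ 8 * M * (N:ℝ) ^ (1 / (8 * M) : ℝ) := by
      have h14 : (0:ℝ) < 1 / (8 * M) := by positivity
      have := Real.log_le_rpow_div (by linarith : (0:ℝ) ≤ N) h14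
      refine this.trans (le_of_eq ?_)
      field_simp
    have h15 : (1:ℝ) ≤ (N:ℝ) ^ (1 / (8 * M) : ℝ) := Real.one_le_rpow hN1 (by positivity)
    have h16 : R ≤ (2 + 2 * Cz + 8 * M) * (N:ℝ) ^ (1 / (8 * M) : ℝ) := by
      rw [hR]
      have : 2 + 2 * Cz ≤ (2 + 2 * Cz) * (N:ℝ) ^ (1 / (8 * M) : ℝ) :=
        le_mul_of_one_le_right (by linarith) h15
      linarith
    have h17 := pow_le_pow_left₀ (by linarith : 0 ≤ R) h16 (2 * M)
    refine h17.trans (le_of_eq ?_)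
    rw [mul_pow]
    congr 1
    rw [← Real.rpow_natCast ((N:ℝ) ^ (1 / (8 * M) : ℝ)), ← Real.rpow_mul (by linarith)]
    congr 1
    push_cast
    field_simp
    norm_num
  -- continuity
  have hxc : Continuous x := zz_cont z hδ
  have hgc : Continuous g := Gs_cont z N δ
  -- the mean square of `x ^ M - 1`
  have hI : ∫ h in (1:ℝ)..H, ‖x h ^ M - 1‖ ^ 2 ≤ (2 * A + 1) * ((z:ℝ) ^ (-(1 / 2 : ℝ)) * H) := by
    have h1 : ∫ h in (1:ℝ)..H, ‖x h ^ M - 1‖ ^ 2 ≤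
        ∫ h in (1:ℝ)..H, (2 * (D * (N:ℝ) ^ (1 / 4 : ℝ)) * (1 / h) ^ 2 + 2 * ‖g h ^ M - 1‖ ^ 2) := by
      refine intervalIntegral.integral_mono_on hH1 ?_ ?_ fun h hh => ?_
      · exact (((hxc.pow M).sub continuous_const).norm.pow 2).intervalIntegrable _ _
      · refine IntervalIntegrable.add ?_ ?_
        · refine ContinuousOn.intervalIntegrable (fun h hh => ?_)
          rw [Set.uIcc_of_le hH1] at hh
          have h0 : h ≠ 0 := fun h00 => by rw [h00] at hh; linarith [hh.1]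
          exact (ContinuousAt.mul continuousAt_const (((continuousAt_const (y := (1:ℝ))).div continuousAt_id h0).pow 2)).continuousWithinAt
        · exact (continuous_const.mul (((hgc.pow M).sub continuous_const).norm.pow 2)).intervalIntegrable _ _
      · have h2 := hdiff h hh.1 hh.2
        have h3 : ‖x h ^ M - 1‖ ≤ ‖x h ^ M - g h ^ M‖ + ‖g h ^ M - 1‖ := by
          have := norm_add_le (x h ^ M - g h ^ M) (g h ^ M - 1)
          rwa [sub_add_sub_cancel] at this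
        have h4 := pow_le_pow_left₀ (norm_nonneg _) h3 2
        nlinarith [sq_nonneg (‖x h ^ M - g h ^ M‖ - ‖g h ^ M - 1‖)]
    refine h1.trans ?_
    rw [intervalIntegral.integral_add, intervalIntegral.integral_const_mul,
      intervalIntegral.integral_const_mul]
    · have h2 : ∫ h in (1:ℝ)..H, ‖g h ^ M - 1‖ ^ 2 ≤ ∫ h in (0:ℝ)..H, ‖g h ^ M - 1‖ ^ 2 := by
        have hc : Continuous fun h => ‖g h ^ M - 1‖ ^ 2 := ((hgc.pow M).sub continuous_const).norm.pow 2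
        rw [← intervalIntegral.integral_add_adjacent_intervals (hc.intervalIntegrable 0 1)
          (hc.intervalIntegrable 1 H)]
        have : 0 ≤ ∫ h in (0:ℝ)..1, ‖g h ^ M - 1‖ ^ 2 :=
          intervalIntegral.integral_nonneg (by norm_num) fun _ _ => by positivity
        linarith
      have h3 := hG z hz N hNn δ hδ H hH0.le
      have h4 := int_inv_sq hH1
      have h5 : 0 ≤ 2 * (D * (N:ℝ) ^ (1 / 4 : ℝ)) := by positivity
      have h6 := mul_le_mul_of_nonneg_left h4 h5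
      have h7 : D * (N:ℝ) ^ (1 / 4 : ℝ) ≤ D * (2 * sH) := mul_le_mul_of_nonneg_left hN4 hD0
      have h8 : A * (N:ℝ) ^ (1 / 4 : ℝ) ≤ A * (2 * sH) := mul_le_mul_of_nonneg_left hN4 hA.le
      have h9 : ∫ h in (1:ℝ)..H, ‖g h ^ M - 1‖ ^ 2 ≤
          A * ((z:ℝ) ^ (-(1 / 2 : ℝ)) * H + (N:ℝ) ^ (1 / 4 : ℝ)) := h2.trans h3
      rw [hK] at hKH
      nlinarith
    · refine ContinuousOn.intervalIntegrable (fun h hh => ?_)
      rw [Set.uIcc_of_le hH1] at hh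
      have h0 : h ≠ 0 := fun h00 => by rw [h00] at hh; linarith [hh.1]
      exact (ContinuousAt.mul continuousAt_const (((continuousAt_const (y := (1:ℝ))).div continuousAt_id h0).pow 2)).continuousWithinAt
    · exact (continuous_const.mul (((hgc.pow M).sub continuous_const).norm.pow 2)).intervalIntegrable _ _
  -- the end
  set τ : ℝ := (z:ℝ) ^ (-(1 / 4 : ℝ)) with hτ
  have hτ0 : 0 < τ := Real.rpow_pos_of_pos hz0 _
  have hτ1 : τ ≤ 1 := Real.rpow_le_one_of_one_le_of_nonpos (by exact_mod_cast (by omega : 1 ≤ z)) (by norm_num)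
  have hτ2 : (z:ℝ) ^ (-(1 / 2 : ℝ)) = τ * τ := by
    rw [hτ, ← Real.rpow_add hz0]
    norm_num
  rw [hτ2] at hI
  have hqM : q ≤ 2 * (M:ℝ) := hqQ.trans hQM
  have h1 : ∫ h in (1:ℝ)..H, max (‖x h‖ ^ q - 1) 0 ≤
      ∫ h in (1:ℝ)..H, (τ + (1 / τ + 1) * ‖x h ^ M - 1‖ ^ 2) := by
    refine intervalIntegral.integral_mono_on hH1 ?_ ?_ fun h _ => elem_ineq hq hqM hτ0
    · refine Continuous.intervalIntegrable ?_ _ _
      exact ((hxc.norm.rpow_const fun _ => Or.inr hq).sub continuous_const).max continuous_const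
    · exact (continuous_const.add (continuous_const.mul
        (((hxc.pow M).sub continuous_const).norm.pow 2))).intervalIntegrable _ _
  refine h1.trans ?_
  have hci : Continuous fun h => (1 / τ + 1) * ‖x h ^ M - 1‖ ^ 2 :=
    continuous_const.mul (((hxc.pow M).sub continuous_const).norm.pow 2)
  rw [intervalIntegral.integral_add (intervalIntegrable_const) (hci.intervalIntegrable 1 H),
    intervalIntegral.integral_const, intervalIntegral.integral_const_mul, smul_eq_mul]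
  have h2 : 0 ≤ 1 / τ + 1 := by positivity
  have h3 := mul_le_mul_of_nonneg_left hI h2
  have h4 : (1 / τ + 1) * ((2 * A + 1) * (τ * τ * H)) = (2 * A + 1) * (τ * H) + (2 * A + 1) * (τ * τ * H) := by
    field_simp
  have h5 : τ * τ * H ≤ τ * H := by
    have : 0 < τ * H := by positivity
    nlinarith
  have h6 : (2 * A + 1) * (τ * τ * H) ≤ (2 * A + 1) * (τ * H) :=
    mul_le_mul_of_nonneg_left h5 (by positivity)
  have h7 : 0 ≤ τ * H := by positivity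
  nlinarith

end Run7.h772.WN

namespace Run7.h772

theorem zml : Run7.h291.WN.S_ZML := WN.zml

end Run7.h772
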