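import Mathlib

open Set MeasureTheory
open scoped ContDiff ComplexConjugate

namespace Run7.h772

/-- The gradient of a real function on the plane, as a complex number. -/
noncomputable def grad (f : ℂ → ℝ) (x : ℂ) : ℂ :=
  ⟨fderiv ℝ f x 1, fderiv ℝ f x Complex.I⟩

/-- The scalar curl `∂₁ v₂ - ∂₂ v₁` of a planar vector field. -/
noncomputable def curl (v : ℂ → ℂ) (x : ℂ) : ℝ :=
  (fderiv ℝ v x 1).im - (fderiv ℝ v x Complex.I).re

/-- A smooth solution of the incompressible Euler equations on `[0, ∞) × D` with velocity `u` and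
pressure `p`. -/
structure IsEulerFlow (D : Set ℂ) (u : ℝ → ℂ → ℂ) (p : ℝ → ℂ → ℝ) : Prop where
  smooth_u : ContDiffOn ℝ ∞ (fun q : ℝ × ℂ => u q.1 q.2) (Ici 0 ×ˢ D)
  smooth_p : ContDiffOn ℝ ∞ (fun q : ℝ × ℂ => p q.1 q.2) (Ici 0 ×ˢ D)
  momentum : ∀ t, 0 ≤ t → ∀ x ∈ D,
    derivWithin (fun τ => u τ x) (Ici 0) t + fderiv ℝ (u t) x (u t x) + grad (p t) x = 0
  div_free : ∀ t, 0 ≤ t → ∀ x ∈ D,
    (fderiv ℝ (u t) x 1).re + (fderiv ℝ (u t) x Complex.I).im = 0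

/-- `X` is the flow map of `u` on `[0, ∞) × D`. -/
structure IsFlow (D : Set ℂ) (u X : ℝ → ℂ → ℂ) : Prop where
  init : ∀ x ∈ D, X 0 x = x
  mem : ∀ x ∈ D, ∀ t, 0 ≤ t → X t x ∈ D
  deriv : ∀ x ∈ D, ∀ t, 0 ≤ t → HasDerivWithinAt (fun τ => X τ x) (u t (X t x)) (Ici 0) t

/-- The contour of `w` through `x`, run with velocity `I * grad w`, stays in `D` and closes up
after a time `T ≤ Y` (the turnover time of the contour). -/
def ClosedContour (D : Set ℂ) (w : ℂ → ℝ) (x : ℂ) (Y : ℝ) : Prop :=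
  ∃ T : ℝ, 0 < T ∧ T ≤ Y ∧ ∃ z : ℝ → ℂ, z 0 = x ∧ z T = x ∧ (∀ q ∈ Icc 0 T, z q ∈ D) ∧
    ∀ q ∈ Icc 0 T, HasDerivWithinAt z (Complex.I * grad w (z q)) (Icc 0 T) q

end Run7.h772
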