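import Mathlib

open Set Metric
open scoped NNReal Topology

namespace Run7.h772

variable {E : Type*} [NormedAddCommGroup E] [NormedSpace ℝ E]

-- one short step of a linear equation with continuous coefficients
theorem linODE_step [CompleteSpace E] {A : ℝ → E →L[ℝ] E} {a b K : ℝ} (hab : a ≤ b)
    (hA : ContinuousOn A (Icc a b)) (hK : 0 ≤ K) (hAK : ∀ t ∈ Icc a b, ‖A t‖ ≤ K)
    (hs : K * (b - a) ≤ 1 / 2) (x0 : E) :
    ∃ g : ℝ → E, g a = x0 ∧ ∀ t ∈ Icc a b, HasDerivWithinAt g (A t (g t)) (Icc a b) t := by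
  have ha : a ∈ Icc a b := left_mem_Icc.mpr hab
  have hpl : IsPicardLindelof (fun t x => A t x) (⟨a, ha⟩ : Icc a b) x0 (‖x0‖₊ + 1) 0
      (K.toNNReal * (2 * ‖x0‖₊ + 1)) K.toNNReal := by
    refine ⟨?_, ?_, ?_, ?_⟩
    · intro t ht
      have : LipschitzWith K.toNNReal (A t) := by
        refine (A t).lipschitz.weaken ?_
        rw [← NNReal.coe_le_coe]
        simpa [Real.coe_toNNReal _ hK] using hAK t ht
      exact this.lipschitzOnWith
    · intro x _
      exact hA.clm_apply continuousOn_const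
    · intro t ht x hx
      have hx' : ‖x‖ ≤ 2 * ‖x0‖ + 1 := by
        have h1 : ‖x - x0‖ ≤ ‖x0‖ + 1 := by
          simpa [dist_eq_norm] using hx
        calc ‖x‖ = ‖(x - x0) + x0‖ := by simp
          _ ≤ ‖x - x0‖ + ‖x0‖ := norm_add_le _ _
          _ ≤ _ := by linarith
      calc ‖A t x‖ ≤ ‖A t‖ * ‖x‖ := (A t).le_opNorm x
        _ ≤ K * (2 * ‖x0‖ + 1) := by
          have := hAK t ht
          gcongr
        _ = _ := by simp [Real.coe_toNNReal _ hK]
    · have h1 : max (b - a) (a - a) = b - a := by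
        rw [sub_self]; exact max_eq_left (by linarith)
      simp only [h1]
      push_cast
      rw [Real.coe_toNNReal _ hK]
      have h0 : 0 ≤ ‖x0‖ := norm_nonneg _
      have : K * (2 * ‖x0‖ + 1) * (b - a) = (K * (b - a)) * (2 * ‖x0‖ + 1) := by ring
      rw [this]
      have : (K * (b - a)) * (2 * ‖x0‖ + 1) ≤ 1 / 2 * (2 * ‖x0‖ + 1) := by gcongr
      linarith
  obtain ⟨g, hg0, hg⟩ := hpl.exists_eq_forall_mem_Icc_hasDerivWithinAt₀
  exact ⟨g, hg0, hg⟩

-- gluing derivatives of a piecewise defined function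
theorem glue_deriv {g1 g2 : ℝ → E} {d : ℝ → E} {a b c : ℝ} (hab : a ≤ b) (hbc : b ≤ c)
    (h12 : g1 b = g2 b)
    (h1 : ∀ t ∈ Icc a b, HasDerivWithinAt g1 (d t) (Icc a b) t)
    (h2 : ∀ t ∈ Icc b c, HasDerivWithinAt g2 (d t) (Icc b c) t) :
    ∀ t ∈ Icc a c, HasDerivWithinAt (fun t => if t ≤ b then g1 t else g2 t) (d t) (Icc a c) t := by
  intro t ht
  have hU : Icc a c = Icc a b ∪ Icc b c := (Icc_union_Icc_eq_Icc hab hbc).symm
  have e1 : ∀ x ∈ Icc a b, (fun t => if t ≤ b then g1 t else g2 t) x = g1 x := by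
    intro x hx; simp [hx.2]
  have e2 : ∀ x ∈ Icc b c, (fun t => if t ≤ b then g1 t else g2 t) x = g2 x := by
    intro x hx
    by_cases hxb : x ≤ b
    · have : x = b := le_antisymm hxb hx.1
      subst this; simp [h12]
    · simp [hxb]
  rw [hU]
  rcases lt_trichotomy t b with h | h | h
  · -- left part
    have ht1 : t ∈ Icc a b := ⟨ht.1, h.le⟩
    have := (h1 t ht1).congr (fun x hx => e1 x hx) (e1 t ht1)
    refine this.union ?_
    have hn : t ∉ closure (Icc b c) := by
      rw [isClosed_Icc.closure_eq]; exact fun hh => absurd hh.1 (not_le.mpr h)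
    exact HasFDerivWithinAt.of_notMem_closure hn
  · subst h
    have ht1 : t ∈ Icc a t := ⟨ht.1, le_rfl⟩
    have ht2 : t ∈ Icc t c := ⟨le_rfl, ht.2⟩
    exact ((h1 t ht1).congr (fun x hx => e1 x hx) (e1 t ht1)).union
      ((h2 t ht2).congr (fun x hx => e2 x hx) (e2 t ht2))
  · have ht2 : t ∈ Icc b c := ⟨h.le, ht.2⟩
    have := (h2 t ht2).congr (fun x hx => e2 x hx) (e2 t ht2)
    rw [union_comm]
    refine this.union ?_
    have hn : t ∉ closure (Icc a b) := by
      rw [isClosed_Icc.closure_eq]; exact fun hh => absurd hh.2 (not_le.mpr h)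
    exact HasFDerivWithinAt.of_notMem_closure hn


-- a linear equation with continuous coefficients has solutions on every compact interval
theorem linODE [CompleteSpace E] {A : ℝ → E →L[ℝ] E} {T K : ℝ} (hT : 0 ≤ T)
    (hA : ContinuousOn A (Icc 0 T)) (hK : 0 ≤ K) (hAK : ∀ t ∈ Icc 0 T, ‖A t‖ ≤ K) (x0 : E) :
    ∃ g : ℝ → E, g 0 = x0 ∧ ∀ t ∈ Icc 0 T, HasDerivWithinAt g (A t (g t)) (Icc 0 T) t := by
  obtain ⟨N, hN⟩ : ∃ N : ℕ, 2 * K * T ≤ N := exists_nat_ge _
  have hN1 : (0 : ℝ) < (N : ℝ) + 1 := by positivity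
  set h : ℝ := T / (N + 1) with hh
  have hh0 : 0 ≤ h := by positivity
  have hhK : K * h ≤ 1 / 2 := by
    rw [hh, mul_div_assoc', div_le_iff₀ hN1]
    linarith
  have hNT : ((N : ℝ) + 1) * h = T := by rw [hh]; field_simp
  have key : ∀ n : ℕ, n ≤ N + 1 → ∃ g : ℝ → E, g 0 = x0 ∧
      ∀ t ∈ Icc 0 (n * h), HasDerivWithinAt g (A t (g t)) (Icc 0 (n * h)) t := by
    intro n
    induction n with
    | zero =>
      intro _
      refine ⟨fun _ => x0, rfl, ?_⟩
      intro t ht
      have h0 : (Icc 0 (((0 : ℕ) : ℝ) * h)) = {0} := by simp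
      rw [h0] at ht ⊢
      have : t = 0 := by simpa using ht
      subst this
      exact HasFDerivWithinAt.of_subsingleton (by simp)
    | succ n ih =>
      intro hn
      obtain ⟨g1, hg10, hg1⟩ := ih (by omega)
      have hle : (n : ℝ) * h ≤ ((n + 1 : ℕ) : ℝ) * h := by
        push_cast; nlinarith
      have hnT : ((n + 1 : ℕ) : ℝ) * h ≤ T := by
        rw [← hNT]
        have : ((n + 1 : ℕ) : ℝ) ≤ (N : ℝ) + 1 := by exact_mod_cast hn
        gcongr
      have hn0 : 0 ≤ (n : ℝ) * h := by positivity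
      have hsub : Icc ((n : ℝ) * h) (((n + 1 : ℕ) : ℝ) * h) ⊆ Icc 0 T :=
        Icc_subset_Icc hn0 hnT
      obtain ⟨g2, hg20, hg2⟩ := linODE_step hle (hA.mono hsub) hK (fun t ht => hAK t (hsub ht))
        (by push_cast; nlinarith) (g1 (n * h))
      refine ⟨fun t => if t ≤ n * h then g1 t else g2 t, by simp [hn0, hg10], ?_⟩
      have := glue_deriv (g1 := g1) (g2 := g2)
        (d := fun t => A t (if t ≤ n * h then g1 t else g2 t)) hn0 hle hg20.symm
        (fun t ht => by simpa [ht.2] using hg1 t ht)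
        (fun t ht => by
          by_cases htb : t ≤ n * h
          · have htt : t = n * h := le_antisymm htb ht.1
            have := hg2 t ht
            rw [htt] at this ⊢
            simpa [hg20] using this
          · simpa [htb] using hg2 t ht)
      exact this
  obtain ⟨g, hg0, hg⟩ := key (N + 1) le_rfl
  refine ⟨g, hg0, ?_⟩
  have : ((N + 1 : ℕ) : ℝ) * h = T := by push_cast; exact hNT
  rwa [this] at hg

end Run7.h772
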