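import Mathlib
import Pool.Agent.Run7.h772.LinODE

open Set Metric Filter
open scoped NNReal Topology

namespace Run7.h772

-- continuous induction with a strict inequality
theorem cont_ind {g : ℝ → ℝ} {T r : ℝ} (hg : ContinuousOn g (Icc 0 T))
    (hstep : ∀ t ∈ Icc 0 T, (∀ τ ∈ Ico 0 t, g τ < r) → g t < r) :
    ∀ t ∈ Icc 0 T, g t < r := by
  by_contra hcon
  push Not at hcon
  obtain ⟨t0, ht0, hgt0⟩ := hcon
  set S : Set ℝ := Icc 0 T ∩ g ⁻¹' (Ici r) with hS
  have hclosed : IsClosed S := hg.preimage_isClosed_of_isClosed isClosed_Icc isClosed_Ici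
  have hne : S.Nonempty := ⟨t0, ht0, hgt0⟩
  have hbdd : BddBelow S := ⟨0, fun t ht => ht.1.1⟩
  have hm : sInf S ∈ S := hclosed.csInf_mem hne hbdd
  have := hstep (sInf S) hm.1 (by
    intro τ hτ
    by_contra hcon
    push Not at hcon
    have : τ ∈ S := ⟨⟨hτ.1, hτ.2.le.trans hm.1.2⟩, hcon⟩
    exact absurd (csInf_le hbdd this) (not_le.mpr hτ.2))
  exact absurd hm.2 (not_le.mpr this)

variable {E : Type*} [NormedAddCommGroup E] [NormedSpace ℝ E]

/-- The hypotheses on a time dependent velocity field and its flow map on an invariant set. -/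
structure FlowData (D : Set E) (v : ℝ → E → E) (X : ℝ → E → E) (K : ℝ → ℝ) : Prop where
  isOpen : IsOpen D
  diff : ∀ t, 0 ≤ t → ∀ x ∈ D, DifferentiableAt ℝ (v t) x
  cont : ContinuousOn (fun q : ℝ × E => fderiv ℝ (v q.1) q.2) (Ici 0 ×ˢ D)
  nonneg : ∀ t, 0 ≤ K t
  mono : Monotone K
  bound' : ∀ t, 0 ≤ t → ∀ x ∈ D, ‖fderiv ℝ (v t) x‖ ≤ K t
  init : ∀ x ∈ D, X 0 x = x
  mem : ∀ x ∈ D, ∀ t, 0 ≤ t → X t x ∈ D
  deriv : ∀ x ∈ D, ∀ t, 0 ≤ t → HasDerivWithinAt (fun τ => X τ x) (v t (X t x)) (Ici 0) t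

namespace FlowData

variable {D : Set E} {v X : ℝ → E → E} {K : ℝ → ℝ}

theorem bound (h : FlowData D v X K) {t T : ℝ} (ht : 0 ≤ t) (htT : t ≤ T) {x : E} (hx : x ∈ D) :
    ‖fderiv ℝ (v t) x‖ ≤ K T :=
  (h.bound' t ht x hx).trans (h.mono htT)

theorem contOn (h : FlowData D v X K) {x : E} (hx : x ∈ D) :
    ContinuousOn (fun τ => X τ x) (Ici 0) :=
  fun t ht => (h.deriv x hx t ht).continuousWithinAt

theorem tube [ProperSpace E] (h : FlowData D v X K) {x : E} (hx : x ∈ D) (T : ℝ) :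
    ∃ r > 0, ∀ t ∈ Icc 0 T, closedBall (X t x) r ⊆ D := by
  have hc : IsCompact ((fun τ => X τ x) '' Icc 0 T) :=
    isCompact_Icc.image_of_continuousOn ((h.contOn hx).mono Icc_subset_Ici_self)
  have hsub : (fun τ => X τ x) '' Icc 0 T ⊆ D := by
    rintro _ ⟨t, ht, rfl⟩
    exact h.mem x hx t ht.1
  obtain ⟨r, hr, hrD⟩ := hc.exists_cthickening_subset_open h.isOpen hsub
  refine ⟨r, hr, fun t ht => ?_⟩
  exact (closedBall_subset_cthickening (mem_image_of_mem _ ht) r).trans hrD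

theorem stay (h : FlowData D v X K) {x y : E} (hx : x ∈ D) (hy : y ∈ D) {T r : ℝ}
    (hr : ∀ t ∈ Icc 0 T, closedBall (X t x) r ⊆ D) (hxy : ‖y - x‖ * Real.exp (K T * T) < r) :
    ∀ t ∈ Icc 0 T, ‖X t y - X t x‖ ≤ ‖y - x‖ * Real.exp (K T * t) := by
  have hcx := (h.contOn hx).mono (Icc_subset_Ici_self : Icc (0:ℝ) T ⊆ Ici 0)
  have hcy := (h.contOn hy).mono (Icc_subset_Ici_self : Icc (0:ℝ) T ⊆ Ici 0)
  have hmain : ∀ t ∈ Icc 0 T, (∀ τ ∈ Ico 0 t, ‖X τ y - X τ x‖ < r) →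
      ‖X t y - X t x‖ ≤ ‖y - x‖ * Real.exp (K T * t) := by
    intro t ht hτ
    have hLip : ∀ s ∈ Ico 0 t, LipschitzOnWith (K T).toNNReal (v s) (closedBall (X s x) r) := by
      intro s hs
      have hsT : s ∈ Icc 0 T := ⟨hs.1, hs.2.le.trans ht.2⟩
      refine (convex_closedBall (X s x) r).lipschitzOnWith_of_nnnorm_fderiv_le (𝕜 := ℝ)
        (fun z hz => h.diff s hs.1 z (hr s hsT hz)) (fun z hz => ?_)
      rw [← NNReal.coe_le_coe, Real.coe_toNNReal _ (h.nonneg T)]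
      exact h.bound hs.1 hsT.2 (hr s hsT hz)
    have hr0 : 0 ≤ r := by
      refine le_trans ?_ hxy.le
      positivity
    have := dist_le_of_trajectories_ODE_of_mem (v := v) (s := fun s => closedBall (X s x) r)
      (K := (K T).toNNReal) (f := fun τ => X τ y) (g := fun τ => X τ x) (a := 0) (b := t)
      (δ := ‖y - x‖) hLip (hcy.mono (Icc_subset_Icc_right ht.2))
      (fun s hs => (h.deriv y hy s hs.1).mono (Ici_subset_Ici.mpr hs.1))
      (fun s hs => by
        have := (hτ s hs).le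
        simpa [dist_eq_norm] using this)
      (hcx.mono (Icc_subset_Icc_right ht.2))
      (fun s hs => (h.deriv x hx s hs.1).mono (Ici_subset_Ici.mpr hs.1))
      (fun s _ => mem_closedBall_self hr0)
      (by simp [h.init x hx, h.init y hy, dist_eq_norm]) t ⟨ht.1, le_rfl⟩
    simpa [dist_eq_norm, Real.coe_toNNReal _ (h.nonneg T)] using this
  have hlt : ∀ t ∈ Icc 0 T, ‖X t y - X t x‖ < r := by
    refine cont_ind (hcy.sub hcx).norm ?_
    intro t ht hτ
    refine lt_of_le_of_lt (hmain t ht hτ) (lt_of_le_of_lt ?_ hxy)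
    have := h.nonneg T
    have := ht.2
    gcongr
  intro t ht
  exact hmain t ht (fun τ hτ => hlt τ ⟨hτ.1, hτ.2.le.trans ht.2⟩)


-- uniform continuity of the velocity gradient near a compact piece of trajectory
theorem modulus [ProperSpace E] (h : FlowData D v X K) {x : E} (hx : x ∈ D) {T r : ℝ}
    (hr0 : 0 < r) (hr : ∀ t ∈ Icc 0 T, closedBall (X t x) r ⊆ D) {ε : ℝ} (hε : 0 < ε) :
    ∃ ρ > 0, ρ ≤ r ∧ ∀ t ∈ Icc 0 T, ∀ w ∈ closedBall (X t x) ρ,
      ‖fderiv ℝ (v t) w - fderiv ℝ (v t) (X t x)‖ ≤ ε := by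
  set Ψ : ℝ × E → (E →L[ℝ] E) := fun q => fderiv ℝ (v q.1) (X q.1 x + q.2) with hΨ
  have hcX : ContinuousOn (fun τ => X τ x) (Icc 0 T) :=
    (h.contOn hx).mono (Icc_subset_Ici_self : Icc (0:ℝ) T ⊆ Ici 0)
  have hΨc : ContinuousOn Ψ (Icc 0 T ×ˢ closedBall (0 : E) r) := by
    have h1 : ContinuousOn (fun q : ℝ × E => (q.1, X q.1 x + q.2))
        (Icc 0 T ×ˢ closedBall (0 : E) r) := by
      refine continuousOn_fst.prodMk (ContinuousOn.add ?_ continuousOn_snd)
      exact hcX.comp continuousOn_fst (fun q hq => hq.1)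
    refine h.cont.comp h1 ?_
    rintro ⟨t, w⟩ ⟨ht, hw⟩
    refine ⟨ht.1, hr t ht ?_⟩
    simpa [mem_closedBall, dist_eq_norm] using hw
  have hcomp : IsCompact (Icc 0 T ×ˢ closedBall (0 : E) r) :=
    isCompact_Icc.prod (isCompact_closedBall 0 r)
  have huc := hcomp.uniformContinuousOn_of_continuous hΨc
  rw [Metric.uniformContinuousOn_iff] at huc
  obtain ⟨δ, hδ, hδ'⟩ := huc ε hε
  refine ⟨min (δ / 2) r, by positivity, min_le_right _ _, ?_⟩
  intro t ht w hw
  have hw' : ‖w - X t x‖ ≤ min (δ / 2) r := by simpa [mem_closedBall, dist_eq_norm] using hw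
  have h1 : (t, w - X t x) ∈ Icc 0 T ×ˢ closedBall (0 : E) r := by
    refine ⟨ht, ?_⟩
    simpa using hw'.trans (min_le_right _ _)
  have h2 : (t, (0 : E)) ∈ Icc 0 T ×ˢ closedBall (0 : E) r := by
    refine ⟨ht, ?_⟩
    simpa using hr0.le
  have h3 : dist (t, w - X t x) (t, (0 : E)) < δ := by
    rw [Prod.dist_eq]
    simp only [dist_self, dist_zero_right]
    have : ‖w - X t x‖ ≤ δ / 2 := hw'.trans (min_le_left _ _)
    exact max_lt hδ (by linarith)
  have := hδ' _ h1 _ h2 h3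
  simp only [hΨ, add_sub_cancel, add_zero, dist_eq_norm] at this
  exact this.le

theorem flow_deriv [ProperSpace E] [CompleteSpace E] (h : FlowData D v X K) {x : E}
    (hx : x ∈ D) {T : ℝ} (hT : 0 ≤ T) :
    ∃ G : ℝ → E →L[ℝ] E, G 0 = ContinuousLinearMap.id ℝ E ∧
      (∀ t ∈ Icc 0 T, HasDerivWithinAt G ((fderiv ℝ (v t) (X t x)).comp (G t)) (Icc 0 T) t) ∧
      ∀ t ∈ Icc 0 T, HasFDerivAt (X t) (G t) x := by
  have hK := h.nonneg T
  have hcX : ContinuousOn (fun τ => X τ x) (Icc 0 T) :=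
    (h.contOn hx).mono (Icc_subset_Ici_self : Icc (0:ℝ) T ⊆ Ici 0)
  have hA0 : ContinuousOn (fun t => fderiv ℝ (v t) (X t x)) (Icc 0 T) :=
    h.cont.comp (f := fun t => (t, X t x)) (continuousOn_id.prodMk hcX)
      (fun t ht => ⟨ht.1, h.mem x hx t ht.1⟩)
  obtain ⟨G, hG0, hG⟩ := linODE (E := E →L[ℝ] E)
    (A := fun t => ContinuousLinearMap.compL ℝ E E E (fderiv ℝ (v t) (X t x))) (K := K T) hT
    ((ContinuousLinearMap.compL ℝ E E E).continuous.comp_continuousOn hA0) hK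
    (fun t ht => by
      refine ContinuousLinearMap.opNorm_le_bound _ hK (fun B => ?_)
      simp only [ContinuousLinearMap.compL_apply]
      refine (ContinuousLinearMap.opNorm_comp_le _ _).trans ?_
      have := h.bound ht.1 ht.2 (h.mem x hx t ht.1)
      gcongr) (ContinuousLinearMap.id ℝ E)
  simp only [ContinuousLinearMap.compL_apply] at hG
  refine ⟨G, hG0, hG, ?_⟩
  obtain ⟨r, hr0, hr⟩ := h.tube hx T
  intro t ht
  rw [hasFDerivAt_iff_isLittleO, Asymptotics.isLittleO_iff]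
  intro c hc
  -- choose the modulus
  set B : ℝ := gronwallBound 0 (K T) (Real.exp (K T * T)) T with hB
  have hB0 : 0 ≤ B := by
    have := gronwallBound_mono (δ := 0) (ε := Real.exp (K T * T)) (K := K T) le_rfl
      (Real.exp_pos _).le hK hT
    simpa [gronwallBound_x0] using this
  obtain ⟨ρ, hρ, hρr, hmod⟩ := h.modulus hx hr0 hr (ε := c / (B + 1)) (by positivity)
  have hD : D ∈ 𝓝 x := h.isOpen.mem_nhds hx
  have hsmall : ∀ᶠ y in 𝓝 x, ‖y - x‖ * Real.exp (K T * T) < ρ := by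
    have : ContinuousAt (fun y => ‖y - x‖ * Real.exp (K T * T)) x := by fun_prop
    have h0 : (fun y => ‖y - x‖ * Real.exp (K T * T)) x < ρ := by simpa using hρ
    exact this.eventually_lt continuousAt_const h0
  filter_upwards [hD, hsmall] with y hy hys
  have hst := h.stay hx hy (T := T) (r := ρ)
    (fun s hs => (closedBall_subset_closedBall hρr).trans (hr s hs)) hys
  have hstT : ∀ s ∈ Icc 0 T, ‖X s y - X s x‖ ≤ ‖y - x‖ * Real.exp (K T * T) := by
    intro s hs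
    refine (hst s hs).trans ?_
    have := hs.2
    gcongr
  have hcY : ContinuousOn (fun τ => X τ y) (Icc 0 T) :=
    (h.contOn hy).mono (Icc_subset_Ici_self : Icc (0:ℝ) T ⊆ Ici 0)
  have hGc : ContinuousOn G (Icc 0 T) := fun s hs => (hG s hs).continuousWithinAt
  set ε1 : ℝ := c / (B + 1) with hε1
  have hε1' : 0 < ε1 := by positivity
  set e : ℝ → E := fun s => X s y - X s x - G s (y - x) with he
  set e' : ℝ → E := fun s => v s (X s y) - v s (X s x)
    - ((fderiv ℝ (v s) (X s x)).comp (G s)) (y - x) with he'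
  have hder : ∀ s ∈ Ico 0 T, HasDerivWithinAt e (e' s) (Ici s) s := by
    intro s hs
    have h1 := (h.deriv y hy s hs.1).mono (Ici_subset_Ici.mpr hs.1)
    have h2 := (h.deriv x hx s hs.1).mono (Ici_subset_Ici.mpr hs.1)
    have h3 : HasDerivWithinAt G ((fderiv ℝ (v s) (X s x)).comp (G s)) (Ici s) s :=
      (hG s ⟨hs.1, hs.2.le⟩).mono_of_mem_nhdsWithin
        (Filter.mem_of_superset (inter_mem self_mem_nhdsWithin
          (mem_nhdsWithin_of_mem_nhds (Iic_mem_nhds hs.2)))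
          (fun z hz => ⟨hs.1.trans hz.1, hz.2⟩))
    have h4 : HasDerivWithinAt (fun s => G s (y - x))
        (((fderiv ℝ (v s) (X s x)).comp (G s)) (y - x)) (Ici s) s :=
      h3.clm_apply (hasDerivWithinAt_const _ _ _) |>.congr_deriv (by simp)
    exact (h1.sub h2).sub h4
  have hbound : ∀ s ∈ Ico 0 T, ‖e' s‖ ≤ K T * ‖e s‖ + ε1 * Real.exp (K T * T) * ‖y - x‖ := by
    intro s hs
    have hsT : s ∈ Icc 0 T := ⟨hs.1, hs.2.le⟩
    have hball : closedBall (X s x) ρ ⊆ D := (closedBall_subset_closedBall hρr).trans (hr s hsT)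
    have hyb : X s y ∈ closedBall (X s x) ρ := by
      rw [mem_closedBall, dist_eq_norm]
      exact (hstT s hsT).trans hys.le
    have hrem : ‖v s (X s y) - v s (X s x) - fderiv ℝ (v s) (X s x) (X s y - X s x)‖
        ≤ ε1 * ‖X s y - X s x‖ := by
      refine (convex_closedBall (X s x) ρ).norm_image_sub_le_of_norm_hasFDerivWithin_le'
        (f' := fun z => fderiv ℝ (v s) z)
        (fun z hz => (h.diff s hs.1 z (hball hz)).hasFDerivAt.hasFDerivWithinAt)
        (fun z hz => hmod s hsT z hz) (mem_closedBall_self hρ.le) hyb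
    have hsplit : e' s = (v s (X s y) - v s (X s x) - fderiv ℝ (v s) (X s x) (X s y - X s x))
        + fderiv ℝ (v s) (X s x) (e s) := by
      simp only [he', he, ContinuousLinearMap.comp_apply, map_sub]
      abel
    rw [hsplit]
    refine (norm_add_le _ _).trans ?_
    have h5 : ‖fderiv ℝ (v s) (X s x) (e s)‖ ≤ K T * ‖e s‖ := by
      refine (ContinuousLinearMap.le_opNorm _ _).trans ?_
      have := h.bound hs.1 hs.2.le (h.mem x hx s hs.1)
      gcongr
    have h6 : ε1 * ‖X s y - X s x‖ ≤ ε1 * (‖y - x‖ * Real.exp (K T * T)) := by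
      have := hstT s hsT
      gcongr
    nlinarith [hrem]
  have hec : ContinuousOn e (Icc 0 T) := by
    refine (hcY.sub hcX).sub ?_
    exact hGc.clm_apply continuousOn_const
  have he0 : ‖e 0‖ ≤ 0 := by
    simp [he, h.init x hx, h.init y hy, hG0]
  have hgron := norm_le_gronwallBound_of_norm_deriv_right_le hec hder he0 hbound t ht
  have hle : gronwallBound 0 (K T) (ε1 * Real.exp (K T * T) * ‖y - x‖) (t - 0) ≤
      c * ‖y - x‖ := by
    have hm := gronwallBound_mono (δ := 0) (ε := ε1 * Real.exp (K T * T) * ‖y - x‖) (K := K T) le_rfl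
      (by positivity) hK (show t - 0 ≤ T by simpa using ht.2)
    refine hm.trans ?_
    have hlin : gronwallBound 0 (K T) (ε1 * Real.exp (K T * T) * ‖y - x‖) T = ε1 * ‖y - x‖ * B := by
      rw [hB]
      unfold gronwallBound
      split_ifs with hk
      · ring
      · ring
    rw [hlin]
    have : ε1 * B ≤ c := by
      rw [hε1, div_mul_eq_mul_div, div_le_iff₀ (by positivity)]
      nlinarith
    calc ε1 * ‖y - x‖ * B = (ε1 * B) * ‖y - x‖ := by ring
      _ ≤ c * ‖y - x‖ := by gcongr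
  exact hgron.trans hle

theorem hasFDerivAt [ProperSpace E] [CompleteSpace E] (h : FlowData D v X K) {x : E}
    (hx : x ∈ D) {t : ℝ} (ht : 0 ≤ t) : HasFDerivAt (X t) (fderiv ℝ (X t) x) x := by
  obtain ⟨G, _, _, hG⟩ := h.flow_deriv hx ht
  exact (hG t ⟨ht, le_rfl⟩).differentiableAt.hasFDerivAt

theorem fderiv_zero (h : FlowData D v X K) {x : E} (hx : x ∈ D) :
    fderiv ℝ (X 0) x = ContinuousLinearMap.id ℝ E := by
  have : X 0 =ᶠ[𝓝 x] id := by
    filter_upwards [h.isOpen.mem_nhds hx] with y hy using h.init y hy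
  rw [this.fderiv_eq]
  exact fderiv_id

theorem hasDerivWithinAt_fderiv [ProperSpace E] [CompleteSpace E] (h : FlowData D v X K) {x : E}
    (hx : x ∈ D) {t : ℝ} (ht : 0 ≤ t) :
    HasDerivWithinAt (fun τ => fderiv ℝ (X τ) x)
      ((fderiv ℝ (v t) (X t x)).comp (fderiv ℝ (X t) x)) (Ici 0) t := by
  obtain ⟨G, _, hG1, hG⟩ := h.flow_deriv hx (T := t + 1) (by linarith)
  have ht1 : t ∈ Icc 0 (t + 1) := ⟨ht, by linarith⟩
  have h1 := hG1 t ht1
  rw [← (hG t ht1).fderiv] at h1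
  have h2 : HasDerivWithinAt (fun τ => fderiv ℝ (X τ) x)
      ((fderiv ℝ (v t) (X t x)).comp (fderiv ℝ (X t) x)) (Icc 0 (t + 1)) t :=
    h1.congr (fun s hs => (hG s hs).fderiv) (hG t ht1).fderiv
  refine h2.mono_of_mem_nhdsWithin ?_
  have : Icc 0 (t + 1) = Ici 0 ∩ Iic (t + 1) := rfl
  rw [this]
  exact inter_mem self_mem_nhdsWithin (mem_nhdsWithin_of_mem_nhds (Iic_mem_nhds (by linarith)))

theorem continuousOn_flow [ProperSpace E] (h : FlowData D v X K) :
    ContinuousOn (fun q : ℝ × E => X q.1 q.2) (Ici 0 ×ˢ D) := by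
  rintro ⟨t, x⟩ ⟨ht, hx⟩
  simp only [mem_Ici] at ht
  have hK := h.nonneg (t + 1)
  rw [Metric.continuousWithinAt_iff]
  intro ε hε
  obtain ⟨r, hr0, hr⟩ := h.tube hx (t + 1)
  have hcx := h.contOn hx t ht
  rw [Metric.continuousWithinAt_iff] at hcx
  obtain ⟨δ1, hδ1, hδ1'⟩ := hcx (ε / 2) (by positivity)
  have hexp : 0 < Real.exp (K (t + 1) * (t + 1)) := Real.exp_pos _
  set δ2 : ℝ := min r (ε / 2) / Real.exp (K (t + 1) * (t + 1)) with hδ2
  have hδ2' : 0 < δ2 := by positivity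
  refine ⟨min (min δ1 1) δ2, by positivity, ?_⟩
  rintro ⟨τ, y⟩ ⟨hτ, hy⟩ hd
  simp only [mem_Ici] at hτ
  rw [Prod.dist_eq, max_lt_iff] at hd
  obtain ⟨hd1, hd2⟩ := hd
  have hd1a : dist τ t < δ1 := hd1.trans_le ((min_le_left _ _).trans (min_le_left _ _))
  have hd1b : dist τ t < 1 := hd1.trans_le ((min_le_left _ _).trans (min_le_right _ _))
  have hd2a : dist y x < δ2 := hd2.trans_le (min_le_right _ _)
  have hτt : τ ∈ Icc 0 (t + 1) := by
    refine ⟨hτ, ?_⟩
    rw [Real.dist_eq] at hd1b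
    have := (abs_lt.mp hd1b).2
    linarith
  have hyx : ‖y - x‖ * Real.exp (K (t + 1) * (t + 1)) < min r (ε / 2) := by
    rw [dist_eq_norm, hδ2, lt_div_iff₀ hexp] at hd2a
    exact hd2a
  have hst := h.stay hx hy hr (hyx.trans_le (min_le_left _ _)) τ hτt
  have h1 : dist (X τ y) (X τ x) < ε / 2 := by
    rw [dist_eq_norm]
    refine lt_of_le_of_lt (hst.trans ?_) (hyx.trans_le (min_le_right _ _))
    have := hτt.2
    gcongr
  have h2 : dist (X τ x) (X t x) < ε / 2 := hδ1' hτ hd1a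
  calc dist (X τ y) (X t x) ≤ dist (X τ y) (X τ x) + dist (X τ x) (X t x) := dist_triangle _ _ _
    _ < ε := by linarith

end FlowData

end Run7.h772
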