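import Mathlib
import Pool.Agent.Run7.h772.Defs
import Pool.Agent.Run7.h772.Flow

open Set Metric Filter MeasureTheory
open scoped ContDiff Topology ComplexConjugate

namespace Run7.h772

section slice

variable {F : Type*} [NormedAddCommGroup F] [NormedSpace ℝ F] {D : Set ℂ}

theorem uniqueDiffS (hD : IsOpen D) : UniqueDiffOn ℝ ((Ici (0 : ℝ)) ×ˢ D) :=
  (uniqueDiffOn_Ici 0).prod hD.uniqueDiffOn

theorem slice_hasFDerivAt (hD : IsOpen D) {f : ℝ × ℂ → F}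
    (hf : ContDiffOn ℝ ∞ f (Ici 0 ×ˢ D)) {t : ℝ} (ht : 0 ≤ t) {x : ℂ} (hx : x ∈ D) :
    HasFDerivAt (fun y => f (t, y))
      ((fderivWithin ℝ f (Ici 0 ×ˢ D) (t, x)).comp (ContinuousLinearMap.inr ℝ ℝ ℂ)) x := by
  have h1 : HasFDerivWithinAt f (fderivWithin ℝ f (Ici 0 ×ˢ D) (t, x)) (Ici 0 ×ˢ D) (t, x) :=
    ((hf.differentiableOn (by simp)) (t, x) ⟨ht, hx⟩).hasFDerivWithinAt
  have h2 : HasFDerivWithinAt (fun y : ℂ => (t, y)) (ContinuousLinearMap.inr ℝ ℝ ℂ) D x :=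
    (hasFDerivAt_prodMk_right t x).hasFDerivWithinAt
  have h3 := HasFDerivWithinAt.comp x h1 h2 (fun y hy => ⟨ht, hy⟩)
  exact h3.hasFDerivAt (hD.mem_nhds hx)

theorem slice_smooth (hD : IsOpen D) {f : ℝ × ℂ → F}
    (hf : ContDiffOn ℝ ∞ f (Ici 0 ×ˢ D)) :
    ContDiffOn ℝ ∞ (fun q : ℝ × ℂ => fderiv ℝ (fun y => f (q.1, y)) q.2) (Ici 0 ×ˢ D) := by
  have h1 : ContDiffOn ℝ ∞ (fderivWithin ℝ f (Ici 0 ×ˢ D)) (Ici 0 ×ˢ D) :=
    hf.fderivWithin (uniqueDiffS hD) (by simp)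
  have h2 : ContDiffOn ℝ ∞ (fun q => (fderivWithin ℝ f (Ici 0 ×ˢ D) q).comp
      (ContinuousLinearMap.inr ℝ ℝ ℂ)) (Ici 0 ×ˢ D) :=
    h1.clm_comp contDiffOn_const
  refine h2.congr ?_
  rintro ⟨t, x⟩ ⟨ht, hx⟩
  exact (slice_hasFDerivAt hD hf ht hx).fderiv

end slice

theorem grad_inner (f : ℂ → ℝ) (x v : ℂ) :
    fderiv ℝ f x v = (grad f x).re * v.re + (grad f x).im * v.im := by
  have hv : v = v.re • (1 : ℂ) + v.im • Complex.I := by
    apply Complex.ext <;> simp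
  conv_lhs => rw [hv]
  rw [map_add, map_smul, map_smul]
  simp [grad]
  ring

theorem clm_expand (L : ℂ →L[ℝ] ℂ) (z : ℂ) : L z = z.re • L 1 + z.im • L Complex.I := by
  have hz : z = z.re • (1 : ℂ) + z.im • Complex.I := by
    apply Complex.ext <;> simp
  conv_lhs => rw [hz]
  rw [map_add, map_smul, map_smul]

theorem norm_grad_le (f : ℂ → ℝ) (x : ℂ) : ‖grad f x‖ ≤ ‖fderiv ℝ f x‖ := by
  by_cases h : grad f x = 0
  · rw [h]; simp
  have h1 : fderiv ℝ f x (grad f x) = ‖grad f x‖ ^ 2 := by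
    rw [grad_inner, ← Complex.normSq_eq_norm_sq, Complex.normSq_apply]
  have h2 : ‖grad f x‖ ^ 2 ≤ ‖fderiv ℝ f x‖ * ‖grad f x‖ := by
    rw [← h1]
    exact (le_abs_self _).trans ((fderiv ℝ f x).le_opNorm _)
  have h3 : 0 < ‖grad f x‖ := norm_pos_iff.mpr h
  nlinarith

theorem norm_fderiv_le_grad (f : ℂ → ℝ) (x : ℂ) : ‖fderiv ℝ f x‖ ≤ ‖grad f x‖ := by
  refine ContinuousLinearMap.opNorm_le_bound _ (norm_nonneg _) (fun v => ?_)
  rw [grad_inner]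
  have h1 : (grad f x).re * v.re + (grad f x).im * v.im = (conj (grad f x) * v).re := by
    simp
  rw [h1, Real.norm_eq_abs]
  refine (Complex.abs_re_le_norm _).trans ?_
  simp

theorem norm_grad_eq (f : ℂ → ℝ) (x : ℂ) : ‖grad f x‖ = ‖fderiv ℝ f x‖ :=
  le_antisymm (norm_grad_le f x) (norm_fderiv_le_grad f x)

namespace IsEulerFlow

variable {D : Set ℂ} {u X : ℝ → ℂ → ℂ} {p : ℝ → ℂ → ℝ}

theorem flowData (h : IsEulerFlow D u p) (hD : IsOpen D) (hX : IsFlow D u X) {K : ℝ → ℝ}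
    (hK0 : ∀ t, 0 ≤ K t) (hKm : Monotone K)
    (hK : ∀ t, 0 ≤ t → ∀ x ∈ D, ‖fderiv ℝ (u t) x‖ ≤ K t) : FlowData D u X K where
  isOpen := hD
  diff _ ht _ hx := (slice_hasFDerivAt hD h.smooth_u ht hx).differentiableAt
  cont := (slice_smooth hD h.smooth_u).continuousOn
  nonneg := hK0
  mono := hKm
  bound' := hK
  init := hX.init
  mem := hX.mem
  deriv := hX.deriv

theorem smooth_A (h : IsEulerFlow D u p) (hD : IsOpen D) :
    ContDiffOn ℝ ∞ (fun q : ℝ × ℂ => fderiv ℝ (u q.1) q.2) (Ici 0 ×ˢ D) :=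
  slice_smooth hD h.smooth_u

theorem smooth_curl (h : IsEulerFlow D u p) (hD : IsOpen D) :
    ContDiffOn ℝ ∞ (fun q : ℝ × ℂ => curl (u q.1) q.2) (Ici 0 ×ˢ D) := by
  have h1 := h.smooth_A hD
  have h2 : ContDiffOn ℝ ∞ (fun q : ℝ × ℂ => (fderiv ℝ (u q.1) q.2) 1) (Ici 0 ×ˢ D) :=
    h1.clm_apply contDiffOn_const
  have h3 : ContDiffOn ℝ ∞ (fun q : ℝ × ℂ => (fderiv ℝ (u q.1) q.2) Complex.I) (Ici 0 ×ˢ D) :=
    h1.clm_apply contDiffOn_const
  exact (Complex.imCLM.contDiff.comp_contDiffOn h2).sub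
    (Complex.reCLM.contDiff.comp_contDiffOn h3)

theorem smooth_dcurl (h : IsEulerFlow D u p) (hD : IsOpen D) :
    ContDiffOn ℝ ∞ (fun q : ℝ × ℂ => fderiv ℝ (curl (u q.1)) q.2) (Ici 0 ×ˢ D) :=
  slice_smooth (f := fun q : ℝ × ℂ => curl (u q.1) q.2) hD (h.smooth_curl hD)

theorem differentiableAt_curl (h : IsEulerFlow D u p) (hD : IsOpen D) {t : ℝ} (ht : 0 ≤ t)
    {x : ℂ} (hx : x ∈ D) : DifferentiableAt ℝ (curl (u t)) x :=
  (slice_hasFDerivAt (f := fun q : ℝ × ℂ => curl (u q.1) q.2) hD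
    (h.smooth_curl hD) ht hx).differentiableAt

/-- Transport of vorticity, infinitesimal form at positive times. -/
theorem hasDerivAt_curl (h : IsEulerFlow D u p) (hD : IsOpen D) (hX : IsFlow D u X)
    {x : ℂ} (hx : x ∈ D) {t : ℝ} (ht : 0 < t) :
    HasDerivAt (fun τ => curl (u τ) (X τ x)) 0 t := by
  set O : Set (ℝ × ℂ) := Ioi 0 ×ˢ D with hO
  have hOo : IsOpen O := isOpen_Ioi.prod hD
  have hOS : O ⊆ Ici 0 ×ˢ D := prod_mono Ioi_subset_Ici_self subset_rfl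
  set U : ℝ × ℂ → ℂ := fun q => u q.1 q.2 with hU
  set P : ℝ × ℂ → ℝ := fun q => p q.1 q.2 with hP
  have hUO : ContDiffOn ℝ ∞ U O := h.smooth_u.mono hOS
  have hPO : ContDiffOn ℝ ∞ P O := h.smooth_p.mono hOS
  set q0 : ℝ × ℂ := (t, X t x) with hq0
  have hq0O : q0 ∈ O := ⟨ht, hX.mem x hx t ht.le⟩
  have hUat : ∀ q ∈ O, ContDiffAt ℝ ∞ U q := fun q hq => hUO.contDiffAt (hOo.mem_nhds hq)
  have hPat : ∀ q ∈ O, ContDiffAt ℝ ∞ P q := fun q hq => hPO.contDiffAt (hOo.mem_nhds hq)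
  -- second derivatives
  have hDU : DifferentiableAt ℝ (fderiv ℝ U) q0 :=
    ((hUat q0 hq0O).fderiv_right (m := 1) (by norm_cast)).differentiableAt (by simp)
  have hDP : DifferentiableAt ℝ (fderiv ℝ P) q0 :=
    ((hPat q0 hq0O).fderiv_right (m := 1) (by norm_cast)).differentiableAt (by simp)
  set H := fderiv ℝ (fderiv ℝ U) q0 with hH
  set HP := fderiv ℝ (fderiv ℝ P) q0 with hHP
  have hsymU : ∀ v w, H v w = H w v := by
    have := (hUat q0 hq0O).isSymmSndFDerivAt (by simp; exact WithTop.coe_le_coe.mpr (le_top : (2 : ℕ∞) ≤ ⊤))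
    exact fun v w => this v w
  have hsymP : ∀ v w, HP v w = HP w v := by
    have := (hPat q0 hq0O).isSymmSndFDerivAt (by simp; exact WithTop.coe_le_coe.mpr (le_top : (2 : ℕ∞) ≤ ⊤))
    exact fun v w => this v w
  -- slices in terms of full derivatives
  have hslU : ∀ q ∈ O, ∀ w : ℂ, fderiv ℝ (u q.1) q.2 w = fderiv ℝ U q (0, w) := by
    rintro ⟨s, y⟩ hq w
    have h1 : HasFDerivAt U (fderiv ℝ U (s, y)) (s, y) :=
      ((hUat _ hq).differentiableAt (by simp)).hasFDerivAt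
    have h2 : HasFDerivAt (fun y' => U (s, y')) _ y := h1.comp y (hasFDerivAt_prodMk_right s y)
    have h3 : fderiv ℝ (u s) y = (fderiv ℝ U (s, y)).comp (ContinuousLinearMap.inr ℝ ℝ ℂ) :=
      h2.fderiv
    rw [h3]; rfl
  have hslP : ∀ q ∈ O, ∀ w : ℂ, fderiv ℝ (p q.1) q.2 w = fderiv ℝ P q (0, w) := by
    rintro ⟨s, y⟩ hq w
    have h1 : HasFDerivAt P (fderiv ℝ P (s, y)) (s, y) :=
      ((hPat _ hq).differentiableAt (by simp)).hasFDerivAt
    have h2 : HasFDerivAt (fun y' => P (s, y')) _ y := h1.comp y (hasFDerivAt_prodMk_right s y)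
    have h3 : fderiv ℝ (p s) y = (fderiv ℝ P (s, y)).comp (ContinuousLinearMap.inr ℝ ℝ ℂ) :=
      h2.fderiv
    rw [h3]; rfl
  have htime : ∀ q ∈ O, derivWithin (fun τ => u τ q.2) (Ici 0) q.1 = fderiv ℝ U q (1, 0) := by
    rintro ⟨s, y⟩ hq
    have h1 : HasFDerivAt U (fderiv ℝ U (s, y)) (s, y) :=
      ((hUat _ hq).differentiableAt (by simp)).hasFDerivAt
    have h2 : HasDerivAt (fun τ : ℝ => ((τ, y) : ℝ × ℂ)) (1, 0) s :=
      (hasDerivAt_id s).prodMk (hasDerivAt_const s y)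
    have h3 : HasDerivAt (fun τ => U (τ, y)) (fderiv ℝ U (s, y) (1, 0)) s := by
      have := HasFDerivAt.comp_hasDerivAt (f := fun τ : ℝ => ((τ, y) : ℝ × ℂ)) s h1 h2
      exact this
    have hs0 : s ∈ Ici (0 : ℝ) := le_of_lt (show (0 : ℝ) < s from hq.1)
    have h4 := (h3.hasDerivWithinAt (s := Ici 0)).derivWithin ((uniqueDiffOn_Ici 0) s hs0)
    exact h4
  -- momentum equation on the open set
  have hmom : ∀ q ∈ O, fderiv ℝ U q (1, U q) +
      (((fderiv ℝ P q (0, 1) : ℝ) : ℂ) + ((fderiv ℝ P q (0, Complex.I) : ℝ) : ℂ) * Complex.I)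
      = 0 := by
    intro q hq
    have h1 := h.momentum q.1 (le_of_lt hq.1) q.2 hq.2
    rw [htime q hq, hslU q hq] at h1
    have h2 : grad (p q.1) q.2 = (((fderiv ℝ P q (0, 1) : ℝ) : ℂ)
        + ((fderiv ℝ P q (0, Complex.I) : ℝ) : ℂ) * Complex.I) := by
      apply Complex.ext <;> simp [grad, hslP q hq]
    rw [h2] at h1
    rw [← h1, ← map_add]
    simp [hU]
  -- differentiate the momentum equation in the direction (0, w)
  have hdmom : ∀ w : ℂ, H (0, w) (1, U q0) + fderiv ℝ U q0 (0, fderiv ℝ U q0 (0, w)) +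
      (((HP (0, w) (0, 1) : ℝ) : ℂ) + ((HP (0, w) (0, Complex.I) : ℝ) : ℂ) * Complex.I) = 0 := by
    intro w
    have hline : HasDerivAt (fun s : ℝ => q0 + s • ((0, w) : ℝ × ℂ)) ((0, w) : ℝ × ℂ) 0 := by
      simpa using ((hasDerivAt_id (0 : ℝ)).smul_const ((0, w) : ℝ × ℂ)).const_add q0
    have hl0 : q0 + (0 : ℝ) • ((0, w) : ℝ × ℂ) = q0 := by simp
    have hDUl : HasDerivAt (fun s : ℝ => fderiv ℝ U (q0 + s • ((0, w) : ℝ × ℂ))) (H (0, w)) 0 := by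
      have h1 : HasFDerivAt (fderiv ℝ U) H (q0 + (0 : ℝ) • ((0, w) : ℝ × ℂ)) := by
        rw [hl0]; exact hDU.hasFDerivAt
      exact h1.comp_hasDerivAt (0 : ℝ) hline
    have hDPl : HasDerivAt (fun s : ℝ => fderiv ℝ P (q0 + s • ((0, w) : ℝ × ℂ))) (HP (0, w)) 0 := by
      have h1 : HasFDerivAt (fderiv ℝ P) HP (q0 + (0 : ℝ) • ((0, w) : ℝ × ℂ)) := by
        rw [hl0]; exact hDP.hasFDerivAt
      exact h1.comp_hasDerivAt (0 : ℝ) hline
    have hUl : HasDerivAt (fun s : ℝ => U (q0 + s • ((0, w) : ℝ × ℂ))) (fderiv ℝ U q0 (0, w)) 0 := by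
      have h1 : HasFDerivAt U (fderiv ℝ U q0) (q0 + (0 : ℝ) • ((0, w) : ℝ × ℂ)) := by
        rw [hl0]; exact ((hUat q0 hq0O).differentiableAt (by simp)).hasFDerivAt
      exact h1.comp_hasDerivAt (0 : ℝ) hline
    have h1U : HasDerivAt (fun s : ℝ => ((1, U (q0 + s • ((0, w) : ℝ × ℂ))) : ℝ × ℂ))
        (0, fderiv ℝ U q0 (0, w)) 0 := (hasDerivAt_const (0 : ℝ) (1 : ℝ)).prodMk hUl
    have hA := hDUl.clm_apply h1U
    have hB := (hDPl.clm_apply (hasDerivAt_const (0 : ℝ) ((0, 1) : ℝ × ℂ))).ofReal_comp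
    have hC := (hDPl.clm_apply (hasDerivAt_const (0 : ℝ) ((0, Complex.I) : ℝ × ℂ))).ofReal_comp
    have hsum := hA.add (hB.add (hC.mul_const Complex.I))
    have hzero : (fun s : ℝ => fderiv ℝ U (q0 + s • ((0, w) : ℝ × ℂ))
        (1, U (q0 + s • ((0, w) : ℝ × ℂ)))
        + (((fderiv ℝ P (q0 + s • ((0, w) : ℝ × ℂ)) (0, 1) : ℝ) : ℂ)
        + ((fderiv ℝ P (q0 + s • ((0, w) : ℝ × ℂ)) (0, Complex.I) : ℝ) : ℂ) * Complex.I))
        =ᶠ[𝓝 0] fun _ => 0 := by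
      have hcont : ContinuousAt (fun s : ℝ => q0 + s • ((0, w) : ℝ × ℂ)) 0 := hline.continuousAt
      have hmem : O ∈ 𝓝 (q0 + (0 : ℝ) • ((0, w) : ℝ × ℂ)) := by
        rw [hl0]; exact hOo.mem_nhds hq0O
      filter_upwards [hcont.preimage_mem_nhds hmem] with s hs using hmom _ hs
    have h0 := hsum.congr_of_eventuallyEq hzero.symm
    have h00 := h0.unique (hasDerivAt_const (0 : ℝ) (0 : ℂ))
    simp only [zero_smul, add_zero, map_zero] at h00
    rw [← h00]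
  -- derivative of the vorticity along the trajectory
  have htraj : HasDerivAt (fun τ => ((τ, X τ x) : ℝ × ℂ)) (1, U q0) t :=
    (hasDerivAt_id t).prodMk ((hX.deriv x hx t ht.le).hasDerivAt (Ici_mem_nhds ht))
  have hDUt : HasDerivAt (fun τ => fderiv ℝ U (τ, X τ x)) (H (1, U q0)) t :=
    hDU.hasFDerivAt.comp_hasDerivAt t htraj
  have h1 : HasDerivAt (fun τ => (fderiv ℝ U (τ, X τ x) (0, 1)).im
      - (fderiv ℝ U (τ, X τ x) (0, Complex.I)).re)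
      ((H (1, U q0) (0, 1)).im - (H (1, U q0) (0, Complex.I)).re) t := by
    have ha := hDUt.clm_apply (hasDerivAt_const t ((0, 1) : ℝ × ℂ))
    have hb := hDUt.clm_apply (hasDerivAt_const t ((0, Complex.I) : ℝ × ℂ))
    simp only [map_zero, add_zero] at ha hb
    exact (Complex.imCLM.hasFDerivAt.comp_hasDerivAt t ha).sub
      (Complex.reCLM.hasFDerivAt.comp_hasDerivAt t hb)
  have hev : (fun τ => curl (u τ) (X τ x)) =ᶠ[𝓝 t]
      (fun τ => (fderiv ℝ U (τ, X τ x) (0, 1)).im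
      - (fderiv ℝ U (τ, X τ x) (0, Complex.I)).re) := by
    filter_upwards [Ioi_mem_nhds ht] with τ hτ
    have hq : ((τ, X τ x) : ℝ × ℂ) ∈ O := ⟨hτ, hX.mem x hx τ (le_of_lt hτ)⟩
    simp only [curl]
    rw [← hslU _ hq, ← hslU _ hq]
  refine (h1.congr_of_eventuallyEq hev).congr_deriv ?_
  have e1 := congrArg Complex.im (hdmom 1)
  have e2 := congrArg Complex.re (hdmom Complex.I)
  rw [hsymU (0, 1) (1, U q0)] at e1
  rw [hsymU (0, Complex.I) (1, U q0)] at e2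
  have hdiv := h.div_free t ht.le (X t x) (hX.mem x hx t ht.le)
  have hA1 := hslU q0 hq0O 1
  have hAI := hslU q0 hq0O Complex.I
  simp only [hq0] at hA1 hAI
  rw [hA1, hAI] at hdiv
  have hAA : ∀ w : ℂ, fderiv ℝ U q0 (0, w) =
      w.re • fderiv ℝ U q0 (0, 1) + w.im • fderiv ℝ U q0 (0, Complex.I) := by
    intro w
    have := clm_expand ((fderiv ℝ U q0).comp (ContinuousLinearMap.inr ℝ ℝ ℂ)) w
    simpa using this
  rw [hAA (fderiv ℝ U q0 (0, 1))] at e1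
  rw [hAA (fderiv ℝ U q0 (0, Complex.I))] at e2
  have hs := hsymP (0, 1) (0, Complex.I)
  simp at e1 e2
  rw [hs] at e1
  linear_combination e1 - e2 + (-(fderiv ℝ U q0 (0, 1)).im + (fderiv ℝ U q0 (0, Complex.I)).re) * hdiv

end IsEulerFlow

end Run7.h772
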