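import Mathlib
import Pool.Agent.Run7.h772.Euler

open Set Metric Filter MeasureTheory
open scoped ContDiff Topology ComplexConjugate

namespace Run7.h772

-- growth from below for a linear equation
theorem lin_lower {τ : ℝ → ℂ} {A : ℝ → ℂ →L[ℝ] ℂ} {K T : ℝ}
    (hA : ∀ t, 0 ≤ t → t ≤ T → ‖A t‖ ≤ K)
    (hτ : ∀ t, 0 ≤ t → HasDerivWithinAt τ (A t (τ t)) (Ici 0) t) {σ t : ℝ} (hσ : 0 ≤ σ)
    (hσt : σ ≤ t) (htT : t ≤ T) : ‖τ σ‖ * Real.exp (-(K * (t - σ))) ≤ ‖τ t‖ := by
  set f : ℝ → ℝ := fun s => ‖τ s‖ ^ 2 * Real.exp (2 * K * s) with hf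
  have hder : ∀ s, 0 < s → HasDerivAt f
      (2 * inner ℝ (τ s) (A s (τ s)) * Real.exp (2 * K * s)
        + ‖τ s‖ ^ 2 * (Real.exp (2 * K * s) * (2 * K))) s := by
    intro s hs
    have h1 : HasDerivAt τ (A s (τ s)) s := (hτ s hs.le).hasDerivAt (Ici_mem_nhds hs)
    have h2 := h1.norm_sq
    have h3 : HasDerivAt (fun s : ℝ => Real.exp (2 * K * s)) (Real.exp (2 * K * s) * (2 * K)) s := by
      have := ((hasDerivAt_id s).const_mul (2 * K)).exp
      simpa using this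
    exact h2.mul h3
  have hcont : ContinuousOn f (Icc 0 T) := by
    have h1 : ContinuousOn τ (Icc 0 T) := fun s hs =>
      (hτ s hs.1).continuousWithinAt.mono Icc_subset_Ici_self
    exact (h1.norm.pow 2).mul (by fun_prop)
  have hmono : MonotoneOn f (Icc 0 T) := by
    refine monotoneOn_of_deriv_nonneg (convex_Icc 0 T) hcont ?_ ?_
    · intro s hs
      rw [interior_Icc] at hs
      exact (hder s hs.1).differentiableAt.differentiableWithinAt
    · intro s hs
      rw [interior_Icc] at hs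
      rw [(hder s hs.1).deriv]
      have h1 : -(K * ‖τ s‖ ^ 2) ≤ inner ℝ (τ s) (A s (τ s)) := by
        have h2 : |inner ℝ (τ s) (A s (τ s))| ≤ ‖τ s‖ * ‖A s (τ s)‖ := abs_real_inner_le_norm _ _
        have h3 : ‖A s (τ s)‖ ≤ K * ‖τ s‖ := by
          refine ((A s).le_opNorm _).trans ?_
          have := hA s hs.1.le hs.2.le
          gcongr
        have h4 : ‖τ s‖ * ‖A s (τ s)‖ ≤ ‖τ s‖ * (K * ‖τ s‖) := by gcongr
        have h5 := (abs_le.mp h2).1
        nlinarith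
      have h6 : 0 < Real.exp (2 * K * s) := Real.exp_pos _
      have : 2 * inner ℝ (τ s) (A s (τ s)) * Real.exp (2 * K * s)
          + ‖τ s‖ ^ 2 * (Real.exp (2 * K * s) * (2 * K))
          = 2 * Real.exp (2 * K * s) * (inner ℝ (τ s) (A s (τ s)) + K * ‖τ s‖ ^ 2) := by ring
      rw [this]
      have h7 : 0 ≤ inner ℝ (τ s) (A s (τ s)) + K * ‖τ s‖ ^ 2 := by linarith
      positivity
  have h := hmono (show σ ∈ Icc 0 T from ⟨hσ, hσt.trans htT⟩)
    (show t ∈ Icc 0 T from ⟨hσ.trans hσt, htT⟩) hσt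
  simp only [hf] at h
  have h1 : (‖τ σ‖ * Real.exp (-(K * (t - σ)))) ^ 2 ≤ ‖τ t‖ ^ 2 := by
    rw [mul_pow, ← Real.exp_nat_mul]
    have e1 : Real.exp (((2 : ℕ) : ℝ) * -(K * (t - σ)))
        = Real.exp (2 * K * σ) * Real.exp (-(2 * K * t)) := by
      rw [← Real.exp_add]; congr 1; push_cast; ring
    rw [e1]
    have e2 : ‖τ t‖ ^ 2 = ‖τ t‖ ^ 2 * Real.exp (2 * K * t) * Real.exp (-(2 * K * t)) := by
      rw [mul_assoc, ← Real.exp_add]; simp
    rw [e2]
    have : 0 < Real.exp (-(2 * K * t)) := Real.exp_pos _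
    nlinarith
  exact le_of_sq_le_sq₀ h1 (norm_nonneg _)
where
  le_of_sq_le_sq₀ {a b : ℝ} (h : a ^ 2 ≤ b ^ 2) (hb : 0 ≤ b) : a ≤ b := by
    exact le_of_abs_le (by simpa [abs_of_nonneg hb] using sq_le_sq.mp h)

-- the quotient of two solutions of a linear planar equation
theorem quot_deriv {τ v : ℝ → ℂ} {A : ℝ → ℂ →L[ℝ] ℂ} {s : Set ℝ} {t : ℝ}
    (hτ : HasDerivWithinAt τ (A t (τ t)) s t) (hv : HasDerivWithinAt v (A t (v t)) s t)
    (h0 : τ t ≠ 0) :
    HasDerivWithinAt (fun r => v r / τ r)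
      (((v t / τ t).im : ℂ) * (A t (Complex.I * τ t) - Complex.I * A t (τ t)) / τ t) s t := by
  have h1 := hv.fun_div hτ h0
  refine h1.congr_deriv ?_
  set w := v t / τ t with hw
  have hvw : v t = w * τ t := by rw [hw]; field_simp
  have h2 : A t (v t) = (w.re : ℂ) * A t (τ t) + (w.im : ℂ) * A t (Complex.I * τ t) := by
    have : v t = w.re • τ t + w.im • (Complex.I * τ t) := by
      rw [hvw]
      conv_lhs => rw [← Complex.re_add_im w]
      simp only [Complex.real_smul]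
      ring
    rw [this, map_add, map_smul, map_smul]
    simp [Complex.real_smul]
  rw [h2, hvw]
  have h3 : (w : ℂ) = (w.re : ℂ) + (w.im : ℂ) * Complex.I := (Complex.re_add_im w).symm
  rw [div_eq_div_iff (pow_ne_zero 2 h0) h0]
  have : ((w.re : ℂ) * A t (τ t) + (w.im : ℂ) * A t (Complex.I * τ t)) * τ t
      - w * τ t * A t (τ t) = (w.im : ℂ) * (A t (Complex.I * τ t) - Complex.I * A t (τ t)) * τ t := by
    linear_combination (-(A t (τ t) * τ t)) * h3
  rw [this]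
  ring

theorem quot_deriv_norm {A : ℂ →L[ℝ] ℂ} {K : ℝ} (hA : ‖A‖ ≤ K) (c : ℝ) {τ : ℂ} (h0 : τ ≠ 0) :
    ‖(c : ℂ) * (A (Complex.I * τ) - Complex.I * A τ) / τ‖ ≤ 2 * K * |c| := by
  have h1 : ‖A (Complex.I * τ)‖ ≤ K * ‖τ‖ := by
    refine (A.le_opNorm _).trans ?_
    rw [norm_mul, Complex.norm_I, one_mul]
    gcongr
  have h2 : ‖Complex.I * A τ‖ ≤ K * ‖τ‖ := by
    rw [norm_mul, Complex.norm_I, one_mul]
    refine (A.le_opNorm _).trans ?_
    gcongr
  have h3 : 0 < ‖τ‖ := norm_pos_iff.mpr h0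
  rw [norm_div, norm_mul, Complex.norm_real, Real.norm_eq_abs, div_le_iff₀ h3]
  have h4 : ‖A (Complex.I * τ) - Complex.I * A τ‖ ≤ 2 * K * ‖τ‖ := by
    refine (norm_sub_le _ _).trans ?_
    linarith
  calc |c| * ‖A (Complex.I * τ) - Complex.I * A τ‖ ≤ |c| * (2 * K * ‖τ‖) := by gcongr
    _ = 2 * K * |c| * ‖τ‖ := by ring

namespace IsEulerFlow

variable {D : Set ℂ} {u X : ℝ → ℂ → ℂ} {p : ℝ → ℂ → ℝ}

/-- Conservation of vorticity along trajectories. -/
theorem curl_transport (h : IsEulerFlow D u p) (hD : IsOpen D) (hX : IsFlow D u X)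
    {x : ℂ} (hx : x ∈ D) {t : ℝ} (ht : 0 ≤ t) : curl (u t) (X t x) = curl (u 0) x := by
  rcases ht.eq_or_lt with rfl | ht'
  · rw [hX.init x hx]
  have hcX : ContinuousOn (fun τ => X τ x) (Icc 0 t) := fun s hs =>
    (hX.deriv x hx s hs.1).continuousWithinAt.mono Icc_subset_Ici_self
  have hc : ContinuousOn (fun τ => curl (u τ) (X τ x)) (Icc 0 t) :=
    (h.smooth_curl hD).continuousOn.comp (f := fun τ => ((τ, X τ x) : ℝ × ℂ))
      (continuousOn_id.prodMk hcX) (fun s hs => ⟨hs.1, hX.mem x hx s hs.1⟩)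
  obtain ⟨c, _, hc2⟩ := exists_hasDerivAt_eq_slope _ _ ht' hc
    (fun s hs => h.hasDerivAt_curl hD hX hx hs.1)
  have : curl (u t) (X t x) - curl (u 0) (X 0 x) = 0 := by
    have h1 : (t - 0) ≠ 0 := by simpa using ht'.ne'
    field_simp at hc2
    linarith
  rw [hX.init x hx] at this
  linarith

variable {K : ℝ → ℝ}

theorem dcurl_transport (h : IsEulerFlow D u p) (hD : IsOpen D) (hX : IsFlow D u X)
    (hF : FlowData D u X K) {x : ℂ} (hx : x ∈ D) {t : ℝ} (ht : 0 ≤ t) (v : ℂ) :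
    fderiv ℝ (curl (u t)) (X t x) (fderiv ℝ (X t) x v) = fderiv ℝ (curl (u 0)) x v := by
  have h1 : HasFDerivAt (fun y => curl (u t) (X t y))
      ((fderiv ℝ (curl (u t)) (X t x)).comp (fderiv ℝ (X t) x)) x :=
    (h.differentiableAt_curl hD ht (hX.mem x hx t ht)).hasFDerivAt.comp x (hF.hasFDerivAt hx ht)
  have h2 : (fun y => curl (u t) (X t y)) =ᶠ[𝓝 x] curl (u 0) := by
    filter_upwards [hD.mem_nhds hx] with y hy using h.curl_transport hD hX hy ht
  have h3 := (h1.congr_of_eventuallyEq h2.symm).fderiv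
  rw [h3]; rfl

theorem hasDerivWithinAt_G (hF : FlowData D u X K) {x : ℂ} (hx : x ∈ D)
    {t : ℝ} (ht : 0 ≤ t) (v : ℂ) :
    HasDerivWithinAt (fun τ => fderiv ℝ (X τ) x v)
      (fderiv ℝ (u t) (X t x) (fderiv ℝ (X t) x v)) (Ici 0) t := by
  have h1 := (hF.hasDerivWithinAt_fderiv hx ht).clm_apply (hasDerivWithinAt_const t (Ici 0) v)
  simpa using h1

theorem det_one (h : IsEulerFlow D u p) (hX : IsFlow D u X)
    (hF : FlowData D u X K) {x : ℂ} (hx : x ∈ D) {t : ℝ} (ht : 0 ≤ t) :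
    (fderiv ℝ (X t) x 1).re * (fderiv ℝ (X t) x Complex.I).im
      - (fderiv ℝ (X t) x 1).im * (fderiv ℝ (X t) x Complex.I).re = 1 := by
  set f : ℝ → ℝ := fun t => (fderiv ℝ (X t) x 1).re * (fderiv ℝ (X t) x Complex.I).im
      - (fderiv ℝ (X t) x 1).im * (fderiv ℝ (X t) x Complex.I).re with hf
  have hder : ∀ s, 0 ≤ s → HasDerivWithinAt f 0 (Ici 0) s := by
    intro s hs
    have h1 := hasDerivWithinAt_G hF hx hs 1
    have hI := hasDerivWithinAt_G hF hx hs Complex.I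
    have h1re := Complex.reCLM.hasFDerivAt.comp_hasDerivWithinAt s h1
    have h1im := Complex.imCLM.hasFDerivAt.comp_hasDerivWithinAt s h1
    have hIre := Complex.reCLM.hasFDerivAt.comp_hasDerivWithinAt s hI
    have hIim := Complex.imCLM.hasFDerivAt.comp_hasDerivWithinAt s hI
    have := (h1re.mul hIim).sub (h1im.mul hIre)
    refine this.congr_deriv ?_
    have hdiv := h.div_free s hs (X s x) (hX.mem x hx s hs)
    have e1 := clm_expand (fderiv ℝ (u s) (X s x)) (fderiv ℝ (X s) x 1)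
    have e2 := clm_expand (fderiv ℝ (u s) (X s x)) (fderiv ℝ (X s) x Complex.I)
    rw [e1, e2]
    simp
    linear_combination ((fderiv ℝ (X s) x 1).re * (fderiv ℝ (X s) x Complex.I).im
      - (fderiv ℝ (X s) x 1).im * (fderiv ℝ (X s) x Complex.I).re) * hdiv
  have hc : ContinuousOn f (Icc 0 t) := fun s hs =>
    (hder s hs.1).continuousWithinAt.mono Icc_subset_Ici_self
  have := constant_of_has_deriv_right_zero hc
    (fun s hs => (hder s hs.1).mono (Ici_subset_Ici.mpr hs.1)) t ⟨ht, le_rfl⟩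
  have h0 : f 0 = 1 := by
    simp [hf, hF.fderiv_zero hx]
  rw [← h0]
  exact this

/-- The flow maps the contour direction field to the contour direction field. -/
theorem leaf (h : IsEulerFlow D u p) (hD : IsOpen D) (hX : IsFlow D u X)
    (hF : FlowData D u X K) {x : ℂ} (hx : x ∈ D) {t : ℝ} (ht : 0 ≤ t) :
    fderiv ℝ (X t) x (Complex.I * grad (curl (u 0)) x)
      = Complex.I * grad (curl (u t)) (X t x) := by
  have hdet := h.det_one hX hF hx ht
  have h1 := h.dcurl_transport hD hX hF hx ht 1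
  have h2 := h.dcurl_transport hD hX hF hx ht Complex.I
  rw [grad_inner (curl (u t)), grad_inner (curl (u 0))] at h1 h2
  simp only [Complex.one_re, Complex.one_im, Complex.I_re, Complex.I_im, mul_one, mul_zero,
    add_zero, zero_add] at h1 h2
  rw [clm_expand (fderiv ℝ (X t) x)]
  apply Complex.ext
  · simp
    linear_combination (-(fderiv ℝ (X t) x 1).re) * (-h2) + ((fderiv ℝ (X t) x Complex.I).re) * (-h1)
      + (-(grad (curl (u t)) (X t x)).im) * hdet
  · simp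
    linear_combination (-(fderiv ℝ (X t) x 1).im) * (-h2) + ((fderiv ℝ (X t) x Complex.I).im) * (-h1)
      + ((grad (curl (u t)) (X t x)).re) * hdet

theorem hasDerivWithinAt_leaf (h : IsEulerFlow D u p) (hD : IsOpen D) (hX : IsFlow D u X)
    (hF : FlowData D u X K) {x : ℂ} (hx : x ∈ D) {t : ℝ} (ht : 0 ≤ t) :
    HasDerivWithinAt (fun τ => Complex.I * grad (curl (u τ)) (X τ x))
      (fderiv ℝ (u t) (X t x) (Complex.I * grad (curl (u t)) (X t x))) (Ici 0) t := by
  have h1 := hasDerivWithinAt_G hF hx ht (Complex.I * grad (curl (u 0)) x)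
  rw [h.leaf hD hX hF hx ht] at h1
  exact h1.congr (fun s hs => (h.leaf hD hX hF hx hs).symm) (h.leaf hD hX hF hx ht).symm

theorem norm_grad_lower (h : IsEulerFlow D u p) (hD : IsOpen D) (hX : IsFlow D u X)
    (hF : FlowData D u X K) {x : ℂ} (hx : x ∈ D) {σ t T : ℝ} (hσ : 0 ≤ σ) (hσt : σ ≤ t)
    (htT : t ≤ T) :
    ‖grad (curl (u σ)) (X σ x)‖ * Real.exp (-(K T * (t - σ))) ≤ ‖grad (curl (u t)) (X t x)‖ := by
  have := lin_lower (τ := fun τ => Complex.I * grad (curl (u τ)) (X τ x))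
    (A := fun t => fderiv ℝ (u t) (X t x)) (K := K T)
    (fun t ht htT => hF.bound ht htT (hX.mem x hx t ht))
    (fun t ht => h.hasDerivWithinAt_leaf hD hX hF hx ht) hσ hσt htT
  simpa using this

end IsEulerFlow

end Run7.h772
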