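import Mathlib
import Pool.Agent.Run7.h772.Euler2

open Set Metric Filter MeasureTheory
open scoped ContDiff Topology ComplexConjugate

namespace Run7.h772

namespace IsEulerFlow

variable {D : Set ℂ} {u X : ℝ → ℂ → ℂ} {p : ℝ → ℂ → ℝ} {K : ℝ → ℝ}

/-- The gradient of the vorticity along the trajectory of `x`. -/
noncomputable def gr (u X : ℝ → ℂ → ℂ) (t : ℝ) (x : ℂ) : ℂ := grad (curl (u t)) (X t x)

theorem continuousOn_gr_slice (h : IsEulerFlow D u p) (hD : IsOpen D)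
    (hF : FlowData D u X K) :
    ContinuousOn (fun q : ℝ × ℂ => gr u X q.1 q.2) (Ici 0 ×ˢ D) := by
  have h1 : ContinuousOn (fun q : ℝ × ℂ => fderiv ℝ (curl (u q.1)) (X q.1 q.2)) (Ici 0 ×ˢ D) :=
    (h.smooth_dcurl hD).continuousOn.comp (f := fun q : ℝ × ℂ => (q.1, X q.1 q.2))
      (continuousOn_fst.prodMk hF.continuousOn_flow) (fun q hq => ⟨hq.1, hF.mem _ hq.2 _ hq.1⟩)
  have h2 : ContinuousOn (fun q : ℝ × ℂ => fderiv ℝ (curl (u q.1)) (X q.1 q.2) 1) (Ici 0 ×ˢ D) :=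
    h1.clm_apply continuousOn_const
  have h3 : ContinuousOn (fun q : ℝ × ℂ => fderiv ℝ (curl (u q.1)) (X q.1 q.2) Complex.I)
      (Ici 0 ×ˢ D) := h1.clm_apply continuousOn_const
  have h4 : (fun q : ℝ × ℂ => gr u X q.1 q.2) = fun q : ℝ × ℂ =>
      ((fderiv ℝ (curl (u q.1)) (X q.1 q.2) 1 : ℝ) : ℂ)
      + ((fderiv ℝ (curl (u q.1)) (X q.1 q.2) Complex.I : ℝ) : ℂ) * Complex.I := by
    funext q
    apply Complex.ext <;> simp [gr, grad]
  rw [h4]
  exact (Complex.continuous_ofReal.comp_continuousOn h2).add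
    ((Complex.continuous_ofReal.comp_continuousOn h3).mul continuousOn_const)

theorem gr_ne_zero (h : IsEulerFlow D u p) (hD : IsOpen D) (hX : IsFlow D u X)
    (hF : FlowData D u X K) {x : ℂ} (hx : x ∈ D) (h0 : gr u X 0 x ≠ 0) {t : ℝ} (ht : 0 ≤ t) :
    gr u X t x ≠ 0 := by
  have h1 := h.norm_grad_lower hD hX hF hx le_rfl ht le_rfl
  have h2 : 0 < ‖gr u X 0 x‖ := norm_pos_iff.mpr h0
  intro h3
  have h4 : ‖gr u X 0 x‖ * Real.exp (-(K t * (t - 0))) ≤ ‖gr u X t x‖ := h1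
  rw [h3, norm_zero] at h4
  have : 0 < ‖gr u X 0 x‖ * Real.exp (-(K t * (t - 0))) := by positivity
  linarith

/-- Pointwise bound of the stretching by the vorticity gradients at integer times. -/
theorem stretch_bound (h : IsEulerFlow D u p) (hD : IsOpen D) (hX : IsFlow D u X)
    (hF : FlowData D u X K) {x : ℂ} (hx : x ∈ D) (h0 : gr u X 0 x ≠ 0) (e : ℂ)
    {t : ℝ} (ht : 0 ≤ t) :
    ‖fderiv ℝ (X t) x e‖ ≤ ‖gr u X t x‖ * (‖e‖ / ‖gr u X 0 x‖
      + 2 * K t * |fderiv ℝ (curl (u 0)) x e| * Real.exp (2 * K t)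
        * ∑ k ∈ Finset.range (⌊t⌋₊ + 1), (‖gr u X k x‖ ^ 2)⁻¹) := by
  have hK := hF.nonneg t
  set τ : ℝ → ℂ := fun s => Complex.I * gr u X s x with hτ
  set v : ℝ → ℂ := fun s => fderiv ℝ (X s) x e with hv
  set β : ℝ := fderiv ℝ (curl (u 0)) x e with hβ
  have hnτ : ∀ s, ‖τ s‖ = ‖gr u X s x‖ := fun s => by simp [hτ]
  have hne : ∀ s, 0 ≤ s → τ s ≠ 0 := by
    intro s hs
    exact mul_ne_zero Complex.I_ne_zero (h.gr_ne_zero hD hX hF hx h0 hs)
  set w : ℝ → ℂ := fun s => v s / τ s with hw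
  set w' : ℝ → ℂ := fun s => ((w s).im : ℂ) * (fderiv ℝ (u s) (X s x) (Complex.I * τ s)
      - Complex.I * fderiv ℝ (u s) (X s x) (τ s)) / τ s with hw'
  have hder : ∀ s, 0 ≤ s → HasDerivWithinAt w (w' s) (Ici 0) s := by
    intro s hs
    exact quot_deriv (A := fun s => fderiv ℝ (u s) (X s x))
      (h.hasDerivWithinAt_leaf hD hX hF hx hs) (hasDerivWithinAt_G hF hx hs e) (hne s hs)
  have him : ∀ s, 0 ≤ s → |(w s).im| = |β| * (‖gr u X s x‖ ^ 2)⁻¹ := by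
    intro s hs
    have h1 : β = fderiv ℝ (curl (u s)) (X s x) (v s) :=
      (h.dcurl_transport hD hX hF hx hs e).symm
    rw [grad_inner] at h1
    have h2 : (w s).im = -β * (‖gr u X s x‖ ^ 2)⁻¹ := by
      simp only [hw]
      rw [Complex.div_im, Complex.normSq_eq_norm_sq, hnτ, h1]
      simp only [hτ, gr, Complex.mul_re, Complex.mul_im, Complex.I_re, Complex.I_im]
      ring
    rw [h2, abs_mul, abs_neg, abs_of_nonneg (a := (‖gr u X s x‖ ^ 2)⁻¹) (by positivity)]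
  have hlow : ∀ k : ℕ, ∀ s, (k : ℝ) ≤ s → s ≤ k + 1 → s ≤ t →
      ‖w' s‖ ≤ 2 * K t * |β| * Real.exp (2 * K t) * (‖gr u X k x‖ ^ 2)⁻¹ := by
    intro k s hks hsk hst
    have hs : 0 ≤ s := le_trans (Nat.cast_nonneg k) hks
    have h1 : ‖w' s‖ ≤ 2 * K t * |(w s).im| :=
      quot_deriv_norm (hF.bound hs hst (hF.mem x hx s hs)) _ (hne s hs)
    rw [him s hs] at h1
    have hk0 : 0 < ‖gr u X k x‖ :=
      norm_pos_iff.mpr (h.gr_ne_zero hD hX hF hx h0 (Nat.cast_nonneg k))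
    have h2 : ‖gr u X k x‖ * Real.exp (-(K t * (s - k))) ≤ ‖gr u X s x‖ :=
      h.norm_grad_lower hD hX hF hx (Nat.cast_nonneg k) hks hst
    have h3 : ‖gr u X k x‖ * Real.exp (-K t) ≤ ‖gr u X s x‖ := by
      refine le_trans ?_ h2
      have : -K t ≤ -(K t * (s - k)) := by nlinarith
      gcongr
    have h4 : (‖gr u X s x‖ ^ 2)⁻¹ ≤ Real.exp (2 * K t) * (‖gr u X k x‖ ^ 2)⁻¹ := by
      have h5 : Real.exp (2 * K t) * (‖gr u X k x‖ ^ 2)⁻¹
          = ((‖gr u X k x‖ * Real.exp (-K t)) ^ 2)⁻¹ := by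
        rw [mul_pow, mul_inv, ← Real.exp_nat_mul, ← Real.exp_neg]
        push_cast
        rw [mul_comm]
        congr 2
        ring
      rw [h5]
      have : 0 < ‖gr u X k x‖ * Real.exp (-K t) := by positivity
      gcongr
    calc ‖w' s‖ ≤ 2 * K t * (|β| * (‖gr u X s x‖ ^ 2)⁻¹) := h1
      _ ≤ 2 * K t * (|β| * (Real.exp (2 * K t) * (‖gr u X k x‖ ^ 2)⁻¹)) := by gcongr
      _ = _ := by ring
  have hseg : ∀ k : ℕ, ∀ s, (k : ℝ) ≤ s → s ≤ k + 1 → s ≤ t →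
      ‖w s - w k‖ ≤ 2 * K t * |β| * Real.exp (2 * K t) * (‖gr u X k x‖ ^ 2)⁻¹ := by
    intro k s hks hsk hst
    have hk0 : (0 : ℝ) ≤ k := Nat.cast_nonneg k
    have hc : ContinuousOn w (Icc (k : ℝ) s) := fun r hr =>
      (hder r (hk0.trans hr.1)).continuousWithinAt.mono (fun y hy => hk0.trans hy.1)
    have h1 := norm_image_sub_le_of_norm_deriv_right_le_segment (f' := w') hc
      (fun r hr => (hder r (hk0.trans hr.1)).mono (Ici_subset_Ici.mpr (hk0.trans hr.1)))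
      (fun r hr => hlow k r hr.1 (hr.2.le.trans hsk) (hr.2.le.trans hst)) s ⟨hks, le_rfl⟩
    refine h1.trans ?_
    have h2 : s - k ≤ 1 := by linarith
    have h3 : 0 ≤ 2 * K t * |β| * Real.exp (2 * K t) * (‖gr u X k x‖ ^ 2)⁻¹ := by positivity
    nlinarith
  have hsum : ∀ k : ℕ, (k : ℝ) ≤ t → ‖w k‖ ≤ ‖w 0‖ + 2 * K t * |β| * Real.exp (2 * K t)
      * ∑ j ∈ Finset.range k, (‖gr u X j x‖ ^ 2)⁻¹ := by
    intro k
    induction k with
    | zero => simp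
    | succ k ih =>
      intro hkt
      have hkt' : (k : ℝ) + 1 ≤ t := by exact_mod_cast hkt
      have ih := ih (by linarith)
      have h1 := hseg k (k + 1) (by linarith) le_rfl hkt'
      have h2 : ‖w ((k + 1 : ℕ) : ℝ)‖ ≤ ‖w (k + 1) - w k‖ + ‖w k‖ := by
        have : w ((k + 1 : ℕ) : ℝ) = (w (k + 1) - w k) + w k := by push_cast; ring
        rw [this]
        exact norm_add_le _ _
      rw [Finset.sum_range_succ, mul_add]
      linarith
  have hfl : (⌊t⌋₊ : ℝ) ≤ t := Nat.floor_le ht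
  have hfl2 : t ≤ ⌊t⌋₊ + 1 := (Nat.lt_floor_add_one t).le
  have hwt : ‖w t‖ ≤ ‖w 0‖ + 2 * K t * |β| * Real.exp (2 * K t)
      * ∑ j ∈ Finset.range (⌊t⌋₊ + 1), (‖gr u X j x‖ ^ 2)⁻¹ := by
    have h1 := hseg ⌊t⌋₊ t hfl hfl2 le_rfl
    have h2 := hsum ⌊t⌋₊ hfl
    have h3 : ‖w t‖ ≤ ‖w t - w ⌊t⌋₊‖ + ‖w ⌊t⌋₊‖ := by
      have : w t = (w t - w ⌊t⌋₊) + w ⌊t⌋₊ := by ring
      conv_lhs => rw [this]
      exact norm_add_le _ _
    rw [Finset.sum_range_succ, mul_add]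
    linarith
  have hw0 : ‖w 0‖ = ‖e‖ / ‖gr u X 0 x‖ := by
    simp only [hw]
    rw [norm_div, hnτ]
    simp [hv, hF.fderiv_zero hx]
  have hvt : v t = τ t * w t := by
    simp only [hw]
    have := hne t ht
    field_simp
  change ‖v t‖ ≤ _
  rw [hvt, norm_mul, hnτ, ← hw0]
  gcongr

/-- Contours of the vorticity are transported to contours of the vorticity. -/
theorem contour_deriv (h : IsEulerFlow D u p) (hD : IsOpen D) (hX : IsFlow D u X)
    (hF : FlowData D u X K) {z : ℝ → ℂ} {s : Set ℝ} {q : ℝ} (hzq : z q ∈ D)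
    (hz : HasDerivWithinAt z (Complex.I * grad (curl (u 0)) (z q)) s q) {t : ℝ} (ht : 0 ≤ t) :
    HasDerivWithinAt (fun r => X t (z r)) (Complex.I * gr u X t (z q)) s q := by
  have h1 := (hF.hasFDerivAt hzq ht).comp_hasDerivWithinAt q hz
  rw [h.leaf hD hX hF hzq ht] at h1
  exact h1

end IsEulerFlow

end Run7.h772
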