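import Mathlib
import Pool.Agent.Run7.h772.Euler3

open Set Metric Filter MeasureTheory
open scoped ContDiff Topology ComplexConjugate

namespace Run7.h772

theorem within_Ici {F : Type*} [NormedAddCommGroup F] [NormedSpace ℝ F] {f : ℝ → F} {f' : F}
    {T q : ℝ} (h : HasDerivWithinAt f f' (Icc 0 T) q) (hq : q ∈ Ico 0 T) :
    HasDerivWithinAt f f' (Ici q) q :=
  h.mono_of_mem_nhdsWithin
    (Filter.mem_of_superset (inter_mem self_mem_nhdsWithin
      (mem_nhdsWithin_of_mem_nhds (Iic_mem_nhds hq.2)))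
      (fun _ hz => ⟨hq.1.trans hz.1, hz.2⟩))

-- second order data of a function on the plane
theorem hasFDerivAt_fderiv {h : ℂ → ℝ} (hh : ContDiff ℝ 2 h) (x : ℂ) :
    HasFDerivAt (fderiv ℝ h) (fderiv ℝ (fderiv ℝ h) x) x :=
  ((hh.fderiv_right (m := 1) (by norm_num)).differentiable (by norm_num) x).hasFDerivAt

theorem symm_fderiv {h : ℂ → ℝ} (hh : ContDiff ℝ 2 h) (x v w : ℂ) :
    fderiv ℝ (fderiv ℝ h) x v w = fderiv ℝ (fderiv ℝ h) x w v :=
  (hh.contDiffAt (x := x)).isSymmSndFDerivAt (by simp) v w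

theorem kl_ineq {M Y κ A B a' b' : ℝ} (hM : 1 ≤ M) (hY : 1 ≤ Y) (hκ0 : 0 < κ)
    (hκ : 4 * M * Y ^ 2 * κ ≤ 1) (hA0 : 0 ≤ A) (hB0 : 0 ≤ B)
    (h8 : |a'| ≤ 2 * κ * (A + B)) (h9 : |b'| ≤ M * A + 2 * κ * B) :
    2 * (M * Y) ^ 2 * A * |a'| + 2 * B * |b'| ≤ 4 / Y * ((M * Y * A) ^ 2 + B ^ 2) := by
  have hY0 : 0 < Y := by linarith
  have hM0 : 0 < M := by linarith
  have h10 : 2 * (M * Y) ^ 2 * A * |a'| + 2 * B * |b'|
      ≤ 2 * (M * Y) ^ 2 * A * (2 * κ * (A + B)) + 2 * B * (M * A + 2 * κ * B) := by gcongr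
  refine h10.trans ?_
  rw [div_mul_eq_mul_div, le_div_iff₀ hY0]
  have hk1 : 4 * (M * Y) ^ 2 * κ ≤ M := by
    have : 4 * (M * Y) ^ 2 * κ = M * (4 * M * Y ^ 2 * κ) := by ring
    rw [this]; nlinarith
  have hk2 : 4 * κ * Y ≤ 1 := by
    have : 4 * κ * Y ≤ 4 * M * Y ^ 2 * κ := by
      have h11 : 1 * Y ≤ M * Y ^ 2 := by nlinarith
      nlinarith
    linarith
  have t1 : 2 * (M * Y) ^ 2 * A * (2 * κ * (A + B)) * Y ≤ M * Y * A * (A + B) := by
    have h12 : 0 ≤ A * (A + B) * Y := by positivity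
    calc 2 * (M * Y) ^ 2 * A * (2 * κ * (A + B)) * Y
        = (4 * (M * Y) ^ 2 * κ) * (A * (A + B) * Y) := by ring
      _ ≤ M * (A * (A + B) * Y) := by gcongr
      _ = _ := by ring
  have t2 : 2 * B * (M * A + 2 * κ * B) * Y ≤ 2 * (M * Y * A) * B + B ^ 2 := by
    calc 2 * B * (M * A + 2 * κ * B) * Y = 2 * (M * Y * A) * B + (4 * κ * Y) * B ^ 2 := by
          ring
      _ ≤ 2 * (M * Y * A) * B + 1 * B ^ 2 := by gcongr
      _ = _ := by ring
  have hMY : 1 ≤ M * Y := by nlinarith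
  have hA1 : A ≤ M * Y * A := by nlinarith
  have t3 : M * Y * A * (A + B) ≤ (M * Y * A) ^ 2 + (M * Y * A) * B := by
    have h13 : 0 ≤ M * Y * A := by positivity
    nlinarith
  set C := M * Y * A with hC
  have hCB : 2 * (C * B) ≤ C ^ 2 + B ^ 2 := by nlinarith [sq_nonneg (C - B)]
  nlinarith [sq_nonneg C, sq_nonneg B]

/-- If the contour through a point with tiny gradient reaches a point with large gradient in
moderate leaf time, the Hessian at the first point is not degenerate. -/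
theorem key_lemma {h : ℂ → ℝ} (hh : ContDiff ℝ 2 h) {M Y κ ρ : ℝ} (hM : 1 ≤ M) (hY : 1 ≤ Y)
    (hκ0 : 0 < κ) (hκ : 4 * M * Y ^ 2 * κ ≤ 1) (hρ0 : 0 < ρ)
    (hB : ∀ x, ‖fderiv ℝ (fderiv ℝ h) x‖ ≤ M) {y : ℂ}
    (hmod : ∀ x, ‖x - y‖ ≤ Y * ρ → ‖fderiv ℝ (fderiv ℝ h) x - fderiv ℝ (fderiv ℝ h) y‖ ≤ κ)
    {T : ℝ} (hTY : T ≤ Y) {z : ℝ → ℂ} (hz0 : z 0 = y)
    (hz : ∀ q ∈ Icc 0 T, HasDerivWithinAt z (Complex.I * grad h (z q)) (Icc 0 T) q)
    (hsmall : 8 * M * Y * ‖grad h y‖ < ρ) (hbig : ∃ q ∈ Icc 0 T, ρ ≤ ‖grad h (z q)‖) :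
    ∀ w : ℂ, κ * ‖w‖ ≤ ‖fderiv ℝ (fderiv ℝ h) y w‖ := by
  by_contra hcon
  push Not at hcon
  obtain ⟨w0, hw0⟩ := hcon
  have hw0n : w0 ≠ 0 := by
    rintro rfl
    simp at hw0
  have hw0p : 0 < ‖w0‖ := norm_pos_iff.mpr hw0n
  set w : ℂ := (‖w0‖⁻¹ : ℝ) • w0 with hw
  have hw1 : ‖w‖ = 1 := by
    rw [hw, norm_smul, norm_inv, norm_norm]
    field_simp
  have hHw : ‖fderiv ℝ (fderiv ℝ h) y w‖ ≤ κ := by
    rw [hw, map_smul, norm_smul, norm_inv, norm_norm]
    rw [inv_mul_le_iff₀ hw0p]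
    linarith
  obtain ⟨q1, hq1, hq1b⟩ := hbig
  have hzc : ContinuousOn z (Icc 0 T) := fun q hq => (hz q hq).continuousWithinAt
  have hdc : ContinuousOn (fun q => fderiv ℝ h (z q)) (Icc 0 T) :=
    ((hh.fderiv_right (m := 1) (by norm_num)).continuous).comp_continuousOn hzc
  set a : ℝ → ℝ := fun q => fderiv ℝ h (z q) w with ha
  set b : ℝ → ℝ := fun q => fderiv ℝ h (z q) (Complex.I * w) with hb
  have hac : ContinuousOn a (Icc 0 T) := hdc.clm_apply continuousOn_const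
  have hbc : ContinuousOn b (Icc 0 T) := hdc.clm_apply continuousOn_const
  have hwsq : w.re * w.re + w.im * w.im = 1 := by
    have := Complex.normSq_eq_norm_sq w
    rw [hw1, Complex.normSq_apply] at this
    linarith
  have hP : ∀ q, grad h (z q) = (a q : ℂ) * w + (b q : ℂ) * (Complex.I * w) := by
    intro q
    have e1 : a q = (grad h (z q)).re * w.re + (grad h (z q)).im * w.im := grad_inner _ _ _
    have e2 : b q = (grad h (z q)).re * (Complex.I * w).re
        + (grad h (z q)).im * (Complex.I * w).im := grad_inner _ _ _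
    rw [e1, e2]
    apply Complex.ext
    · simp
      linear_combination (-(grad h (z q)).re) * hwsq
    · simp
      linear_combination (-(grad h (z q)).im) * hwsq
  have hPn : ∀ q, ‖grad h (z q)‖ ^ 2 = a q ^ 2 + b q ^ 2 := by
    intro q
    have h1 : grad h (z q) = ((a q : ℂ) + (b q : ℂ) * Complex.I) * w := by rw [hP q]; ring
    rw [h1, norm_mul, hw1, mul_one, ← Complex.normSq_eq_norm_sq, Complex.normSq_add_mul_I]
  have hIP : ∀ q, Complex.I * grad h (z q) = a q • (Complex.I * w) - b q • w := by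
    intro q
    rw [hP q]
    simp only [Complex.real_smul]
    linear_combination ((b q : ℂ) * w) * Complex.I_mul_I
  have hda : ∀ q ∈ Icc 0 T, HasDerivWithinAt a (a q * fderiv ℝ (fderiv ℝ h) (z q) w (Complex.I * w)
      - b q * fderiv ℝ (fderiv ℝ h) (z q) w w) (Icc 0 T) q := by
    intro q hq
    have h1 := ((hasFDerivAt_fderiv hh (z q)).comp_hasDerivWithinAt q (hz q hq)).clm_apply
      (hasDerivWithinAt_const q (Icc 0 T) w)
    refine h1.congr_deriv ?_
    rw [hIP q]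
    simp only [map_sub, map_smul, map_zero, add_zero, sub_apply,
      smul_apply, smul_eq_mul]
    rw [symm_fderiv hh (z q) (Complex.I * w) w]
  have hdb : ∀ q ∈ Icc 0 T, HasDerivWithinAt b
      (a q * fderiv ℝ (fderiv ℝ h) (z q) (Complex.I * w) (Complex.I * w)
      - b q * fderiv ℝ (fderiv ℝ h) (z q) w (Complex.I * w)) (Icc 0 T) q := by
    intro q hq
    have h1 := ((hasFDerivAt_fderiv hh (z q)).comp_hasDerivWithinAt q (hz q hq)).clm_apply
      (hasDerivWithinAt_const q (Icc 0 T) (Complex.I * w))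
    refine h1.congr_deriv ?_
    rw [hIP q]
    simp only [map_sub, map_smul, map_zero, add_zero, sub_apply,
      smul_apply, smul_eq_mul]
  -- the Lyapunov function
  set V : ℝ → ℝ := fun q => (M * Y * a q) ^ 2 + b q ^ 2 with hV
  set a' : ℝ → ℝ := fun q => a q * fderiv ℝ (fderiv ℝ h) (z q) w (Complex.I * w)
      - b q * fderiv ℝ (fderiv ℝ h) (z q) w w with ha'
  set b' : ℝ → ℝ := fun q => a q * fderiv ℝ (fderiv ℝ h) (z q) (Complex.I * w) (Complex.I * w)
      - b q * fderiv ℝ (fderiv ℝ h) (z q) w (Complex.I * w) with hb'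
  have hdV : ∀ q ∈ Icc 0 T, HasDerivWithinAt V (2 * (M * Y) ^ 2 * a q * a' q + 2 * b q * b' q)
      (Icc 0 T) q := by
    intro q hq
    have h1 := (((hda q hq).const_mul (M * Y)).fun_pow 2).add ((hdb q hq).fun_pow 2)
    refine h1.congr_deriv ?_
    simp only [ha', hb']
    push_cast
    ring
  have hVc : ContinuousOn V (Icc 0 T) := fun q hq => (hdV q hq).continuousWithinAt
  have hMY : 1 ≤ M * Y := by nlinarith
  have hMY2 : 1 ≤ (M * Y) ^ 2 := one_le_pow₀ hMY
  have hIw : ‖Complex.I * w‖ = 1 := by simp [hw1]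
  have hgc : ContinuousOn (fun q => ‖grad h (z q)‖) (Icc 0 T) := by
    have : (fun q => ‖grad h (z q)‖) = fun q => ‖fderiv ℝ h (z q)‖ := by
      funext q; exact norm_grad_eq _ _
    rw [this]
    exact hdc.norm
  have hmain : ∀ q ∈ Icc 0 T, ‖grad h (z q)‖ < ρ := by
    refine cont_ind hgc ?_
    intro q hq hτ
    have hdist : ∀ s ∈ Icc 0 q, ‖z s - y‖ ≤ Y * ρ := by
      intro s hs
      have h1 := norm_image_sub_le_of_norm_deriv_right_le_segment
        (f := z) (f' := fun r => Complex.I * grad h (z r)) (a := 0) (b := q) (C := ρ)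
        (hzc.mono (Icc_subset_Icc_right hq.2))
        (fun r hr => within_Ici (hz r ⟨hr.1, hr.2.le.trans hq.2⟩) ⟨hr.1, hr.2.trans_le hq.2⟩)
        (fun r hr => by
          have := (hτ r hr).le
          simpa using this) s hs
      rw [hz0] at h1
      refine h1.trans ?_
      have h2 : s ≤ Y := hs.2.trans (hq.2.trans hTY)
      have h3 : 0 ≤ s := hs.1
      nlinarith
    have hest : ∀ s ∈ Ico 0 q, ‖2 * (M * Y) ^ 2 * a s * a' s + 2 * b s * b' s‖
        ≤ 4 / Y * ‖V s‖ + 0 := by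
      intro s hs
      have hs' : s ∈ Icc 0 q := Ico_subset_Icc_self hs
      have h1 := hmod (z s) (hdist s hs')
      have h2 : ‖fderiv ℝ (fderiv ℝ h) (z s) w‖ ≤ 2 * κ := by
        have h3 : fderiv ℝ (fderiv ℝ h) (z s) w
            = (fderiv ℝ (fderiv ℝ h) (z s) - fderiv ℝ (fderiv ℝ h) y) w
              + fderiv ℝ (fderiv ℝ h) y w := by simp
        rw [h3]
        refine (norm_add_le _ _).trans ?_
        have h4 := ContinuousLinearMap.le_opNorm
          (fderiv ℝ (fderiv ℝ h) (z s) - fderiv ℝ (fderiv ℝ h) y) w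
        rw [hw1, mul_one] at h4
        linarith
      have h5 : |fderiv ℝ (fderiv ℝ h) (z s) w (Complex.I * w)| ≤ 2 * κ := by
        have := ContinuousLinearMap.le_opNorm (fderiv ℝ (fderiv ℝ h) (z s) w) (Complex.I * w)
        rw [hIw, mul_one, Real.norm_eq_abs] at this
        linarith
      have h6 : |fderiv ℝ (fderiv ℝ h) (z s) w w| ≤ 2 * κ := by
        have := ContinuousLinearMap.le_opNorm (fderiv ℝ (fderiv ℝ h) (z s) w) w
        rw [hw1, mul_one, Real.norm_eq_abs] at this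
        linarith
      have h7 : |fderiv ℝ (fderiv ℝ h) (z s) (Complex.I * w) (Complex.I * w)| ≤ M := by
        have e1 := ContinuousLinearMap.le_opNorm
          (fderiv ℝ (fderiv ℝ h) (z s) (Complex.I * w)) (Complex.I * w)
        have e2 := ContinuousLinearMap.le_opNorm (fderiv ℝ (fderiv ℝ h) (z s)) (Complex.I * w)
        rw [hIw, mul_one] at e1 e2
        rw [Real.norm_eq_abs] at e1
        linarith [hB (z s)]
      set A := |a s| with hA
      set B := |b s| with hBd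
      have hA0 : 0 ≤ A := abs_nonneg _
      have hB0 : 0 ≤ B := abs_nonneg _
      have h8 : |a' s| ≤ 2 * κ * (A + B) := by
        simp only [ha']
        refine (abs_sub _ _).trans ?_
        rw [abs_mul, abs_mul]
        nlinarith
      have h9 : |b' s| ≤ M * A + 2 * κ * B := by
        simp only [hb']
        refine (abs_sub _ _).trans ?_
        rw [abs_mul, abs_mul]
        nlinarith
      have hVs : V s = (M * Y * A) ^ 2 + B ^ 2 := by
        have ea : A ^ 2 = a s ^ 2 := sq_abs _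
        have eb : B ^ 2 = b s ^ 2 := sq_abs _
        rw [mul_pow, ea, eb]
        simp only [hV]
        ring
      have hV0 : 0 ≤ V s := by rw [hVs]; positivity
      rw [Real.norm_eq_abs, Real.norm_eq_abs, abs_of_nonneg hV0, add_zero, hVs]
      have h10 : |2 * (M * Y) ^ 2 * a s * a' s + 2 * b s * b' s|
          ≤ 2 * (M * Y) ^ 2 * A * |a' s| + 2 * B * |b' s| := by
        refine (abs_add_le _ _).trans ?_
        rw [abs_mul, abs_mul, abs_mul, abs_mul, abs_mul, abs_of_nonneg (a := (2 : ℝ)) (by norm_num),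
          abs_of_nonneg (a := (M * Y) ^ 2) (by positivity)]
      exact h10.trans (kl_ineq hM hY hκ0 hκ hA0 hB0 h8 h9)
    have hgr := norm_le_gronwallBound_of_norm_deriv_right_le (f := V)
      (f' := fun s => 2 * (M * Y) ^ 2 * a s * a' s + 2 * b s * b' s) (δ := ‖V 0‖) (K := 4 / Y)
      (ε := 0) (a := 0) (b := q) (hVc.mono (Icc_subset_Icc_right hq.2))
      (fun r hr => within_Ici (hdV r ⟨hr.1, hr.2.le.trans hq.2⟩) ⟨hr.1, hr.2.trans_le hq.2⟩)
      le_rfl hest q ⟨hq.1, le_rfl⟩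
    rw [gronwallBound_ε0, sub_zero] at hgr
    have hY0 : 0 < Y := by linarith
    have hexp : Real.exp (4 / Y * q) ≤ 64 := by
      have h1 : 4 / Y * q ≤ 4 := by
        rw [div_mul_eq_mul_div, div_le_iff₀ hY0]
        nlinarith [hq.2]
      have h2 : Real.exp 4 ≤ 64 := by
        have h3 : Real.exp 4 = Real.exp 1 ^ 4 := by
          rw [← Real.exp_nat_mul]; norm_num
        rw [h3]
        have h4 : Real.exp 1 < 2.7182818286 := Real.exp_one_lt_d9
        have h5 : Real.exp 1 ^ 4 ≤ (2.7182818286 : ℝ) ^ 4 := by gcongr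
        refine h5.trans ?_
        norm_num
      exact (Real.exp_le_exp.mpr h1).trans h2
    have hVq0 : 0 ≤ V q := by simp only [hV]; positivity
    have hV00 : 0 ≤ V 0 := by simp only [hV]; positivity
    rw [Real.norm_eq_abs, Real.norm_eq_abs, abs_of_nonneg hVq0, abs_of_nonneg hV00] at hgr
    have h3 : ‖grad h (z q)‖ ^ 2 ≤ V q := by
      rw [hPn q]
      simp only [hV]
      have : a q ^ 2 ≤ (M * Y * a q) ^ 2 := by
        rw [mul_pow]
        exact le_mul_of_one_le_left (sq_nonneg _) hMY2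
      linarith
    have h4 : V 0 ≤ (M * Y) ^ 2 * ‖grad h y‖ ^ 2 := by
      rw [← hz0, hPn 0]
      simp only [hV]
      have : b 0 ^ 2 ≤ (M * Y) ^ 2 * b 0 ^ 2 := le_mul_of_one_le_left (sq_nonneg _) hMY2
      rw [mul_pow]
      linarith
    have h5 : ‖grad h (z q)‖ ^ 2 ≤ (8 * M * Y * ‖grad h y‖) ^ 2 := by
      calc ‖grad h (z q)‖ ^ 2 ≤ V 0 * Real.exp (4 / Y * q) := h3.trans hgr
        _ ≤ V 0 * 64 := by gcongr
        _ ≤ (M * Y) ^ 2 * ‖grad h y‖ ^ 2 * 64 := by gcongr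
        _ = _ := by ring
    have h6 : ‖grad h (z q)‖ ≤ 8 * M * Y * ‖grad h y‖ := by
      have h7 : 0 ≤ 8 * M * Y * ‖grad h y‖ := by positivity
      exact (abs_le_of_sq_le_sq' h5 h7).2
    exact h6.trans_lt hsmall
  exact absurd hq1b (not_le.mpr (hmain q1 hq1))

/-- The slow case: a closed contour with a small gradient everywhere and moderate leaf time also
forces a nondegenerate Hessian. -/
theorem key_lemma_slow {h : ℂ → ℝ} (hh : ContDiff ℝ 2 h) {M Y κ ρ : ℝ} (hM : 1 ≤ M) (hY : 1 ≤ Y)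
    (hκ0 : 0 < κ) (hκ : 16 * M * Y ^ 2 * κ ≤ 1)
    (hB : ∀ x, ‖fderiv ℝ (fderiv ℝ h) x‖ ≤ M) {y : ℂ}
    (hmod : ∀ x, ‖x - y‖ ≤ Y * ρ → ‖fderiv ℝ (fderiv ℝ h) x - fderiv ℝ (fderiv ℝ h) y‖ ≤ κ)
    {T : ℝ} (hT0 : 0 < T) (hTY : T ≤ Y) {z : ℝ → ℂ} (hz0 : z 0 = y) (hzT : z T = y)
    (hz : ∀ q ∈ Icc 0 T, HasDerivWithinAt z (Complex.I * grad h (z q)) (Icc 0 T) q)
    (hne : fderiv ℝ h y ≠ 0) (hslow : ∀ q ∈ Icc 0 T, ‖grad h (z q)‖ < ρ) :
    ∀ w : ℂ, κ * ‖w‖ ≤ ‖fderiv ℝ (fderiv ℝ h) y w‖ := by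
  by_contra hcon
  push Not at hcon
  obtain ⟨w0, hw0⟩ := hcon
  have hw0n : w0 ≠ 0 := by
    rintro rfl
    simp at hw0
  have hw0p : 0 < ‖w0‖ := norm_pos_iff.mpr hw0n
  set w : ℂ := (‖w0‖⁻¹ : ℝ) • w0 with hw
  have hw1 : ‖w‖ = 1 := by
    rw [hw, norm_smul, norm_inv, norm_norm]
    field_simp
  have hHw : ‖fderiv ℝ (fderiv ℝ h) y w‖ ≤ κ := by
    rw [hw, map_smul, norm_smul, norm_inv, norm_norm]
    rw [inv_mul_le_iff₀ hw0p]
    linarith
  have hzc : ContinuousOn z (Icc 0 T) := fun q hq => (hz q hq).continuousWithinAt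
  have hdc : ContinuousOn (fun q => fderiv ℝ h (z q)) (Icc 0 T) :=
    ((hh.fderiv_right (m := 1) (by norm_num)).continuous).comp_continuousOn hzc
  set a : ℝ → ℝ := fun q => fderiv ℝ h (z q) w with ha
  set b : ℝ → ℝ := fun q => fderiv ℝ h (z q) (Complex.I * w) with hb
  have hac : ContinuousOn a (Icc 0 T) := hdc.clm_apply continuousOn_const
  have hbc : ContinuousOn b (Icc 0 T) := hdc.clm_apply continuousOn_const
  have hwsq : w.re * w.re + w.im * w.im = 1 := by
    have := Complex.normSq_eq_norm_sq w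
    rw [hw1, Complex.normSq_apply] at this
    linarith
  have hP : ∀ q, grad h (z q) = (a q : ℂ) * w + (b q : ℂ) * (Complex.I * w) := by
    intro q
    have e1 : a q = (grad h (z q)).re * w.re + (grad h (z q)).im * w.im := grad_inner _ _ _
    have e2 : b q = (grad h (z q)).re * (Complex.I * w).re
        + (grad h (z q)).im * (Complex.I * w).im := grad_inner _ _ _
    rw [e1, e2]
    apply Complex.ext
    · simp
      linear_combination (-(grad h (z q)).re) * hwsq
    · simp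
      linear_combination (-(grad h (z q)).im) * hwsq
  have hIP : ∀ q, Complex.I * grad h (z q) = a q • (Complex.I * w) - b q • w := by
    intro q
    rw [hP q]
    simp only [Complex.real_smul]
    linear_combination ((b q : ℂ) * w) * Complex.I_mul_I
  set a' : ℝ → ℝ := fun q => a q * fderiv ℝ (fderiv ℝ h) (z q) w (Complex.I * w)
      - b q * fderiv ℝ (fderiv ℝ h) (z q) w w with ha'
  set b' : ℝ → ℝ := fun q => a q * fderiv ℝ (fderiv ℝ h) (z q) (Complex.I * w) (Complex.I * w)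
      - b q * fderiv ℝ (fderiv ℝ h) (z q) w (Complex.I * w) with hb'
  have hda : ∀ q ∈ Icc 0 T, HasDerivWithinAt a (a' q) (Icc 0 T) q := by
    intro q hq
    have h1 := ((hasFDerivAt_fderiv hh (z q)).comp_hasDerivWithinAt q (hz q hq)).clm_apply
      (hasDerivWithinAt_const q (Icc 0 T) w)
    refine h1.congr_deriv ?_
    rw [hIP q]
    simp only [map_sub, map_smul, map_zero, add_zero, sub_apply,
      smul_apply, smul_eq_mul, ha']
    rw [symm_fderiv hh (z q) (Complex.I * w) w]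
  have hdb : ∀ q ∈ Icc 0 T, HasDerivWithinAt b (b' q) (Icc 0 T) q := by
    intro q hq
    have h1 := ((hasFDerivAt_fderiv hh (z q)).comp_hasDerivWithinAt q (hz q hq)).clm_apply
      (hasDerivWithinAt_const q (Icc 0 T) (Complex.I * w))
    refine h1.congr_deriv ?_
    rw [hIP q]
    simp only [map_sub, map_smul, map_zero, add_zero, sub_apply,
      smul_apply, smul_eq_mul, hb']
  -- zeros of `a` and `b` by Rolle
  have hIw : ‖Complex.I * w‖ = 1 := by simp [hw1]
  have hzint : ∀ q ∈ Ioo 0 T, HasDerivAt z (a q • (Complex.I * w) - b q • w) q := by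
    intro q hq
    rw [← hIP q]
    exact (hz q (Ioo_subset_Icc_self hq)).hasDerivAt (Icc_mem_nhds hq.1 hq.2)
  have hza : ∃ q ∈ Icc 0 T, a q = 0 := by
    have hd : ∀ q ∈ Ioo 0 T, HasDerivAt (fun q => (z q * conj (Complex.I * w)).re) (a q) q := by
      intro q hq
      have h1 := Complex.reCLM.hasFDerivAt.comp_hasDerivAt q
        ((hzint q hq).mul_const (conj (Complex.I * w)))
      refine h1.congr_deriv ?_
      simp
      linear_combination (a q) * hwsq
    have hc : ContinuousOn (fun q => (z q * conj (Complex.I * w)).re) (Icc 0 T) :=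
      Complex.continuous_re.comp_continuousOn (hzc.mul continuousOn_const)
    obtain ⟨q, hq, hq0⟩ := exists_hasDerivAt_eq_zero hT0 hc (by simp only [hz0, hzT]) hd
    exact ⟨q, Ioo_subset_Icc_self hq, hq0⟩
  have hzb : ∃ q ∈ Icc 0 T, b q = 0 := by
    have hd : ∀ q ∈ Ioo 0 T, HasDerivAt (fun q => (z q * conj (-w)).re) (b q) q := by
      intro q hq
      have h1 := Complex.reCLM.hasFDerivAt.comp_hasDerivAt q
        ((hzint q hq).mul_const (conj (-w)))
      refine h1.congr_deriv ?_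
      simp
      linear_combination (b q) * hwsq
    have hc : ContinuousOn (fun q => (z q * conj (-w)).re) (Icc 0 T) :=
      Complex.continuous_re.comp_continuousOn (hzc.mul continuousOn_const)
    obtain ⟨q, hq, hq0⟩ := exists_hasDerivAt_eq_zero hT0 hc (by simp only [hz0, hzT]) hd
    exact ⟨q, Ioo_subset_Icc_self hq, hq0⟩
  obtain ⟨qa, hqa, hqa0⟩ := hza
  obtain ⟨qb, hqb, hqb0⟩ := hzb
  -- the orbit stays close to `y`
  have hρ0 : 0 < ρ := (norm_nonneg _).trans_lt (hslow 0 ⟨le_rfl, hT0.le⟩)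
  have hdist : ∀ s ∈ Icc 0 T, ‖z s - y‖ ≤ Y * ρ := by
    intro s hs
    have h1 := norm_image_sub_le_of_norm_deriv_right_le_segment
      (f := z) (f' := fun r => Complex.I * grad h (z r)) (a := 0) (b := T) (C := ρ)
      hzc (fun r hr => within_Ici (hz r (Ico_subset_Icc_self hr)) hr)
      (fun r hr => by
        have := (hslow r (Ico_subset_Icc_self hr)).le
        simpa using this) s hs
    rw [hz0] at h1
    refine h1.trans ?_
    have h2 : s ≤ Y := hs.2.trans hTY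
    have h3 : 0 ≤ s := hs.1
    nlinarith
  -- maxima
  obtain ⟨sa, hsa, hmaxa⟩ := isCompact_Icc.exists_isMaxOn (nonempty_Icc.mpr hT0.le) hac.abs
  obtain ⟨sb, hsb, hmaxb⟩ := isCompact_Icc.exists_isMaxOn (nonempty_Icc.mpr hT0.le) hbc.abs
  set A := |a sa| with hA
  set B := |b sb| with hBd
  have hA0 : 0 ≤ A := abs_nonneg _
  have hB0 : 0 ≤ B := abs_nonneg _
  have hest : ∀ s ∈ Icc 0 T, |a' s| ≤ 2 * κ * (A + B) ∧ |b' s| ≤ M * A + 2 * κ * B := by
    intro s hs
    have hA' : |a s| ≤ A := hmaxa hs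
    have hB' : |b s| ≤ B := hmaxb hs
    have h1 := hmod (z s) (hdist s hs)
    have h2 : ‖fderiv ℝ (fderiv ℝ h) (z s) w‖ ≤ 2 * κ := by
      have h3 : fderiv ℝ (fderiv ℝ h) (z s) w
          = (fderiv ℝ (fderiv ℝ h) (z s) - fderiv ℝ (fderiv ℝ h) y) w
            + fderiv ℝ (fderiv ℝ h) y w := by simp
      rw [h3]
      refine (norm_add_le _ _).trans ?_
      have h4 := ContinuousLinearMap.le_opNorm
        (fderiv ℝ (fderiv ℝ h) (z s) - fderiv ℝ (fderiv ℝ h) y) w
      rw [hw1, mul_one] at h4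
      linarith
    have h5 : |fderiv ℝ (fderiv ℝ h) (z s) w (Complex.I * w)| ≤ 2 * κ := by
      have := ContinuousLinearMap.le_opNorm (fderiv ℝ (fderiv ℝ h) (z s) w) (Complex.I * w)
      rw [hIw, mul_one, Real.norm_eq_abs] at this
      linarith
    have h6 : |fderiv ℝ (fderiv ℝ h) (z s) w w| ≤ 2 * κ := by
      have := ContinuousLinearMap.le_opNorm (fderiv ℝ (fderiv ℝ h) (z s) w) w
      rw [hw1, mul_one, Real.norm_eq_abs] at this
      linarith
    have h7 : |fderiv ℝ (fderiv ℝ h) (z s) (Complex.I * w) (Complex.I * w)| ≤ M := by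
      have e1 := ContinuousLinearMap.le_opNorm
        (fderiv ℝ (fderiv ℝ h) (z s) (Complex.I * w)) (Complex.I * w)
      have e2 := ContinuousLinearMap.le_opNorm (fderiv ℝ (fderiv ℝ h) (z s)) (Complex.I * w)
      rw [hIw, mul_one] at e1 e2
      rw [Real.norm_eq_abs] at e1
      linarith [hB (z s)]
    constructor
    · simp only [ha']
      refine (abs_sub _ _).trans ?_
      rw [abs_mul, abs_mul]
      have t1 : |a s| * |fderiv ℝ (fderiv ℝ h) (z s) w (Complex.I * w)| ≤ A * (2 * κ) := by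
        gcongr
      have t2 : |b s| * |fderiv ℝ (fderiv ℝ h) (z s) w w| ≤ B * (2 * κ) := by gcongr
      linarith
    · simp only [hb']
      refine (abs_sub _ _).trans ?_
      rw [abs_mul, abs_mul]
      have t1 : |a s| * |fderiv ℝ (fderiv ℝ h) (z s) (Complex.I * w) (Complex.I * w)| ≤ A * M := by
        gcongr
      have t2 : |b s| * |fderiv ℝ (fderiv ℝ h) (z s) w (Complex.I * w)| ≤ B * (2 * κ) := by gcongr
      linarith
  have hY0 : 0 < Y := by linarith
  have hM0 : 0 < M := by linarith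
  have hAle : A ≤ 2 * κ * (A + B) * Y := by
    have h1 := (convex_Icc 0 T).norm_image_sub_le_of_norm_hasDerivWithin_le
      (fun q hq => hda q hq) (fun q hq => by rw [Real.norm_eq_abs]; exact (hest q hq).1) hqa hsa
    rw [hqa0, sub_zero, Real.norm_eq_abs, Real.norm_eq_abs] at h1
    refine h1.trans ?_
    have h2 : |sa - qa| ≤ Y := by
      rw [abs_le]; constructor <;> linarith [hsa.1, hsa.2, hqa.1, hqa.2]
    gcongr
  have hBle : B ≤ (M * A + 2 * κ * B) * Y := by
    have h1 := (convex_Icc 0 T).norm_image_sub_le_of_norm_hasDerivWithin_le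
      (fun q hq => hdb q hq) (fun q hq => by rw [Real.norm_eq_abs]; exact (hest q hq).2) hqb hsb
    rw [hqb0, sub_zero, Real.norm_eq_abs, Real.norm_eq_abs] at h1
    refine h1.trans ?_
    have h2 : |sb - qb| ≤ Y := by
      rw [abs_le]; constructor <;> linarith [hsb.1, hsb.2, hqb.1, hqb.2]
    gcongr
  -- conclude `A = B = 0`
  have hk : 2 * κ * Y ≤ 1 / 8 := by
    have h1 : 16 * Y * κ ≤ 16 * M * Y ^ 2 * κ := by
      have : Y ≤ M * Y ^ 2 := by nlinarith
      nlinarith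
    linarith
  have hAle2 : A ≤ 3 * κ * Y * B := by
    have h1 : 2 * κ * (A + B) * Y = (2 * κ * Y) * A + 2 * κ * Y * B := by ring
    have h2 : (2 * κ * Y) * A ≤ 1 / 8 * A := by gcongr
    have h3 : A * (7 / 8) ≤ 2 * κ * Y * B := by linarith
    have h4 : 0 ≤ κ * Y * B := by positivity
    linarith
  have hBle2 : B * (7 / 8) ≤ M * Y * A := by
    have h1 : (M * A + 2 * κ * B) * Y = M * Y * A + (2 * κ * Y) * B := by ring
    have h2 : (2 * κ * Y) * B ≤ 1 / 8 * B := by gcongr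
    linarith
  have hBz : B ≤ 0 := by
    have h1 : M * Y * A ≤ M * Y * (3 * κ * Y * B) := by gcongr
    have h2 : M * Y * (3 * κ * Y * B) = (16 * M * Y ^ 2 * κ) * (3 / 16 * B) := by ring
    have h3 : (16 * M * Y ^ 2 * κ) * (3 / 16 * B) ≤ 1 * (3 / 16 * B) := by gcongr
    linarith
  have hB0' : B = 0 := le_antisymm hBz hB0
  have hA0' : A = 0 := by
    rw [hB0'] at hAle2
    linarith
  have h0mem : (0 : ℝ) ∈ Icc 0 T := ⟨le_rfl, hT0.le⟩
  have ha0 : a 0 = 0 := by
    have : |a 0| ≤ A := hmaxa h0mem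
    rw [hA0'] at this
    exact abs_eq_zero.mp (le_antisymm this (abs_nonneg _))
  have hb0 : b 0 = 0 := by
    have : |b 0| ≤ B := hmaxb h0mem
    rw [hB0'] at this
    exact abs_eq_zero.mp (le_antisymm this (abs_nonneg _))
  have hg0 : grad h y = 0 := by
    rw [← hz0, hP 0, ha0, hb0]; simp
  apply hne
  have := norm_grad_eq h y
  rw [hg0, norm_zero] at this
  exact norm_eq_zero.mp this.symm

/-- A closed contour of moderate leaf time through a point with tiny, nonzero gradient forces a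
nondegenerate Hessian at that point. -/
theorem key_lemma_closed {h : ℂ → ℝ} (hh : ContDiff ℝ 2 h) {M Y κ ρ : ℝ} (hM : 1 ≤ M)
    (hY : 1 ≤ Y) (hκ0 : 0 < κ) (hκ : 16 * M * Y ^ 2 * κ ≤ 1) (hρ0 : 0 < ρ)
    (hB : ∀ x, ‖fderiv ℝ (fderiv ℝ h) x‖ ≤ M) {y : ℂ}
    (hmod : ∀ x, ‖x - y‖ ≤ Y * ρ → ‖fderiv ℝ (fderiv ℝ h) x - fderiv ℝ (fderiv ℝ h) y‖ ≤ κ)
    {T : ℝ} (hT0 : 0 < T) (hTY : T ≤ Y) {z : ℝ → ℂ} (hz0 : z 0 = y) (hzT : z T = y)
    (hz : ∀ q ∈ Icc 0 T, HasDerivWithinAt z (Complex.I * grad h (z q)) (Icc 0 T) q)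
    (hne : fderiv ℝ h y ≠ 0) (hsmall : 8 * M * Y * ‖grad h y‖ < ρ) :
    ∀ w : ℂ, κ * ‖w‖ ≤ ‖fderiv ℝ (fderiv ℝ h) y w‖ := by
  by_cases hbig : ∃ q ∈ Icc 0 T, ρ ≤ ‖grad h (z q)‖
  · have hκ' : 4 * M * Y ^ 2 * κ ≤ 1 := by
      have : 0 ≤ M * Y ^ 2 * κ := by positivity
      linarith
    exact key_lemma hh hM hY hκ0 hκ' hρ0 hB hmod hTY hz0 hz hsmall hbig
  · push Not at hbig
    exact key_lemma_slow hh hM hY hκ0 hκ hB hmod hT0 hTY hz0 hzT hz hne hbig

end Run7.h772
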