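import Mathlib
import Pool.Agent.Run7.h772.Contour

open Set Metric Filter MeasureTheory
open scoped ContDiff Topology ComplexConjugate ENNReal

namespace Run7.h772

/-- Two nearby almost critical points, one of them with nondegenerate Hessian. -/
theorem two_points {h : ℂ → ℝ} (hh : ContDiff ℝ 2 h) {M κ δ r : ℝ} (hκ0 : 0 < κ) (hκM : κ ≤ M)
    (hδ : 0 ≤ δ)
    (hB : ∀ x, ‖fderiv ℝ (fderiv ℝ h) x‖ ≤ M) {y1 y2 : ℂ}
    (hmod : ∀ x, ‖x - y1‖ ≤ r → ‖fderiv ℝ (fderiv ℝ h) x - fderiv ℝ (fderiv ℝ h) y1‖ ≤ κ / 2)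
    (hnd : ∀ w : ℂ, κ * ‖w‖ ≤ ‖fderiv ℝ (fderiv ℝ h) y1 w‖)
    (h1 : ‖fderiv ℝ h y1‖ ≤ δ) (h2 : ‖fderiv ℝ h y2‖ ≤ δ) (h12 : ‖y2 - y1‖ ≤ r) :
    |h y2 - h y1| ≤ 20 * M * δ ^ 2 / κ ^ 2 := by
  have hM0 : 0 < M := hκ0.trans_le hκM
  have hr0 : 0 ≤ r := (norm_nonneg _).trans h12
  have hy2 : y2 ∈ closedBall y1 r := by simpa [mem_closedBall, dist_eq_norm] using h12
  have hT : ‖fderiv ℝ h y2 - fderiv ℝ h y1 - fderiv ℝ (fderiv ℝ h) y1 (y2 - y1)‖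
      ≤ κ / 2 * ‖y2 - y1‖ := by
    refine (convex_closedBall y1 r).norm_image_sub_le_of_norm_hasFDerivWithin_le'
      (f' := fun x => fderiv ℝ (fderiv ℝ h) x)
      (fun x _ => (hasFDerivAt_fderiv hh x).hasFDerivWithinAt)
      (fun x hx => hmod x (by simpa [mem_closedBall, dist_eq_norm] using hx))
      (mem_closedBall_self hr0) hy2
  have h3 : κ * ‖y2 - y1‖ ≤ 2 * δ + κ / 2 * ‖y2 - y1‖ := by
    refine (hnd (y2 - y1)).trans ?_
    have e : fderiv ℝ (fderiv ℝ h) y1 (y2 - y1) = (fderiv ℝ h y2 - fderiv ℝ h y1)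
        - (fderiv ℝ h y2 - fderiv ℝ h y1 - fderiv ℝ (fderiv ℝ h) y1 (y2 - y1)) := by abel
    rw [e]
    refine (norm_sub_le _ _).trans ?_
    have h4 := norm_sub_le (fderiv ℝ h y2) (fderiv ℝ h y1)
    linarith
  have h5 : ‖y2 - y1‖ ≤ 4 * δ / κ := by
    rw [le_div_iff₀ hκ0]
    linarith
  set Δ := ‖y2 - y1‖ with hΔ
  have hΔ0 : 0 ≤ Δ := norm_nonneg _
  -- gradient bound on the segment ball
  have h6 : ∀ x ∈ closedBall y1 Δ, ‖fderiv ℝ h x‖ ≤ δ + M * Δ := by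
    intro x hx
    have hx' : ‖x - y1‖ ≤ Δ := by simpa [mem_closedBall, dist_eq_norm] using hx
    have h7 : ‖fderiv ℝ h x - fderiv ℝ h y1‖ ≤ M * ‖x - y1‖ :=
      (convex_univ (𝕜 := ℝ) (E := ℂ)).norm_image_sub_le_of_norm_hasFDerivWithin_le
        (f' := fun x => fderiv ℝ (fderiv ℝ h) x)
        (fun x _ => (hasFDerivAt_fderiv hh x).hasFDerivWithinAt)
        (fun x _ => hB x) (mem_univ _) (mem_univ _)
    have h8 : ‖fderiv ℝ h x‖ ≤ ‖fderiv ℝ h x - fderiv ℝ h y1‖ + ‖fderiv ℝ h y1‖ := by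
      have : fderiv ℝ h x = (fderiv ℝ h x - fderiv ℝ h y1) + fderiv ℝ h y1 := by abel
      conv_lhs => rw [this]
      exact norm_add_le _ _
    have h9 : M * ‖x - y1‖ ≤ M * Δ := by gcongr
    linarith
  have h10 : ‖h y2 - h y1‖ ≤ (δ + M * Δ) * ‖y2 - y1‖ := by
    refine (convex_closedBall y1 Δ).norm_image_sub_le_of_norm_hasFDerivWithin_le
      (f' := fun x => fderiv ℝ h x)
      (fun x _ => ((hh.differentiable (by norm_num)) x).hasFDerivAt.hasFDerivWithinAt)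
      h6 (mem_closedBall_self hΔ0) ?_
    simp [mem_closedBall, dist_eq_norm, hΔ]
  rw [← Real.norm_eq_abs]
  refine h10.trans ?_
  have h11 : M * Δ ≤ 4 * M * δ / κ := by
    calc M * Δ ≤ M * (4 * δ / κ) := by gcongr
      _ = _ := by ring
  have h12' : δ ≤ M * δ / κ := by
    rw [le_div_iff₀ hκ0]; nlinarith
  calc (δ + M * Δ) * ‖y2 - y1‖ ≤ (M * δ / κ + 4 * M * δ / κ) * (4 * δ / κ) := by gcongr
    _ = 20 * M * δ ^ 2 / κ ^ 2 := by field_simp; ring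

/-- Covering the values on a bounded set by finitely many intervals. -/
theorem cover_values {h : ℂ → ℝ} {P : Set ℂ} {R r ℓ : ℝ} (hR : 1 ≤ R) (hr0 : 0 < r) (hr1 : r ≤ 1)
    (hP : ∀ y ∈ P, ‖y‖ ≤ R)
    (hl : ∀ y1 ∈ P, ∀ y2 ∈ P, ‖y2 - y1‖ ≤ r → |h y2 - h y1| ≤ ℓ) :
    ∃ E : Set ℝ, MeasurableSet E ∧ (∀ y ∈ P, h y ∈ E) ∧
      volume E ≤ ENNReal.ofReal (98 * R ^ 2 / r ^ 2 * ℓ) := by
  classical
  by_cases hPne : P.Nonempty
  swap
  · rw [not_nonempty_iff_eq_empty] at hPne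
    exact ⟨∅, MeasurableSet.empty, by simp [hPne], by simp⟩
  have hℓ : 0 ≤ ℓ := by
    obtain ⟨y, hy⟩ := hPne
    have := hl y hy y hy (by simpa using hr0.le)
    exact (abs_nonneg _).trans this
  set N : ℤ := ⌈2 * R / r⌉ with hN
  set idx : ℂ → ℤ × ℤ := fun y => (⌊2 * y.re / r⌋, ⌊2 * y.im / r⌋) with hidx
  set F : Finset (ℤ × ℤ) := Finset.Icc (-N) N ×ˢ Finset.Icc (-N) N with hF
  have hfl : ∀ a : ℝ, |a| ≤ R → ⌊2 * a / r⌋ ∈ Finset.Icc (-N) N := by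
    intro a ha
    have h1 : |2 * a / r| ≤ 2 * R / r := by
      rw [abs_div, abs_mul, abs_of_pos hr0, abs_of_pos (by norm_num : (0 : ℝ) < 2)]
      gcongr
    have h2 : 2 * R / r ≤ N := Int.le_ceil _
    have h3 := abs_le.mp (h1.trans h2)
    rw [Finset.mem_Icc]
    constructor
    · rw [Int.le_floor]; push_cast; exact h3.1
    · have : (⌊2 * a / r⌋ : ℝ) ≤ N := (Int.floor_le _).trans h3.2
      exact_mod_cast this
  have hmem : ∀ y ∈ P, idx y ∈ F := by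
    intro y hy
    rw [hF, Finset.mem_product]
    exact ⟨hfl _ ((Complex.abs_re_le_norm y).trans (hP y hy)),
      hfl _ ((Complex.abs_im_le_norm y).trans (hP y hy))⟩
  -- same cell means close
  have hclose1 : ∀ a b : ℝ, ⌊2 * a / r⌋ = ⌊2 * b / r⌋ → |a - b| ≤ r / 2 := by
    intro a b hab
    have h1 : |2 * a / r - 2 * b / r| < 1 := Int.abs_sub_lt_one_of_floor_eq_floor hab
    have h2 : 2 * a / r - 2 * b / r = (a - b) * (2 / r) := by ring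
    rw [h2, abs_mul, abs_of_pos (by positivity : 0 < 2 / r)] at h1
    have h3 : |a - b| * (2 / r) * (r / 2) < 1 * (r / 2) := by gcongr
    have h4 : |a - b| * (2 / r) * (r / 2) = |a - b| := by field_simp
    linarith
  have hclose : ∀ y1 y2 : ℂ, idx y1 = idx y2 → ‖y2 - y1‖ ≤ r := by
    intro y1 y2 h12
    have h1 : ⌊2 * y1.re / r⌋ = ⌊2 * y2.re / r⌋ := congrArg Prod.fst h12
    have h2 : ⌊2 * y1.im / r⌋ = ⌊2 * y2.im / r⌋ := congrArg Prod.snd h12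
    have h3 := hclose1 _ _ h1.symm
    have h4 := hclose1 _ _ h2.symm
    have h5 := Complex.norm_le_abs_re_add_abs_im (y2 - y1)
    simp only [Complex.sub_re, Complex.sub_im] at h5
    linarith
  -- representative values
  set rep : ℤ × ℤ → ℂ := fun c => if hc : ∃ y ∈ P, idx y = c then hc.choose else 0 with hrep
  have hreps : ∀ y ∈ P, rep (idx y) ∈ P ∧ idx (rep (idx y)) = idx y := by
    intro y hy
    have hc : ∃ y' ∈ P, idx y' = idx y := ⟨y, hy, rfl⟩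
    have : rep (idx y) = hc.choose := by simp only [hrep]; rw [dif_pos hc]
    rw [this]
    exact hc.choose_spec
  refine ⟨⋃ c ∈ F, Icc (h (rep c) - ℓ) (h (rep c) + ℓ), ?_, ?_, ?_⟩
  · exact Finset.measurableSet_biUnion F (fun c _ => measurableSet_Icc)
  · intro y hy
    obtain ⟨h1, h2⟩ := hreps y hy
    have h3 := hl _ h1 _ hy (hclose _ _ h2)
    rw [mem_iUnion₂]
    refine ⟨idx y, hmem y hy, ?_⟩
    have := abs_le.mp h3
    exact ⟨by linarith, by linarith⟩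
  · refine (measure_biUnion_finset_le F _).trans ?_
    have h1 : ∀ c ∈ F, volume (Icc (h (rep c) - ℓ) (h (rep c) + ℓ)) = ENNReal.ofReal (2 * ℓ) := by
      intro c _
      rw [Real.volume_Icc]
      congr 1
      ring
    rw [Finset.sum_congr rfl h1, Finset.sum_const, nsmul_eq_mul]
    have hN0 : 0 ≤ N := by
      rw [hN]
      exact Int.ceil_nonneg (by positivity)
    have hcard : (F.card : ℝ) = (2 * N + 1) ^ 2 := by
      have h2 : (Finset.Icc (-N) N).card = (2 * N + 1).toNat := by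
        rw [Int.card_Icc]; congr 1; ring
      have h3 : ((2 * N + 1).toNat : ℝ) = 2 * N + 1 := by
        have : ((2 * N + 1).toNat : ℤ) = 2 * N + 1 := Int.toNat_of_nonneg (by omega)
        exact_mod_cast congrArg (Int.cast : ℤ → ℝ) this
      rw [hF, Finset.card_product, h2]
      push_cast
      rw [h3]
      ring
    have hcard2 : (F.card : ℝ) ≤ 49 * R ^ 2 / r ^ 2 := by
      rw [hcard]
      have h4 : (N : ℝ) < 2 * R / r + 1 := Int.ceil_lt_add_one _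
      have h5 : (1 : ℝ) ≤ R / r := by
        rw [le_div_iff₀ hr0]; linarith
      have h6 : 2 * (N : ℝ) + 1 ≤ 7 * (R / r) := by
        have : 2 * R / r = 2 * (R / r) := by ring
        linarith
      have h7 : (0 : ℝ) ≤ 2 * N + 1 := by
        have : (0 : ℝ) ≤ N := by exact_mod_cast hN0
        linarith
      calc (2 * (N : ℝ) + 1) ^ 2 ≤ (7 * (R / r)) ^ 2 := by gcongr
        _ = 49 * R ^ 2 / r ^ 2 := by ring
    calc (F.card : ℝ≥0∞) * ENNReal.ofReal (2 * ℓ)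
        = ENNReal.ofReal (F.card * (2 * ℓ)) := by
          rw [ENNReal.ofReal_mul (p := (F.card : ℝ)) (by positivity), ENNReal.ofReal_natCast]
      _ ≤ ENNReal.ofReal (98 * R ^ 2 / r ^ 2 * ℓ) := by
          refine ENNReal.ofReal_le_ofReal ?_
          calc (F.card : ℝ) * (2 * ℓ) ≤ 49 * R ^ 2 / r ^ 2 * (2 * ℓ) := by gcongr
            _ = _ := by ring

/-- The set of points of the disc of radius `R` with nonzero gradient at most `δ` whose contour is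
closed with turnover time at most `Y`. -/
def badSet (h : ℂ → ℝ) (R δ Y : ℝ) : Set ℂ :=
  {y | ‖y‖ ≤ R ∧ ‖fderiv ℝ h y‖ ≤ δ ∧ fderiv ℝ h y ≠ 0 ∧ ∃ T, 0 < T ∧ T ≤ Y ∧ ∃ z : ℝ → ℂ,
    z 0 = y ∧ z T = y ∧
    ∀ q ∈ Icc 0 T, HasDerivWithinAt z (Complex.I * grad h (z q)) (Icc 0 T) q}

theorem holder_mod {M α κ r : ℝ} {m : ℕ} (hM : 1 ≤ M) (hκ0 : 0 < κ) (hκ1 : κ ≤ 1) (hα : 0 < α)
    (hm : 1 ≤ m * α) (hr : r = (κ / (2 * M)) ^ m) {d : ℝ} (hd0 : 0 ≤ d) (hd : d ≤ r) :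
    M * d ^ α ≤ κ / 2 := by
  have hb0 : 0 < κ / (2 * M) := by positivity
  have hb1 : κ / (2 * M) ≤ 1 := by
    rw [div_le_one (by positivity)]; linarith
  have h1 : d ^ α ≤ r ^ α := Real.rpow_le_rpow hd0 hd hα.le
  have h2 : r ^ α = (κ / (2 * M)) ^ ((m : ℝ) * α) := by
    rw [hr, ← Real.rpow_natCast, ← Real.rpow_mul hb0.le]
  have h3 : (κ / (2 * M)) ^ ((m : ℝ) * α) ≤ (κ / (2 * M)) ^ (1 : ℝ) :=
    Real.rpow_le_rpow_of_exponent_ge hb0 hb1 hm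
  rw [Real.rpow_one] at h3
  have h4 : d ^ α ≤ κ / (2 * M) := by rw [h2] at h1; exact h1.trans h3
  calc M * d ^ α ≤ M * (κ / (2 * M)) := by gcongr
    _ = κ / 2 := by field_simp

/-- Measure of the set of values of `h` on the bad set. -/
theorem bad_values {h : ℂ → ℝ} (hh : ContDiff ℝ 2 h) {M Y R α δ : ℝ} {m : ℕ} (hM : 1 ≤ M)
    (hY : 1 ≤ Y) (hR : 1 ≤ R) (hα : 0 < α) (hm : 1 ≤ m * α) (hδ : 0 ≤ δ)
    (hB : ∀ x, ‖fderiv ℝ (fderiv ℝ h) x‖ ≤ M)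
    (hH : ∀ x y, ‖fderiv ℝ (fderiv ℝ h) x - fderiv ℝ (fderiv ℝ h) y‖ ≤ M * ‖x - y‖ ^ α)
    (hδr : 8 * M * Y ^ 2 * δ < ((32 * M ^ 2 * Y ^ 2) ^ m)⁻¹) :
    ∃ E : Set ℝ, MeasurableSet E ∧ (∀ y ∈ badSet h R δ Y, h y ∈ E) ∧
      volume E ≤ ENNReal.ofReal
        (501760 * R ^ 2 * M ^ 3 * Y ^ 4 * (32 * M ^ 2 * Y ^ 2) ^ (2 * m) * δ ^ 2) := by
  have hM0 : 0 < M := by linarith
  have hY0 : 0 < Y := by linarith
  set κ : ℝ := 1 / (16 * M * Y ^ 2) with hκ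
  have hκ0 : 0 < κ := by positivity
  have hden : 1 ≤ 16 * M * Y ^ 2 := by
    have : 1 ≤ Y ^ 2 := one_le_pow₀ hY
    nlinarith
  have hκ1 : κ ≤ 1 := by
    rw [hκ, div_le_one (by positivity)]; exact hden
  have hκeq : 16 * M * Y ^ 2 * κ ≤ 1 := by
    rw [hκ]; field_simp; exact le_refl _
  set r : ℝ := (κ / (2 * M)) ^ m with hr
  have hbase : κ / (2 * M) = (32 * M ^ 2 * Y ^ 2)⁻¹ := by
    rw [hκ]; field_simp; norm_num
  have hr' : r = ((32 * M ^ 2 * Y ^ 2) ^ m)⁻¹ := by rw [hr, hbase, inv_pow]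
  have hr0 : 0 < r := by positivity
  have hr1 : r ≤ 1 := by
    rw [hr]
    refine pow_le_one₀ (by positivity) ?_
    rw [div_le_one (by positivity)]; linarith
  set ρ : ℝ := r / Y with hρ
  have hρ0 : 0 < ρ := by positivity
  have hδρ : 8 * M * Y * δ < ρ := by
    rw [hρ, lt_div_iff₀ hY0, hr']
    calc 8 * M * Y * δ * Y = 8 * M * Y ^ 2 * δ := by ring
      _ < _ := hδr
  have hmod : ∀ y x : ℂ, ‖x - y‖ ≤ r →
      ‖fderiv ℝ (fderiv ℝ h) x - fderiv ℝ (fderiv ℝ h) y‖ ≤ κ / 2 := by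
    intro y x hx
    exact (hH x y).trans (holder_mod hM hκ0 hκ1 hα hm hr (norm_nonneg _) hx)
  -- nondegeneracy on the bad set
  have hnd : ∀ y ∈ badSet h R δ Y, ∀ w : ℂ, κ * ‖w‖ ≤ ‖fderiv ℝ (fderiv ℝ h) y w‖ := by
    rintro y ⟨_, hy2, hne, T, hT0, hTY, z, hz0, hzT, hz⟩
    refine key_lemma_closed hh hM hY hκ0 hκeq hρ0 hB ?_ hT0 hTY hz0 hzT hz hne ?_
    · intro x hx
      have h1 : ‖x - y‖ ≤ r := by
        refine hx.trans (le_of_eq ?_)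
        rw [hρ]; field_simp
      have := hmod y x h1
      linarith
    · rw [norm_grad_eq]
      refine lt_of_le_of_lt ?_ hδρ
      gcongr
  obtain ⟨E, hE1, hE2, hE3⟩ := cover_values (h := h) (P := badSet h R δ Y) (R := R) (r := r)
    (ℓ := 20 * M * δ ^ 2 / κ ^ 2) hR hr0 hr1 (fun y hy => hy.1) (fun y1 hy1 y2 hy2 h12 =>
      two_points hh hκ0 (hκ1.trans hM) hδ hB (hmod y1) (hnd y1 hy1) hy1.2.1 hy2.2.1 h12)
  refine ⟨E, hE1, hE2, hE3.trans (ENNReal.ofReal_le_ofReal (le_of_eq ?_))⟩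
  rw [hr', hκ]
  field_simp
  ring

end Run7.h772
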