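import Mathlib

open Set Metric Filter MeasureTheory
open scoped ContDiff Topology ENNReal

namespace Run7.h772

/-- `g` has constant sign on each of `n` consecutive closed intervals that fill `[a, b]`. -/
inductive SignPW (g : ℝ → ℝ) : ℝ → ℝ → ℕ → Prop
  | pos {a b : ℝ} (h : a ≤ b) (hg : ∀ x ∈ Icc a b, 0 ≤ g x) : SignPW g a b 1
  | neg {a b : ℝ} (h : a ≤ b) (hg : ∀ x ∈ Icc a b, g x ≤ 0) : SignPW g a b 1
  | glue {a b c : ℝ} {m n : ℕ} (h1 : SignPW g a b m) (h2 : SignPW g b c n) :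
      SignPW g a c (m + n)

theorem SignPW.le {g : ℝ → ℝ} {a b : ℝ} {n : ℕ} (h : SignPW g a b n) : a ≤ b := by
  induction h with
  | pos h _ => exact h
  | neg h _ => exact h
  | glue _ _ h1 h2 => exact h1.trans h2

theorem SignPW.mono {g : ℝ → ℝ} {a b : ℝ} {n : ℕ} (h : SignPW g a b n) {m : ℕ} (hnm : n ≤ m) :
    SignPW g a b m := by
  induction m, hnm using Nat.le_induction with
  | base => exact h
  | succ k _ ih =>
    rcases le_total 0 (g b) with hb | hb
    · exact SignPW.glue ih (SignPW.pos le_rfl (fun x hx => by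
        have : x = b := le_antisymm hx.2 hx.1
        rwa [this]))
    · exact SignPW.glue ih (SignPW.neg le_rfl (fun x hx => by
        have : x = b := le_antisymm hx.2 hx.1
        rwa [this]))

theorem SignPW.one_of_ne_zero {g : ℝ → ℝ} {a b : ℝ} (hab : a ≤ b) (hg : ContinuousOn g (Icc a b))
    (h0 : ∀ x ∈ Icc a b, g x ≠ 0) : SignPW g a b 1 := by
  rcases lt_or_ge (g a) 0 with ha | ha
  · refine SignPW.neg hab (fun x hx => ?_)
    by_contra hcon
    push Not at hcon
    have hsub : Icc a x ⊆ Icc a b := Icc_subset_Icc_right hx.2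
    obtain ⟨y, hy, hy0⟩ := intermediate_value_Icc hx.1 (hg.mono hsub) ⟨ha.le, hcon.le⟩
    exact h0 y (hsub hy) hy0
  · refine SignPW.pos hab (fun x hx => ?_)
    by_contra hcon
    push Not at hcon
    have hsub : Icc a x ⊆ Icc a b := Icc_subset_Icc_right hx.2
    obtain ⟨y, hy, hy0⟩ := intermediate_value_Icc' hx.1 (hg.mono hsub) ⟨hcon.le, ha⟩
    exact h0 y (hsub hy) hy0

-- sign changes of a primitive
theorem SignPW.two_of_monotone {g : ℝ → ℝ} {a b : ℝ} (hab : a ≤ b)
    (hg : ContinuousOn g (Icc a b)) (hm : MonotoneOn g (Icc a b)) : SignPW g a b 2 := by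
  have ha : a ∈ Icc a b := left_mem_Icc.mpr hab
  have hb : b ∈ Icc a b := right_mem_Icc.mpr hab
  rcases le_or_gt 0 (g a) with h1 | h1
  · exact (SignPW.pos hab (fun x hx => h1.trans (hm ha hx hx.1))).mono (by norm_num)
  rcases le_or_gt (g b) 0 with h2 | h2
  · exact (SignPW.neg hab (fun x hx => (hm hx hb hx.2).trans h2)).mono (by norm_num)
  obtain ⟨c, hc, hc0⟩ := intermediate_value_Icc hab hg ⟨h1.le, h2.le⟩
  refine SignPW.glue (m := 1) (n := 1) (b := c) (SignPW.neg hc.1 (fun x hx => ?_))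
    (SignPW.pos hc.2 (fun x hx => ?_))
  · rw [← hc0]; exact hm ⟨hx.1, hx.2.trans hc.2⟩ hc hx.2
  · rw [← hc0]; exact hm hc ⟨hc.1.trans hx.1, hx.2⟩ hx.1

theorem SignPW.two_of_antitone {g : ℝ → ℝ} {a b : ℝ} (hab : a ≤ b)
    (hg : ContinuousOn g (Icc a b)) (hm : AntitoneOn g (Icc a b)) : SignPW g a b 2 := by
  have ha : a ∈ Icc a b := left_mem_Icc.mpr hab
  have hb : b ∈ Icc a b := right_mem_Icc.mpr hab
  rcases le_or_gt (g a) 0 with h1 | h1
  · exact (SignPW.neg hab (fun x hx => (hm ha hx hx.1).trans h1)).mono (by norm_num)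
  rcases le_or_gt 0 (g b) with h2 | h2
  · exact (SignPW.pos hab (fun x hx => h2.trans (hm hx hb hx.2))).mono (by norm_num)
  obtain ⟨c, hc, hc0⟩ := intermediate_value_Icc' hab hg ⟨h2.le, h1.le⟩
  refine SignPW.glue (m := 1) (n := 1) (b := c) (SignPW.pos hc.1 (fun x hx => ?_))
    (SignPW.neg hc.2 (fun x hx => ?_))
  · rw [← hc0]; exact hm ⟨hx.1, hx.2.trans hc.2⟩ hc hx.2
  · rw [← hc0]; exact hm hc ⟨hc.1.trans hx.1, hx.2⟩ hx.1

theorem monotoneOn_of_hasDerivWithinAt {g g' : ℝ → ℝ} {a b : ℝ}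
    (hd : ∀ x ∈ Icc a b, HasDerivWithinAt g (g' x) (Icc a b) x) (h0 : ∀ x ∈ Icc a b, 0 ≤ g' x) :
    MonotoneOn g (Icc a b) := by
  refine monotoneOn_of_deriv_nonneg (convex_Icc a b) (fun x hx => (hd x hx).continuousWithinAt)
    ?_ ?_
  · intro x hx
    rw [interior_Icc] at hx
    exact ((hd x (Ioo_subset_Icc_self hx)).hasDerivAt
      (Icc_mem_nhds hx.1 hx.2)).differentiableAt.differentiableWithinAt
  · intro x hx
    rw [interior_Icc] at hx
    rw [((hd x (Ioo_subset_Icc_self hx)).hasDerivAt (Icc_mem_nhds hx.1 hx.2)).deriv]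
    exact h0 x (Ioo_subset_Icc_self hx)

theorem antitoneOn_of_hasDerivWithinAt {g g' : ℝ → ℝ} {a b : ℝ}
    (hd : ∀ x ∈ Icc a b, HasDerivWithinAt g (g' x) (Icc a b) x) (h0 : ∀ x ∈ Icc a b, g' x ≤ 0) :
    AntitoneOn g (Icc a b) := by
  have h1 := monotoneOn_of_hasDerivWithinAt (g := fun x => -g x) (g' := fun x => -g' x)
    (fun x hx => (hd x hx).neg) (fun x hx => by have := h0 x hx; linarith)
  intro x hx y hy hxy
  have := h1 hx hy hxy
  simp only at this
  linarith

theorem SignPW.primitive {g g' : ℝ → ℝ} {a b : ℝ} {n : ℕ} (h : SignPW g' a b n)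
    (hd : ∀ x ∈ Icc a b, HasDerivWithinAt g (g' x) (Icc a b) x) : SignPW g a b (2 * n) := by
  induction h with
  | pos hab hg =>
    exact SignPW.two_of_monotone hab (fun x hx => (hd x hx).continuousWithinAt)
      (monotoneOn_of_hasDerivWithinAt hd hg)
  | neg hab hg =>
    exact SignPW.two_of_antitone hab (fun x hx => (hd x hx).continuousWithinAt)
      (antitoneOn_of_hasDerivWithinAt hd hg)
  | glue h1 h2 ih1 ih2 =>
    rw [mul_add]
    exact SignPW.glue
      (ih1 (fun x hx => (hd x ⟨hx.1, hx.2.trans h2.le⟩).mono (Icc_subset_Icc_right h2.le)))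
      (ih2 (fun x hx => (hd x ⟨h1.le.trans hx.1, hx.2⟩).mono (Icc_subset_Icc_left h1.le)))

theorem measurableSet_Icc_inter {f : ℝ → ℝ} {a b : ℝ} (hf : ContinuousOn f (Icc a b)) {E : Set ℝ}
    (hE : MeasurableSet E) : MeasurableSet (Icc a b ∩ f ⁻¹' E) := by
  have h1 := hf.measurable_piecewise (g := fun _ => (0 : ℝ)) continuousOn_const
    (measurableSet_Icc (a := a) (b := b))
  have h2 : Icc a b ∩ f ⁻¹' E = Icc a b ∩ ((Icc a b).piecewise f fun _ => 0) ⁻¹' E := by
    ext x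
    constructor
    · rintro ⟨hx, hxE⟩
      exact ⟨hx, by simpa [hx] using hxE⟩
    · rintro ⟨hx, hxE⟩
      exact ⟨hx, by simpa [hx] using hxE⟩
  rw [h2]
  exact measurableSet_Icc.inter (h1 hE)

/-- Change of variables on pieces of monotonicity. -/
theorem SignPW.lintegral_le {f f' : ℝ → ℝ} {a b : ℝ} {n : ℕ} (h : SignPW f' a b n)
    (hd : ∀ x ∈ Icc a b, HasDerivWithinAt f (f' x) (Icc a b) x) {E : Set ℝ}
    (hE : MeasurableSet E) :
    ∫⁻ s in Icc a b ∩ f ⁻¹' E, ENNReal.ofReal |f' s| ≤ n * volume E := by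
  induction h with
  | @pos a b hab hg =>
    have hc : ContinuousOn f (Icc a b) := fun x hx => (hd x hx).continuousWithinAt
    have hms := measurableSet_Icc_inter hc hE
    have hm := (monotoneOn_of_hasDerivWithinAt hd hg).mono (inter_subset_left (t := f ⁻¹' E))
    have h1 := lintegral_deriv_eq_volume_image_of_monotoneOn hms
      (fun x hx => (hd x hx.1).mono inter_subset_left) hm
    have h2 : ∫⁻ s in Icc a b ∩ f ⁻¹' E, ENNReal.ofReal |f' s|
        = ∫⁻ s in Icc a b ∩ f ⁻¹' E, ENNReal.ofReal (f' s) := by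
      refine setLIntegral_congr_fun hms (fun x hx => ?_)
      rw [abs_of_nonneg (hg x hx.1)]
    rw [h2, h1]
    simp only [Nat.cast_one, one_mul]
    refine measure_mono ?_
    rintro _ ⟨x, hx, rfl⟩
    exact hx.2
  | @neg a b hab hg =>
    have hc : ContinuousOn f (Icc a b) := fun x hx => (hd x hx).continuousWithinAt
    have hms := measurableSet_Icc_inter hc hE
    have hm := (antitoneOn_of_hasDerivWithinAt hd hg).mono (inter_subset_left (t := f ⁻¹' E))
    have h1 := lintegral_deriv_eq_volume_image_of_antitoneOn hms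
      (fun x hx => (hd x hx.1).mono inter_subset_left) hm
    have h2 : ∫⁻ s in Icc a b ∩ f ⁻¹' E, ENNReal.ofReal |f' s|
        = ∫⁻ s in Icc a b ∩ f ⁻¹' E, ENNReal.ofReal (-f' s) := by
      refine setLIntegral_congr_fun hms (fun x hx => ?_)
      rw [abs_of_nonpos (hg x hx.1)]
    rw [h2, h1]
    simp only [Nat.cast_one, one_mul]
    refine measure_mono ?_
    rintro _ ⟨x, hx, rfl⟩
    exact hx.2
  | @glue a b c m n h1 h2 ih1 ih2 =>
    have e1 := ih1 (fun x hx => (hd x ⟨hx.1, hx.2.trans h2.le⟩).mono (Icc_subset_Icc_right h2.le))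
    have e2 := ih2 (fun x hx => (hd x ⟨h1.le.trans hx.1, hx.2⟩).mono (Icc_subset_Icc_left h1.le))
    have hU : Icc a c ∩ f ⁻¹' E ⊆ (Icc a b ∩ f ⁻¹' E) ∪ (Icc b c ∩ f ⁻¹' E) := by
      rw [← union_inter_distrib_right, Icc_union_Icc_eq_Icc h1.le h2.le]
    calc ∫⁻ s in Icc a c ∩ f ⁻¹' E, ENNReal.ofReal |f' s|
        ≤ ∫⁻ s in (Icc a b ∩ f ⁻¹' E) ∪ (Icc b c ∩ f ⁻¹' E), ENNReal.ofReal |f' s| :=
          lintegral_mono_set hU
      _ ≤ _ := lintegral_union_le _ _ _
      _ ≤ m * volume E + n * volume E := add_le_add e1 e2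
      _ = ((m + n : ℕ) : ℝ≥0∞) * volume E := by push_cast; ring

/-- Either `F 1` has few changes of sign or it is tiny. -/
theorem split_or_small {F : ℕ → ℝ → ℝ} {a b C ε : ℝ} (hab : a ≤ b) (hbε : b - a ≤ ε)
    (hF : ∀ i, ∀ s ∈ Icc a b, HasDerivWithinAt (F i) (F (i + 1) s) (Icc a b) s)
    (hε0 : 0 ≤ ε) {k : ℕ} (hC : ∀ s ∈ Icc a b, |F (k + 1) s| ≤ C) :
    SignPW (F 1) a b (2 ^ k) ∨ ∀ s ∈ Icc a b, |F 1 s| ≤ C * ε ^ k := by
  by_cases hz : ∃ i, 1 ≤ i ∧ i ≤ k ∧ ∀ x ∈ Icc a b, F i x ≠ 0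
  · left
    obtain ⟨i, hi1, hik, hi0⟩ := hz
    have h1 : SignPW (F i) a b 1 :=
      SignPW.one_of_ne_zero hab (fun x hx => (hF i x hx).continuousWithinAt) hi0
    -- descend
    have hdesc : ∀ j, j < i → SignPW (F (i - j)) a b (2 ^ j) := by
      intro j
      induction j with
      | zero => intro _; simpa using h1
      | succ j ih =>
        intro hj
        have h2 := ih (by omega)
        have h3 : i - j = (i - (j + 1)) + 1 := by omega
        rw [h3] at h2
        have h4 := h2.primitive (g := F (i - (j + 1))) (hF (i - (j + 1)))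
        rw [pow_succ, mul_comm]
        exact h4
    have h5 := hdesc (i - 1) (by omega)
    have h6 : i - (i - 1) = 1 := by omega
    rw [h6] at h5
    refine h5.mono ?_
    exact Nat.pow_le_pow_right (by norm_num) (by omega)
  · right
    push Not at hz
    have hC0 : 0 ≤ C := (abs_nonneg _).trans (hC a (left_mem_Icc.mpr hab))
    have hdesc : ∀ j, j ≤ k → ∀ s ∈ Icc a b, |F (k + 1 - j) s| ≤ C * ε ^ j := by
      intro j
      induction j with
      | zero => intro _ s hs; simpa using hC s hs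
      | succ j ih =>
        intro hj s hs
        have h2 := ih (by omega)
        have h3 : k + 1 - j = (k + 1 - (j + 1)) + 1 := by omega
        rw [h3] at h2
        obtain ⟨x0, hx0, hx00⟩ := hz (k + 1 - (j + 1)) (by omega) (by omega)
        have h4 : ‖F (k + 1 - (j + 1)) s - F (k + 1 - (j + 1)) x0‖ ≤ (C * ε ^ j) * ‖s - x0‖ :=
          (convex_Icc a b).norm_image_sub_le_of_norm_hasDerivWithin_le
            (fun x hx => hF _ x hx) (fun x hx => by rw [Real.norm_eq_abs]; exact h2 x hx) hx0 hs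
        rw [hx00, sub_zero, Real.norm_eq_abs, Real.norm_eq_abs] at h4
        refine h4.trans ?_
        have h5 : |s - x0| ≤ ε := by
          rw [abs_le]
          constructor
          · linarith [hs.1, hx0.2]
          · linarith [hs.2, hx0.1]
        rw [pow_succ, ← mul_assoc]
        gcongr
    have h7 := hdesc k le_rfl
    have h8 : k + 1 - k = 1 := by omega
    rw [h8] at h7
    exact h7

theorem lintegral_biUnion_le' (F : Finset ℕ) (A : ℕ → Set ℝ) (g : ℝ → ℝ≥0∞) :
    ∫⁻ s in ⋃ i ∈ F, A i, g s ≤ ∑ i ∈ F, ∫⁻ s in A i, g s := by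
  classical
  induction F using Finset.induction_on with
  | empty => simp
  | insert a F ha ih =>
    rw [Finset.set_biUnion_insert, Finset.sum_insert ha]
    exact (lintegral_union_le _ _ _).trans (add_le_add le_rfl ih)

/-- For a smooth function on `[0, 1]` the `|f'| ds` measure of the preimage of a set is almost
linearly bounded by its Lebesgue measure. -/
theorem preimage_measure {F : ℕ → ℝ → ℝ}
    (hF : ∀ i, ∀ s ∈ Icc (0 : ℝ) 1, HasDerivWithinAt (F i) (F (i + 1) s) (Icc 0 1) s)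
    (k : ℕ) :
    ∃ C : ℝ, 0 ≤ C ∧ ∀ N : ℕ, 1 ≤ N → ∀ E : Set ℝ, MeasurableSet E →
      ∫⁻ s in Icc 0 1 ∩ (F 0) ⁻¹' E, ENNReal.ofReal |F 1 s|
        ≤ N * 2 ^ k * volume E + ENNReal.ofReal (C / N ^ k) := by
  have hcont : ContinuousOn (F (k + 1)) (Icc 0 1) := fun s hs => (hF _ s hs).continuousWithinAt
  obtain ⟨C, hC⟩ := isCompact_Icc.exists_bound_of_continuousOn hcont
  have hC0 : 0 ≤ C := (norm_nonneg _).trans (hC 0 (by simp))
  refine ⟨C, hC0, ?_⟩
  intro N hN E hE
  have hN0 : (0 : ℝ) < N := by exact_mod_cast hN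
  -- the pieces
  have hpiece : ∀ i ∈ Finset.range N,
      ∫⁻ s in Icc ((i : ℝ) / N) ((i + 1 : ℝ) / N) ∩ (F 0) ⁻¹' E, ENNReal.ofReal |F 1 s|
        ≤ 2 ^ k * volume E + ENNReal.ofReal (C / N ^ k / N) := by
    intro i hi
    have hiN : (i : ℝ) + 1 ≤ N := by exact_mod_cast (Finset.mem_range.mp hi)
    have hab : (i : ℝ) / N ≤ (i + 1 : ℝ) / N := by gcongr; linarith
    have hsub : Icc ((i : ℝ) / N) ((i + 1 : ℝ) / N) ⊆ Icc 0 1 := by
      refine Icc_subset_Icc (by positivity) ?_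
      rw [div_le_one hN0]; exact hiN
    have hba : (i + 1 : ℝ) / N - (i : ℝ) / N = 1 / N := by ring
    rcases split_or_small (F := F) (C := C) (ε := 1 / N) hab hba.le
      (fun j s hs => (hF j s (hsub hs)).mono hsub) (by positivity) (k := k)
      (fun s hs => by simpa using hC s (hsub hs)) with h1 | h1
    · have h2 := h1.lintegral_le (f := F 0)
        (fun s hs => (hF 0 s (hsub hs)).mono hsub) hE
      push_cast at h2
      exact h2.trans le_self_add
    · have h2 : ∫⁻ s in Icc ((i : ℝ) / N) ((i + 1 : ℝ) / N) ∩ (F 0) ⁻¹' E, ENNReal.ofReal |F 1 s|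
          ≤ ∫⁻ s in Icc ((i : ℝ) / N) ((i + 1 : ℝ) / N), ENNReal.ofReal (C / N ^ k) := by
        refine (lintegral_mono_set inter_subset_left).trans ?_
        refine setLIntegral_mono measurable_const (fun s hs => ?_)
        refine ENNReal.ofReal_le_ofReal ((h1 s hs).trans (le_of_eq ?_))
        rw [one_div, inv_pow]
        rfl
      refine h2.trans ?_
      rw [setLIntegral_const, Real.volume_Icc, hba, ← ENNReal.ofReal_mul (by positivity),
        mul_one_div]
      exact le_add_self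
  have hcover : Icc (0 : ℝ) 1 ∩ (F 0) ⁻¹' E ⊆
      ⋃ i ∈ Finset.range N, (Icc ((i : ℝ) / N) ((i + 1 : ℝ) / N) ∩ (F 0) ⁻¹' E) := by
    rintro s ⟨hs, hsE⟩
    by_cases hs1 : s < 1
    · rw [mem_iUnion₂]
      refine ⟨⌊s * N⌋₊, ?_, ⟨?_, ?_⟩, hsE⟩
      · rw [Finset.mem_range, Nat.floor_lt (by have := hs.1; positivity)]
        nlinarith
      · rw [div_le_iff₀ hN0]
        exact Nat.floor_le (by have := hs.1; positivity)
      · rw [le_div_iff₀ hN0]
        exact (Nat.lt_floor_add_one _).le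
    · have : s = 1 := le_antisymm hs.2 (not_lt.mp hs1)
      subst this
      rw [mem_iUnion₂]
      refine ⟨N - 1, ?_, ⟨?_, ?_⟩, hsE⟩
      · rw [Finset.mem_range]; omega
      · rw [div_le_one hN0]
        exact_mod_cast Nat.sub_le N 1
      · rw [le_div_iff₀ hN0]
        have : ((N - 1 : ℕ) : ℝ) + 1 = N := by
          have : ((N - 1 + 1 : ℕ) : ℝ) = N := by congr 1; omega
          push_cast at this
          exact this
        rw [this]; linarith
  calc ∫⁻ s in Icc 0 1 ∩ (F 0) ⁻¹' E, ENNReal.ofReal |F 1 s|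
      ≤ ∫⁻ s in ⋃ i ∈ Finset.range N, (Icc ((i : ℝ) / N) ((i + 1 : ℝ) / N) ∩ (F 0) ⁻¹' E),
          ENNReal.ofReal |F 1 s| := lintegral_mono_set hcover
    _ ≤ ∑ i ∈ Finset.range N,
          ∫⁻ s in Icc ((i : ℝ) / N) ((i + 1 : ℝ) / N) ∩ (F 0) ⁻¹' E, ENNReal.ofReal |F 1 s| :=
        lintegral_biUnion_le' _ _ _
    _ ≤ ∑ i ∈ Finset.range N, (2 ^ k * volume E + ENNReal.ofReal (C / N ^ k / N)) :=
        Finset.sum_le_sum hpiece
    _ = N * 2 ^ k * volume E + ENNReal.ofReal (C / N ^ k) := by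
        rw [Finset.sum_const, Finset.card_range, nsmul_eq_mul, mul_add, ← mul_assoc]
        congr 1
        rw [← ENNReal.ofReal_natCast, ← ENNReal.ofReal_mul (by positivity)]
        congr 1
        field_simp

end Run7.h772
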