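import Mathlib
import Pool.Agent.Run7.h772.Contour

open Set Metric Filter MeasureTheory
open scoped ContDiff Topology ENNReal

namespace Run7.h772

/-- The variation of a curve is at most the integral of a bound of its speed. -/
theorem variation_le {F : Type*} [NormedAddCommGroup F] [NormedSpace ℝ F] {φ φ' : ℝ → F}
    {B : ℝ → ℝ} (hφ : ∀ s ∈ Icc (0 : ℝ) 1, HasDerivWithinAt φ (φ' s) (Icc 0 1) s)
    (hB : ContinuousOn B (Icc 0 1)) (hφB : ∀ s ∈ Icc (0 : ℝ) 1, ‖φ' s‖ ≤ B s) :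
    eVariationOn φ (Icc 0 1) ≤ ∫⁻ s in Icc (0 : ℝ) 1, ENNReal.ofReal (B s) := by
  set Bt : ℝ → ℝ := fun s => B (projIcc 0 1 zero_le_one s) with hBt
  have hBtc : Continuous Bt := by
    have h1 : Continuous (fun s : Icc (0 : ℝ) 1 => B s) := continuousOn_iff_continuous_domRestrict.mp hB
    exact h1.comp continuous_projIcc
  have hBtB : ∀ s ∈ Icc (0 : ℝ) 1, Bt s = B s := by
    intro s hs
    simp only [hBt]
    rw [projIcc_of_mem zero_le_one hs]
  set ψ : ℝ → ℝ := fun s => ∫ r in (0 : ℝ)..s, Bt r with hψ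
  have hψd : ∀ s, HasDerivAt ψ (Bt s) s := fun s =>
    (hBtc.integral_hasStrictDerivAt 0 s).hasDerivAt
  have hφc : ContinuousOn φ (Icc 0 1) := fun s hs => (hφ s hs).continuousWithinAt
  have hkey : ∀ x ∈ Icc (0 : ℝ) 1, ∀ y ∈ Icc (0 : ℝ) 1, x ≤ y → ‖φ y - φ x‖ ≤ ψ y - ψ x := by
    intro x hx y hy hxy
    refine image_norm_le_of_norm_deriv_right_le_deriv_boundary
      (f := fun s => φ s - φ x) (f' := φ') (B := fun s => ψ s - ψ x) (B' := Bt) (a := x) (b := y)
      ((hφc.mono (Icc_subset_Icc hx.1 hy.2)).sub continuousOn_const) ?_ (by simp)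
      (fun s => (hψd s).sub_const _) ?_ ⟨hxy, le_rfl⟩
    · intro s hs
      have h1 : s ∈ Ico (0 : ℝ) 1 := ⟨hx.1.trans hs.1, hs.2.trans_le hy.2⟩
      exact (within_Ici (hφ s ⟨h1.1, h1.2.le⟩) h1).sub_const _
    · intro s hs
      have h1 : s ∈ Icc (0 : ℝ) 1 := ⟨hx.1.trans hs.1, hs.2.le.trans hy.2⟩
      rw [hBtB s h1]
      exact hφB s h1
  have htot : ENNReal.ofReal (ψ 1 - ψ 0) ≤ ∫⁻ s in Icc (0 : ℝ) 1, ENNReal.ofReal (B s) := by
    have h0 : ∀ s ∈ Icc (0 : ℝ) 1, 0 ≤ B s := fun s hs => (norm_nonneg _).trans (hφB s hs)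
    have h1 : ψ 1 - ψ 0 = ∫ s in Icc (0 : ℝ) 1, B s := by
      simp only [hψ]
      rw [intervalIntegral.integral_same, sub_zero, intervalIntegral.integral_of_le zero_le_one,
        ← integral_Icc_eq_integral_Ioc]
      exact setIntegral_congr_fun measurableSet_Icc (fun s hs => hBtB s hs)
    rw [h1, ofReal_integral_eq_lintegral_ofReal]
    · exact hB.integrableOn_compact isCompact_Icc
    · exact (ae_restrict_iff' measurableSet_Icc).mpr (Eventually.of_forall h0)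
  unfold eVariationOn
  refine iSup_le ?_
  rintro ⟨n, w, hwm, hws⟩
  simp only
  have h2 : ∀ i ∈ Finset.range n, edist (φ (w (i + 1))) (φ (w i))
      ≤ ENNReal.ofReal (ψ (w (i + 1)) - ψ (w i)) := by
    intro i _
    rw [edist_dist, dist_eq_norm]
    exact ENNReal.ofReal_le_ofReal (hkey _ (hws i) _ (hws (i + 1)) (hwm (Nat.le_succ i)))
  have hmono : ∀ x ∈ Icc (0 : ℝ) 1, ∀ y ∈ Icc (0 : ℝ) 1, x ≤ y → ψ x ≤ ψ y := by
    intro x hx y hy hxy
    have := (norm_nonneg _).trans (hkey x hx y hy hxy)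
    linarith
  refine (Finset.sum_le_sum h2).trans ?_
  rw [← ENNReal.ofReal_sum_of_nonneg]
  · rw [Finset.sum_range_sub (fun i => ψ (w i)) n]
    refine le_trans (ENNReal.ofReal_le_ofReal ?_) htot
    have h3 := hmono (w n) (hws n) 1 (by simp) (hws n).2
    have h4 := hmono 0 (by simp) (w 0) (hws 0) (hws 0).1
    linarith
  · intro i _
    have := hmono _ (hws i) _ (hws (i + 1)) (hwm (Nat.le_succ i))
    linarith

/-- Discrete layer cake bound of an inverse square. -/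
theorem inv_sq_le {g : ℝ} {J : ℕ} (hg : Real.exp (-(J : ℝ)) ≤ g) :
    ENNReal.ofReal ((g ^ 2)⁻¹) ≤ 1 + ∑ j ∈ Finset.range (J + 1),
      (if g ≤ Real.exp (-(j : ℝ)) then ENNReal.ofReal (Real.exp (2 * j + 2)) else 0) := by
  have hg0 : 0 < g := (Real.exp_pos _).trans_le hg
  by_cases h1 : 1 < g
  · refine le_trans ?_ le_self_add
    rw [← ENNReal.ofReal_one]
    refine ENNReal.ofReal_le_ofReal ?_
    rw [inv_le_one₀ (by positivity)]
    exact (one_lt_pow₀ h1 (by norm_num)).le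
  · push Not at h1
    set j : ℕ := ⌊-Real.log g⌋₊ with hj
    have hlog0 : 0 ≤ -Real.log g := by
      have := Real.log_nonpos hg0.le h1
      linarith
    have hj1 : (j : ℝ) ≤ -Real.log g := Nat.floor_le hlog0
    have hj2 : -Real.log g < j + 1 := Nat.lt_floor_add_one _
    have hjJ : j ∈ Finset.range (J + 1) := by
      rw [Finset.mem_range, Nat.lt_succ_iff]
      have h2 : -(J : ℝ) ≤ Real.log g := by
        rw [← Real.log_exp (-(J : ℝ))]
        exact Real.log_le_log (Real.exp_pos _) hg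
      have : (j : ℝ) ≤ J := by linarith
      exact_mod_cast this
    have hcond : g ≤ Real.exp (-(j : ℝ)) := by
      rw [← Real.log_le_iff_le_exp hg0]
      linarith
    have h3 : (g ^ 2)⁻¹ ≤ Real.exp (2 * j + 2) := by
      rw [inv_le_comm₀ (by positivity) (Real.exp_pos _), ← Real.exp_neg]
      have h4 : Real.exp (-(j + 1 : ℝ)) ≤ g := by
        rw [← Real.le_log_iff_exp_le hg0]
        linarith
      calc Real.exp (-(2 * (j : ℝ) + 2)) = Real.exp (-(j + 1 : ℝ)) ^ 2 := by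
            rw [← Real.exp_nat_mul]; congr 1; push_cast; ring
        _ ≤ g ^ 2 := by gcongr
    have h5 : (if g ≤ Real.exp (-(j : ℝ)) then ENNReal.ofReal (Real.exp (2 * j + 2)) else 0)
        ≤ ∑ j ∈ Finset.range (J + 1),
      (if g ≤ Real.exp (-(j : ℝ)) then ENNReal.ofReal (Real.exp (2 * j + 2)) else 0) :=
      Finset.single_le_sum (f := fun j : ℕ =>
        (if g ≤ Real.exp (-(j : ℝ)) then ENNReal.ofReal (Real.exp (2 * j + 2)) else 0))
        (fun _ _ => zero_le) hjJ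
    rw [if_pos hcond] at h5
    exact ((ENNReal.ofReal_le_ofReal h3).trans h5).trans le_add_self

/-- Integrated layer cake bound. -/
theorem lintegral_inv_sq_le {g f' : ℝ → ℝ} (hg : ContinuousOn g (Icc 0 1))
    (hf' : ContinuousOn f' (Icc 0 1)) {J : ℕ}
    (hgJ : ∀ s ∈ Icc (0 : ℝ) 1, Real.exp (-(J : ℝ)) ≤ g s) :
    ∫⁻ s in Icc (0 : ℝ) 1, ENNReal.ofReal (|f' s| * (g s ^ 2)⁻¹)
      ≤ (∫⁻ s in Icc (0 : ℝ) 1, ENNReal.ofReal |f' s|)
        + ∑ j ∈ Finset.range (J + 1), ENNReal.ofReal (Real.exp (2 * j + 2))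
          * ∫⁻ s in {s | s ∈ Icc (0 : ℝ) 1 ∧ g s ≤ Real.exp (-(j : ℝ))},
              ENNReal.ofReal |f' s| := by
  have hms : ∀ j : ℕ, MeasurableSet {s | s ∈ Icc (0 : ℝ) 1 ∧ g s ≤ Real.exp (-(j : ℝ))} := by
    intro j
    have : {s | s ∈ Icc (0 : ℝ) 1 ∧ g s ≤ Real.exp (-(j : ℝ))}
        = Icc (0 : ℝ) 1 ∩ g ⁻¹' (Iic (Real.exp (-(j : ℝ)))) := rfl
    rw [this]
    exact (hg.preimage_isClosed_of_isClosed isClosed_Icc isClosed_Iic).measurableSet
  have hmf : AEMeasurable (fun s => ENNReal.ofReal |f' s|) (volume.restrict (Icc 0 1)) :=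
    (hf'.abs.aemeasurable measurableSet_Icc).ennreal_ofReal
  have h1 : ∀ s ∈ Icc (0 : ℝ) 1, ENNReal.ofReal (|f' s| * (g s ^ 2)⁻¹)
      ≤ ENNReal.ofReal |f' s| + ∑ j ∈ Finset.range (J + 1), ENNReal.ofReal (Real.exp (2 * j + 2))
        * ({s | s ∈ Icc (0 : ℝ) 1 ∧ g s ≤ Real.exp (-(j : ℝ))}.indicator
          (fun s => ENNReal.ofReal |f' s|) s) := by
    intro s hs
    rw [ENNReal.ofReal_mul (abs_nonneg _)]
    refine (mul_le_mul_right (inv_sq_le (hgJ s hs)) _).trans (le_of_eq ?_)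
    rw [mul_add, mul_one, Finset.mul_sum]
    congr 1
    refine Finset.sum_congr rfl (fun j _ => ?_)
    by_cases hc : g s ≤ Real.exp (-(j : ℝ))
    · rw [if_pos hc, indicator_of_mem (show s ∈ {s | s ∈ Icc (0 : ℝ) 1 ∧ g s ≤ Real.exp (-(j : ℝ))}
        from ⟨hs, hc⟩), mul_comm]
    · rw [if_neg hc, indicator_of_notMem (show s ∉ {s | s ∈ Icc (0 : ℝ) 1 ∧
        g s ≤ Real.exp (-(j : ℝ))} from fun h => hc h.2), mul_zero, mul_zero]
  refine (setLIntegral_mono' measurableSet_Icc h1).trans (le_of_eq ?_)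
  rw [lintegral_add_left' hmf, lintegral_finsetSum']
  · congr 1
    refine Finset.sum_congr rfl (fun j _ => ?_)
    rw [lintegral_const_mul'' _ (hmf.indicator (hms j)), lintegral_indicator (hms j),
      Measure.restrict_restrict (hms j)]
    congr 2
    congr 1
    ext s
    simp only [mem_inter_iff, mem_ofPred_eq]
    tauto
  · intro j _
    exact (hmf.indicator (hms j)).const_mul _

end Run7.h772
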