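import Mathlib
import Pool.Agent.Run7.h772.Cover
import Pool.Agent.Run7.h772.OneDim
import Pool.Agent.Run7.h772.Variation

open Set Metric Filter MeasureTheory
open scoped ContDiff Topology ComplexConjugate ENNReal

namespace Run7.h772

open IsEulerFlow

/-- The derivative of `w` along the segment `s ↦ a + s e`. -/
noncomputable def fp (w : ℂ → ℝ) (a e : ℂ) (s : ℝ) : ℝ :=
  fderiv ℝ w (a + s • e) e

/-- The hypotheses on the initial vorticity `w` and the segment. -/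
structure InitData (D : Set ℂ) (w : ℂ → ℝ) (a e : ℂ) : Prop where
  hD : IsOpen D
  hw : ContDiffOn ℝ ∞ w D
  he : ‖e‖ = 1
  hseg : ∀ s ∈ Icc (0 : ℝ) 1, a + s • e ∈ D
  hn : ∀ s ∈ Icc (0 : ℝ) 1, grad w (a + s • e) ≠ 0
  hc : ∀ n : ℕ, ∃ C : ℝ, ∀ Y : ℝ, 1 ≤ Y →
    ∫⁻ s in {s | s ∈ Icc (0 : ℝ) 1 ∧ ¬ ClosedContour D w (a + s • e) Y},
      ENNReal.ofReal |fp w a e s| ≤ ENNReal.ofReal (C / Y ^ n)

/-- The hypotheses on the evolution. -/
structure Evol (D : Set ℂ) (w : ℂ → ℝ) (a e : ℂ) (R α : ℝ) (u : ℝ → ℂ → ℂ) (p : ℝ → ℂ → ℝ)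
    (X : ℝ → ℂ → ℂ) (K M : ℝ → ℝ) : Prop where
  hE : IsEulerFlow D u p
  hX : IsFlow D u X
  hF : FlowData D u X K
  h0 : ∀ x ∈ D, curl (u 0) x = w x
  hR : ∀ t, 0 ≤ t → ∀ s ∈ Icc (0 : ℝ) 1, ‖X t (a + s • e)‖ ≤ R
  hM1 : ∀ t, 1 ≤ M t
  hMm : Monotone M
  hreg : ∀ t, 0 ≤ t → ∃ h : ℂ → ℝ, ContDiff ℝ 2 h ∧
    (∀ x ∈ D, h x = curl (u t) x) ∧
    (∀ x, ‖fderiv ℝ h x‖ ≤ M t) ∧
    (∀ x, ‖fderiv ℝ (fderiv ℝ h) x‖ ≤ M t) ∧
    (∀ x y, ‖fderiv ℝ (fderiv ℝ h) x - fderiv ℝ (fderiv ℝ h) y‖ ≤ M t * ‖x - y‖ ^ α)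

theorem grad_congr {D : Set ℂ} (hD : IsOpen D) {f g : ℂ → ℝ} (h : ∀ x ∈ D, f x = g x) {x : ℂ}
    (hx : x ∈ D) : grad f x = grad g x := by
  have : f =ᶠ[𝓝 x] g := by
    filter_upwards [hD.mem_nhds hx] with y hy using h y hy
  simp only [grad]
  rw [this.fderiv_eq]

theorem fderiv_congr {D : Set ℂ} (hD : IsOpen D) {f g : ℂ → ℝ} (h : ∀ x ∈ D, f x = g x) {x : ℂ}
    (hx : x ∈ D) : fderiv ℝ f x = fderiv ℝ g x := by
  have : f =ᶠ[𝓝 x] g := by
    filter_upwards [hD.mem_nhds hx] with y hy using h y hy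
  exact this.fderiv_eq

/-- Points with a closed contour and a small gradient at time `t` are bad at time `t`. -/
theorem bad_inclusion {D : Set ℂ} {w : ℂ → ℝ} {u X : ℝ → ℂ → ℂ} {p : ℝ → ℂ → ℝ} {K : ℝ → ℝ}
    (hE : IsEulerFlow D u p) (hD : IsOpen D) (hX : IsFlow D u X) (hF : FlowData D u X K)
    (h0 : ∀ x ∈ D, curl (u 0) x = w x)
    {t : ℝ} (ht : 0 ≤ t) {h : ℂ → ℝ} (hh : ∀ x ∈ D, h x = curl (u t) x) {x : ℂ} (hx : x ∈ D)
    {R δ Y : ℝ} (hR : ‖X t x‖ ≤ R) (hne : gr u X 0 x ≠ 0)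
    (hδ : ‖gr u X t x‖ ≤ δ) (hc : ClosedContour D w x Y) :
    X t x ∈ badSet h R δ Y := by
  have hgr : ∀ y ∈ D, gr u X t y = grad h (X t y) := fun y hy =>
    (grad_congr hD hh (hX.mem y hy t ht)).symm
  obtain ⟨T, hT0, hTY, z, hz0, hzT, hzD, hz⟩ := hc
  refine ⟨hR, ?_, ?_, T, hT0, hTY, fun q => X t (z q), by simp [hz0], by simp [hzT], ?_⟩
  · rw [← norm_grad_eq, ← hgr x hx]; exact hδ
  · intro h1
    have h2 := norm_grad_eq h (X t x)
    rw [h1, norm_zero, ← hgr x hx] at h2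
    exact hE.gr_ne_zero hD hX hF hx hne ht (norm_eq_zero.mp h2)
  · intro q hq
    have hzq := hz q hq
    rw [← grad_congr hD h0 (hzD q hq)] at hzq
    have := hE.contour_deriv hD hX hF (hzD q hq) hzq ht
    rwa [hgr _ (hzD q hq)] at this

namespace InitData

variable {D : Set ℂ} {w : ℂ → ℝ} {a e : ℂ}

theorem contDiffOn_f (S : InitData D w a e) :
    ContDiffOn ℝ ∞ (fun s : ℝ => w (a + s • e)) (Icc 0 1) := by
  refine S.hw.comp (g := w) (f := fun s : ℝ => a + s • e) ?_ (fun s hs => S.hseg s hs)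
  exact (contDiff_const.add (contDiff_id.smul contDiff_const)).contDiffOn

theorem differentiableAt (S : InitData D w a e) {x : ℂ} (hx : x ∈ D) :
    DifferentiableAt ℝ w x :=
  ((S.hw.contDiffAt (S.hD.mem_nhds hx)).differentiableAt (by simp))

theorem hasDerivAt_f (S : InitData D w a e) {s : ℝ} (hs : s ∈ Icc (0 : ℝ) 1) :
    HasDerivAt (fun s : ℝ => w (a + s • e)) (fp w a e s) s := by
  have h1 := (S.differentiableAt (S.hseg s hs)).hasFDerivAt
  have h2 : HasDerivAt (fun s : ℝ => a + s • e) e s := by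
    simpa using ((hasDerivAt_id s).smul_const e).const_add a
  exact HasFDerivAt.comp_hasDerivAt (f := fun s : ℝ => a + s • e) s h1 h2

theorem continuousOn_fderiv (S : InitData D w a e) :
    ContinuousOn (fun s : ℝ => fderiv ℝ w (a + s • e)) (Icc 0 1) := by
  have h1 : ContinuousOn (fderiv ℝ w) D :=
    (S.hw.fderiv_of_isOpen S.hD (m := ∞) (by simp)).continuousOn
  exact h1.comp (f := fun s : ℝ => a + s • e) (by fun_prop) (fun s hs => S.hseg s hs)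

theorem continuousOn_fp (S : InitData D w a e) : ContinuousOn (fp w a e) (Icc 0 1) :=
  S.continuousOn_fderiv.clm_apply continuousOn_const

/-- The uniform lower bound of the vorticity gradient on the segment. -/
theorem exists_lower (S : InitData D w a e) :
    ∃ m0 : ℝ, 0 < m0 ∧ m0 ≤ 1 ∧ ∀ s ∈ Icc (0 : ℝ) 1, m0 ≤ ‖grad w (a + s • e)‖ := by
  have hc : ContinuousOn (fun s : ℝ => ‖grad w (a + s • e)‖) (Icc 0 1) := by
    have : (fun s : ℝ => ‖grad w (a + s • e)‖) = fun s : ℝ => ‖fderiv ℝ w (a + s • e)‖ := by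
      funext s; exact norm_grad_eq _ _
    rw [this]
    exact S.continuousOn_fderiv.norm
  obtain ⟨s0, hs0, hmin⟩ := isCompact_Icc.exists_isMinOn (nonempty_Icc.mpr zero_le_one) hc
  have hpos : 0 < ‖grad w (a + s0 • e)‖ := norm_pos_iff.mpr (S.hn s0 hs0)
  refine ⟨min ‖grad w (a + s0 • e)‖ 1, by positivity, min_le_right _ _, fun s hs => ?_⟩
  exact (min_le_left _ _).trans (hmin hs)

theorem preimage (S : InitData D w a e) (q : ℕ) :
    ∃ C : ℝ, 0 ≤ C ∧ ∀ N : ℕ, 1 ≤ N → ∀ E : Set ℝ, MeasurableSet E →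
      ∫⁻ s in Icc 0 1 ∩ (fun s : ℝ => w (a + s • e)) ⁻¹' E, ENNReal.ofReal |fp w a e s|
        ≤ N * 2 ^ q * volume E + ENNReal.ofReal (C / N ^ q) := by
  set f : ℝ → ℝ := fun s : ℝ => w (a + s • e) with hf
  have hcd := S.contDiffOn_f
  have hU : UniqueDiffOn ℝ (Icc (0 : ℝ) 1) := uniqueDiffOn_Icc zero_lt_one
  obtain ⟨C, hC0, hC⟩ := preimage_measure (F := fun i => iteratedDerivWithin i f (Icc 0 1))
    (by
      intro i s hs
      have h1 : DifferentiableWithinAt ℝ (iteratedDerivWithin i f (Icc 0 1)) (Icc 0 1) s :=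
        hcd.differentiableOn_iteratedDerivWithin (WithTop.coe_lt_coe.mpr (ENat.natCast_lt_top i))
          hU s hs
      have h2 := h1.hasDerivWithinAt
      rw [iteratedDerivWithin_succ]
      exact h2) q
  refine ⟨C, hC0, fun N hN E hE => ?_⟩
  have h1 := hC N hN E hE
  simp only [iteratedDerivWithin_zero] at h1
  refine le_trans (le_of_eq ?_) h1
  have hms : MeasurableSet (Icc (0 : ℝ) 1 ∩ f ⁻¹' E) := measurableSet_Icc_inter hcd.continuousOn hE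
  refine setLIntegral_congr_fun hms (fun s hs => ?_)
  have h2 : iteratedDerivWithin 1 f (Icc 0 1) s = fp w a e s := by
    rw [iteratedDerivWithin_one]
    exact ((S.hasDerivAt_f hs.1).hasDerivWithinAt).derivWithin (hU s hs.1)
  rw [h2]

theorem exists_fp_bound (S : InitData D w a e) :
    ∃ C : ℝ, 0 ≤ C ∧ ∫⁻ s in Icc (0 : ℝ) 1, ENNReal.ofReal |fp w a e s| ≤ ENNReal.ofReal C := by
  obtain ⟨C, hC⟩ := isCompact_Icc.exists_bound_of_continuousOn S.continuousOn_fp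
  have hC0 : 0 ≤ C := (norm_nonneg _).trans (hC 0 (by simp))
  refine ⟨C, hC0, ?_⟩
  calc ∫⁻ s in Icc (0 : ℝ) 1, ENNReal.ofReal |fp w a e s|
      ≤ ∫⁻ _ in Icc (0 : ℝ) 1, ENNReal.ofReal C :=
        setLIntegral_mono measurable_const (fun s hs => ENNReal.ofReal_le_ofReal (hC s hs))
    _ = ENNReal.ofReal C := by
        rw [setLIntegral_const, Real.volume_Icc]; simp

end InitData

namespace Evol

variable {D : Set ℂ} {w : ℂ → ℝ} {a e : ℂ} {R α : ℝ} {u X : ℝ → ℂ → ℂ} {p : ℝ → ℂ → ℝ}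
  {K M : ℝ → ℝ}

theorem gr_zero (S : InitData D w a e) (V : Evol D w a e R α u p X K M) {s : ℝ}
    (hs : s ∈ Icc (0 : ℝ) 1) :
    gr u X 0 (a + s • e) = grad w (a + s • e) := by
  simp only [gr]
  rw [V.hX.init _ (S.hseg s hs), grad_congr S.hD V.h0 (S.hseg s hs)]

theorem gr_zero_ne (S : InitData D w a e) (V : Evol D w a e R α u p X K M) {s : ℝ}
    (hs : s ∈ Icc (0 : ℝ) 1) : gr u X 0 (a + s • e) ≠ 0 := by
  rw [V.gr_zero S hs]; exact S.hn s hs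

theorem continuousOn_gr (S : InitData D w a e) (V : Evol D w a e R α u p X K M) {t : ℝ}
    (ht : 0 ≤ t) : ContinuousOn (fun s : ℝ => gr u X t (a + s • e)) (Icc 0 1) :=
  (V.hE.continuousOn_gr_slice S.hD V.hF).comp
    (f := fun s : ℝ => ((t, a + s • e) : ℝ × ℂ)) (by fun_prop)
    (fun s hs => ⟨ht, S.hseg s hs⟩)

/-- The measure of the set of parameters with a small vorticity gradient at time `t`, in terms of
the set of long contours and the set of bad values. -/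
theorem measure_core (S : InitData D w a e) (V : Evol D w a e R α u p X K M) (hR1 : 1 ≤ R)
    (hα : 0 < α) {m : ℕ} (hm : 1 ≤ m * α) {t : ℝ} (ht : 0 ≤ t) {Y δ : ℝ} (hY : 1 ≤ Y)
    (hδ : 0 ≤ δ) (hδr : 8 * M t * Y ^ 2 * δ < ((32 * M t ^ 2 * Y ^ 2) ^ m)⁻¹) :
    ∃ E : Set ℝ, MeasurableSet E ∧ volume E ≤ ENNReal.ofReal
        (501760 * R ^ 2 * M t ^ 3 * Y ^ 4 * (32 * M t ^ 2 * Y ^ 2) ^ (2 * m) * δ ^ 2) ∧
      {s | s ∈ Icc (0 : ℝ) 1 ∧ ‖gr u X t (a + s • e)‖ ≤ δ}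
        ⊆ {s | s ∈ Icc (0 : ℝ) 1 ∧ ¬ ClosedContour D w (a + s • e) Y}
          ∪ (Icc 0 1 ∩ (fun s : ℝ => w (a + s • e)) ⁻¹' E) := by
  obtain ⟨h, hh, hext, _, hB, hH⟩ := V.hreg t ht
  obtain ⟨E, hE1, hE2, hE3⟩ := bad_values hh (V.hM1 t) hY hR1 hα hm hδ hB hH hδr
  refine ⟨E, hE1, hE3, ?_⟩
  rintro s ⟨hs, hsδ⟩
  by_cases hc : ClosedContour D w (a + s • e) Y
  · right
    refine ⟨hs, ?_⟩
    have h1 := bad_inclusion V.hE S.hD V.hX V.hF V.h0 ht hext (S.hseg s hs) (V.hR t ht s hs)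
      (V.gr_zero_ne S hs) hsδ hc
    have h2 := hE2 _ h1
    rw [hext _ (V.hX.mem _ (S.hseg s hs) t ht),
      V.hE.curl_transport S.hD V.hX (S.hseg s hs) ht, V.h0 _ (S.hseg s hs)] at h2
    exact h2
  · left; exact ⟨hs, hc⟩

end Evol

/-- The measure of the set of parameters with a small vorticity gradient at time `t`. -/
theorem measure_bound {D : Set ℂ} {w : ℂ → ℝ} {a e : ℂ} {R α : ℝ} (S : InitData D w a e)
    (hR1 : 1 ≤ R) (hα : 0 < α) {m : ℕ} (hm : 1 ≤ m * α) {η : ℝ}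
    (hη0 : 0 < η) (hη : (2 * m + 2) * η ≤ 1 / 2) :
    ∃ C : ℝ, 0 ≤ C ∧ ∀ (u : ℝ → ℂ → ℂ) (p : ℝ → ℂ → ℝ) (X : ℝ → ℂ → ℂ) (K M : ℝ → ℝ),
      Evol D w a e R α u p X K M → ∀ t, 0 ≤ t →
      ∀ j : ℕ, ∫⁻ s in {s | s ∈ Icc (0 : ℝ) 1 ∧ ‖gr u X t (a + s • e)‖ ≤ Real.exp (-(j : ℝ))},
        ENNReal.ofReal |fp w a e s|
        ≤ ENNReal.ofReal (C * M t ^ (8 * m + 4) * Real.exp (((4 * m + 5) * η - 2) * j)) := by
  obtain ⟨n, hn⟩ : ∃ n : ℕ, 2 / η ≤ n := exists_nat_ge _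
  have hnη : 2 ≤ n * η := by rwa [div_le_iff₀ hη0] at hn
  obtain ⟨Cp0, hCp0⟩ := S.hc n
  obtain ⟨Cq, hCq0, hCq⟩ := S.preimage n
  obtain ⟨Cν, hCν0, hCν⟩ := S.exists_fp_bound
  set Cp : ℝ := max Cp0 0 with hCp
  have hCp' : 0 ≤ Cp := le_max_right _ _
  set C' : ℝ := 2 * 2 ^ n * (501760 * R ^ 2 * 32 ^ (2 * m)) with hC'
  have hC'0 : 0 ≤ C' := by positivity
  set C'' : ℝ := Cν * (8 * 32 ^ m) ^ 4 with hC''
  have hC''0 : 0 ≤ C'' := by positivity
  refine ⟨Cp + C' + Cq + C'', by positivity, ?_⟩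
  intro u p X K Mf V t ht j
  set M : ℝ := Mf t with hMdef
  have hM : 1 ≤ M := V.hM1 t
  have hM0 : 0 < M := by linarith
  set W : ℝ := M ^ (8 * m + 4) * Real.exp (((4 * m + 5) * η - 2) * j) with hW
  have hW0 : 0 < W := by positivity
  set Z : Set ℝ := {s | s ∈ Icc (0 : ℝ) 1 ∧ ‖gr u X t (a + s • e)‖ ≤ Real.exp (-(j : ℝ))} with hZ
  have hj0 : (0 : ℝ) ≤ j := Nat.cast_nonneg j
  have hexp3 : Real.exp (-(2 * (j : ℝ))) ≤ Real.exp (((4 * m + 5) * η - 2) * j) := by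
    apply Real.exp_le_exp.mpr
    have : 0 ≤ (4 * m + 5) * η * j := by positivity
    nlinarith
  have hexp2 : Real.exp (-(2 * (j : ℝ))) ≤ W := by
    rw [hW]
    have h1 : (1 : ℝ) ≤ M ^ (8 * m + 4) := one_le_pow₀ hM
    have h3 : 0 < Real.exp (((4 * m + 5) * η - 2) * j) := Real.exp_pos _
    nlinarith
  rw [mul_assoc, ← hW]
  by_cases hcase : 8 * 32 ^ m * M ^ (2 * m + 1) * Real.exp ((2 * m + 2) * η * j)
      < Real.exp j
  · -- the geometric case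
    set Y : ℝ := Real.exp (η * j) with hY
    have hY1 : 1 ≤ Y := Real.one_le_exp (by positivity)
    have hY0 : 0 < Y := by positivity
    have hYpow : Real.exp ((2 * m + 2) * η * j) = Y ^ (2 * m + 2) := by
      rw [hY, ← Real.exp_nat_mul]; congr 1; push_cast; ring
    have hYpow2 : Y ^ (4 * m + 5) * Real.exp (-(2 * (j : ℝ)))
        = Real.exp (((4 * m + 5) * η - 2) * j) := by
      rw [hY, ← Real.exp_nat_mul, ← Real.exp_add]; congr 1; push_cast; ring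
    rw [hYpow] at hcase
    set δ : ℝ := Real.exp (-(j : ℝ)) with hδ
    have hδ0 : 0 < δ := Real.exp_pos _
    have hδj : Real.exp (j : ℝ) * δ = 1 := by rw [hδ, ← Real.exp_add]; simp
    have hmul : 8 * 32 ^ m * M ^ (2 * m + 1) * Y ^ (2 * m + 2) * δ < 1 := by
      calc 8 * 32 ^ m * M ^ (2 * m + 1) * Y ^ (2 * m + 2) * δ
          < Real.exp j * δ := by gcongr
        _ = 1 := hδj
    have hfac : 8 * M * Y ^ 2 * (32 * M ^ 2 * Y ^ 2) ^ m
        = 8 * 32 ^ m * M ^ (2 * m + 1) * Y ^ (2 * m + 2) := by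
      rw [mul_pow, mul_pow, ← pow_mul, ← pow_mul]; ring
    have hδr : 8 * M * Y ^ 2 * δ < ((32 * M ^ 2 * Y ^ 2) ^ m)⁻¹ := by
      rw [← one_div, lt_div_iff₀ (by positivity)]
      refine lt_of_le_of_lt (le_of_eq ?_) hmul
      rw [← hfac]; ring
    obtain ⟨E, hE1, hE3, hincl⟩ := V.measure_core S hR1 hα hm ht hY1 hδ0.le hδr
    set N : ℕ := ⌈Y⌉₊ with hN
    have hNY : Y ≤ N := Nat.le_ceil _
    have hN1 : 1 ≤ N := by
      have : (1 : ℝ) ≤ N := hY1.trans hNY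
      exact_mod_cast this
    have hN2 : (N : ℝ) ≤ 2 * Y := by
      have := Nat.ceil_lt_add_one hY0.le
      linarith
    have hYn : Real.exp (2 * (j : ℝ)) ≤ Y ^ n := by
      rw [hY, ← Real.exp_nat_mul]
      apply Real.exp_le_exp.mpr
      nlinarith
    have hinv : (Y ^ n)⁻¹ ≤ Real.exp (-(2 * (j : ℝ))) := by
      rw [Real.exp_neg]
      gcongr
    have hb1' : ENNReal.ofReal (Cp0 / Y ^ n) ≤ ENNReal.ofReal (Cp * W) := by
      refine ENNReal.ofReal_le_ofReal ?_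
      calc Cp0 / Y ^ n ≤ Cp / Y ^ n := by gcongr; exact le_max_left _ _
        _ = Cp * (Y ^ n)⁻¹ := by ring
        _ ≤ Cp * W := by gcongr; exact hinv.trans hexp2
    have hb2' : ENNReal.ofReal (Cq / N ^ n) ≤ ENNReal.ofReal (Cq * W) := by
      refine ENNReal.ofReal_le_ofReal ?_
      calc Cq / (N : ℝ) ^ n ≤ Cq / Y ^ n := by gcongr
        _ = Cq * (Y ^ n)⁻¹ := by ring
        _ ≤ Cq * W := by gcongr; exact hinv.trans hexp2
    have hb3' : (N : ℝ≥0∞) * 2 ^ n * volume E ≤ ENNReal.ofReal (C' * W) := by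
      have e1 : (N : ℝ≥0∞) * 2 ^ n = ENNReal.ofReal (N * 2 ^ n) := by
        rw [ENNReal.ofReal_mul (by positivity), ENNReal.ofReal_natCast,
          ENNReal.ofReal_pow (by norm_num)]
        norm_num
      rw [e1]
      refine (mul_le_mul_right hE3 _).trans ?_
      rw [← ENNReal.ofReal_mul (by positivity)]
      refine ENNReal.ofReal_le_ofReal ?_
      have e2 : δ ^ 2 = Real.exp (-(2 * (j : ℝ))) := by
        rw [hδ, ← Real.exp_nat_mul]; congr 1; push_cast; ring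
      have hMle : M ^ (4 * m + 3) ≤ M ^ (8 * m + 4) := pow_le_pow_right₀ hM (by omega)
      calc (N : ℝ) * 2 ^ n
            * (501760 * R ^ 2 * M ^ 3 * Y ^ 4 * (32 * M ^ 2 * Y ^ 2) ^ (2 * m) * δ ^ 2)
          ≤ (2 * Y) * 2 ^ n
            * (501760 * R ^ 2 * M ^ 3 * Y ^ 4 * (32 * M ^ 2 * Y ^ 2) ^ (2 * m) * δ ^ 2) := by
            gcongr
        _ = C' * (M ^ (4 * m + 3) * (Y ^ (4 * m + 5) * δ ^ 2)) := by
            rw [hC', mul_pow, mul_pow, ← pow_mul, ← pow_mul]; ring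
        _ ≤ C' * (M ^ (8 * m + 4) * (Y ^ (4 * m + 5) * δ ^ 2)) := by gcongr
        _ = C' * W := by rw [e2, hYpow2]
    calc ∫⁻ s in Z, ENNReal.ofReal |fp w a e s|
        ≤ ∫⁻ s in {s | s ∈ Icc (0 : ℝ) 1 ∧ ¬ ClosedContour D w (a + s • e) Y}
        ∪ (Icc 0 1 ∩ (fun s : ℝ => w (a + s • e)) ⁻¹' E),
          ENNReal.ofReal |fp w a e s| := lintegral_mono_set hincl
      _ ≤ _ := lintegral_union_le _ _ _
      _ ≤ ENNReal.ofReal (Cp0 / Y ^ n)
          + (N * 2 ^ n * volume E + ENNReal.ofReal (Cq / N ^ n)) :=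
          add_le_add (hCp0 Y hY1) (hCq N hN1 E hE1)
      _ ≤ ENNReal.ofReal (Cp * W) + (ENNReal.ofReal (C' * W) + ENNReal.ofReal (Cq * W)) :=
          add_le_add hb1' (add_le_add hb3' hb2')
      _ = ENNReal.ofReal ((Cp + C' + Cq) * W) := by
          rw [← ENNReal.ofReal_add (by positivity) (by positivity),
            ← ENNReal.ofReal_add (by positivity) (by positivity)]
          congr 1; ring
      _ ≤ _ := by
          refine ENNReal.ofReal_le_ofReal ?_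
          refine mul_le_mul_of_nonneg_right ?_ hW0.le
          linarith
  · -- the trivial case
    push Not at hcase
    have h1 : ∫⁻ s in Z, ENNReal.ofReal |fp w a e s| ≤ ENNReal.ofReal Cν :=
      (lintegral_mono_set (fun s hs => hs.1)).trans hCν
    refine h1.trans (ENNReal.ofReal_le_ofReal ?_)
    have h2 : Real.exp ((2 * m + 2) * η * j) ≤ Real.exp ((j : ℝ) / 2) := by
      apply Real.exp_le_exp.mpr
      nlinarith
    have h3 : Real.exp (j : ℝ) = Real.exp ((j : ℝ) / 2) * Real.exp ((j : ℝ) / 2) := by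
      rw [← Real.exp_add]; congr 1; ring
    have h4 : 0 < Real.exp ((j : ℝ) / 2) := Real.exp_pos _
    have h5 : Real.exp ((j : ℝ) / 2) ≤ 8 * 32 ^ m * M ^ (2 * m + 1) := by
      have h7 : Real.exp (j : ℝ) ≤ 8 * 32 ^ m * M ^ (2 * m + 1) * Real.exp ((j : ℝ) / 2) := by
        refine hcase.trans ?_
        gcongr
      rw [h3] at h7
      exact le_of_mul_le_mul_right h7 h4
    have h8 : Real.exp (2 * (j : ℝ)) ≤ (8 * 32 ^ m) ^ 4 * M ^ (8 * m + 4) := by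
      calc Real.exp (2 * (j : ℝ)) = Real.exp ((j : ℝ) / 2) ^ 4 := by
            rw [← Real.exp_nat_mul]; congr 1; push_cast; ring
        _ ≤ (8 * 32 ^ m * M ^ (2 * m + 1)) ^ 4 := by gcongr
        _ = (8 * 32 ^ m) ^ 4 * M ^ (8 * m + 4) := by
            rw [mul_pow _ (M ^ (2 * m + 1)), ← pow_mul]; congr 2; ring
    have h9 : 1 ≤ (8 * 32 ^ m) ^ 4 * W := by
      have h10 : 1 = Real.exp (2 * (j : ℝ)) * Real.exp (-(2 * (j : ℝ))) := by
        rw [← Real.exp_add]; simp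
      calc (1 : ℝ) = Real.exp (2 * (j : ℝ)) * Real.exp (-(2 * (j : ℝ))) := h10
        _ ≤ ((8 * 32 ^ m) ^ 4 * M ^ (8 * m + 4))
            * Real.exp (((4 * m + 5) * η - 2) * j) := by gcongr
        _ = _ := by rw [hW]; ring
    have h12 : 0 ≤ (Cp + C' + Cq) * W := by positivity
    calc Cν = Cν * 1 := by ring
      _ ≤ Cν * ((8 * 32 ^ m) ^ 4 * W) := by gcongr
      _ ≤ (Cp + C' + Cq) * W + Cν * ((8 * 32 ^ m) ^ 4 * W) := by linarith
      _ = _ := by rw [hC'']; ring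

end Run7.h772
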