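import Mathlib
import Pool.Agent.Run7.h772.Main

open Set Metric Filter MeasureTheory
open scoped ContDiff Topology ComplexConjugate ENNReal

namespace Run7.h772

open IsEulerFlow

variable {D : Set ℂ} {w : ℂ → ℝ} {a e : ℂ} {R α : ℝ}

theorem Evol.lower_at {u X : ℝ → ℂ → ℂ} {p : ℝ → ℂ → ℝ}
    {K M : ℝ → ℝ} (S : InitData D w a e) (V : Evol D w a e R α u p X K M) {m0 : ℝ}
    (hm0 : ∀ s ∈ Icc (0 : ℝ) 1, m0 ≤ ‖grad w (a + s • e)‖) {t T : ℝ} (ht : 0 ≤ t)
    (htT : t ≤ T) {s : ℝ}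
    (hs : s ∈ Icc (0 : ℝ) 1) : m0 * Real.exp (-(K T * t)) ≤ ‖gr u X t (a + s • e)‖ := by
  have h1 := V.hE.norm_grad_lower S.hD V.hX V.hF (S.hseg s hs) le_rfl ht htT
  rw [sub_zero] at h1
  refine le_trans ?_ h1
  have h3 : gr u X 0 (a + s • e) = grad w (a + s • e) := V.gr_zero S hs
  have h4 : ‖grad (curl (u 0)) (X 0 (a + s • e))‖ = ‖grad w (a + s • e)‖ := by
    rw [← h3]; rfl
  rw [h4]
  have h2 : 0 < Real.exp (-(K T * t)) := Real.exp_pos _
  exact mul_le_mul_of_nonneg_right (hm0 s hs) h2.le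

/-- Growth of the integrated inverse square of the vorticity gradient. -/
theorem integral_bound (S : InitData D w a e) (hR1 : 1 ≤ R) (hα : 0 < α) {m : ℕ}
    (hmα : 1 ≤ m * α) {ε : ℝ} (hε : 0 < ε) :
    ∃ C : ℝ, 0 ≤ C ∧ ∀ (u : ℝ → ℂ → ℂ) (p : ℝ → ℂ → ℝ) (X : ℝ → ℂ → ℂ) (K M : ℝ → ℝ),
      Evol D w a e R α u p X K M → ∀ (T : ℝ) (k : ℕ), (k : ℝ) ≤ T →
      ∫⁻ s in Icc (0 : ℝ) 1,
        ENNReal.ofReal (|fp w a e s| * (‖gr u X k (a + s • e)‖ ^ 2)⁻¹)
        ≤ ENNReal.ofReal (C * M T ^ (8 * m + 4) * Real.exp (ε * (K T * T))) := by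
  set c1 : ℝ := 4 * m + 6 with hc1
  have hc10 : 0 < c1 := by positivity
  set η : ℝ := min (1 / (2 * (2 * m + 2))) (ε / c1) with hη
  have hη0 : 0 < η := by positivity
  have hη1 : (2 * m + 2) * η ≤ 1 / 2 := by
    have h1 : η ≤ 1 / (2 * (2 * m + 2)) := min_le_left _ _
    calc (2 * (m : ℝ) + 2) * η ≤ (2 * m + 2) * (1 / (2 * (2 * m + 2))) := by gcongr
      _ = 1 / 2 := by field_simp
  have hη2 : c1 * η ≤ ε := by
    have h1 : η ≤ ε / c1 := min_le_right _ _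
    calc c1 * η ≤ c1 * (ε / c1) := by gcongr
      _ = ε := by field_simp
  obtain ⟨C2, hC20, hC2⟩ := measure_bound S hR1 hα hmα hη0 hη1
  obtain ⟨m0, hm00, hm01, hm0⟩ := S.exists_lower
  obtain ⟨Cν, hCν0, hCν⟩ := S.exists_fp_bound
  set L0 : ℝ := -Real.log m0 with hL0
  have hL00 : 0 ≤ L0 := by
    have := Real.log_nonpos hm00.le hm01
    linarith
  set C3 : ℝ := C2 * Real.exp 2 * (1 / η) * Real.exp (η + c1 * η * (L0 + 1)) with hC3
  have hC30 : 0 ≤ C3 := by positivity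
  refine ⟨Cν + C3, by positivity, ?_⟩
  intro u p X K Mf V T k hkT
  have hk0 : (0 : ℝ) ≤ k := Nat.cast_nonneg k
  have hT0 : 0 ≤ T := hk0.trans hkT
  have hK := V.hF.nonneg T
  set M : ℝ := Mf T with hM
  have hM1 : 1 ≤ M := V.hM1 T
  have hMk : Mf k ≤ M := V.hMm hkT
  have hMk1 : 1 ≤ Mf k := V.hM1 k
  have hMk0 : 0 ≤ Mf k := by linarith
  have hbd := hC2 u p X K Mf V k hk0
  set J : ℕ := ⌈K T * T + L0⌉₊ with hJ
  have hJ1 : K T * T + L0 ≤ J := Nat.le_ceil _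
  have hJ2 : (J : ℝ) ≤ K T * T + L0 + 1 := (Nat.ceil_lt_add_one (by positivity)).le
  have hJ0 : (0 : ℝ) ≤ J := Nat.cast_nonneg J
  have hgJ : ∀ s ∈ Icc (0 : ℝ) 1, Real.exp (-(J : ℝ)) ≤ ‖gr u X k (a + s • e)‖ := by
    intro s hs
    refine le_trans ?_ (V.lower_at S hm0 hk0 hkT hs)
    have h1 : m0 = Real.exp (-L0) := by rw [hL0, neg_neg, Real.exp_log hm00]
    rw [h1, ← Real.exp_add]
    apply Real.exp_le_exp.mpr
    have : K T * k ≤ K T * T := by gcongr
    linarith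
  have hlay := lintegral_inv_sq_le (g := fun s => ‖gr u X k (a + s • e)‖) (f' := fp w a e)
    (V.continuousOn_gr S hk0).norm S.continuousOn_fp hgJ
  refine hlay.trans ?_
  have hterm : ∀ j ∈ Finset.range (J + 1), ENNReal.ofReal (Real.exp (2 * j + 2))
      * ∫⁻ s in {s | s ∈ Icc (0 : ℝ) 1 ∧ ‖gr u X k (a + s • e)‖ ≤ Real.exp (-(j : ℝ))},
          ENNReal.ofReal |fp w a e s|
      ≤ ENNReal.ofReal (C2 * M ^ (8 * m + 4) * Real.exp 2 * Real.exp ((4 * m + 5) * η * J)) := by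
    intro j hj
    have hjJ : (j : ℝ) ≤ J := by
      have : j ≤ J := Nat.lt_succ_iff.mp (Finset.mem_range.mp hj)
      exact_mod_cast this
    refine (mul_le_mul_right (hbd j) _).trans ?_
    rw [← ENNReal.ofReal_mul (Real.exp_pos _).le]
    refine ENNReal.ofReal_le_ofReal ?_
    have e1 : Real.exp (2 * j + 2) * (C2 * Mf k ^ (8 * m + 4)
        * Real.exp (((4 * m + 5) * η - 2) * j))
        = C2 * Mf k ^ (8 * m + 4) * Real.exp 2 * Real.exp ((4 * m + 5) * η * j) := by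
      have e2 : Real.exp (2 * j + 2) * Real.exp (((4 * m + 5) * η - 2) * j)
          = Real.exp 2 * Real.exp ((4 * m + 5) * η * j) := by
        rw [← Real.exp_add, ← Real.exp_add]; congr 1; ring
      calc Real.exp (2 * j + 2) * (C2 * Mf k ^ (8 * m + 4)
            * Real.exp (((4 * m + 5) * η - 2) * j))
          = C2 * Mf k ^ (8 * m + 4)
            * (Real.exp (2 * j + 2) * Real.exp (((4 * m + 5) * η - 2) * j)) := by ring
        _ = _ := by rw [e2]; ring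
    rw [e1]
    gcongr
  refine (add_le_add hCν (Finset.sum_le_sum hterm)).trans ?_
  rw [Finset.sum_const, Finset.card_range, nsmul_eq_mul, ← ENNReal.ofReal_natCast,
    ← ENNReal.ofReal_mul (by positivity), ← ENNReal.ofReal_add hCν0 (by positivity)]
  refine ENNReal.ofReal_le_ofReal ?_
  have hJη : ((J + 1 : ℕ) : ℝ) ≤ 1 / η * Real.exp (η * (J + 1)) := by
    push_cast
    have h1 : η * (J + 1) + 1 ≤ Real.exp (η * (J + 1)) := Real.add_one_le_exp _
    rw [div_mul_eq_mul_div, one_mul, le_div_iff₀ hη0]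
    linarith
  have hexpJ : Real.exp (η * (J + 1)) * Real.exp ((4 * m + 5) * η * J)
      ≤ Real.exp (η + c1 * η * (L0 + 1)) * Real.exp (ε * (K T * T)) := by
    rw [← Real.exp_add, ← Real.exp_add]
    apply Real.exp_le_exp.mpr
    have h1 : η * (J + 1) + (4 * m + 5) * η * J = η + c1 * η * J := by rw [hc1]; ring
    rw [h1]
    have h2 : c1 * η * J ≤ c1 * η * (K T * T + L0 + 1) := by gcongr
    have h3 : c1 * η * (K T * T + L0 + 1) = c1 * η * (K T * T) + c1 * η * (L0 + 1) := by ring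
    have h4 : c1 * η * (K T * T) ≤ ε * (K T * T) := by gcongr
    linarith
  have hek : 1 ≤ Real.exp (ε * (K T * T)) := Real.one_le_exp (by positivity)
  have hMp : 1 ≤ M ^ (8 * m + 4) := one_le_pow₀ hM1
  have hmain : ((J + 1 : ℕ) : ℝ)
      * (C2 * M ^ (8 * m + 4) * Real.exp 2 * Real.exp ((4 * m + 5) * η * J))
      ≤ C3 * M ^ (8 * m + 4) * Real.exp (ε * (K T * T)) := by
    calc ((J + 1 : ℕ) : ℝ)
        * (C2 * M ^ (8 * m + 4) * Real.exp 2 * Real.exp ((4 * m + 5) * η * J))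
        ≤ (1 / η * Real.exp (η * (J + 1)))
          * (C2 * M ^ (8 * m + 4) * Real.exp 2 * Real.exp ((4 * m + 5) * η * J)) := by gcongr
      _ = C2 * M ^ (8 * m + 4) * Real.exp 2 * (1 / η)
          * (Real.exp (η * (J + 1)) * Real.exp ((4 * m + 5) * η * J)) := by ring
      _ ≤ C2 * M ^ (8 * m + 4) * Real.exp 2 * (1 / η)
          * (Real.exp (η + c1 * η * (L0 + 1)) * Real.exp (ε * (K T * T))) := by gcongr
      _ = C3 * M ^ (8 * m + 4) * Real.exp (ε * (K T * T)) := by rw [hC3]; ring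
  have h5 : Cν ≤ Cν * M ^ (8 * m + 4) * Real.exp (ε * (K T * T)) := by
    have h6 : 1 ≤ M ^ (8 * m + 4) * Real.exp (ε * (K T * T)) := one_le_mul_of_one_le_of_one_le hMp hek
    calc Cν = Cν * 1 := by ring
      _ ≤ Cν * (M ^ (8 * m + 4) * Real.exp (ε * (K T * T))) := by gcongr
      _ = _ := by ring
  calc Cν + ((J + 1 : ℕ) : ℝ)
      * (C2 * M ^ (8 * m + 4) * Real.exp 2 * Real.exp ((4 * m + 5) * η * J))
      ≤ Cν * M ^ (8 * m + 4) * Real.exp (ε * (K T * T))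
        + C3 * M ^ (8 * m + 4) * Real.exp (ε * (K T * T)) := add_le_add h5 hmain
    _ = _ := by ring

/-- From bounds of the integrated inverse squares to a bound of the length. -/
theorem length_of_integral (S : InitData D w a e) {m0 : ℝ} (hm00 : 0 < m0)
    (hm0 : ∀ s ∈ Icc (0 : ℝ) 1, m0 ≤ ‖grad w (a + s • e)‖)
    {u X : ℝ → ℂ → ℂ} {p : ℝ → ℂ → ℝ} {K M : ℝ → ℝ} (V : Evol D w a e R α u p X K M)
    {t : ℝ} (ht : 0 ≤ t) {B0 : ℝ} (hB0 : 0 ≤ B0)
    (hint : ∀ k : ℕ, (k : ℝ) ≤ t → ∫⁻ s in Icc (0 : ℝ) 1,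
        ENNReal.ofReal (|fp w a e s| * (‖gr u X k (a + s • e)‖ ^ 2)⁻¹) ≤ ENNReal.ofReal B0) :
    eVariationOn (fun s : ℝ => X t (a + s • e)) (Icc 0 1)
      ≤ ENNReal.ofReal (M t * (1 / m0 + Real.exp (3 * K t) * (1 + t) * B0)) := by
  have hK := V.hF.nonneg t
  set c : ℝ := 2 * K t * Real.exp (2 * K t) with hc
  have hc0 : 0 ≤ c := by positivity
  have hcle : c ≤ Real.exp (3 * K t) := by
    have h1 : 2 * K t ≤ Real.exp (K t) := by
      have := Real.quadratic_le_exp_of_nonneg hK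
      nlinarith [sq_nonneg (K t - 1)]
    calc c = 2 * K t * Real.exp (2 * K t) := hc
      _ ≤ Real.exp (K t) * Real.exp (2 * K t) := by gcongr
      _ = Real.exp (3 * K t) := by rw [← Real.exp_add]; congr 1; ring
  set Mt : ℝ := M t with hM
  have hM1 : 1 ≤ Mt := V.hM1 t
  have hM0 : 0 ≤ Mt := by linarith
  obtain ⟨h, _, hext, hB1, _, _⟩ := V.hreg t ht
  have hgM : ∀ s ∈ Icc (0 : ℝ) 1, ‖gr u X t (a + s • e)‖ ≤ Mt := by
    intro s hs
    have hx := S.hseg s hs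
    have h1 : gr u X t (a + s • e) = grad h (X t (a + s • e)) :=
      (grad_congr S.hD hext (V.hX.mem _ hx t ht)).symm
    rw [h1, norm_grad_eq]
    exact hB1 _
  set G : ℕ → ℝ → ℝ := fun k s => (‖gr u X k (a + s • e)‖ ^ 2)⁻¹ with hG
  have hGc : ∀ k : ℕ, ContinuousOn (G k) (Icc 0 1) := by
    intro k
    refine (((V.continuousOn_gr S (Nat.cast_nonneg k)).norm).pow 2).inv₀ ?_
    intro s hs
    have h1 := V.hE.gr_ne_zero S.hD V.hX V.hF (S.hseg s hs) (V.gr_zero_ne S hs)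
      (Nat.cast_nonneg (α := ℝ) k)
    have h2 : 0 < ‖gr u X k (a + s • e)‖ := norm_pos_iff.mpr h1
    exact (pow_pos h2 2).ne'
  set B : ℝ → ℝ := fun s => Mt * (1 / m0
    + c * ∑ k ∈ Finset.range (⌊t⌋₊ + 1), |fp w a e s| * G k s) with hB
  have hBc : ContinuousOn B (Icc 0 1) := by
    refine continuousOn_const.mul (continuousOn_const.add (continuousOn_const.mul ?_))
    exact continuousOn_finsetSum _ (fun k _ => S.continuousOn_fp.abs.mul (hGc k))
  have hder : ∀ s ∈ Icc (0 : ℝ) 1, HasDerivWithinAt (fun s : ℝ => X t (a + s • e))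
      (fderiv ℝ (X t) (a + s • e) e) (Icc 0 1) s := by
    intro s hs
    have h2 : HasDerivAt (fun s : ℝ => a + s • e) e s := by
      simpa using ((hasDerivAt_id s).smul_const e).const_add a
    exact (HasFDerivAt.comp_hasDerivAt (f := fun s : ℝ => a + s • e) s
      (V.hF.hasFDerivAt (S.hseg s hs) ht) h2).hasDerivWithinAt
  have hspeed : ∀ s ∈ Icc (0 : ℝ) 1, ‖fderiv ℝ (X t) (a + s • e) e‖ ≤ B s := by
    intro s hs
    refine (V.hE.stretch_bound S.hD V.hX V.hF (S.hseg s hs) (V.gr_zero_ne S hs) e ht).trans ?_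
    rw [S.he, V.gr_zero S hs, fderiv_congr S.hD V.h0 (S.hseg s hs)]
    have h1 : 1 / ‖grad w (a + s • e)‖ ≤ 1 / m0 := by
      have := hm0 s hs
      gcongr
    have h2 : 2 * K t * |fderiv ℝ w (a + s • e) e| * Real.exp (2 * K t)
        * ∑ k ∈ Finset.range (⌊t⌋₊ + 1), (‖gr u X k (a + s • e)‖ ^ 2)⁻¹
        = c * ∑ k ∈ Finset.range (⌊t⌋₊ + 1), |fp w a e s| * G k s := by
      rw [← Finset.mul_sum, hc]
      simp only [hG, fp]
      ring
    rw [h2]
    have h3 : 0 ≤ c * ∑ k ∈ Finset.range (⌊t⌋₊ + 1), |fp w a e s| * G k s := by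
      have : ∀ k ∈ Finset.range (⌊t⌋₊ + 1), 0 ≤ |fp w a e s| * G k s := by
        intro k _; simp only [hG]; positivity
      exact mul_nonneg hc0 (Finset.sum_nonneg this)
    simp only [hB]
    have h4 := hgM s hs
    gcongr
  refine (variation_le hder hBc hspeed).trans ?_
  have hGn : ∀ k s, 0 ≤ |fp w a e s| * G k s := by
    intro k s; simp only [hG]; positivity
  have hofB : ∀ s ∈ Icc (0 : ℝ) 1, ENNReal.ofReal (B s) ≤ ENNReal.ofReal (Mt * (1 / m0))
      + ∑ k ∈ Finset.range (⌊t⌋₊ + 1),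
        ENNReal.ofReal (Mt * c) * ENNReal.ofReal (|fp w a e s| * G k s) := by
    intro s _
    have e1 : B s = Mt * (1 / m0)
        + ∑ k ∈ Finset.range (⌊t⌋₊ + 1), (Mt * c) * (|fp w a e s| * G k s) := by
      simp only [hB]
      rw [mul_add, ← mul_assoc, Finset.mul_sum]
    rw [e1, ENNReal.ofReal_add (by positivity)
      (Finset.sum_nonneg (fun k _ => mul_nonneg (by positivity) (hGn k s))),
      ENNReal.ofReal_sum_of_nonneg (fun k _ => mul_nonneg (by positivity) (hGn k s))]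
    refine le_of_eq ?_
    congr 1
    refine Finset.sum_congr rfl (fun k _ => ?_)
    rw [ENNReal.ofReal_mul (by positivity)]
  refine (setLIntegral_mono' measurableSet_Icc hofB).trans ?_
  rw [lintegral_add_left' (by fun_prop), lintegral_finsetSum']
  swap
  · intro k _
    exact ((((S.continuousOn_fp.abs).mul (hGc k)).aemeasurable
      measurableSet_Icc).ennreal_ofReal).const_mul _
  have hint' : ∀ k ∈ Finset.range (⌊t⌋₊ + 1),
      ∫⁻ s in Icc (0 : ℝ) 1, ENNReal.ofReal (Mt * c) * ENNReal.ofReal (|fp w a e s| * G k s)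
        ≤ ENNReal.ofReal (Mt * c * B0) := by
    intro k hk
    have hkt : (k : ℝ) ≤ t := by
      have h1 : k ≤ ⌊t⌋₊ := Nat.lt_succ_iff.mp (Finset.mem_range.mp hk)
      exact le_trans (by exact_mod_cast h1) (Nat.floor_le ht)
    have haem : AEMeasurable (fun s => ENNReal.ofReal (|fp w a e s| * G k s))
        (volume.restrict (Icc 0 1)) :=
      (((S.continuousOn_fp.abs).mul (hGc k)).aemeasurable measurableSet_Icc).ennreal_ofReal
    rw [lintegral_const_mul'' _ haem, ENNReal.ofReal_mul (p := Mt * c) (by positivity)]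
    exact mul_le_mul_right (hint k hkt) _
  refine (add_le_add le_rfl (Finset.sum_le_sum hint')).trans ?_
  rw [setLIntegral_const, Real.volume_Icc, sub_zero, ENNReal.ofReal_one, mul_one,
    Finset.sum_const, Finset.card_range, nsmul_eq_mul, ← ENNReal.ofReal_natCast,
    ← ENNReal.ofReal_mul (by positivity), ← ENNReal.ofReal_add (by positivity) (by positivity)]
  refine ENNReal.ofReal_le_ofReal ?_
  have hfl : ((⌊t⌋₊ + 1 : ℕ) : ℝ) ≤ 1 + t := by
    push_cast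
    have h1 : (⌊t⌋₊ : ℝ) ≤ t := Nat.floor_le ht
    linarith
  calc Mt * (1 / m0) + ((⌊t⌋₊ + 1 : ℕ) : ℝ) * (Mt * c * B0)
      ≤ Mt * (1 / m0) + (1 + t) * (Mt * Real.exp (3 * K t) * B0) := by gcongr
    _ = Mt * (1 / m0 + Real.exp (3 * K t) * (1 + t) * B0) := by ring

/-- The main a priori estimate. -/
theorem length_bound (S : InitData D w a e) (hR1 : 1 ≤ R) (hα : 0 < α) {m : ℕ}
    (hmα : 1 ≤ m * α) {ε : ℝ} (hε : 0 < ε) :
    ∃ C : ℝ, 0 ≤ C ∧ ∀ (u : ℝ → ℂ → ℂ) (p : ℝ → ℂ → ℝ) (X : ℝ → ℂ → ℂ) (K M : ℝ → ℝ),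
      Evol D w a e R α u p X K M → ∀ t, 0 ≤ t →
      eVariationOn (fun s : ℝ => X t (a + s • e)) (Icc 0 1)
        ≤ ENNReal.ofReal (C * (1 + t) * Real.exp ((3 + ε * t) * K t) * M t ^ (8 * m + 5)) := by
  obtain ⟨CI, hCI0, hCI⟩ := integral_bound S hR1 hα hmα hε
  obtain ⟨m0, hm00, hm01, hm0⟩ := S.exists_lower
  refine ⟨1 / m0 + CI, by positivity, ?_⟩
  intro u p X K Mf V t ht
  have hK := V.hF.nonneg t
  have hM1 : 1 ≤ Mf t := V.hM1 t
  have hM0 : 0 ≤ Mf t := by linarith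
  refine (length_of_integral S hm00 hm0 V ht (B0 := CI * Mf t ^ (8 * m + 4)
    * Real.exp (ε * (K t * t))) (by positivity) (fun k hk => hCI u p X K Mf V t k hk)).trans ?_
  refine ENNReal.ofReal_le_ofReal ?_
  have hE : Real.exp ((3 + ε * t) * K t) = Real.exp (3 * K t) * Real.exp (ε * (K t * t)) := by
    rw [← Real.exp_add]; congr 1; ring
  have hE1 : 1 ≤ Real.exp ((3 + ε * t) * K t) := Real.one_le_exp (by positivity)
  have hP : Mf t ≤ Mf t ^ (8 * m + 5) := by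
    calc Mf t = Mf t ^ 1 := (pow_one _).symm
      _ ≤ Mf t ^ (8 * m + 5) := pow_le_pow_right₀ hM1 (by omega)
  have h1 : Mf t * (1 / m0) ≤ 1 / m0 * (1 + t) * Real.exp ((3 + ε * t) * K t)
      * Mf t ^ (8 * m + 5) := by
    have h2 : (1 : ℝ) ≤ (1 + t) * Real.exp ((3 + ε * t) * K t) :=
      one_le_mul_of_one_le_of_one_le (by linarith) hE1
    calc Mf t * (1 / m0) = 1 / m0 * 1 * Mf t := by ring
      _ ≤ 1 / m0 * ((1 + t) * Real.exp ((3 + ε * t) * K t)) * Mf t ^ (8 * m + 5) := by gcongr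
      _ = _ := by ring
  have h3 : Mf t * (Real.exp (3 * K t) * (1 + t)
      * (CI * Mf t ^ (8 * m + 4) * Real.exp (ε * (K t * t))))
      = CI * (1 + t) * Real.exp ((3 + ε * t) * K t) * Mf t ^ (8 * m + 5) := by
    rw [hE, show 8 * m + 5 = (8 * m + 4) + 1 by ring, pow_succ]; ring
  calc Mf t * (1 / m0 + Real.exp (3 * K t) * (1 + t)
      * (CI * Mf t ^ (8 * m + 4) * Real.exp (ε * (K t * t))))
      = Mf t * (1 / m0) + Mf t * (Real.exp (3 * K t) * (1 + t)
      * (CI * Mf t ^ (8 * m + 4) * Real.exp (ε * (K t * t)))) := by ring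
    _ ≤ 1 / m0 * (1 + t) * Real.exp ((3 + ε * t) * K t) * Mf t ^ (8 * m + 5)
        + CI * (1 + t) * Real.exp ((3 + ε * t) * K t) * Mf t ^ (8 * m + 5) := by
        rw [h3]; linarith
    _ = _ := by ring

end Run7.h772
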