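import Mathlib
import Pool.Agent.Run7.h772.Contour

open Set Metric Filter MeasureTheory
open scoped ContDiff Topology ComplexConjugate NNReal

namespace Run7.h772

-- global solutions of bounded Lipschitz autonomous fields
theorem exists_solution_Ioo {E : Type*} [NormedAddCommGroup E] [NormedSpace ℝ E] [CompleteSpace E]
    {X : E → E} {K M : ℝ≥0} (hK : LipschitzWith K X) (hM : ∀ x, ‖X x‖ ≤ M) (x : E) (n : ℕ) :
    ∃ γ : ℝ → E, γ 0 = x ∧ ∀ t ∈ Ioo (-((n:ℝ) + 1)) ((n:ℝ) + 1), HasDerivAt γ (X (γ t)) t := by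
  have h0 : (0:ℝ) ∈ Icc (-((n:ℝ) + 1)) ((n:ℝ) + 1) := ⟨by linarith [n.cast_nonneg (α := ℝ)],
    by positivity⟩
  have hpl : IsPicardLindelof (fun _ => X) (⟨0, h0⟩ : Icc (-((n:ℝ) + 1)) ((n:ℝ) + 1)) x
      (M * (n + 1)) 0 M K := by
    refine IsPicardLindelof.of_time_independent (fun y _ => hM y) (hK.lipschitzOnWith) ?_
    simp
  obtain ⟨γ, h1, h2⟩ := hpl.exists_eq_forall_mem_Icc_hasDerivWithinAt₀
  exact ⟨γ, h1, fun t ht => (h2 t (Ioo_subset_Icc_self ht)).hasDerivAt (Icc_mem_nhds ht.1 ht.2)⟩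

theorem exists_solution {E : Type*} [NormedAddCommGroup E] [NormedSpace ℝ E] [CompleteSpace E]
    {X : E → E} {K M : ℝ≥0} (hK : LipschitzWith K X) (hM : ∀ x, ‖X x‖ ≤ M) (x : E) :
    ∃ γ : ℝ → E, γ 0 = x ∧ ∀ t, HasDerivAt γ (X (γ t)) t := by
  choose γ h0 h1 using exists_solution_Ioo hK hM x
  have hun : ∀ n k : ℕ, n ≤ k → EqOn (γ n) (γ k) (Ioo (-((n:ℝ) + 1)) ((n:ℝ) + 1)) := by
    intro n k hnk
    have hnk' : (n:ℝ) ≤ k := by exact_mod_cast hnk
    have hn : (0:ℝ) ≤ n := n.cast_nonneg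
    refine ODE_solution_unique_of_mem_Ioo (v := fun _ => X) (s := fun _ => univ) (K := K) (t₀ := 0)
      (fun t _ => hK.lipschitzOnWith) ⟨by linarith, by linarith⟩
      (fun t ht => ⟨h1 n t ht, trivial⟩) (fun t ht => ⟨h1 k t ⟨?_, ?_⟩, trivial⟩) ?_
    · linarith [ht.1]
    · linarith [ht.2]
    · rw [h0, h0]
  refine ⟨fun t => γ ⌈|t|⌉₊ t, ?_, ?_⟩
  · simp only; rw [h0]
  · intro t
    set N : ℕ := ⌈|t|⌉₊ + 1 with hN
    have hval : ∀ s : ℝ, |s| < |t| + 1 → γ ⌈|s|⌉₊ s = γ N s := by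
      intro s hs
      have h2 : ⌈|s|⌉₊ ≤ N := by
        have h3 : |s| ≤ ((⌈|t|⌉₊ + 1 : ℕ) : ℝ) := by
          push_cast
          linarith [Nat.le_ceil |t|]
        exact Nat.ceil_le.2 h3
      refine hun _ _ h2 ?_
      have h3 := Nat.le_ceil |s|
      exact abs_lt.1 (by linarith : |s| < (⌈|s|⌉₊:ℝ) + 1)
    have h3 : HasDerivAt (γ N) (X (γ N t)) t := by
      apply h1
      have h4 := Nat.le_ceil |t|
      refine abs_lt.1 ?_
      rw [hN]; push_cast
      linarith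
    have h4 : (fun s => γ ⌈|s|⌉₊ s) =ᶠ[𝓝 t] γ N := by
      have : ∀ᶠ s in 𝓝 t, |s| < |t| + 1 :=
        (continuous_abs.tendsto t).eventually (gt_mem_nhds (by linarith))
      exact this.mono hval
    change HasDerivAt _ (X (γ ⌈|t|⌉₊ t)) t
    rw [hval t (by linarith)]
    exact h3.congr_of_eventuallyEq h4

/-- norm of a difference of gradients -/
theorem norm_grad_sub_le (h : ℂ → ℝ) (x y : ℂ) :
    ‖grad h x - grad h y‖ ≤ ‖fderiv ℝ h x - fderiv ℝ h y‖ := by
  by_cases h0 : grad h x - grad h y = 0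
  · rw [h0]; simp
  set G := grad h x - grad h y with hG
  have h1 : (fderiv ℝ h x - fderiv ℝ h y) G = ‖G‖ ^ 2 := by
    rw [sub_apply, grad_inner, grad_inner, ← Complex.normSq_eq_norm_sq, Complex.normSq_apply]
    simp only [hG, Complex.sub_re, Complex.sub_im]
    ring
  have h2 : ‖G‖ ^ 2 ≤ ‖fderiv ℝ h x - fderiv ℝ h y‖ * ‖G‖ := by
    rw [← h1]
    exact (le_abs_self _).trans ((fderiv ℝ h x - fderiv ℝ h y).le_opNorm _)
  have h3 : 0 < ‖G‖ := norm_pos_iff.mpr h0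
  nlinarith

/-- Bounds of the first two derivatives of a Hamiltonian on the plane, and of the Lipschitz
constant of the second one. -/
structure HamData (h : ℂ → ℝ) (M : ℝ) : Prop where
  smooth : ContDiff ℝ 3 h
  one_le : 1 ≤ M
  b1 : ∀ x, ‖fderiv ℝ h x‖ ≤ M
  b2 : ∀ x, ‖fderiv ℝ (fderiv ℝ h) x‖ ≤ M
  lip2 : ∀ x y, ‖fderiv ℝ (fderiv ℝ h) x - fderiv ℝ (fderiv ℝ h) y‖ ≤ M * ‖x - y‖

/-- `z` is an orbit of the Hamiltonian field of `h`. -/
def IsOrbit (h : ℂ → ℝ) (z : ℝ → ℂ) : Prop :=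
  ∀ q, HasDerivAt z (Complex.I * grad h (z q)) q

namespace HamData

variable {h : ℂ → ℝ} {M : ℝ}

theorem c2 (H : HamData h M) : ContDiff ℝ 2 h := H.smooth.of_le (by norm_num)

theorem lip1 (H : HamData h M) (x y : ℂ) :
    ‖fderiv ℝ h x - fderiv ℝ h y‖ ≤ M * ‖x - y‖ :=
  (convex_univ (𝕜 := ℝ) (E := ℂ)).norm_image_sub_le_of_norm_hasFDerivWithin_le
    (f' := fun x => fderiv ℝ (fderiv ℝ h) x)
    (fun x _ => (hasFDerivAt_fderiv H.c2 x).hasFDerivWithinAt)
    (fun x _ => H.b2 x) (mem_univ _) (mem_univ _)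

theorem hess_contDiff (H : HamData h M) (v w : ℂ) :
    ContDiff ℝ 1 (fun x => fderiv ℝ (fderiv ℝ h) x v w) := by
  have h1 : ContDiff ℝ 2 (fderiv ℝ h) := H.smooth.fderiv_right (by norm_num)
  have h2 : ContDiff ℝ 1 (fderiv ℝ (fderiv ℝ h)) := h1.fderiv_right (by norm_num)
  exact (h2.clm_apply contDiff_const).clm_apply contDiff_const

/-- the derivative of a second derivative of `h` along an orbit is small where the orbit is
slow -/
theorem hess_deriv (H : HamData h M) {z : ℝ → ℂ} (hz : IsOrbit h z) {v w : ℂ} (hv : ‖v‖ = 1)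
    (hw : ‖w‖ = 1) (q : ℝ) :
    ∃ c : ℝ, HasDerivAt (fun q => fderiv ℝ (fderiv ℝ h) (z q) v w) c q ∧
      |c| ≤ M * ‖grad h (z q)‖ := by
  set f : ℂ → ℝ := fun x => fderiv ℝ (fderiv ℝ h) x v w with hf
  have hM0 : 0 ≤ M := by linarith [H.one_le]
  have h1 : HasFDerivAt f (fderiv ℝ f (z q)) (z q) :=
    ((H.hess_contDiff v w).differentiable (by norm_num) (z q)).hasFDerivAt
  have hlip : LipschitzWith M.toNNReal f := by
    refine LipschitzWith.of_dist_le_mul (fun x y => ?_)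
    rw [dist_eq_norm, dist_eq_norm, Real.coe_toNNReal _ hM0]
    have e1 : f x - f y = (fderiv ℝ (fderiv ℝ h) x - fderiv ℝ (fderiv ℝ h) y) v w := by
      simp [hf]
    rw [e1]
    refine (ContinuousLinearMap.le_opNorm _ _).trans ?_
    rw [hw, mul_one]
    refine (ContinuousLinearMap.le_opNorm _ _).trans ?_
    rw [hv, mul_one]
    exact H.lip2 x y
  have h2 : ‖fderiv ℝ f (z q)‖ ≤ M := by
    have := norm_fderiv_le_of_lipschitz ℝ hlip (x₀ := z q)
    rwa [Real.coe_toNNReal _ hM0] at this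
  refine ⟨_, h1.comp_hasDerivAt q (hz q), ?_⟩
  rw [← Real.norm_eq_abs]
  refine (ContinuousLinearMap.le_opNorm _ _).trans ?_
  rw [norm_mul, Complex.norm_I, one_mul]
  gcongr

theorem lipGrad (H : HamData h M) (x y : ℂ) : ‖grad h x - grad h y‖ ≤ M * ‖x - y‖ :=
  (norm_grad_sub_le h x y).trans (H.lip1 x y)

theorem normGrad (H : HamData h M) (x : ℂ) : ‖grad h x‖ ≤ M := by
  rw [norm_grad_eq]; exact H.b1 x

theorem lipschitz (H : HamData h M) :
    LipschitzWith M.toNNReal (fun x => Complex.I * grad h x) := by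
  have hM0 : 0 ≤ M := by linarith [H.one_le]
  refine LipschitzWith.of_dist_le_mul (fun x y => ?_)
  rw [dist_eq_norm, dist_eq_norm, ← mul_sub, norm_mul, Complex.norm_I, one_mul,
    Real.coe_toNNReal _ hM0]
  exact H.lipGrad x y

theorem exists_orbit (H : HamData h M) (x : ℂ) : ∃ z : ℝ → ℂ, z 0 = x ∧ IsOrbit h z := by
  have hM0 : 0 ≤ M := by linarith [H.one_le]
  refine exists_solution H.lipschitz (M := M.toNNReal) (fun x => ?_) x
  rw [Real.coe_toNNReal _ hM0, norm_mul, Complex.norm_I, one_mul]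
  exact H.normGrad x

theorem orbit_unique (H : HamData h M) {z1 z2 : ℝ → ℂ} (h1 : IsOrbit h z1) (h2 : IsOrbit h z2)
    {q : ℝ} (hq : z1 q = z2 q) : z1 = z2 :=
  ODE_solution_unique_univ (v := fun _ x => Complex.I * grad h x) (s := fun _ => univ)
    (K := M.toNNReal) (t₀ := q) (fun _ => H.lipschitz.lipschitzOnWith)
    (fun t => ⟨h1 t, trivial⟩) (fun t => ⟨h2 t, trivial⟩) hq

theorem orbit_shift {z : ℝ → ℂ} (hz : IsOrbit h z) (T : ℝ) : IsOrbit h (fun q => z (q + T)) := by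
  intro q
  exact (hz (q + T)).comp_add_const q T

theorem orbit_const (H : HamData h M) {z : ℝ → ℂ} (hz : IsOrbit h z) (q q' : ℝ) :
    h (z q) = h (z q') := by
  have hd : ∀ q, HasDerivAt (fun q => h (z q)) 0 q := by
    intro q
    have h1 : HasFDerivAt h (fderiv ℝ h (z q)) (z q) :=
      (H.c2.differentiable (by norm_num) (z q)).hasFDerivAt
    have h2 := h1.comp_hasDerivAt q (hz q)
    refine h2.congr_deriv ?_
    rw [grad_inner]
    simp
    ring
  exact is_const_of_deriv_eq_zero (fun q => (hd q).differentiableAt) (fun q => (hd q).deriv) q q'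

theorem orbit_cont {z : ℝ → ℂ} (hz : IsOrbit h z) : Continuous z :=
  continuous_iff_continuousAt.mpr (fun q => (hz q).continuousAt)

theorem orbit_dist (H : HamData h M) {z : ℝ → ℂ} (hz : IsOrbit h z) (q q' : ℝ) :
    ‖z q' - z q‖ ≤ M * |q' - q| := by
  have := (convex_univ (𝕜 := ℝ) (E := ℝ)).norm_image_sub_le_of_norm_hasDerivWithin_le
    (f := z) (f' := fun q => Complex.I * grad h (z q)) (C := M)
    (fun q _ => (hz q).hasDerivWithinAt) (fun q _ => by
      rw [norm_mul, Complex.norm_I, one_mul]; exact H.normGrad _) (mem_univ q) (mem_univ q')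
  simpa using this

end HamData

end Run7.h772
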