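import Mathlib
import Pool.Agent.Run7.h772.Ham

open Set Metric Filter MeasureTheory
open scoped ContDiff Topology ComplexConjugate NNReal

namespace Run7.h772

/-- The coordinate along the contour direction at `x`. -/
noncomputable def sx (h : ℂ → ℝ) (x y : ℂ) : ℝ := (conj (Complex.I * grad h x) * (y - x)).re

theorem abs_sx_le (h : ℂ → ℝ) (x y : ℂ) : |sx h x y| ≤ ‖grad h x‖ * ‖y - x‖ := by
  unfold sx
  refine (Complex.abs_re_le_norm _).trans (le_of_eq ?_)
  simp

namespace HamData

variable {h : ℂ → ℝ} {M : ℝ}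

theorem inner_grad_lower (H : HamData h M) {r : ℝ} (hr : 0 < r) {x y : ℂ}
    (hx : r ≤ ‖grad h x‖) (hy : ‖y - x‖ ≤ r / (2 * M)) :
    ‖grad h x‖ * (r / 2) ≤ (conj (grad h x) * grad h y).re := by
  have hM0 : 0 < M := by linarith [H.one_le]
  have h1 : ‖grad h y - grad h x‖ ≤ r / 2 := by
    refine (H.lipGrad y x).trans ?_
    calc M * ‖y - x‖ ≤ M * (r / (2 * M)) := by gcongr
      _ = r / 2 := by field_simp
  have h2 : (conj (grad h x) * grad h y).re
      = ‖grad h x‖ ^ 2 + (conj (grad h x) * (grad h y - grad h x)).re := by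
    rw [← Complex.normSq_eq_norm_sq, Complex.normSq_apply]
    simp
    ring
  have h3 : |(conj (grad h x) * (grad h y - grad h x)).re| ≤ ‖grad h x‖ * (r / 2) := by
    refine (Complex.abs_re_le_norm _).trans ?_
    rw [norm_mul, Complex.norm_conj]
    gcongr
  have h4 := (abs_le.mp h3).1
  have h5 : ‖grad h x‖ * r ≤ ‖grad h x‖ ^ 2 := by
    have : 0 ≤ ‖grad h x‖ := norm_nonneg _
    nlinarith
  rw [h2]
  linarith

/-- An orbit close to a fast point crosses the transversal of that point soon. -/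
theorem flowbox (H : HamData h M) {r ρ1 : ℝ} (hr : 0 < r) (hρ0 : 0 < ρ1)
    (hρ : ρ1 + M * (6 * ρ1 / r) ≤ r / (2 * M)) {x : ℂ} (hx : r ≤ ‖grad h x‖) {z : ℝ → ℂ}
    (hz : IsOrbit h z) {q1 : ℝ} (hq1 : ‖z q1 - x‖ ≤ ρ1) :
    ∃ q2 ∈ Icc q1 (q1 + 6 * ρ1 / r), ‖z q2 - x‖ ≤ r / (2 * M) ∧
      sx h x (z q2) = 2 * ρ1 * ‖grad h x‖ := by
  have hM0 : 0 < M := by linarith [H.one_le]
  set q0 : ℝ := 6 * ρ1 / r with hq0
  have hq00 : 0 < q0 := by positivity
  have hg0 : 0 < ‖grad h x‖ := hr.trans_le hx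
  have hball : ∀ q ∈ Icc q1 (q1 + q0), ‖z q - x‖ ≤ r / (2 * M) := by
    intro q hq
    have h1 := H.orbit_dist hz q1 q
    have h2 : |q - q1| ≤ q0 := by
      rw [abs_of_nonneg (by linarith [hq.1])]; linarith [hq.2]
    have h3 : ‖z q - x‖ ≤ ‖z q - z q1‖ + ‖z q1 - x‖ := by
      have : z q - x = (z q - z q1) + (z q1 - x) := by ring
      rw [this]; exact norm_add_le _ _
    have h4 : M * |q - q1| ≤ M * q0 := by gcongr
    linarith
  have hd : ∀ q, HasDerivAt (fun q => sx h x (z q)) ((conj (grad h x) * grad h (z q)).re) q := by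
    intro q
    have h1 := Complex.reCLM.hasFDerivAt.comp_hasDerivAt q
      (((hz q).sub_const x).const_mul (conj (Complex.I * grad h x)))
    refine h1.congr_deriv ?_
    simp
  have hc : Continuous (fun q => sx h x (z q)) :=
    continuous_iff_continuousAt.mpr (fun q => (hd q).continuousAt)
  have hlow : ‖grad h x‖ * (r / 2) * (q1 + q0 - q1) ≤ sx h x (z (q1 + q0)) - sx h x (z q1) := by
    refine (convex_Icc q1 (q1 + q0)).mul_sub_le_image_sub_of_le_deriv hc.continuousOn
      (fun q _ => (hd q).differentiableAt.differentiableWithinAt) ?_ q1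
      (left_mem_Icc.mpr (by linarith)) (q1 + q0) (right_mem_Icc.mpr (by linarith)) (by linarith)
    intro q hq
    rw [interior_Icc] at hq
    rw [(hd q).deriv]
    exact H.inner_grad_lower hr hx (hball q (Ioo_subset_Icc_self hq))
  have hs1 : |sx h x (z q1)| ≤ ‖grad h x‖ * ρ1 := by
    refine (abs_sx_le h x _).trans ?_
    gcongr
  have hs1' := abs_le.mp hs1
  have hval : ‖grad h x‖ * (r / 2) * (q1 + q0 - q1) = 3 * ρ1 * ‖grad h x‖ := by
    rw [hq0]; field_simp; ring
  rw [hval] at hlow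
  obtain ⟨q2, hq2, hq2'⟩ := intermediate_value_Icc (by linarith : q1 ≤ q1 + q0)
    hc.continuousOn (show 2 * ρ1 * ‖grad h x‖ ∈ Icc (sx h x (z q1)) (sx h x (z (q1 + q0))) from
      ⟨by nlinarith, by nlinarith⟩)
  exact ⟨q2, hq2, hball q2 hq2, hq2'⟩

/-- Two points of the transversal with the same value coincide. -/
theorem transversal_unique (H : HamData h M) {r : ℝ} (hr : 0 < r) {x y y' : ℂ}
    (hx : r ≤ ‖grad h x‖) (hy : ‖y - x‖ ≤ r / (2 * M)) (hy' : ‖y' - x‖ ≤ r / (2 * M))
    (hs : sx h x y = sx h x y') (hh : h y = h y') : y = y' := by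
  have hg0 : 0 < ‖grad h x‖ := hr.trans_le hx
  set v : ℂ := y' - y with hv
  -- `v` is a multiple of the gradient
  have h1 : (conj (Complex.I * grad h x) * v).re = 0 := by
    have : (conj (Complex.I * grad h x) * v).re = sx h x y' - sx h x y := by
      simp only [sx, hv, ← Complex.sub_re]
      congr 1
      ring
    rw [this, hs, sub_self]
  have h2 : (conj (grad h x) * v).im = 0 := by
    simp at h1 ⊢
    linarith
  set lam : ℝ := (conj (grad h x) * v).re / ‖grad h x‖ ^ 2 with hlam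
  have hvl : v = (lam : ℂ) * grad h x := by
    have e1 : conj (grad h x) * v = ((conj (grad h x) * v).re : ℂ) := by
      apply Complex.ext
      · simp
      · rw [h2]; simp
    have e2 : grad h x * conj (grad h x) = ((‖grad h x‖ ^ 2 : ℝ) : ℂ) := by
      rw [Complex.mul_conj, Complex.normSq_eq_norm_sq]
    have e3 : ((‖grad h x‖ ^ 2 : ℝ) : ℂ) ≠ 0 := by
      exact_mod_cast (pow_pos hg0 2).ne'
    have e4 : ((‖grad h x‖ ^ 2 : ℝ) : ℂ) * v = ((conj (grad h x) * v).re : ℂ) * grad h x := by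
      rw [← e1, ← e2]; ring
    have e5 : (lam : ℂ) = ((conj (grad h x) * v).re : ℂ) / ((‖grad h x‖ ^ 2 : ℝ) : ℂ) := by
      rw [hlam]; push_cast; rfl
    rw [e5, div_mul_eq_mul_div, eq_div_iff e3, ← e4]
    ring
  -- mean value theorem
  have hd : ∀ t : ℝ, HasDerivAt (fun t : ℝ => h (y + t • v)) (fderiv ℝ h (y + t • v) v) t := by
    intro t
    have h3 : HasFDerivAt h (fderiv ℝ h (y + t • v)) (y + t • v) :=
      (H.c2.differentiable (by norm_num) _).hasFDerivAt
    have h4 : HasDerivAt (fun t : ℝ => y + t • v) v t := by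
      simpa using ((hasDerivAt_id t).smul_const v).const_add y
    exact HasFDerivAt.comp_hasDerivAt (f := fun t : ℝ => y + t • v) t h3 h4
  obtain ⟨t, ht, htd⟩ := exists_hasDerivAt_eq_slope (fun t : ℝ => h (y + t • v)) _ zero_lt_one
    (fun t _ => (hd t).continuousAt.continuousWithinAt) (fun t _ => hd t)
  have h5 : fderiv ℝ h (y + t • v) v = 0 := by
    rw [htd]
    simp [hv, hh]
  have hξ : ‖(y + t • v) - x‖ ≤ r / (2 * M) := by
    have hconv := convex_closedBall x (r / (2 * M))
    have m1 : y ∈ closedBall x (r / (2 * M)) := by simpa [mem_closedBall, dist_eq_norm] using hy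
    have m2 : y' ∈ closedBall x (r / (2 * M)) := by simpa [mem_closedBall, dist_eq_norm] using hy'
    have m3 := hconv.add_smul_sub_mem m1 m2 (t := t) ⟨ht.1.le, ht.2.le⟩
    rw [mem_closedBall, dist_eq_norm] at m3
    exact m3
  have h6 := H.inner_grad_lower hr hx hξ
  have h7 : fderiv ℝ h (y + t • v) v = lam * (conj (grad h x) * grad h (y + t • v)).re := by
    rw [grad_inner]
    generalize grad h (y + t • v) = G
    rw [hvl]
    simp
    ring
  rw [h7] at h5
  have h8 : 0 < (conj (grad h x) * grad h (y + t • v)).re := by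
    refine lt_of_lt_of_le ?_ h6
    positivity
  have h9 : lam = 0 := by
    rcases mul_eq_zero.mp h5 with h | h
    · exact h
    · exact absurd h h8.ne'
  have h10 : v = 0 := by rw [hvl, h9]; simp
  have : y' = y := by
    have := sub_eq_zero.mp h10
    exact this
  exact this.symm

/-- If an orbit in a compact set is fast at least once in every time window of length `S`, it is
closed, with a period controlled by `S`. -/
theorem closed_of_gap (H : HamData h M) {K0 : Set ℂ} (hK0 : IsCompact K0) {r : ℝ} (hr : 0 < r) :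
    ∃ C0 : ℝ, 1 ≤ C0 ∧ ∀ S : ℝ, 0 ≤ S → ∀ z : ℝ → ℂ, IsOrbit h z → (∀ q, 0 ≤ q → z q ∈ K0) →
      (∀ q, 0 ≤ q → ∃ q' ∈ Icc q (q + S), r ≤ ‖grad h (z q')‖) →
      ∃ T : ℝ, 0 < T ∧ T ≤ C0 * (S + 1) ∧ z T = z 0 := by
  have hM0 : 0 < M := by linarith [H.one_le]
  set ρ2 : ℝ := r / (2 * M) with hρ2
  set ρ1 : ℝ := ρ2 / (1 + 6 * M / r) with hρ1
  have hρ10 : 0 < ρ1 := by positivity
  have hρle : ρ1 + M * (6 * ρ1 / r) ≤ r / (2 * M) := by
    have : ρ1 + M * (6 * ρ1 / r) = ρ1 * (1 + 6 * M / r) := by ring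
    rw [this, hρ1, div_mul_cancel₀ _ (by positivity)]
  set q0 : ℝ := 6 * ρ1 / r with hq0
  have hq00 : 0 < q0 := by positivity
  have hcont : Continuous (fun x => ‖grad h x‖) := by
    have : (fun x => ‖grad h x‖) = fun x => ‖fderiv ℝ h x‖ := by
      funext x; exact norm_grad_eq _ _
    rw [this]
    exact (H.c2.continuous_fderiv (by norm_num)).norm
  have hF : IsCompact (K0 ∩ {x | r ≤ ‖grad h x‖}) :=
    hK0.inter_right (isClosed_le continuous_const hcont)
  obtain ⟨t, hts, htf, hcov⟩ := hF.finite_cover_balls hρ10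
  set tf : Finset ℂ := htf.toFinset with htf'
  refine ⟨(tf.card + 1) * (q0 + 1), ?_, ?_⟩
  · have : (0 : ℝ) ≤ tf.card := Nat.cast_nonneg _
    nlinarith
  intro S hS z hz hzK hgap
  set W : ℝ := S + q0 + 1 with hW
  have hW0 : 0 < W := by positivity
  -- sample times
  have hsample : ∀ k : ℕ, ∃ τ ∈ Icc (k * W) (k * W + S), r ≤ ‖grad h (z τ)‖ := fun k =>
    hgap (k * W) (by positivity)
  choose τ hτ hτr using hsample
  have hcenter : ∀ k : ℕ, ∃ c ∈ tf, ‖z (τ k) - c‖ < ρ1 := by
    intro k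
    have hτ0 : 0 ≤ τ k := le_trans (by positivity) (hτ k).1
    have := hcov ⟨hzK _ hτ0, hτr k⟩
    rw [mem_iUnion₂] at this
    obtain ⟨c, hc, hc'⟩ := this
    refine ⟨c, by simpa [htf'] using hc, ?_⟩
    rwa [mem_ball, dist_eq_norm] at hc'
  choose c hc hcd using hcenter
  obtain ⟨k, hk, l, hl, hkl, hckl⟩ := Finset.exists_ne_map_eq_of_card_lt_of_maps_to
    (s := Finset.range (tf.card + 1)) (t := tf) (f := c) (by simp) (fun k _ => hc k)
  -- wlog `k < l`
  have main : ∀ k l : ℕ, k < l → l < tf.card + 1 → c k = c l →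
      ∃ T : ℝ, 0 < T ∧ T ≤ (tf.card + 1) * (q0 + 1) * (S + 1) ∧ z T = z 0 := by
    intro k l hkl hl hckl
    set x := c k with hx
    have hxF : r ≤ ‖grad h x‖ := by
      have h1 : x ∈ t := by
        have := hc k
        simpa [htf'] using this
      exact (hts h1).2
    obtain ⟨a, ha, hab, has⟩ := H.flowbox hr hρ10 hρle hxF hz (hcd k).le
    obtain ⟨b, hb, hbb, hbs⟩ := H.flowbox hr hρ10 hρle (x := x) hxF hz (q1 := τ l)
      (by rw [hckl]; exact (hcd l).le)
    have hzab : z a = z b := H.transversal_unique hr hxF hab hbb (by rw [has, hbs])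
      (H.orbit_const hz a b)
    have hkl' : (k : ℝ) + 1 ≤ l := by exact_mod_cast hkl
    have hlt : a < b := by
      have e1 : a ≤ τ k + q0 := ha.2
      have e2 : τ k ≤ k * W + S := (hτ k).2
      have e3 : l * W ≤ τ l := (hτ l).1
      have e4 : τ l ≤ b := hb.1
      have e5 : (k : ℝ) * W + W ≤ l * W := by nlinarith
      rw [hW] at e5
      linarith
    have hT : b - a ≤ (tf.card + 1) * (q0 + 1) * (S + 1) := by
      have e1 : b ≤ τ l + q0 := hb.2
      have e2 : τ l ≤ l * W + S := (hτ l).2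
      have e3 : 0 ≤ k * W := by positivity
      have e4 : k * W ≤ τ k := (hτ k).1
      have e5 : τ k ≤ a := ha.1
      have e6 : (l : ℝ) ≤ tf.card := by exact_mod_cast Nat.lt_succ_iff.mp hl
      have e7 : (l : ℝ) * W ≤ tf.card * W := by gcongr
      have e8 : b - a ≤ tf.card * W + W := by rw [hW] at *; linarith
      have e9 : W ≤ (q0 + 1) * (S + 1) := by rw [hW]; nlinarith
      calc b - a ≤ tf.card * W + W := e8
        _ = (tf.card + 1) * W := by ring
        _ ≤ (tf.card + 1) * ((q0 + 1) * (S + 1)) := by gcongr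
        _ = _ := by ring
    refine ⟨b - a, by linarith, hT, ?_⟩
    have hshift := orbit_shift hz (b - a)
    have heq : z = fun q => z (q + (b - a)) := by
      refine H.orbit_unique hz hshift (q := a) ?_
      rw [hzab]
      congr 1
      ring
    have := congrFun heq 0
    simp only [zero_add] at this
    exact this.symm
  rcases Nat.lt_or_gt_of_ne hkl with h1 | h1
  · exact main k l h1 (Finset.mem_range.mp hl) hckl
  · exact main l k h1 (Finset.mem_range.mp hk) hckl.symm

end HamData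

end Run7.h772
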