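import Mathlib
import Pool.Agent.Run7.h772.Ham

open Set Metric Filter MeasureTheory
open scoped ContDiff Topology ComplexConjugate NNReal

namespace Run7.h772

theorem clm_real_expand (L : ℂ →L[ℝ] ℝ) (v : ℂ) : L v = L 1 * v.re + L Complex.I * v.im := by
  have hv : v = v.re • (1 : ℂ) + v.im • Complex.I := by
    apply Complex.ext <;> simp
  conv_lhs => rw [hv]
  rw [map_add, map_smul, map_smul]
  simp
  ring

theorem norm_sq_clm (L : ℂ →L[ℝ] ℝ) : ‖L‖ ^ 2 = L 1 ^ 2 + L Complex.I ^ 2 := by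
  set G : ℂ := ⟨L 1, L Complex.I⟩ with hG
  have hGn : ‖G‖ ^ 2 = L 1 ^ 2 + L Complex.I ^ 2 := by
    rw [← Complex.normSq_eq_norm_sq, Complex.normSq_apply]
    ring
  have h1 : ‖L‖ ≤ ‖G‖ := by
    refine ContinuousLinearMap.opNorm_le_bound _ (norm_nonneg _) (fun v => ?_)
    have h2 : L v = (conj G * v).re := by
      rw [clm_real_expand L v]
      simp [hG]
    rw [h2, Real.norm_eq_abs]
    refine (Complex.abs_re_le_norm _).trans ?_
    simp
  have h2 : ‖G‖ ≤ ‖L‖ := by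
    by_cases h0 : G = 0
    · rw [h0]; simp
    have h3 : L G = ‖G‖ ^ 2 := by
      rw [clm_real_expand L G, hGn]
      simp only [hG]
      ring
    have h4 : ‖G‖ ^ 2 ≤ ‖L‖ * ‖G‖ := by
      rw [← h3]
      exact (le_abs_self _).trans (L.le_opNorm _)
    have h5 : 0 < ‖G‖ := norm_pos_iff.mpr h0
    nlinarith
  rw [le_antisymm h1 h2, hGn]

/-- The determinant of the Hessian. -/
noncomputable def hdet (h : ℂ → ℝ) (x : ℂ) : ℝ :=
  fderiv ℝ (fderiv ℝ h) x 1 1 * fderiv ℝ (fderiv ℝ h) x Complex.I Complex.I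
    - fderiv ℝ (fderiv ℝ h) x 1 Complex.I ^ 2

theorem arsinh_le_log {y : ℝ} (hy : 0 ≤ y) : Real.arsinh y ≤ Real.log (1 + 2 * y) := by
  unfold Real.arsinh
  have h1 : √(1 + y ^ 2) ≤ 1 + y := by
    rw [Real.sqrt_le_left (by linarith)]
    nlinarith
  have h2 : 0 < y + √(1 + y ^ 2) := by
    have : 0 < √(1 + y ^ 2) := Real.sqrt_pos.mpr (by positivity)
    linarith
  exact Real.log_le_log h2 (by linarith)

/-- The time an orbit can spend in a slow region of saddle type. -/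
theorem saddle_time {h : ℂ → ℝ} {M : ℝ} (H : HamData h M) {z : ℝ → ℂ} (hz : IsOrbit h z)
    {κ r d0 q0 q1 : ℝ} (hκ0 : 0 < κ) (hd0 : 0 < d0) (hq : q0 ≤ q1) (hr : 2 * M * r ≤ κ ^ 2)
    (hnd : ∀ q ∈ Icc q0 q1, ∀ v, κ * ‖v‖ ≤ ‖fderiv ℝ (fderiv ℝ h) (z q) v‖)
    (hsad : ∀ q ∈ Icc q0 q1, hdet h (z q) ≤ -κ ^ 2)
    (hslow : ∀ q ∈ Icc q0 q1, ‖grad h (z q)‖ ≤ r)
    (hlow : ∀ q ∈ Icc q0 q1, d0 ≤ ‖grad h (z q)‖ ^ 2) :
    κ ^ 2 / (2 * M) * (q1 - q0) ≤ 2 * Real.log (1 + 2 * (r ^ 2 / d0)) := by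
  have hM1 := H.one_le
  have hM0 : 0 < M := by linarith
  have h1I : ‖(1 : ℂ)‖ = 1 := norm_one
  have hII : ‖Complex.I‖ = 1 := Complex.norm_I
  set A : ℝ → ℝ := fun q => fderiv ℝ (fderiv ℝ h) (z q) 1 1 with hA
  set B : ℝ → ℝ := fun q => fderiv ℝ (fderiv ℝ h) (z q) 1 Complex.I with hB
  set Dd : ℝ → ℝ := fun q => fderiv ℝ (fderiv ℝ h) (z q) Complex.I Complex.I with hDd
  set p1 : ℝ → ℝ := fun q => fderiv ℝ h (z q) 1 with hp1
  set p2 : ℝ → ℝ := fun q => fderiv ℝ h (z q) Complex.I with hp2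
  have hPn : ∀ q, ‖grad h (z q)‖ ^ 2 = p1 q ^ 2 + p2 q ^ 2 := by
    intro q
    rw [norm_grad_eq, norm_sq_clm]
  have hIP : ∀ q, Complex.I * grad h (z q) = (-(p2 q)) • (1 : ℂ) + p1 q • Complex.I := by
    intro q
    apply Complex.ext <;> simp [grad, hp1, hp2]
  have hsymm : ∀ q, fderiv ℝ (fderiv ℝ h) (z q) Complex.I 1 = B q := fun q =>
    symm_fderiv H.c2 (z q) Complex.I 1
  have hdp1 : ∀ q, HasDerivAt p1 (-(p2 q) * A q + p1 q * B q) q := by
    intro q
    have h1 := ((hasFDerivAt_fderiv H.c2 (z q)).comp_hasDerivAt q (hz q)).clm_apply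
      (hasDerivAt_const q (1 : ℂ))
    refine h1.congr_deriv ?_
    rw [hIP q]
    simp only [map_add, map_smul, map_zero, add_zero, add_apply, smul_apply, smul_eq_mul]
    rw [hsymm q]
  have hdp2 : ∀ q, HasDerivAt p2 (-(p2 q) * B q + p1 q * Dd q) q := by
    intro q
    have h1 := ((hasFDerivAt_fderiv H.c2 (z q)).comp_hasDerivAt q (hz q)).clm_apply
      (hasDerivAt_const q Complex.I)
    refine h1.congr_deriv ?_
    rw [hIP q]
    simp only [map_add, map_smul, map_zero, add_zero, add_apply, smul_apply, smul_eq_mul]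
    rfl
  choose A' hA' hA'b using H.hess_deriv hz (v := 1) (w := 1) h1I h1I
  choose B' hB' hB'b using H.hess_deriv hz (v := 1) (w := Complex.I) h1I hII
  choose D' hD' hD'b using H.hess_deriv hz (v := Complex.I) (w := Complex.I) hII hII
  set Q : ℝ → ℝ := fun q => B q * (p1 q ^ 2 - p2 q ^ 2) + (Dd q - A q) * (p1 q * p2 q) with hQ
  set u1 : ℝ → ℝ := fun q => -(p2 q) * A q + p1 q * B q with hu1
  set u2 : ℝ → ℝ := fun q => -(p2 q) * B q + p1 q * Dd q with hu2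
  set Q' : ℝ → ℝ := fun q => B' q * (p1 q ^ 2 - p2 q ^ 2) + (D' q - A' q) * (p1 q * p2 q)
    + (u1 q ^ 2 + u2 q ^ 2 - (A q * Dd q - B q ^ 2) * (p1 q ^ 2 + p2 q ^ 2)) with hQ'
  have hdQ : ∀ q, HasDerivAt Q (Q' q) q := by
    intro q
    have h1 := ((hB' q).mul (((hdp1 q).fun_pow 2).sub ((hdp2 q).fun_pow 2))).add
      (((hD' q).sub (hA' q)).mul ((hdp1 q).mul (hdp2 q)))
    refine h1.congr_deriv ?_
    simp only [hQ', hu1, hu2, hA, hB, hDd]
    simp
    ring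
  -- bounds
  have hQ'low : ∀ q ∈ Icc q0 q1, κ ^ 2 * ‖grad h (z q)‖ ^ 2 ≤ Q' q := by
    intro q hqq
    set g := ‖grad h (z q)‖ with hg
    have hg0 : 0 ≤ g := norm_nonneg _
    have hgr : g ≤ r := hslow q hqq
    have e1 : u1 q ^ 2 + u2 q ^ 2 = ‖fderiv ℝ (fderiv ℝ h) (z q) (Complex.I * grad h (z q))‖ ^ 2 := by
      rw [norm_sq_clm, hIP q]
      simp only [map_add, map_smul, add_apply, smul_apply, smul_eq_mul]
      rw [hsymm q]
    have e2 : κ ^ 2 * g ^ 2 ≤ u1 q ^ 2 + u2 q ^ 2 := by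
      rw [e1, ← mul_pow]
      have := hnd q hqq (Complex.I * grad h (z q))
      rw [norm_mul, hII, one_mul] at this
      gcongr
    have e3 : κ ^ 2 * g ^ 2 ≤ -((A q * Dd q - B q ^ 2) * (p1 q ^ 2 + p2 q ^ 2)) := by
      rw [← hPn q]
      have : A q * Dd q - B q ^ 2 ≤ -κ ^ 2 := hsad q hqq
      nlinarith [sq_nonneg g]
    have hPg := hPn q
    have e4 : |B' q * (p1 q ^ 2 - p2 q ^ 2)| ≤ (M * g) * g ^ 2 := by
      rw [abs_mul]
      have : |p1 q ^ 2 - p2 q ^ 2| ≤ g ^ 2 := by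
        rw [hPg, abs_le]
        constructor <;> nlinarith [sq_nonneg (p1 q), sq_nonneg (p2 q)]
      exact mul_le_mul (hB'b q) this (abs_nonneg _) (by positivity)
    have e5 : |(D' q - A' q) * (p1 q * p2 q)| ≤ (M * g) * g ^ 2 := by
      rw [abs_mul]
      have h1 : |D' q - A' q| ≤ 2 * (M * g) := by
        refine (abs_sub _ _).trans ?_
        linarith [hD'b q, hA'b q]
      have h2 : |p1 q * p2 q| ≤ g ^ 2 / 2 := by
        rw [hPg, abs_le]
        constructor <;> nlinarith [sq_nonneg (p1 q - p2 q), sq_nonneg (p1 q + p2 q)]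
      calc |D' q - A' q| * |p1 q * p2 q| ≤ (2 * (M * g)) * (g ^ 2 / 2) :=
            mul_le_mul h1 h2 (abs_nonneg _) (by positivity)
        _ = _ := by ring
    have e6 : 2 * ((M * g) * g ^ 2) ≤ κ ^ 2 * g ^ 2 := by
      have : 2 * M * g ≤ κ ^ 2 := by
        refine le_trans ?_ hr
        gcongr
      nlinarith [sq_nonneg g]
    have e7 := (abs_le.mp e4).1
    have e8 := (abs_le.mp e5).1
    simp only [hQ']
    linarith
  have hQabs : ∀ q, |Q q| ≤ M * ‖grad h (z q)‖ ^ 2 := by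
    intro q
    have e1 : Q q = fderiv ℝ (fderiv ℝ h) (z q) (Complex.I * grad h (z q)) (grad h (z q)) := by
      rw [clm_real_expand _ (grad h (z q)), hIP q]
      simp only [map_add, map_smul, add_apply, smul_apply, smul_eq_mul]
      rw [hsymm q]
      simp only [hQ, grad, hA, hB, hDd, hp1, hp2]
      ring
    rw [e1, ← Real.norm_eq_abs]
    refine (ContinuousLinearMap.le_opNorm _ _).trans ?_
    have e2 := ContinuousLinearMap.le_opNorm (fderiv ℝ (fderiv ℝ h) (z q))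
      (Complex.I * grad h (z q))
    rw [norm_mul, hII, one_mul] at e2
    have e3 := H.b2 (z q)
    have e4 : ‖fderiv ℝ (fderiv ℝ h) (z q) (Complex.I * grad h (z q))‖
        ≤ M * ‖grad h (z q)‖ := e2.trans (by gcongr)
    calc ‖fderiv ℝ (fderiv ℝ h) (z q) (Complex.I * grad h (z q))‖ * ‖grad h (z q)‖
        ≤ (M * ‖grad h (z q)‖) * ‖grad h (z q)‖ := by gcongr
      _ = _ := by ring
  -- the increasing function
  set θ : ℝ := κ ^ 2 / (2 * M) with hθ
  set φ : ℝ → ℝ := fun q => Real.arsinh (Q q / (M * d0)) with hφ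
  have hdφ : ∀ q, HasDerivAt φ ((√(1 + (Q q / (M * d0)) ^ 2))⁻¹ * (Q' q / (M * d0))) q := by
    intro q
    exact (Real.hasDerivAt_arsinh _).comp q ((hdQ q).div_const _)
  have hmono : θ * (q1 - q0) ≤ φ q1 - φ q0 := by
    refine (convex_Icc q0 q1).mul_sub_le_image_sub_of_le_deriv
      (fun q _ => (hdφ q).continuousAt.continuousWithinAt)
      (fun q _ => (hdφ q).differentiableAt.differentiableWithinAt) ?_ q0 (left_mem_Icc.mpr hq) q1
      (right_mem_Icc.mpr hq) hq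
    intro q hqi
    rw [interior_Icc] at hqi
    have hqq : q ∈ Icc q0 q1 := Ioo_subset_Icc_self hqi
    rw [(hdφ q).deriv]
    set x := Q q / (M * d0) with hx
    have hs0 : 0 < √(1 + x ^ 2) := Real.sqrt_pos.mpr (by positivity)
    rw [inv_mul_eq_div, le_div_iff₀ hs0]
    have hs1 : √(1 + x ^ 2) ≤ 1 + |x| := by
      rw [Real.sqrt_le_left (by positivity)]
      nlinarith [sq_abs x, abs_nonneg x]
    have hxabs : |x| ≤ ‖grad h (z q)‖ ^ 2 / d0 := by
      rw [hx, abs_div, abs_of_pos (by positivity : 0 < M * d0), div_le_div_iff₀ (by positivity) hd0]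
      have := hQabs q
      nlinarith
    have h1 : 1 ≤ ‖grad h (z q)‖ ^ 2 / d0 := by
      rw [le_div_iff₀ hd0, one_mul]; exact hlow q hqq
    have hθ0 : 0 < θ := by positivity
    calc θ * √(1 + x ^ 2) ≤ θ * (1 + |x|) := by gcongr
      _ ≤ θ * (‖grad h (z q)‖ ^ 2 / d0 + ‖grad h (z q)‖ ^ 2 / d0) := by gcongr
      _ = κ ^ 2 * ‖grad h (z q)‖ ^ 2 / (M * d0) := by rw [hθ]; field_simp; ring
      _ ≤ Q' q / (M * d0) := by
          gcongr
          exact hQ'low q hqq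
  have hφb : ∀ q ∈ Icc q0 q1, |φ q| ≤ Real.arsinh (r ^ 2 / d0) := by
    intro q hqq
    have hg0 : 0 ≤ ‖grad h (z q)‖ := norm_nonneg _
    have h1 : |Q q / (M * d0)| ≤ r ^ 2 / d0 := by
      rw [abs_div, abs_of_pos (by positivity : 0 < M * d0), div_le_div_iff₀ (by positivity) hd0]
      have e1 := hQabs q
      have e2 : ‖grad h (z q)‖ ^ 2 ≤ r ^ 2 := by
        have := hslow q hqq
        gcongr
      have e3 : |Q q| ≤ M * r ^ 2 := e1.trans (by gcongr)
      nlinarith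
    have h2 := abs_le.mp h1
    rw [abs_le]
    constructor
    · rw [← Real.arsinh_neg]
      exact Real.arsinh_le_arsinh.mpr h2.1
    · exact Real.arsinh_le_arsinh.mpr h2.2
  have h1 := abs_le.mp (hφb q1 (right_mem_Icc.mpr hq))
  have h2 := abs_le.mp (hφb q0 (left_mem_Icc.mpr hq))
  have h3 := arsinh_le_log (y := r ^ 2 / d0) (by positivity)
  calc κ ^ 2 / (2 * M) * (q1 - q0) ≤ φ q1 - φ q0 := hmono
    _ ≤ 2 * Real.arsinh (r ^ 2 / d0) := by linarith [h1.2, h2.1]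
    _ ≤ 2 * Real.log (1 + 2 * (r ^ 2 / d0)) := by linarith

end Run7.h772
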