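import Mathlib
import Pool.Agent.Run7.h772.Saddle
import Pool.Agent.Run7.h772.FlowBox

open Set Metric Filter MeasureTheory
open scoped ContDiff Topology ComplexConjugate NNReal

namespace Run7.h772

namespace HamData

variable {h : ℂ → ℝ} {M : ℝ}

theorem continuous_normGrad (H : HamData h M) : Continuous (fun x => ‖grad h x‖) := by
  have : (fun x => ‖grad h x‖) = fun x => ‖fderiv ℝ h x‖ := by
    funext x; exact norm_grad_eq _ _
  rw [this]
  exact (H.c2.continuous_fderiv (by norm_num)).norm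

theorem continuous_hess (H : HamData h M) : Continuous (fderiv ℝ (fderiv ℝ h)) := by
  have h1 : ContDiff ℝ 2 (fderiv ℝ h) := H.smooth.fderiv_right (by norm_num)
  exact h1.continuous_fderiv (by norm_num)

/-- Uniform nondegeneracy near the critical points of a compact set. -/
theorem nd_const (H : HamData h M) {K0 : Set ℂ} (hK0 : IsCompact K0)
    (hnd : ∀ x ∈ K0, grad h x = 0 → ∀ v, fderiv ℝ (fderiv ℝ h) x v = 0 → v = 0) :
    ∃ κ : ℝ, 0 < κ ∧ κ ≤ 1 ∧ ∀ x ∈ K0, ‖grad h x‖ ≤ κ → ∀ v : ℂ,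
      κ * ‖v‖ ≤ ‖fderiv ℝ (fderiv ℝ h) x v‖ := by
  by_cases hne : K0.Nonempty
  swap
  · rw [not_nonempty_iff_eq_empty] at hne
    exact ⟨1, one_pos, le_rfl, fun x hx => by simp [hne] at hx⟩
  have hcomp : IsCompact (K0 ×ˢ sphere (0 : ℂ) 1) := hK0.prod (isCompact_sphere 0 1)
  have hcne : (K0 ×ˢ sphere (0 : ℂ) 1).Nonempty := hne.prod ⟨1, by simp⟩
  have hcont : ContinuousOn (fun q : ℂ × ℂ => ‖grad h q.1‖ + ‖fderiv ℝ (fderiv ℝ h) q.1 q.2‖)
      (K0 ×ˢ sphere (0 : ℂ) 1) := by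
    have h1 : Continuous (fun q : ℂ × ℂ => ‖grad h q.1‖) := H.continuous_normGrad.comp continuous_fst
    have h2 : Continuous (fun q : ℂ × ℂ => fderiv ℝ (fderiv ℝ h) q.1 q.2) :=
      (H.continuous_hess.comp continuous_fst).clm_apply continuous_snd
    exact (h1.add h2.norm).continuousOn
  obtain ⟨⟨x0, v0⟩, ⟨hx0, hv0⟩, hmin⟩ := hcomp.exists_isMinOn hcne hcont
  set m : ℝ := ‖grad h x0‖ + ‖fderiv ℝ (fderiv ℝ h) x0 v0‖ with hm
  have hm0 : 0 < m := by
    by_contra hcon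
    push Not at hcon
    have e1 : ‖grad h x0‖ = 0 := le_antisymm
      (by linarith [norm_nonneg (fderiv ℝ (fderiv ℝ h) x0 v0)]) (norm_nonneg _)
    have e2 : ‖fderiv ℝ (fderiv ℝ h) x0 v0‖ = 0 := le_antisymm
      (by linarith [norm_nonneg (grad h x0)]) (norm_nonneg _)
    have e3 := hnd x0 hx0 (norm_eq_zero.mp e1) v0 (norm_eq_zero.mp e2)
    rw [e3] at hv0
    simp at hv0
  refine ⟨min (m / 2) 1, by positivity, min_le_right _ _, ?_⟩
  intro x hx hgx v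
  set κ : ℝ := min (m / 2) 1 with hκ
  have hκm : κ ≤ m / 2 := min_le_left _ _
  by_cases hv : v = 0
  · simp [hv]
  have hvp : 0 < ‖v‖ := norm_pos_iff.mpr hv
  set w : ℂ := (‖v‖⁻¹ : ℝ) • v with hw
  have hw1 : ‖w‖ = 1 := by
    rw [hw, norm_smul, norm_inv, norm_norm]; field_simp
  have h1 : m ≤ ‖grad h x‖ + ‖fderiv ℝ (fderiv ℝ h) x w‖ :=
    hmin (show (x, w) ∈ K0 ×ˢ sphere (0 : ℂ) 1 from ⟨hx, by simp [hw1]⟩)
  have h2 : κ ≤ ‖fderiv ℝ (fderiv ℝ h) x w‖ := by linarith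
  have h3 : ‖fderiv ℝ (fderiv ℝ h) x w‖ = ‖v‖⁻¹ * ‖fderiv ℝ (fderiv ℝ h) x v‖ := by
    rw [hw, map_smul, norm_smul, norm_inv, norm_norm]
  rw [h3, inv_mul_eq_div, le_div_iff₀ hvp] at h2
  exact h2

theorem det_sq (H : HamData h M) {x : ℂ} {κ : ℝ} (hκ0 : 0 < κ)
    (hnd : ∀ v : ℂ, κ * ‖v‖ ≤ ‖fderiv ℝ (fderiv ℝ h) x v‖) : κ ^ 2 ≤ |hdet h x| := by
  set a := fderiv ℝ (fderiv ℝ h) x 1 1 with ha
  set b := fderiv ℝ (fderiv ℝ h) x 1 Complex.I with hb
  set d := fderiv ℝ (fderiv ℝ h) x Complex.I Complex.I with hd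
  have hb' : fderiv ℝ (fderiv ℝ h) x Complex.I 1 = b := symm_fderiv H.c2 x Complex.I 1
  have hsq : ∀ v : ℂ, κ ^ 2 * (v.re ^ 2 + v.im ^ 2)
      ≤ (a * v.re + b * v.im) ^ 2 + (b * v.re + d * v.im) ^ 2 := by
    intro v
    have h1 := hnd v
    have h2 : (κ * ‖v‖) ^ 2 ≤ ‖fderiv ℝ (fderiv ℝ h) x v‖ ^ 2 := by gcongr
    rw [norm_sq_clm, mul_pow, ← Complex.normSq_eq_norm_sq, Complex.normSq_apply] at h2
    have hv : v = v.re • (1 : ℂ) + v.im • Complex.I := by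
      apply Complex.ext <;> simp
    have e1 : fderiv ℝ (fderiv ℝ h) x v 1 = a * v.re + b * v.im := by
      conv_lhs => rw [hv]
      simp only [map_add, map_smul, add_apply, smul_apply, smul_eq_mul]
      rw [hb']; ring
    have e2 : fderiv ℝ (fderiv ℝ h) x v Complex.I = b * v.re + d * v.im := by
      conv_lhs => rw [hv]
      simp only [map_add, map_smul, add_apply, smul_apply, smul_eq_mul]
      ring
    rw [e1, e2] at h2
    nlinarith
  have h1 := hsq ⟨d, -b⟩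
  have h2 := hsq Complex.I
  simp only [Complex.I_re, Complex.I_im] at h1 h2
  have h3 : κ ^ 2 ≤ b ^ 2 + d ^ 2 := by nlinarith
  have h4 : κ ^ 2 * κ ^ 2 ≤ (hdet h x) ^ 2 := by
    have e1 : (hdet h x) ^ 2 = (a * d + b * -b) ^ 2 + (b * d + d * -b) ^ 2 := by
      simp only [hdet]
      ring
    rw [e1]
    refine le_trans ?_ h1
    have : 0 ≤ κ ^ 2 := by positivity
    nlinarith
  have h5 : (κ ^ 2) ^ 2 ≤ (hdet h x) ^ 2 := by nlinarith
  have h6 := sq_le_sq.mp h5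
  rwa [abs_of_nonneg (by positivity : 0 ≤ κ ^ 2)] at h6

theorem hess_entry (H : HamData h M) (x : ℂ) {v w : ℂ} (hv : ‖v‖ = 1) (hw : ‖w‖ = 1) :
    |fderiv ℝ (fderiv ℝ h) x v w| ≤ M := by
  have e1 := ContinuousLinearMap.le_opNorm (fderiv ℝ (fderiv ℝ h) x v) w
  have e2 := ContinuousLinearMap.le_opNorm (fderiv ℝ (fderiv ℝ h) x) v
  rw [hw, mul_one] at e1
  rw [hv, mul_one] at e2
  rw [Real.norm_eq_abs] at e1
  linarith [H.b2 x]

theorem hess_entry_sub (H : HamData h M) (x y : ℂ) {v w : ℂ} (hv : ‖v‖ = 1) (hw : ‖w‖ = 1) :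
    |fderiv ℝ (fderiv ℝ h) x v w - fderiv ℝ (fderiv ℝ h) y v w| ≤ M * ‖x - y‖ := by
  have e0 : fderiv ℝ (fderiv ℝ h) x v w - fderiv ℝ (fderiv ℝ h) y v w
      = (fderiv ℝ (fderiv ℝ h) x - fderiv ℝ (fderiv ℝ h) y) v w := by simp
  rw [e0]
  have e1 := ContinuousLinearMap.le_opNorm
    ((fderiv ℝ (fderiv ℝ h) x - fderiv ℝ (fderiv ℝ h) y) v) w
  have e2 := ContinuousLinearMap.le_opNorm (fderiv ℝ (fderiv ℝ h) x - fderiv ℝ (fderiv ℝ h) y) v
  rw [hw, mul_one] at e1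
  rw [hv, mul_one] at e2
  rw [Real.norm_eq_abs] at e1
  linarith [H.lip2 x y]

theorem det_sub (H : HamData h M) (x y : ℂ) : |hdet h x - hdet h y| ≤ 4 * M ^ 2 * ‖x - y‖ := by
  have hM0 : 0 ≤ M := by linarith [H.one_le]
  have h1 : ‖(1 : ℂ)‖ = 1 := norm_one
  have hI : ‖Complex.I‖ = 1 := Complex.norm_I
  set a := fderiv ℝ (fderiv ℝ h) x 1 1
  set b := fderiv ℝ (fderiv ℝ h) x 1 Complex.I
  set d := fderiv ℝ (fderiv ℝ h) x Complex.I Complex.I
  set a2 := fderiv ℝ (fderiv ℝ h) y 1 1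
  set b2 := fderiv ℝ (fderiv ℝ h) y 1 Complex.I
  set d2 := fderiv ℝ (fderiv ℝ h) y Complex.I Complex.I
  have ea : |a| ≤ M := H.hess_entry x h1 h1
  have eb : |b| ≤ M := H.hess_entry x h1 hI
  have eb2 : |b2| ≤ M := H.hess_entry y h1 hI
  have ed2 : |d2| ≤ M := H.hess_entry y hI hI
  have sa : |a - a2| ≤ M * ‖x - y‖ := H.hess_entry_sub x y h1 h1
  have sb : |b - b2| ≤ M * ‖x - y‖ := H.hess_entry_sub x y h1 hI
  have sd : |d - d2| ≤ M * ‖x - y‖ := H.hess_entry_sub x y hI hI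
  have e : hdet h x - hdet h y = a * (d - d2) + d2 * (a - a2) - (b + b2) * (b - b2) := by
    simp only [hdet]
    ring
  rw [e]
  have t1 : |a * (d - d2)| ≤ M * (M * ‖x - y‖) := by rw [abs_mul]; gcongr
  have t2 : |d2 * (a - a2)| ≤ M * (M * ‖x - y‖) := by rw [abs_mul]; gcongr
  have t3 : |(b + b2) * (b - b2)| ≤ (2 * M) * (M * ‖x - y‖) := by
    rw [abs_mul]
    have : |b + b2| ≤ 2 * M := (abs_add_le _ _).trans (by linarith)
    gcongr
  calc |a * (d - d2) + d2 * (a - a2) - (b + b2) * (b - b2)|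
      ≤ |a * (d - d2) + d2 * (a - a2)| + |(b + b2) * (b - b2)| := abs_sub _ _
    _ ≤ |a * (d - d2)| + |d2 * (a - a2)| + |(b + b2) * (b - b2)| := by
        gcongr; exact abs_add_le _ _
    _ ≤ M * (M * ‖x - y‖) + M * (M * ‖x - y‖) + (2 * M) * (M * ‖x - y‖) := by gcongr
    _ = 4 * M ^ 2 * ‖x - y‖ := by ring

/-- Definiteness of the Hessian where its determinant is positive. -/
theorem quad_lower (H : HamData h M) {x : ℂ} {κ : ℝ} (hdet0 : κ ^ 2 ≤ hdet h x)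
    (v : ℂ) : κ ^ 2 / (2 * M) * ‖v‖ ^ 2 ≤ |fderiv ℝ (fderiv ℝ h) x v v| := by
  have hM0 : 0 < M := by linarith [H.one_le]
  have h1 : ‖(1 : ℂ)‖ = 1 := norm_one
  have hI : ‖Complex.I‖ = 1 := Complex.norm_I
  set a := fderiv ℝ (fderiv ℝ h) x 1 1 with ha
  set b := fderiv ℝ (fderiv ℝ h) x 1 Complex.I with hb
  set d := fderiv ℝ (fderiv ℝ h) x Complex.I Complex.I with hd
  have hb' : fderiv ℝ (fderiv ℝ h) x Complex.I 1 = b := symm_fderiv H.c2 x Complex.I 1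
  have ea : |a| ≤ M := H.hess_entry x h1 h1
  have ed : |d| ≤ M := H.hess_entry x hI hI
  have hv : v = v.re • (1 : ℂ) + v.im • Complex.I := by
    apply Complex.ext <;> simp
  set q := fderiv ℝ (fderiv ℝ h) x v v with hq
  have eq : q = a * v.re ^ 2 + 2 * b * (v.re * v.im) + d * v.im ^ 2 := by
    rw [hq, clm_real_expand _ v]
    have e1 : fderiv ℝ (fderiv ℝ h) x v 1 = a * v.re + b * v.im := by
      conv_lhs => rw [hv]
      simp only [map_add, map_smul, add_apply, smul_apply, smul_eq_mul]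
      rw [hb']; ring
    have e2 : fderiv ℝ (fderiv ℝ h) x v Complex.I = b * v.re + d * v.im := by
      conv_lhs => rw [hv]
      simp only [map_add, map_smul, add_apply, smul_apply, smul_eq_mul]
      ring
    rw [e1, e2]; ring
  have hdd : hdet h x = a * d - b ^ 2 := rfl
  have g1 : κ ^ 2 * v.im ^ 2 ≤ a * q := by
    have : a * q = (a * v.re + b * v.im) ^ 2 + hdet h x * v.im ^ 2 := by
      rw [eq, hdd]; ring
    rw [this]
    nlinarith [sq_nonneg (a * v.re + b * v.im), sq_nonneg v.im]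
  have g2 : κ ^ 2 * v.re ^ 2 ≤ d * q := by
    have : d * q = (b * v.re + d * v.im) ^ 2 + hdet h x * v.re ^ 2 := by
      rw [eq, hdd]; ring
    rw [this]
    nlinarith [sq_nonneg (b * v.re + d * v.im), sq_nonneg v.re]
  have g3 : a * q ≤ M * |q| := by
    calc a * q ≤ |a * q| := le_abs_self _
      _ = |a| * |q| := abs_mul _ _
      _ ≤ M * |q| := by gcongr
  have g4 : d * q ≤ M * |q| := by
    calc d * q ≤ |d * q| := le_abs_self _
      _ = |d| * |q| := abs_mul _ _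
      _ ≤ M * |q| := by gcongr
  have g5 : ‖v‖ ^ 2 = v.re ^ 2 + v.im ^ 2 := by
    rw [← Complex.normSq_eq_norm_sq, Complex.normSq_apply]; ring
  rw [div_mul_eq_mul_div, div_le_iff₀ (by positivity), g5]
  nlinarith

/-- Second order Taylor estimate at a critical point. -/
theorem taylor2 (H : HamData h M) {x0 : ℂ} (hx0 : grad h x0 = 0) (v : ℂ) :
    |h (x0 + v) - h x0 - fderiv ℝ (fderiv ℝ h) x0 v v / 2| ≤ M * ‖v‖ ^ 3 := by
  have hM0 : 0 < M := by linarith [H.one_le]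
  have hf0 : fderiv ℝ h x0 = 0 := by
    have := norm_grad_eq h x0
    rw [hx0, norm_zero] at this
    exact norm_eq_zero.mp this.symm
  have hline : ∀ t : ℝ, HasDerivAt (fun t : ℝ => x0 + t • v) v t := fun t => by
    simpa using ((hasDerivAt_id t).smul_const v).const_add x0
  -- first derivative
  set e1 : ℝ → ℝ := fun t => fderiv ℝ h (x0 + t • v) v - t * fderiv ℝ (fderiv ℝ h) x0 v v with he1
  have hde1 : ∀ t : ℝ, HasDerivAt e1 (fderiv ℝ (fderiv ℝ h) (x0 + t • v) v v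
      - fderiv ℝ (fderiv ℝ h) x0 v v) t := by
    intro t
    have h1 : HasDerivAt (fun t : ℝ => fderiv ℝ h (x0 + t • v))
        (fderiv ℝ (fderiv ℝ h) (x0 + t • v) v) t :=
      HasFDerivAt.comp_hasDerivAt (f := fun t : ℝ => x0 + t • v) t
        (hasFDerivAt_fderiv H.c2 (x0 + t • v)) (hline t)
    have h2 := h1.clm_apply (hasDerivAt_const t v)
    have h3 := (hasDerivAt_id t).mul_const (fderiv ℝ (fderiv ℝ h) x0 v v)
    refine (h2.sub h3).congr_deriv ?_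
    simp
  have hb1 : ∀ t ∈ Icc (0 : ℝ) 1, ‖fderiv ℝ (fderiv ℝ h) (x0 + t • v) v v
      - fderiv ℝ (fderiv ℝ h) x0 v v‖ ≤ M * ‖v‖ ^ 3 := by
    intro t ht
    have h1 : fderiv ℝ (fderiv ℝ h) (x0 + t • v) v v - fderiv ℝ (fderiv ℝ h) x0 v v
        = (fderiv ℝ (fderiv ℝ h) (x0 + t • v) - fderiv ℝ (fderiv ℝ h) x0) v v := by simp
    rw [h1]
    refine (ContinuousLinearMap.le_opNorm _ _).trans ?_
    have h2 := ContinuousLinearMap.le_opNorm
      (fderiv ℝ (fderiv ℝ h) (x0 + t • v) - fderiv ℝ (fderiv ℝ h) x0) v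
    have h3 := H.lip2 (x0 + t • v) x0
    have h4 : ‖x0 + t • v - x0‖ ≤ ‖v‖ := by
      rw [add_sub_cancel_left, norm_smul, Real.norm_eq_abs, abs_of_nonneg ht.1]
      have := norm_nonneg v
      nlinarith [ht.2]
    calc ‖(fderiv ℝ (fderiv ℝ h) (x0 + t • v) - fderiv ℝ (fderiv ℝ h) x0) v‖ * ‖v‖
        ≤ ((M * ‖x0 + t • v - x0‖) * ‖v‖) * ‖v‖ := by
          gcongr
          exact h2.trans (by gcongr)
      _ ≤ ((M * ‖v‖) * ‖v‖) * ‖v‖ := by gcongr
      _ = _ := by ring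
  have he1b : ∀ t ∈ Icc (0 : ℝ) 1, ‖e1 t‖ ≤ M * ‖v‖ ^ 3 := by
    intro t ht
    have h1 := (convex_Icc (0 : ℝ) 1).norm_image_sub_le_of_norm_hasDerivWithin_le
      (fun t _ => (hde1 t).hasDerivWithinAt) hb1 (left_mem_Icc.mpr zero_le_one) ht
    have h2 : e1 0 = 0 := by simp [he1, hf0]
    rw [h2, sub_zero, sub_zero, Real.norm_eq_abs t, abs_of_nonneg ht.1] at h1
    refine h1.trans ?_
    have : 0 ≤ M * ‖v‖ ^ 3 := by positivity
    nlinarith [ht.2]
  set e0 : ℝ → ℝ := fun t => h (x0 + t • v) - h x0 - t ^ 2 * fderiv ℝ (fderiv ℝ h) x0 v v / 2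
    with he0
  have hde0 : ∀ t : ℝ, HasDerivAt e0 (e1 t) t := by
    intro t
    have h1 : HasDerivAt (fun t : ℝ => h (x0 + t • v)) (fderiv ℝ h (x0 + t • v) v) t :=
      HasFDerivAt.comp_hasDerivAt (f := fun t : ℝ => x0 + t • v) t
        ((H.c2.differentiable (by norm_num) _).hasFDerivAt) (hline t)
    have h2 := (((hasDerivAt_id t).fun_pow 2).mul_const (fderiv ℝ (fderiv ℝ h) x0 v v)).div_const 2
    refine ((h1.sub_const (h x0)).sub h2).congr_deriv ?_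
    simp [he1]
    ring
  have h1 := (convex_Icc (0 : ℝ) 1).norm_image_sub_le_of_norm_hasDerivWithin_le
    (fun t _ => (hde0 t).hasDerivWithinAt) he1b (left_mem_Icc.mpr zero_le_one)
    (right_mem_Icc.mpr zero_le_one)
  have h2 : e0 0 = 0 := by simp [he0]
  have h3 : e0 1 = h (x0 + v) - h x0 - fderiv ℝ (fderiv ℝ h) x0 v v / 2 := by simp [he0]
  rw [h2, sub_zero, h3] at h1
  simpa using h1

theorem value_near (H : HamData h M) {x0 : ℂ} (hx0 : grad h x0 = 0) (y : ℂ) :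
    |h y - h x0| ≤ M * ‖y - x0‖ ^ 2 := by
  have hM0 : 0 < M := by linarith [H.one_le]
  have hf0 : fderiv ℝ h x0 = 0 := by
    have := norm_grad_eq h x0
    rw [hx0, norm_zero] at this
    exact norm_eq_zero.mp this.symm
  have h6 : ∀ x ∈ closedBall x0 ‖y - x0‖, ‖fderiv ℝ h x‖ ≤ M * ‖y - x0‖ := by
    intro x hx
    have hx' : ‖x - x0‖ ≤ ‖y - x0‖ := by simpa [mem_closedBall, dist_eq_norm] using hx
    have h7 := H.lip1 x x0
    rw [hf0, sub_zero] at h7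
    exact h7.trans (by gcongr)
  have h10 : ‖h y - h x0‖ ≤ (M * ‖y - x0‖) * ‖y - x0‖ := by
    refine (convex_closedBall x0 ‖y - x0‖).norm_image_sub_le_of_norm_hasFDerivWithin_le
      (f' := fun x => fderiv ℝ h x)
      (fun x _ => ((H.c2.differentiable (by norm_num)) x).hasFDerivAt.hasFDerivWithinAt)
      h6 (mem_closedBall_self (norm_nonneg _)) ?_
    simp [mem_closedBall, dist_eq_norm]
  rw [← Real.norm_eq_abs]
  refine h10.trans (le_of_eq ?_)
  ring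

end HamData

end Run7.h772
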