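import Mathlib
import Pool.Agent.Run7.h772.Morse

open Set Metric Filter MeasureTheory
open scoped ContDiff Topology ComplexConjugate NNReal

namespace Run7.h772

theorem fderiv_eq_zero_of_grad {h : ℂ → ℝ} {x0 : ℂ} (hx0 : grad h x0 = 0) :
    fderiv ℝ h x0 = 0 := by
  have := norm_grad_eq h x0
  rw [hx0, norm_zero] at this
  exact norm_eq_zero.mp this.symm

namespace HamData

variable {h : ℂ → ℝ} {M : ℝ}

/-- First order expansion of the differential at a critical point. -/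
theorem fderiv_near (H : HamData h M) {x0 : ℂ} (hx0 : grad h x0 = 0) (y : ℂ) :
    ‖fderiv ℝ h y - fderiv ℝ (fderiv ℝ h) x0 (y - x0)‖ ≤ M * ‖y - x0‖ ^ 2 := by
  have hM0 : 0 < M := by linarith [H.one_le]
  have hf0 := fderiv_eq_zero_of_grad hx0
  have h1 := (convex_closedBall x0 ‖y - x0‖).norm_image_sub_le_of_norm_hasFDerivWithin_le'
    (f := fderiv ℝ h) (f' := fun x => fderiv ℝ (fderiv ℝ h) x)
    (φ := fderiv ℝ (fderiv ℝ h) x0) (C := M * ‖y - x0‖)
    (fun x _ => (hasFDerivAt_fderiv H.c2 x).hasFDerivWithinAt)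
    (fun x hx => (H.lip2 x x0).trans (by
      have : ‖x - x0‖ ≤ ‖y - x0‖ := by simpa [mem_closedBall, dist_eq_norm] using hx
      gcongr)) (mem_closedBall_self (norm_nonneg _))
    (show y ∈ closedBall x0 ‖y - x0‖ by simp [mem_closedBall, dist_eq_norm])
  rw [hf0, sub_zero] at h1
  refine h1.trans (le_of_eq ?_)
  ring

/-- Growth of the gradient away from a nondegenerate critical point. -/
theorem grad_lower_near (H : HamData h M) {x0 : ℂ} (hx0 : grad h x0 = 0) {κ : ℝ}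
    (hnd : ∀ v : ℂ, κ * ‖v‖ ≤ ‖fderiv ℝ (fderiv ℝ h) x0 v‖) {y : ℂ}
    (hy : ‖y - x0‖ ≤ κ / (2 * M)) : κ / 2 * ‖y - x0‖ ≤ ‖grad h y‖ := by
  have hM0 : 0 < M := by linarith [H.one_le]
  rw [norm_grad_eq]
  have h1 := H.fderiv_near hx0 y
  have h2 := hnd (y - x0)
  have h3 : ‖fderiv ℝ (fderiv ℝ h) x0 (y - x0)‖ ≤ ‖fderiv ℝ h y‖
      + ‖fderiv ℝ h y - fderiv ℝ (fderiv ℝ h) x0 (y - x0)‖ := by
    have : fderiv ℝ (fderiv ℝ h) x0 (y - x0) = fderiv ℝ h y
      - (fderiv ℝ h y - fderiv ℝ (fderiv ℝ h) x0 (y - x0)) := by abel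
    conv_lhs => rw [this]
    exact norm_sub_le _ _
  have h4 : M * ‖y - x0‖ ^ 2 ≤ κ / 2 * ‖y - x0‖ := by
    rw [le_div_iff₀ (by positivity)] at hy
    have := norm_nonneg (y - x0)
    nlinarith
  linarith

/-- The critical points of a compact set are finitely many, and points with a small gradient are
close to them. -/
theorem crit_finite (H : HamData h M) {K0 : Set ℂ} (hK0 : IsCompact K0) {κ : ℝ} (hκ0 : 0 < κ)
    (hnd : ∀ x ∈ K0, ‖grad h x‖ ≤ κ → ∀ v : ℂ, κ * ‖v‖ ≤ ‖fderiv ℝ (fderiv ℝ h) x v‖) :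
    ∃ (N : Finset ℂ) (r2 : ℝ), 0 < r2 ∧ (∀ x ∈ N, x ∈ K0 ∧ grad h x = 0) ∧
      ∀ y ∈ K0, ‖grad h y‖ ≤ r2 → ∃ x ∈ N, ‖y - x‖ ≤ 2 / κ * ‖grad h y‖ := by
  have hM0 : 0 < M := by linarith [H.one_le]
  have hρ : 0 < κ / (2 * M) := by positivity
  have hC : IsCompact (K0 ∩ {x | ‖grad h x‖ ≤ 0}) :=
    hK0.inter_right (isClosed_le H.continuous_normGrad continuous_const)
  obtain ⟨t, hts, htf, hcov⟩ := hC.finite_cover_balls hρ
  have htN : ∀ x ∈ t, x ∈ K0 ∧ grad h x = 0 := fun x hx =>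
    ⟨(hts hx).1, norm_le_zero_iff.mp (hts hx).2⟩
  have hR : IsCompact (K0 \ ⋃ x ∈ t, ball x (κ / (2 * M))) :=
    hK0.diff (isOpen_biUnion (fun x _ => isOpen_ball))
  obtain ⟨r2, hr20, hr2⟩ : ∃ r2 : ℝ, 0 < r2 ∧
      ∀ y ∈ K0 \ ⋃ x ∈ t, ball x (κ / (2 * M)), r2 < ‖grad h y‖ := by
    by_cases hne : (K0 \ ⋃ x ∈ t, ball x (κ / (2 * M))).Nonempty
    · obtain ⟨y0, hy0, hmin⟩ := hR.exists_isMinOn hne H.continuous_normGrad.continuousOn
      have hpos : 0 < ‖grad h y0‖ := by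
        by_contra hcon
        push Not at hcon
        exact hy0.2 (hcov ⟨hy0.1, hcon⟩)
      refine ⟨‖grad h y0‖ / 2, by positivity, fun y hy => ?_⟩
      have := hmin hy
      simp only [mem_ofPred_eq] at this
      linarith
    · rw [not_nonempty_iff_eq_empty] at hne
      exact ⟨1, one_pos, fun y hy => by rw [hne] at hy; exact absurd hy (notMem_empty _)⟩
  refine ⟨htf.toFinset, r2, hr20, fun x hx => htN x (by simpa using hx), fun y hy hyr => ?_⟩
  have hy' : y ∈ ⋃ x ∈ t, ball x (κ / (2 * M)) := by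
    by_contra hcon
    exact absurd (hr2 y ⟨hy, hcon⟩) (not_lt.mpr hyr)
  rw [mem_iUnion₂] at hy'
  obtain ⟨x, hx, hxy⟩ := hy'
  rw [mem_ball, dist_eq_norm] at hxy
  refine ⟨x, by simpa using hx, ?_⟩
  have h0 := (htN x hx).2
  have h1 := H.grad_lower_near h0 (hnd x (htN x hx).1 (by rw [h0, norm_zero]; exact hκ0.le)) hxy.le
  rw [div_mul_eq_mul_div, le_div_iff₀ hκ0]
  linarith

/-- The radial derivative near a critical point with positive Hessian determinant. -/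
theorem radial_lower (H : HamData h M) {x0 : ℂ} (hx0 : grad h x0 = 0) {κ : ℝ}
    (hκ0 : 0 < κ) (hdet0 : κ ^ 2 ≤ hdet h x0) {v : ℂ} (hv : ‖v‖ ≤ κ ^ 2 / (8 * M ^ 2)) :
    κ ^ 2 / (4 * M) * ‖v‖ ^ 2 ≤ |fderiv ℝ h (x0 + v) v| := by
  have hM0 : 0 < M := by linarith [H.one_le]
  have h1 := H.fderiv_near hx0 (x0 + v)
  rw [add_sub_cancel_left] at h1
  have h2 := H.quad_lower hdet0 v
  have h3 : |(fderiv ℝ h (x0 + v) - fderiv ℝ (fderiv ℝ h) x0 v) v| ≤ M * ‖v‖ ^ 2 * ‖v‖ := by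
    rw [← Real.norm_eq_abs]
    refine (ContinuousLinearMap.le_opNorm _ _).trans ?_
    gcongr
  have h4 : |fderiv ℝ (fderiv ℝ h) x0 v v| ≤ |fderiv ℝ h (x0 + v) v|
      + |(fderiv ℝ h (x0 + v) - fderiv ℝ (fderiv ℝ h) x0 v) v| := by
    have e : fderiv ℝ (fderiv ℝ h) x0 v v = fderiv ℝ h (x0 + v) v
      - (fderiv ℝ h (x0 + v) - fderiv ℝ (fderiv ℝ h) x0 v) v := by simp
    conv_lhs => rw [e]
    exact abs_sub _ _
  have h5 : M * ‖v‖ ^ 2 * ‖v‖ ≤ κ ^ 2 / (8 * M) * ‖v‖ ^ 2 := by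
    have h6 : M * ‖v‖ ≤ κ ^ 2 / (8 * M) := by
      calc M * ‖v‖ ≤ M * (κ ^ 2 / (8 * M ^ 2)) := by gcongr
        _ = κ ^ 2 / (8 * M) := by field_simp
    have := sq_nonneg ‖v‖
    nlinarith
  have h7 : κ ^ 2 / (2 * M) * ‖v‖ ^ 2 - κ ^ 2 / (8 * M) * ‖v‖ ^ 2
      = κ ^ 2 / (4 * M) * ‖v‖ ^ 2 + κ ^ 2 / (8 * M) * ‖v‖ ^ 2 := by field_simp; ring
  have h8 : 0 ≤ κ ^ 2 / (8 * M) * ‖v‖ ^ 2 := by positivity
  linarith

/-- Values on a small circle around a critical point with positive Hessian determinant. -/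
theorem circle_lower (H : HamData h M) {x0 : ℂ} (hx0 : grad h x0 = 0) {κ : ℝ}
    (hκ0 : 0 < κ) (hdet0 : κ ^ 2 ≤ hdet h x0) {y : ℂ} (hv : ‖y - x0‖ ≤ κ ^ 2 / (8 * M ^ 2)) :
    κ ^ 2 / (8 * M) * ‖y - x0‖ ^ 2 ≤ |h y - h x0| := by
  have hM0 : 0 < M := by linarith [H.one_le]
  set v : ℂ := y - x0 with hvdef
  have hy : y = x0 + v := by rw [hvdef]; ring
  have h1 := H.taylor2 hx0 v
  rw [← hy] at h1
  have h2 := H.quad_lower hdet0 v
  have h4 : |fderiv ℝ (fderiv ℝ h) x0 v v| / 2 ≤ |h y - h x0|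
      + |h y - h x0 - fderiv ℝ (fderiv ℝ h) x0 v v / 2| := by
    have e : fderiv ℝ (fderiv ℝ h) x0 v v / 2 = (h y - h x0)
      - (h y - h x0 - fderiv ℝ (fderiv ℝ h) x0 v v / 2) := by ring
    have e2 : |fderiv ℝ (fderiv ℝ h) x0 v v| / 2 = |fderiv ℝ (fderiv ℝ h) x0 v v / 2| := by
      rw [abs_div, abs_of_pos (by norm_num : (0 : ℝ) < 2)]
    rw [e2]
    conv_lhs => rw [e]
    exact abs_sub _ _
  have h5 : M * ‖v‖ ^ 3 ≤ κ ^ 2 / (8 * M) * ‖v‖ ^ 2 := by
    have h6 : M * ‖v‖ ≤ κ ^ 2 / (8 * M) := by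
      calc M * ‖v‖ ≤ M * (κ ^ 2 / (8 * M ^ 2)) := by gcongr
        _ = κ ^ 2 / (8 * M) := by field_simp
    have := sq_nonneg ‖v‖
    calc M * ‖v‖ ^ 3 = (M * ‖v‖) * ‖v‖ ^ 2 := by ring
      _ ≤ _ := by gcongr
  have h7 : κ ^ 2 / (2 * M) * ‖v‖ ^ 2 / 2 - κ ^ 2 / (8 * M) * ‖v‖ ^ 2
      = κ ^ 2 / (8 * M) * ‖v‖ ^ 2 := by field_simp; ring
  linarith

theorem const_orbit {x0 : ℂ} (hx0 : grad h x0 = 0) : IsOrbit h (fun _ => x0) := by
  intro q
  rw [hx0, mul_zero]
  exact hasDerivAt_const q x0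

/-- An orbit that comes close to a critical point with positive Hessian determinant stays close
to it. -/
theorem center_stay (H : HamData h M) {x0 : ℂ} (hx0 : grad h x0 = 0) {κ : ℝ}
    (hκ0 : 0 < κ) (hκ1 : κ ≤ 1) (hdet0 : κ ^ 2 ≤ hdet h x0) {z : ℝ → ℂ} (hz : IsOrbit h z)
    {q1 : ℝ} (hq1 : ‖z q1 - x0‖ ≤ κ ^ 3 / (32 * M ^ 3)) (q : ℝ) :
    ‖z q - x0‖ ≤ κ ^ 2 / (8 * M ^ 2) := by
  have hM1 := H.one_le
  have hM0 : 0 < M := by linarith
  set ρ : ℝ := κ ^ 2 / (8 * M ^ 2) with hρ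
  have hρ0 : 0 < ρ := by positivity
  have hr5 : κ ^ 3 / (32 * M ^ 3) = κ * ρ / (4 * M) := by rw [hρ]; field_simp; ring
  rw [hr5] at hq1
  have hr5lt : κ * ρ / (4 * M) < ρ := by
    rw [div_lt_iff₀ (by positivity)]
    nlinarith
  by_contra hcon
  push Not at hcon
  have hc : Continuous (fun q => ‖z q - x0‖) := ((orbit_cont hz).sub continuous_const).norm
  obtain ⟨q', hq'⟩ := intermediate_value_univ q1 q hc
    (show ρ ∈ Icc ‖z q1 - x0‖ ‖z q - x0‖ from ⟨hq1.trans hr5lt.le, hcon.le⟩)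
  simp only at hq'
  have h1 := H.circle_lower hx0 hκ0 hdet0 (y := z q') hq'.le
  have h2 := H.value_near hx0 (z q1)
  rw [H.orbit_const hz q' q1, hq'] at h1
  have h3 : M * ‖z q1 - x0‖ ^ 2 ≤ κ ^ 2 / (16 * M) * ρ ^ 2 := by
    calc M * ‖z q1 - x0‖ ^ 2 ≤ M * (κ * ρ / (4 * M)) ^ 2 := by gcongr
      _ = κ ^ 2 / (16 * M) * ρ ^ 2 := by field_simp; ring
  have h4 : κ ^ 2 / (16 * M) * ρ ^ 2 < κ ^ 2 / (8 * M) * ρ ^ 2 := by
    have : κ ^ 2 / (16 * M) < κ ^ 2 / (8 * M) := by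
      gcongr
      norm_num
    have hρ2 : 0 < ρ ^ 2 := by positivity
    nlinarith
  linarith

/-- Orbits close to a critical point with positive Hessian determinant are closed. -/
theorem center_closed (H : HamData h M) {x0 : ℂ} (hx0 : grad h x0 = 0) {κ : ℝ}
    (hκ0 : 0 < κ) (hκ1 : κ ≤ 1) (hdet0 : κ ^ 2 ≤ hdet h x0) {z : ℝ → ℂ} (hz : IsOrbit h z)
    {q1 : ℝ} (hq1 : ‖z q1 - x0‖ ≤ κ ^ 3 / (32 * M ^ 3)) (hne : z q1 ≠ x0) :
    ∃ T : ℝ, 0 < T ∧ T ≤ 8 * Real.pi * M / κ ^ 2 ∧ z T = z 0 := by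
  have hM1 := H.one_le
  have hM0 : 0 < M := by linarith
  set ρ : ℝ := κ ^ 2 / (8 * M ^ 2) with hρ
  have hstay : ∀ q, ‖z q - x0‖ ≤ ρ := H.center_stay hx0 hκ0 hκ1 hdet0 hz hq1
  have hnz : ∀ q, z q - x0 ≠ 0 := by
    intro q hq
    have h1 : z q = x0 := sub_eq_zero.mp hq
    have h2 := H.orbit_unique hz (const_orbit hx0) (q := q) h1
    exact hne (congrFun h2 q1)
  set c : ℝ := κ ^ 2 / (4 * M) with hc
  have hc0 : 0 < c := by positivity
  -- the logarithmic derivative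
  set Λ : ℝ → ℂ := fun q => (Complex.I * grad h (z q)) / (z q - x0) with hΛ
  have hgc : Continuous (fun x => grad h x) := by
    have h1 : Continuous (fderiv ℝ h) := H.c2.continuous_fderiv (by norm_num)
    have h2 : (fun x => grad h x) = fun x => ((fderiv ℝ h x 1 : ℝ) : ℂ)
        + (fderiv ℝ h x Complex.I : ℝ) * Complex.I := by
      funext x
      apply Complex.ext <;> simp [grad]
    rw [h2]
    fun_prop
  have hzc := orbit_cont hz
  have hΛc : Continuous Λ :=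
    (continuous_const.mul (hgc.comp hzc)).div (hzc.sub continuous_const) hnz
  have hΛim : ∀ q, (Λ q).im = fderiv ℝ h (z q) (z q - x0) / ‖z q - x0‖ ^ 2 := by
    intro q
    rw [grad_inner]
    simp only [hΛ]
    generalize grad h (z q) = G
    generalize z q - x0 = v
    rw [Complex.div_im, ← Complex.normSq_eq_norm_sq]
    simp
    ring
  have hΛabs : ∀ q, c ≤ |(Λ q).im| := by
    intro q
    have h1 := H.radial_lower hx0 hκ0 hdet0 (v := z q - x0) (hstay q)
    rw [add_sub_cancel] at h1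
    have h2 : 0 < ‖z q - x0‖ := norm_pos_iff.mpr (hnz q)
    rw [hΛim q, abs_div, abs_of_pos (by positivity : 0 < ‖z q - x0‖ ^ 2),
      le_div_iff₀ (by positivity)]
    exact h1
  -- the complex logarithm along the orbit
  set L : ℝ → ℂ := fun q => ∫ τ in (0 : ℝ)..q, Λ τ with hL
  have hLd : ∀ q, HasDerivAt L (Λ q) q := fun q =>
    intervalIntegral.integral_hasDerivAt_right (hΛc.intervalIntegrable _ _)
      hΛc.stronglyMeasurable.stronglyMeasurableAtFilter hΛc.continuousAt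
  have hL0 : L 0 = 0 := by simp [hL]
  have hexp : ∀ q, z q - x0 = (z 0 - x0) * Complex.exp (L q) := by
    have hd : ∀ q, HasDerivAt (fun q => (z q - x0) * Complex.exp (-(L q))) 0 q := by
      intro q
      have h1 := ((hz q).sub_const x0).mul ((hLd q).neg.cexp)
      refine h1.congr_deriv ?_
      simp only [hΛ]
      have := hnz q
      field_simp
      ring
    intro q
    have h1 := is_const_of_deriv_eq_zero (fun q => (hd q).differentiableAt)
      (fun q => (hd q).deriv) q 0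
    simp only [hL0, neg_zero, Complex.exp_zero, mul_one] at h1
    rw [← h1, mul_assoc, ← Complex.exp_add]
    simp
  -- the angle
  set θ : ℝ → ℝ := fun q => (L q).im with hθ
  have hθd : ∀ q, HasDerivAt θ ((Λ q).im) q := fun q =>
    (Complex.imCLM.hasFDerivAt.comp_hasDerivAt q (hLd q))
  have hθc : Continuous θ := continuous_iff_continuousAt.mpr (fun q => (hθd q).continuousAt)
  have hθ0 : θ 0 = 0 := by simp [hθ, hL0]
  have hΛimc : Continuous (fun q => (Λ q).im) := Complex.continuous_im.comp hΛc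
  set T0 : ℝ := 2 * Real.pi / c with hT0
  have hT00 : 0 < T0 := by positivity
  have hT0eq : T0 = 8 * Real.pi * M / κ ^ 2 := by rw [hT0, hc]; field_simp; ring
  -- sign of the angular velocity
  obtain ⟨σ, hσ, hσc⟩ : ∃ σ : ℝ, (σ = 1 ∨ σ = -1) ∧ ∀ q, c ≤ σ * (Λ q).im := by
    rcases le_total 0 ((Λ 0).im) with h0 | h0
    · refine ⟨1, Or.inl rfl, fun q => ?_⟩
      rw [one_mul]
      by_contra hcon
      push Not at hcon
      have h1 := hΛabs q
      have h2 : (Λ q).im ≤ 0 := by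
        by_contra h3
        push Not at h3
        rw [abs_of_pos h3] at h1
        linarith
      obtain ⟨q', hq'⟩ := intermediate_value_univ q 0 hΛimc
        (show (0 : ℝ) ∈ Icc (Λ q).im (Λ 0).im from ⟨h2, h0⟩)
      have h4 := hΛabs q'
      simp only at hq'
      rw [hq', abs_zero] at h4
      linarith
    · refine ⟨-1, Or.inr rfl, fun q => ?_⟩
      by_contra hcon
      push Not at hcon
      have h1 := hΛabs q
      have h2 : 0 ≤ (Λ q).im := by
        by_contra h3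
        push Not at h3
        rw [abs_of_neg h3] at h1
        linarith
      obtain ⟨q', hq'⟩ := intermediate_value_univ 0 q hΛimc
        (show (0 : ℝ) ∈ Icc (Λ 0).im (Λ q).im from ⟨h0, h2⟩)
      have h4 := hΛabs q'
      simp only at hq'
      rw [hq', abs_zero] at h4
      linarith
  have hσθ : c * (T0 - 0) ≤ σ * θ T0 - σ * θ 0 := by
    refine (convex_Icc 0 T0).mul_sub_le_image_sub_of_le_deriv (f := fun q => σ * θ q)
      (continuous_const.mul hθc).continuousOn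
      (fun q _ => ((hθd q).const_mul σ).differentiableAt.differentiableWithinAt) ?_ 0
      (left_mem_Icc.mpr hT00.le) T0 (right_mem_Icc.mpr hT00.le) hT00.le
    intro q _
    rw [((hθd q).const_mul σ).deriv]
    exact hσc q
  rw [hθ0, mul_zero, sub_zero, sub_zero] at hσθ
  have hσθ' : 2 * Real.pi ≤ σ * θ T0 := by
    have : c * T0 = 2 * Real.pi := by rw [hT0]; field_simp
    linarith
  have hσθc : Continuous (fun q => σ * θ q) := continuous_const.mul hθc
  obtain ⟨T, hT, hTθ'⟩ := intermediate_value_Icc hT00.le hσθc.continuousOn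
    (show 2 * Real.pi ∈ Icc (σ * θ 0) (σ * θ T0) from
      ⟨by rw [hθ0, mul_zero]; positivity, hσθ'⟩)
  have hTθ : σ * θ T = 2 * Real.pi := hTθ'
  have hTpos : 0 < T := by
    rcases eq_or_lt_of_le hT.1 with h0 | h0
    · rw [← h0, hθ0, mul_zero] at hTθ
      linarith [Real.pi_pos]
    · exact h0
  refine ⟨T, hTpos, by rw [← hT0eq]; exact hT.2, ?_⟩
  -- same ray
  set lam : ℝ := Real.exp (L T).re with hlam
  have hray : z T - x0 = (lam : ℂ) * (z 0 - x0) := by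
    rw [hexp T]
    have h1 : Complex.exp (L T) = (lam : ℂ) := by
      have h2 : L T = ((L T).re : ℂ) + ((θ T : ℝ) : ℂ) * Complex.I := by
        simp only [hθ]
        exact (Complex.re_add_im (L T)).symm
      rw [h2, Complex.exp_add, hlam, Complex.ofReal_exp]
      have h3 : Complex.exp (((θ T : ℝ) : ℂ) * Complex.I) = 1 := by
        rcases hσ with h4 | h4
        · rw [h4, one_mul] at hTθ
          rw [hTθ]; push_cast
          exact Complex.exp_two_pi_mul_I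
        · have h5 : θ T = -(2 * Real.pi) := by rw [h4] at hTθ; linarith
          rw [h5]; push_cast
          rw [neg_mul, Complex.exp_neg, Complex.exp_two_pi_mul_I, inv_one]
      rw [h3, mul_one]
    rw [h1]; ring
  -- strict monotonicity along the ray
  set v : ℂ := z 0 - x0 with hv
  have hv0 : 0 < ‖v‖ := norm_pos_iff.mpr (hnz 0)
  have hlam0 : 0 < lam := Real.exp_pos _
  have hd : ∀ t : ℝ, HasDerivAt (fun t : ℝ => h (x0 + t • v)) (fderiv ℝ h (x0 + t • v) v) t := by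
    intro t
    have h3 : HasFDerivAt h (fderiv ℝ h (x0 + t • v)) (x0 + t • v) :=
      (H.c2.differentiable (by norm_num) _).hasFDerivAt
    have h4 : HasDerivAt (fun t : ℝ => x0 + t • v) v t := by
      simpa using ((hasDerivAt_id t).smul_const v).const_add x0
    exact HasFDerivAt.comp_hasDerivAt (f := fun t : ℝ => x0 + t • v) t h3 h4
  have hzT : x0 + lam • v = z T := by
    rw [Complex.real_smul, ← hray]; ring
  have hz0 : x0 + (1 : ℝ) • v = z 0 := by rw [one_smul, hv]; ring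
  have hval : h (x0 + lam • v) = h (x0 + (1 : ℝ) • v) := by
    rw [hzT, hz0]; exact H.orbit_const hz T 0
  have hno : ∀ t : ℝ, 0 < t → ‖t • v‖ ≤ ρ → fderiv ℝ h (x0 + t • v) v ≠ 0 := by
    intro t ht htρ h0
    have h1 := H.radial_lower hx0 hκ0 hdet0 (v := t • v) htρ
    rw [map_smul, h0, smul_zero, abs_zero] at h1
    have h2 : 0 < ‖t • v‖ := by
      rw [norm_smul, Real.norm_eq_abs, abs_of_pos ht]; positivity
    have h3 : 0 < c * ‖t • v‖ ^ 2 := by positivity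
    linarith
  have hle : ∀ t : ℝ, 0 < t → (t ≤ lam ∨ t ≤ 1) → ‖t • v‖ ≤ ρ := by
    intro t ht htl
    rw [norm_smul, Real.norm_eq_abs, abs_of_pos ht]
    rcases htl with h1 | h1
    · have h2 := hstay T
      have h3 : ‖z T - x0‖ = lam * ‖v‖ := by
        rw [hray, norm_mul, Complex.norm_real, Real.norm_eq_abs, abs_of_pos hlam0]
      rw [h3] at h2
      refine le_trans ?_ h2
      gcongr
    · have h2 := hstay 0
      refine le_trans ?_ h2
      calc t * ‖v‖ ≤ 1 * ‖v‖ := by gcongr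
        _ = ‖z 0 - x0‖ := by rw [one_mul]
  have hlam1 : lam = 1 := by
    rcases lt_trichotomy lam 1 with h1 | h1 | h1
    · exfalso
      obtain ⟨t, ht, ht'⟩ := exists_hasDerivAt_eq_zero h1
        (fun t _ => (hd t).continuousAt.continuousWithinAt) hval (fun t _ => hd t)
      have ht0 : 0 < t := hlam0.trans ht.1
      exact hno t ht0 (hle t ht0 (Or.inr ht.2.le)) ht'
    · exact h1
    · exfalso
      obtain ⟨t, ht, ht'⟩ := exists_hasDerivAt_eq_zero h1
        (fun t _ => (hd t).continuousAt.continuousWithinAt) hval.symm (fun t _ => hd t)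
      have ht0 : 0 < t := one_pos.trans ht.1
      exact hno t ht0 (hle t ht0 (Or.inl ht.2.le)) ht'
  rw [← hzT, ← hz0, hlam1]

end HamData

end Run7.h772
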