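import Mathlib
import Pool.Agent.Run7.h772.Morse2

open Set Metric Filter MeasureTheory
open scoped ContDiff Topology ComplexConjugate NNReal

namespace Run7.h772

namespace HamData

variable {h : ℂ → ℝ} {M : ℝ}

/-- Orbits of a Hamiltonian with nondegenerate critical points in a compact set close up after a
time logarithmic in the distance of their value to the critical values. -/
theorem closed_log (H : HamData h M) {K0 : Set ℂ} (hK0 : IsCompact K0)
    (hnd : ∀ x ∈ K0, grad h x = 0 → ∀ v, fderiv ℝ (fderiv ℝ h) x v = 0 → v = 0) :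
    ∃ (F : Finset ℝ) (C1 : ℝ), 1 ≤ C1 ∧ ∀ ε : ℝ, 0 < ε → ε ≤ 1 → ∀ z : ℝ → ℂ, IsOrbit h z →
      (∀ q, 0 ≤ q → z q ∈ K0) → (∀ c ∈ F, ε ≤ |h (z 0) - c|) →
      ∃ T : ℝ, 0 < T ∧ T ≤ C1 * (1 + Real.log (1 / ε)) ∧ z T = z 0 := by
  have hM1 := H.one_le
  have hM0 : 0 < M := by linarith
  obtain ⟨κ, hκ0, hκ1, hκ⟩ := H.nd_const hK0 hnd
  obtain ⟨N, r2, hr20, hN, hNC⟩ := H.crit_finite hK0 hκ0 hκ
  set r : ℝ := min r2 (κ ^ 4 / (64 * M ^ 3)) with hr
  have hr0 : 0 < r := by positivity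
  have hrr2 : r ≤ r2 := min_le_left _ _
  have hrκ4 : r ≤ κ ^ 4 / (64 * M ^ 3) := min_le_right _ _
  have hκ4 : κ ^ 4 / (64 * M ^ 3) ≤ κ / 64 := by
    rw [div_le_div_iff₀ (by positivity) (by norm_num)]
    have e1 : κ ^ 3 ≤ 1 := pow_le_one₀ hκ0.le hκ1
    have e2 : 1 ≤ M ^ 3 := one_le_pow₀ hM1
    calc κ ^ 4 * 64 = κ * κ ^ 3 * 64 := by ring
      _ ≤ κ * M ^ 3 * 64 := by gcongr; linarith
      _ = κ * (64 * M ^ 3) := by ring
  have hrκ : r ≤ κ := by linarith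
  have hr1 : r ≤ 1 := hrκ.trans hκ1
  have hrM : 2 * M * r ≤ κ ^ 2 := by
    have e1 : κ ^ 4 / (64 * M ^ 3) ≤ κ ^ 2 / (2 * M) := by
      rw [div_le_div_iff₀ (by positivity) (by positivity)]
      have e2 : κ ^ 2 ≤ 1 := pow_le_one₀ hκ0.le hκ1
      have e3 : 1 ≤ M ^ 2 := one_le_pow₀ hM1
      calc κ ^ 4 * (2 * M) = κ ^ 2 * κ ^ 2 * (2 * M) := by ring
        _ ≤ κ ^ 2 * M ^ 2 * (64 * M) := by
            gcongr
            · linarith
            · norm_num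
        _ = κ ^ 2 * (64 * M ^ 3) := by ring
    have e4 : r ≤ κ ^ 2 / (2 * M) := hrκ4.trans e1
    rw [le_div_iff₀ (by positivity)] at e4
    linarith
  obtain ⟨C0, hC01, hC0⟩ := H.closed_of_gap hK0 hr0
  have hC00 : 0 ≤ C0 := by linarith
  set a : ℝ := Real.log (1 + 8 * M / κ ^ 2) with ha
  have ha0 : 0 ≤ a := Real.log_nonneg (by
    have : 0 ≤ 8 * M / κ ^ 2 := by positivity
    linarith)
  set b : ℝ := 4 * M / κ ^ 2 with hb
  have hb0 : 0 ≤ b := by positivity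
  refine ⟨N.image h, 8 * Real.pi * M / κ ^ 2 + C0 * (b * (a + 1) + 2), ?_, ?_⟩
  · have e1 : 0 ≤ 8 * Real.pi * M / κ ^ 2 := by positivity
    have e2 : 0 ≤ b * (a + 1) := by positivity
    nlinarith
  intro ε hε0 hε1 z hz hzK hF
  have hℓ : 0 ≤ Real.log (1 / ε) := Real.log_nonneg (by rw [le_div_iff₀ hε0]; linarith)
  set ℓ : ℝ := Real.log (1 / ε) with hℓdef
  have hFN : ∀ x ∈ N, ε ≤ |h (z 0) - h x| := fun x hx => hF _ (Finset.mem_image_of_mem h hx)
  by_cases hcase : ∃ q, 0 ≤ q ∧ ‖grad h (z q)‖ ≤ r ∧ 0 < hdet h (z q)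
  · -- centre
    obtain ⟨q, hq0, hqr, hqd⟩ := hcase
    obtain ⟨x, hxN, hx⟩ := hNC (z q) (hzK q hq0) (hqr.trans hrr2)
    obtain ⟨hxK, hx0⟩ := hN x hxN
    have hxr5 : ‖z q - x‖ ≤ κ ^ 3 / (32 * M ^ 3) := by
      calc ‖z q - x‖ ≤ 2 / κ * ‖grad h (z q)‖ := hx
        _ ≤ 2 / κ * (κ ^ 4 / (64 * M ^ 3)) := by
            gcongr
            exact hqr.trans hrκ4
        _ = κ ^ 3 / (32 * M ^ 3) := by field_simp; ring
    have hd1 := H.det_sub (z q) x
    have hd2 := H.det_sq hκ0 (hκ (z q) (hzK q hq0) (hqr.trans hrκ))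
    rw [abs_of_pos hqd] at hd2
    have hd3 : 4 * M ^ 2 * ‖z q - x‖ < κ ^ 2 := by
      calc 4 * M ^ 2 * ‖z q - x‖ ≤ 4 * M ^ 2 * (κ ^ 3 / (32 * M ^ 3)) := by gcongr
        _ = κ ^ 2 * (κ / (8 * M)) := by field_simp; ring
        _ < κ ^ 2 * 1 := by
            have : κ / (8 * M) < 1 := by rw [div_lt_one (by positivity)]; linarith
            have : 0 < κ ^ 2 := by positivity
            gcongr
        _ = κ ^ 2 := mul_one _
    have hd4 : 0 < hdet h x := by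
      have := (abs_le.mp hd1).2
      linarith
    have hd5 := H.det_sq hκ0 (hκ x hxK (by rw [hx0, norm_zero]; exact hκ0.le))
    rw [abs_of_pos hd4] at hd5
    have hne : z q ≠ x := by
      intro hzx
      have h1 := hFN x hxN
      rw [H.orbit_const hz 0 q, hzx, sub_self, abs_zero] at h1
      linarith
    obtain ⟨T, hT0, hT1, hT⟩ := H.center_closed hx0 hκ0 hκ1 hd5 hz hxr5 hne
    refine ⟨T, hT0, hT1.trans ?_, hT⟩
    have e1 : 0 ≤ 8 * Real.pi * M / κ ^ 2 := by positivity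
    have e2 : 0 ≤ C0 * (b * (a + 1) + 2) := by positivity
    nlinarith
  · -- no centre
    push Not at hcase
    set d0 : ℝ := κ ^ 2 * ε / (4 * M) with hd0
    have hd00 : 0 < d0 := by positivity
    have hslow : ∀ q, 0 ≤ q → ‖grad h (z q)‖ ≤ r →
        hdet h (z q) ≤ -κ ^ 2 ∧ d0 ≤ ‖grad h (z q)‖ ^ 2 := by
      intro q hq0 hqr
      constructor
      · have h1 := hcase q hq0 hqr
        have h2 := H.det_sq hκ0 (hκ (z q) (hzK q hq0) (hqr.trans hrκ))
        rw [abs_of_nonpos h1] at h2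
        linarith
      · obtain ⟨x, hxN, hx⟩ := hNC (z q) (hzK q hq0) (hqr.trans hrr2)
        obtain ⟨hxK, hx0⟩ := hN x hxN
        have h1 := hFN x hxN
        rw [H.orbit_const hz 0 q] at h1
        have h2 := H.value_near hx0 (z q)
        have h3 : M * ‖z q - x‖ ^ 2 ≤ M * (2 / κ * ‖grad h (z q)‖) ^ 2 := by gcongr
        have h4 : ε ≤ M * (2 / κ * ‖grad h (z q)‖) ^ 2 := h1.trans (h2.trans h3)
        rw [hd0, div_le_iff₀ (by positivity)]
        have h5 : M * (2 / κ * ‖grad h (z q)‖) ^ 2 = ‖grad h (z q)‖ ^ 2 * (4 * M) / κ ^ 2 := by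
          field_simp; ring
        rw [h5, le_div_iff₀ (by positivity)] at h4
        linarith
    set S : ℝ := b * Real.log (1 + 2 * (r ^ 2 / d0)) + 1 with hS
    have hlog0 : 0 ≤ Real.log (1 + 2 * (r ^ 2 / d0)) := Real.log_nonneg (by
      have : 0 ≤ 2 * (r ^ 2 / d0) := by positivity
      linarith)
    have hS0 : 0 ≤ S := by positivity
    obtain ⟨T, hT0, hT1, hT⟩ := hC0 S hS0 z hz hzK (by
      intro q hq0
      by_contra hcon
      push Not at hcon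
      have hwin : ∀ q' ∈ Icc q (q + S), ‖grad h (z q')‖ ≤ r := fun q' hq' => (hcon q' hq').le
      have hpos : ∀ q' ∈ Icc q (q + S), 0 ≤ q' := fun q' hq' => hq0.trans hq'.1
      have h1 := saddle_time H hz hκ0 hd00 (by linarith : q ≤ q + S) hrM
        (fun q' hq' => hκ (z q') (hzK q' (hpos q' hq')) ((hwin q' hq').trans hrκ))
        (fun q' hq' => (hslow q' (hpos q' hq') (hwin q' hq')).1)
        hwin
        (fun q' hq' => (hslow q' (hpos q' hq') (hwin q' hq')).2)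
      rw [add_sub_cancel_left, hS, hb] at h1
      have h2 : κ ^ 2 / (2 * M) * (4 * M / κ ^ 2 * Real.log (1 + 2 * (r ^ 2 / d0)) + 1)
          = 2 * Real.log (1 + 2 * (r ^ 2 / d0)) + κ ^ 2 / (2 * M) := by
        field_simp; ring
      rw [h2] at h1
      have h3 : 0 < κ ^ 2 / (2 * M) := by positivity
      linarith)
    refine ⟨T, hT0, hT1.trans ?_, hT⟩
    have hlogle : Real.log (1 + 2 * (r ^ 2 / d0)) ≤ a + ℓ := by
      rw [ha, hℓdef, ← Real.log_mul (by positivity) (by positivity)]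
      apply Real.log_le_log (by positivity)
      have e1 : r ^ 2 ≤ 1 := pow_le_one₀ hr0.le hr1
      have e2 : 2 * (r ^ 2 / d0) ≤ 8 * M / κ ^ 2 * (1 / ε) := by
        calc 2 * (r ^ 2 / d0) ≤ 2 * (1 / d0) := by gcongr
          _ = 8 * M / κ ^ 2 * (1 / ε) := by rw [hd0]; field_simp; ring
      have e3 : 1 ≤ 1 / ε := by rw [le_div_iff₀ hε0]; linarith
      calc 1 + 2 * (r ^ 2 / d0) ≤ 1 / ε + 8 * M / κ ^ 2 * (1 / ε) := add_le_add e3 e2
        _ = _ := by ring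
    have h1 : S + 1 ≤ (b * (a + 1) + 2) * (1 + ℓ) := by
      have e1 : b * Real.log (1 + 2 * (r ^ 2 / d0)) ≤ b * (a + ℓ) := by gcongr
      have e2 : 0 ≤ b * a * ℓ := by positivity
      rw [hS]
      nlinarith
    have h2 : C0 * (S + 1) ≤ C0 * ((b * (a + 1) + 2) * (1 + ℓ)) := by gcongr
    have e1 : 0 ≤ 8 * Real.pi * M / κ ^ 2 * (1 + ℓ) := by positivity
    calc C0 * (S + 1) ≤ C0 * ((b * (a + 1) + 2) * (1 + ℓ)) := h2
      _ ≤ 8 * Real.pi * M / κ ^ 2 * (1 + ℓ) + C0 * ((b * (a + 1) + 2) * (1 + ℓ)) := by linarith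
      _ = _ := by ring

end HamData

end Run7.h772
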