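import Mathlib
import Pool.Agent.Run7.h772.Morse3

open Set Metric Filter MeasureTheory
open scoped ContDiff Topology ComplexConjugate NNReal Manifold

namespace Run7.h772

theorem exists_bump {K U : Set ℂ} (hK : IsCompact K) (hU : IsOpen U) (hKU : K ⊆ U) :
    ∃ (χ : ℂ → ℝ) (V L : Set ℂ), ContDiff ℝ ∞ χ ∧ IsOpen V ∧ K ⊆ V ∧ V ⊆ L ∧ IsCompact L ∧
      L ⊆ U ∧ (∀ x ∈ V, χ x = 1) ∧ ∀ x ∉ L, χ x = 0 := by
  obtain ⟨L, hL, hKL, hLU⟩ := exists_compact_between hK hU hKU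
  obtain ⟨f, hf1, hf0, _⟩ := exists_contMDiffMap_one_nhds_of_subset_interior (n := (⊤ : ℕ∞))
    𝓘(ℝ, ℂ) hK.isClosed hKL
  rw [Filter.Eventually, mem_nhdsSet_iff_exists] at hf1
  obtain ⟨V, hVo, hKV, hV⟩ := hf1
  refine ⟨f, V ∩ interior L, L, f.contMDiff.contDiff, hVo.inter isOpen_interior,
    subset_inter hKV hKL, inter_subset_right.trans interior_subset, hL, hLU,
    fun x hx => hV hx.1, hf0⟩

theorem fderiv_smooth {h : ℂ → ℝ} (hsm : ContDiff ℝ ∞ h) : ContDiff ℝ ∞ (fderiv ℝ h) :=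
  hsm.fderiv_right (by simp)

theorem fderiv2_smooth {h : ℂ → ℝ} (hsm : ContDiff ℝ ∞ h) :
    ContDiff ℝ ∞ (fderiv ℝ (fderiv ℝ h)) :=
  (fderiv_smooth hsm).fderiv_right (by simp)

theorem fderiv_bound {h : ℂ → ℝ} (hsm : ContDiff ℝ ∞ h) (hcs : HasCompactSupport h) :
    ∃ B, ∀ x, ‖fderiv ℝ h x‖ ≤ B :=
  (fderiv_smooth hsm).continuous.bounded_above_of_compact_support (hcs.fderiv (𝕜 := ℝ))

theorem fderiv_lip {h : ℂ → ℝ} (hsm : ContDiff ℝ ∞ h) (hcs : HasCompactSupport h) :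
    ∃ B : ℝ≥0, LipschitzWith B (fderiv ℝ h) :=
  ContDiff.lipschitzWith_of_hasCompactSupport (hcs.fderiv (𝕜 := ℝ)) (fderiv_smooth hsm) (by simp)

theorem fderiv2_lip {h : ℂ → ℝ} (hsm : ContDiff ℝ ∞ h) (hcs : HasCompactSupport h) :
    ∃ B : ℝ≥0, LipschitzWith B (fderiv ℝ (fderiv ℝ h)) :=
  ContDiff.lipschitzWith_of_hasCompactSupport ((hcs.fderiv (𝕜 := ℝ)).fderiv (𝕜 := ℝ))
    (fderiv2_smooth hsm) (by simp)

theorem hamData_of_compact {h : ℂ → ℝ} (hsm : ContDiff ℝ ∞ h) (hcs : HasCompactSupport h) :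
    ∃ M : ℝ, HamData h M := by
  obtain ⟨B1, hB1⟩ := fderiv_bound hsm hcs
  obtain ⟨B2, hB2⟩ := fderiv_lip hsm hcs
  obtain ⟨B3, hB3⟩ := fderiv2_lip hsm hcs
  have h3 : ContDiff ℝ 3 h := hsm.of_le (WithTop.coe_le_coe.mpr le_top)
  refine ⟨max 1 (max B1 (max B2 B3)), ⟨h3, le_max_left _ _, fun x => ?_, fun x => ?_,
    fun x y => ?_⟩⟩
  · exact (hB1 x).trans ((le_max_left _ _).trans (le_max_right _ _))
  · refine (norm_fderiv_le_of_lipschitz ℝ hB2).trans ?_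
    exact (le_max_left _ _).trans ((le_max_right _ _).trans (le_max_right _ _))
  · have h1 := hB3.dist_le_mul x y
    rw [dist_eq_norm, dist_eq_norm] at h1
    refine h1.trans ?_
    have h2 : (B3 : ℝ) ≤ max 1 (max B1 (max B2 B3)) :=
      (le_max_right _ _).trans ((le_max_right _ _).trans (le_max_right _ _))
    gcongr

theorem exists_ham {D : Set ℂ} (hD : IsOpen D) {w : ℂ → ℝ} (hw : ContDiffOn ℝ ∞ w D)
    {K0 : Set ℂ} (hK0 : IsCompact K0) (hKD : K0 ⊆ D) :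
    ∃ (h : ℂ → ℝ) (M : ℝ) (V : Set ℂ), HamData h M ∧ IsOpen V ∧ K0 ⊆ V ∧ V ⊆ D ∧
      ∀ x ∈ V, h x = w x := by
  obtain ⟨χ, V, L, hχ, hVo, hKV, hVL, hL, hLD, hχ1, hχ0⟩ := exists_bump hK0 hD hKD
  have hh0 : ∀ x ∉ L, χ x * w x = 0 := fun x hx => by rw [hχ0 x hx, zero_mul]
  have hsm : ContDiff ℝ ∞ (fun x => χ x * w x) := by
    rw [contDiff_iff_contDiffAt]
    intro x
    by_cases hx : x ∈ D
    · exact hχ.contDiffAt.mul (hw.contDiffAt (hD.mem_nhds hx))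
    · have hxL : x ∉ L := fun h => hx (hLD h)
      have h1 : (fun x => χ x * w x) =ᶠ[𝓝 x] fun _ => 0 := by
        filter_upwards [hL.isClosed.isOpen_compl.mem_nhds hxL] with y hy using hh0 y hy
      exact contDiffAt_const.congr_of_eventuallyEq h1
  have hcs : HasCompactSupport (fun x => χ x * w x) := HasCompactSupport.intro hL hh0
  obtain ⟨M, hM⟩ := hamData_of_compact hsm hcs
  exact ⟨_, M, V, hM, hVo, hKV, hVL.trans hLD, fun x hx => by simp only [hχ1 x hx, one_mul]⟩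

/-- The hypotheses on the initial vorticity: `K0` is a compact set in `D` made of pieces of level
sets of `w` that are isolated in these level sets, and its critical points are nondegenerate. -/
structure MorseData (D : Set ℂ) (w : ℂ → ℝ) (K0 : Set ℂ) : Prop where
  hD : IsOpen D
  hw : ContDiffOn ℝ ∞ w D
  hK0 : IsCompact K0
  hKD : K0 ⊆ D
  sat : ∃ V : Set ℂ, IsOpen V ∧ K0 ⊆ V ∧ V ⊆ D ∧ ∀ x ∈ K0, ∀ y ∈ V, w y = w x → y ∈ K0
  nd : ∀ x ∈ K0, grad w x = 0 → ∀ v, fderiv ℝ (fderiv ℝ w) x v = 0 → v = 0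

theorem grad_eq_of_eqOn {V : Set ℂ} (hV : IsOpen V) {f g : ℂ → ℝ} (h : ∀ x ∈ V, f x = g x)
    {x : ℂ} (hx : x ∈ V) : grad f x = grad g x := by
  have : f =ᶠ[𝓝 x] g := by
    filter_upwards [hV.mem_nhds hx] with y hy using h y hy
  simp only [grad]
  rw [this.fderiv_eq]

theorem fderiv2_eq_of_eqOn {V : Set ℂ} (hV : IsOpen V) {f g : ℂ → ℝ} (h : ∀ x ∈ V, f x = g x)
    {x : ℂ} (hx : x ∈ V) : fderiv ℝ (fderiv ℝ f) x = fderiv ℝ (fderiv ℝ g) x := by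
  have h1 : ∀ y ∈ V, fderiv ℝ f y = fderiv ℝ g y := by
    intro y hy
    have : f =ᶠ[𝓝 y] g := by
      filter_upwards [hV.mem_nhds hy] with y hy using h y hy
    exact this.fderiv_eq
  have : fderiv ℝ f =ᶠ[𝓝 x] fderiv ℝ g := by
    filter_upwards [hV.mem_nhds hx] with y hy using h1 y hy
  exact this.fderiv_eq

namespace MorseData

variable {D : Set ℂ} {w : ℂ → ℝ} {K0 : Set ℂ}

theorem orbit_mem (S : MorseData D w K0) {h : ℂ → ℝ} {M : ℝ} {V : Set ℂ} (H : HamData h M)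
    (hV : IsOpen V) (hKV : K0 ⊆ V) (hh : ∀ x ∈ V, h x = w x) {z : ℝ → ℂ}
    (hz : IsOrbit h z) (h0 : z 0 ∈ K0) (q : ℝ) : z q ∈ K0 := by
  have hc := HamData.orbit_cont hz
  obtain ⟨U, hU, hKU, hUD, hsat⟩ := S.sat
  have hclopen : IsClopen (z ⁻¹' K0) := by
    constructor
    · exact S.hK0.isClosed.preimage hc
    · rw [isOpen_iff_mem_nhds]
      intro q hq
      have hqK : z q ∈ K0 := hq
      filter_upwards [hc.continuousAt.preimage_mem_nhds ((hV.inter hU).mem_nhds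
        ⟨hKV hqK, hKU hqK⟩)] with q' hq'
      have hq'V : z q' ∈ V := hq'.1
      refine hsat (z q) hqK (z q') hq'.2 ?_
      rw [← hh _ hq'V, ← hh _ (hKV hqK)]
      exact H.orbit_const hz q' q
  have := hclopen.eq_univ ⟨0, h0⟩
  have h1 : q ∈ z ⁻¹' K0 := by rw [this]; trivial
  exact h1

/-- The turnover time of the contours is logarithmic in the distance to the critical values. -/
theorem turnover_log (S : MorseData D w K0) :
    ∃ (F : Finset ℝ) (C1 : ℝ), 1 ≤ C1 ∧ ∀ ε : ℝ, 0 < ε → ε ≤ 1 → ∀ x ∈ K0,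
      (∀ c ∈ F, ε ≤ |w x - c|) → ClosedContour D w x (C1 * (1 + Real.log (1 / ε))) := by
  obtain ⟨h, M, V, H, hV, hKV, hVD, hh⟩ := exists_ham S.hD S.hw S.hK0 S.hKD
  obtain ⟨F, C1, hC1, hlog⟩ := H.closed_log S.hK0 (by
    intro x hx hx0 v hv
    rw [grad_eq_of_eqOn hV hh (hKV hx)] at hx0
    rw [fderiv2_eq_of_eqOn hV hh (hKV hx)] at hv
    exact S.nd x hx hx0 v hv)
  refine ⟨F, C1, hC1, fun ε hε0 hε1 x hx hF => ?_⟩
  obtain ⟨z, hz0, hz⟩ := H.exists_orbit x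
  have hzK : ∀ q, z q ∈ K0 := S.orbit_mem H hV hKV hh hz (by rw [hz0]; exact hx)
  obtain ⟨T, hT0, hT1, hT⟩ := hlog ε hε0 hε1 z hz (fun q _ => hzK q) (by
    intro c hc
    rw [hz0, hh x (hKV hx)]
    exact hF c hc)
  refine ⟨T, hT0, hT1, z, hz0, by rw [hT, hz0], fun q _ => S.hKD (hzK q), fun q _ => ?_⟩
  rw [← grad_eq_of_eqOn hV hh (hKV (hzK q))]
  exact (hz q).hasDerivWithinAt

theorem volume_line_ball {a e x : ℂ} (he : ‖e‖ = 1) {ρ : ℝ} :
    volume {s : ℝ | ‖a + s • e - x‖ ≤ ρ} ≤ ENNReal.ofReal (4 * ρ) := by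
  by_cases hne : {s : ℝ | ‖a + s • e - x‖ ≤ ρ}.Nonempty
  · obtain ⟨s0, hs0⟩ := hne
    have hsub : {s : ℝ | ‖a + s • e - x‖ ≤ ρ} ⊆ Icc (s0 - 2 * ρ) (s0 + 2 * ρ) := by
      intro s hs
      have h1 : ‖(s - s0) • e‖ ≤ 2 * ρ := by
        have e1 : (s - s0) • e = (a + s • e - x) - (a + s0 • e - x) := by
          rw [sub_smul]; abel
        rw [e1]
        refine (norm_sub_le _ _).trans ?_
        have e2 : ‖a + s • e - x‖ ≤ ρ := hs
        have e3 : ‖a + s0 • e - x‖ ≤ ρ := hs0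
        linarith
      rw [norm_smul, he, mul_one, Real.norm_eq_abs, abs_le] at h1
      exact ⟨by linarith [h1.1], by linarith [h1.2]⟩
    refine (measure_mono hsub).trans ?_
    rw [Real.volume_Icc]
    refine ENNReal.ofReal_le_ofReal (le_of_eq ?_)
    ring
  · rw [not_nonempty_iff_eq_empty] at hne
    rw [hne]; simp

/-- The gradient of `w` is small only on a small part of a segment. -/
theorem small_grad (S : MorseData D w K0) :
    ∃ C : ℝ, 0 ≤ C ∧ ∀ a e : ℂ, ‖e‖ = 1 → (∀ s ∈ Icc (0 : ℝ) 1, a + s • e ∈ K0) →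
      ∀ ρ : ℝ, 0 < ρ → volume {s : ℝ | s ∈ Icc (0 : ℝ) 1 ∧ ‖grad w (a + s • e)‖ ≤ ρ}
        ≤ ENNReal.ofReal (C * ρ) := by
  obtain ⟨h, M, V, H, hV, hKV, hVD, hh⟩ := exists_ham S.hD S.hw S.hK0 S.hKD
  obtain ⟨κ, hκ0, hκ1, hκ⟩ := H.nd_const S.hK0 (by
    intro x hx hx0 v hv
    rw [grad_eq_of_eqOn hV hh (hKV hx)] at hx0
    rw [fderiv2_eq_of_eqOn hV hh (hKV hx)] at hv
    exact S.nd x hx hx0 v hv)
  obtain ⟨N, r2, hr20, hN, hNC⟩ := H.crit_finite S.hK0 hκ0 hκ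
  refine ⟨1 / r2 + N.card * (8 / κ), by positivity, fun a e he hseg ρ hρ => ?_⟩
  by_cases hρr : ρ ≤ r2
  · have hsub : {s : ℝ | s ∈ Icc (0 : ℝ) 1 ∧ ‖grad w (a + s • e)‖ ≤ ρ}
        ⊆ ⋃ x ∈ N, {s : ℝ | ‖a + s • e - x‖ ≤ 2 / κ * ρ} := by
      rintro s ⟨hs, hsρ⟩
      have hsK := hseg s hs
      rw [← grad_eq_of_eqOn hV hh (hKV hsK)] at hsρ
      obtain ⟨x, hxN, hx⟩ := hNC _ hsK (hsρ.trans hρr)
      rw [mem_iUnion₂]
      refine ⟨x, hxN, hx.trans ?_⟩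
      gcongr
    refine (measure_mono hsub).trans ((measure_biUnion_finset_le _ _).trans ?_)
    refine (Finset.sum_le_sum (fun x _ => volume_line_ball he)).trans ?_
    rw [Finset.sum_const, nsmul_eq_mul, ← ENNReal.ofReal_natCast, ← ENNReal.ofReal_mul (by positivity)]
    refine ENNReal.ofReal_le_ofReal ?_
    have : 0 ≤ 1 / r2 * ρ := by positivity
    calc (N.card : ℝ) * (4 * (2 / κ * ρ)) = N.card * (8 / κ) * ρ := by ring
      _ ≤ 1 / r2 * ρ + N.card * (8 / κ) * ρ := by linarith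
      _ = _ := by ring
  · push Not at hρr
    refine (measure_mono (fun s hs => hs.1)).trans ?_
    rw [Real.volume_Icc]
    refine ENNReal.ofReal_le_ofReal ?_
    have h1 : 1 ≤ 1 / r2 * ρ := by
      rw [div_mul_eq_mul_div, one_mul, le_div_iff₀ hr20]; linarith
    have h2 : 0 ≤ (N.card : ℝ) * (8 / κ) * ρ := by positivity
    calc (1 : ℝ) - 0 = 1 := by ring
      _ ≤ 1 / r2 * ρ + N.card * (8 / κ) * ρ := by linarith
      _ = _ := by ring

end MorseData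

end Run7.h772
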