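import Mathlib
import Pool.Agent.Run7.h772.Flow

open Set Metric Filter
open scoped NNReal Topology

namespace Run7.h772

variable {E : Type*} [NormedAddCommGroup E] [NormedSpace ℝ E]

namespace FlowData

variable {D : Set E} {v X : ℝ → E → E} {K : ℝ → ℝ}

theorem norm_fderiv_le [ProperSpace E] [CompleteSpace E] (h : FlowData D v X K) {x : E}
    (hx : x ∈ D) {t : ℝ} (ht : 0 ≤ t) : ‖fderiv ℝ (X t) x‖ ≤ Real.exp (K t * t) := by
  obtain ⟨r, hr0, hr⟩ := h.tube hx t
  refine (h.hasFDerivAt hx ht).le_of_lip' (Real.exp_pos _).le ?_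
  have hsmall : ∀ᶠ y in 𝓝 x, ‖y - x‖ * Real.exp (K t * t) < r := by
    have : ContinuousAt (fun y => ‖y - x‖ * Real.exp (K t * t)) x := by fun_prop
    have h0 : (fun y => ‖y - x‖ * Real.exp (K t * t)) x < r := by simpa using hr0
    exact this.eventually_lt continuousAt_const h0
  filter_upwards [h.isOpen.mem_nhds hx, hsmall] with y hy hys
  have := h.stay hx hy hr hys t ⟨ht, le_rfl⟩
  rw [mul_comm]
  exact this

theorem continuousOn_fderiv_flow [ProperSpace E] [CompleteSpace E] (h : FlowData D v X K)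
    {T : ℝ} (hT : 0 ≤ T) : ContinuousOn (fun x => fderiv ℝ (X T) x) D := by
  intro x hx
  refine ContinuousAt.continuousWithinAt ?_
  rw [Metric.continuousAt_iff']
  intro ε hε
  have hK := h.nonneg T
  set B : ℝ := gronwallBound 0 (K T) (Real.exp (K T * T)) T with hB
  have hB0 : 0 ≤ B := by
    have := gronwallBound_mono (δ := 0) (ε := Real.exp (K T * T)) (K := K T) le_rfl
      (Real.exp_pos _).le hK hT
    simpa [gronwallBound_x0] using this
  obtain ⟨r, hr0, hr⟩ := h.tube hx T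
  set ε1 : ℝ := ε / (B + 1) with hε1
  have hε1' : 0 < ε1 := by positivity
  obtain ⟨ρ, hρ, hρr, hmod⟩ := h.modulus hx hr0 hr hε1'
  have hsmall : ∀ᶠ y in 𝓝 x, ‖y - x‖ * Real.exp (K T * T) < ρ := by
    have : ContinuousAt (fun y => ‖y - x‖ * Real.exp (K T * T)) x := by fun_prop
    have h0 : (fun y => ‖y - x‖ * Real.exp (K T * T)) x < ρ := by simpa using hρ
    exact this.eventually_lt continuousAt_const h0
  filter_upwards [h.isOpen.mem_nhds hx, hsmall] with y hy hys
  have hst := h.stay hx hy (T := T) (r := ρ)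
    (fun s hs => (closedBall_subset_closedBall hρr).trans (hr s hs)) hys
  have hstT : ∀ s ∈ Icc 0 T, ‖X s y - X s x‖ ≤ ‖y - x‖ * Real.exp (K T * T) := by
    intro s hs
    refine (hst s hs).trans ?_
    have := hs.2
    gcongr
  set Ef : ℝ → (E →L[ℝ] E) := fun s => fderiv ℝ (X s) y - fderiv ℝ (X s) x with hEf
  set E' : ℝ → (E →L[ℝ] E) := fun s => (fderiv ℝ (v s) (X s y)).comp (fderiv ℝ (X s) y)
    - (fderiv ℝ (v s) (X s x)).comp (fderiv ℝ (X s) x) with hE'
  have hder0 : ∀ s, 0 ≤ s → HasDerivWithinAt Ef (E' s) (Ici 0) s := fun s hs =>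
    (h.hasDerivWithinAt_fderiv hy hs).sub (h.hasDerivWithinAt_fderiv hx hs)
  have hder : ∀ s ∈ Ico 0 T, HasDerivWithinAt Ef (E' s) (Ici s) s := fun s hs =>
    (hder0 s hs.1).mono (Ici_subset_Ici.mpr hs.1)
  have hcont : ContinuousOn Ef (Icc 0 T) := fun s hs =>
    ((hder0 s hs.1).continuousWithinAt).mono Icc_subset_Ici_self
  have hE0 : ‖Ef 0‖ ≤ 0 := by
    simp only [hEf]
    rw [h.fderiv_zero hx, h.fderiv_zero hy, sub_self, norm_zero]
  have hbound : ∀ s ∈ Ico 0 T, ‖E' s‖ ≤ K T * ‖Ef s‖ + ε1 * Real.exp (K T * T) := by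
    intro s hs
    have hsT : s ∈ Icc 0 T := ⟨hs.1, hs.2.le⟩
    have hyb : X s y ∈ closedBall (X s x) ρ := by
      rw [mem_closedBall, dist_eq_norm]
      exact (hstT s hsT).trans hys.le
    have h1 := hmod s hsT _ hyb
    have hsplit : E' s = (fderiv ℝ (v s) (X s y)).comp (Ef s)
        + (fderiv ℝ (v s) (X s y) - fderiv ℝ (v s) (X s x)).comp (fderiv ℝ (X s) x) := by
      simp only [hE', hEf, ContinuousLinearMap.comp_sub, ContinuousLinearMap.sub_comp]
      abel
    have h2 : ‖(fderiv ℝ (v s) (X s y)).comp (Ef s)‖ ≤ K T * ‖Ef s‖ := by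
      refine (ContinuousLinearMap.opNorm_comp_le _ _).trans ?_
      have := h.bound hs.1 hs.2.le (h.mem y hy s hs.1)
      gcongr
    have h3 : ‖fderiv ℝ (X s) x‖ ≤ Real.exp (K T * T) := by
      refine (h.norm_fderiv_le hx hs.1).trans ?_
      apply Real.exp_le_exp.mpr
      have e1 : K s ≤ K T := h.mono hs.2.le
      have e2 := hs.2.le
      have e3 := hs.1
      gcongr
    have h4 : ‖(fderiv ℝ (v s) (X s y) - fderiv ℝ (v s) (X s x)).comp (fderiv ℝ (X s) x)‖
        ≤ ε1 * Real.exp (K T * T) := by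
      refine (ContinuousLinearMap.opNorm_comp_le _ _).trans ?_
      gcongr
    rw [hsplit]
    exact (norm_add_le _ _).trans (add_le_add h2 h4)
  have hgron := norm_le_gronwallBound_of_norm_deriv_right_le hcont hder hE0 hbound T ⟨hT, le_rfl⟩
  rw [sub_zero] at hgron
  have hlin : gronwallBound 0 (K T) (ε1 * Real.exp (K T * T)) T = ε1 * B := by
    rw [hB]
    unfold gronwallBound
    split_ifs with hk
    · ring
    · ring
  rw [hlin] at hgron
  have hlt : ε1 * B < ε := by
    rw [hε1, div_mul_eq_mul_div, div_lt_iff₀ (by positivity)]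
    nlinarith
  rw [dist_eq_norm]
  exact lt_of_le_of_lt hgron hlt

end FlowData

end Run7.h772
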