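import Mathlib
import Pool.Agent.Run7.h772.Variation

open Set Metric Filter MeasureTheory
open scoped ContDiff Topology ENNReal

namespace Run7.h772

/-- Discrete layer cake bound of a negative power. -/
theorem inv_pow_le {g : ℝ} {J p : ℕ} (hp : 1 ≤ p) (hg : Real.exp (-(J : ℝ)) ≤ g) :
    ENNReal.ofReal ((g ^ p)⁻¹) ≤ 1 + ∑ j ∈ Finset.range (J + 1),
      (if g ≤ Real.exp (-(j : ℝ)) then ENNReal.ofReal (Real.exp (p * (j + 1))) else 0) := by
  have hg0 : 0 < g := (Real.exp_pos _).trans_le hg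
  by_cases h1 : 1 < g
  · refine le_trans ?_ le_self_add
    rw [← ENNReal.ofReal_one]
    refine ENNReal.ofReal_le_ofReal ?_
    rw [inv_le_one₀ (by positivity)]
    exact (one_lt_pow₀ h1 (by omega)).le
  · push Not at h1
    set j : ℕ := ⌊-Real.log g⌋₊ with hj
    have hlog0 : 0 ≤ -Real.log g := by
      have := Real.log_nonpos hg0.le h1
      linarith
    have hj1 : (j : ℝ) ≤ -Real.log g := Nat.floor_le hlog0
    have hj2 : -Real.log g < j + 1 := Nat.lt_floor_add_one _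
    have hjJ : j ∈ Finset.range (J + 1) := by
      rw [Finset.mem_range, Nat.lt_succ_iff]
      have h2 : -(J : ℝ) ≤ Real.log g := by
        rw [← Real.log_exp (-(J : ℝ))]
        exact Real.log_le_log (Real.exp_pos _) hg
      have : (j : ℝ) ≤ J := by linarith
      exact_mod_cast this
    have hcond : g ≤ Real.exp (-(j : ℝ)) := by
      rw [← Real.log_le_iff_le_exp hg0]
      linarith
    have h3 : (g ^ p)⁻¹ ≤ Real.exp (p * (j + 1)) := by
      rw [inv_le_comm₀ (by positivity) (Real.exp_pos _), ← Real.exp_neg]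
      have h4 : Real.exp (-(j + 1 : ℝ)) ≤ g := by
        rw [← Real.le_log_iff_exp_le hg0]
        linarith
      calc Real.exp (-((p : ℝ) * (j + 1))) = Real.exp (-(j + 1 : ℝ)) ^ p := by
            rw [← Real.exp_nat_mul]; congr 1; ring
        _ ≤ g ^ p := by gcongr
    have h5 : (if g ≤ Real.exp (-(j : ℝ)) then ENNReal.ofReal (Real.exp (p * (j + 1))) else 0)
        ≤ ∑ j ∈ Finset.range (J + 1),
      (if g ≤ Real.exp (-(j : ℝ)) then ENNReal.ofReal (Real.exp (p * (j + 1))) else 0) :=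
      Finset.single_le_sum (f := fun j : ℕ =>
        (if g ≤ Real.exp (-(j : ℝ)) then ENNReal.ofReal (Real.exp (p * (j + 1))) else 0))
        (fun _ _ => zero_le) hjJ
    rw [if_pos hcond] at h5
    exact ((ENNReal.ofReal_le_ofReal h3).trans h5).trans le_add_self

/-- Integrated layer cake bound on a subset of the unit interval. -/
theorem lintegral_inv_pow_le {g f' : ℝ → ℝ} (hg : ContinuousOn g (Icc 0 1))
    (hf' : ContinuousOn f' (Icc 0 1)) {G : Set ℝ} (hG : MeasurableSet G) (hGI : G ⊆ Icc 0 1)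
    {J p : ℕ} (hp : 1 ≤ p) (hgJ : ∀ s ∈ G, Real.exp (-(J : ℝ)) ≤ g s) :
    ∫⁻ s in G, ENNReal.ofReal (|f' s| * (g s ^ p)⁻¹)
      ≤ (∫⁻ s in Icc (0 : ℝ) 1, ENNReal.ofReal |f' s|)
        + ∑ j ∈ Finset.range (J + 1), ENNReal.ofReal (Real.exp (p * (j + 1)))
          * ∫⁻ s in {s | s ∈ Icc (0 : ℝ) 1 ∧ g s ≤ Real.exp (-(j : ℝ))},
              ENNReal.ofReal |f' s| := by
  have hms : ∀ j : ℕ, MeasurableSet {s | s ∈ Icc (0 : ℝ) 1 ∧ g s ≤ Real.exp (-(j : ℝ))} := by
    intro j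
    have : {s | s ∈ Icc (0 : ℝ) 1 ∧ g s ≤ Real.exp (-(j : ℝ))}
        = Icc (0 : ℝ) 1 ∩ g ⁻¹' (Iic (Real.exp (-(j : ℝ)))) := rfl
    rw [this]
    exact (hg.preimage_isClosed_of_isClosed isClosed_Icc isClosed_Iic).measurableSet
  have hmf : AEMeasurable (fun s => ENNReal.ofReal |f' s|) (volume.restrict (Icc 0 1)) :=
    (hf'.abs.aemeasurable measurableSet_Icc).ennreal_ofReal
  have h1 : ∀ s ∈ G, ENNReal.ofReal (|f' s| * (g s ^ p)⁻¹)
      ≤ ENNReal.ofReal |f' s| + ∑ j ∈ Finset.range (J + 1),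
        ENNReal.ofReal (Real.exp (p * (j + 1)))
        * ({s | s ∈ Icc (0 : ℝ) 1 ∧ g s ≤ Real.exp (-(j : ℝ))}.indicator
          (fun s => ENNReal.ofReal |f' s|) s) := by
    intro s hs
    have hsI := hGI hs
    rw [ENNReal.ofReal_mul (abs_nonneg _)]
    refine (mul_le_mul_right (inv_pow_le hp (hgJ s hs)) _).trans (le_of_eq ?_)
    rw [mul_add, mul_one, Finset.mul_sum]
    congr 1
    refine Finset.sum_congr rfl (fun j _ => ?_)
    by_cases hc : g s ≤ Real.exp (-(j : ℝ))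
    · rw [if_pos hc, indicator_of_mem (show s ∈ {s | s ∈ Icc (0 : ℝ) 1 ∧ g s ≤ Real.exp (-(j : ℝ))}
        from ⟨hsI, hc⟩), mul_comm]
    · rw [if_neg hc, indicator_of_notMem (show s ∉ {s | s ∈ Icc (0 : ℝ) 1 ∧
        g s ≤ Real.exp (-(j : ℝ))} from fun h => hc h.2), mul_zero, mul_zero]
  have h2 : ∫⁻ s in Icc (0 : ℝ) 1, (ENNReal.ofReal |f' s| + ∑ j ∈ Finset.range (J + 1),
        ENNReal.ofReal (Real.exp (p * (j + 1)))
        * ({s | s ∈ Icc (0 : ℝ) 1 ∧ g s ≤ Real.exp (-(j : ℝ))}.indicator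
          (fun s => ENNReal.ofReal |f' s|) s))
      = (∫⁻ s in Icc (0 : ℝ) 1, ENNReal.ofReal |f' s|)
        + ∑ j ∈ Finset.range (J + 1), ENNReal.ofReal (Real.exp (p * (j + 1)))
          * ∫⁻ s in {s | s ∈ Icc (0 : ℝ) 1 ∧ g s ≤ Real.exp (-(j : ℝ))},
              ENNReal.ofReal |f' s| := by
    rw [lintegral_add_left' hmf, lintegral_finsetSum']
    · congr 1
      refine Finset.sum_congr rfl (fun j _ => ?_)
      rw [lintegral_const_mul'' _ (hmf.indicator (hms j)), lintegral_indicator (hms j),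
        Measure.restrict_restrict (hms j)]
      congr 2
      congr 1
      ext s
      simp only [mem_inter_iff, mem_ofPred_eq]
      tauto
    · intro j _
      exact (hmf.indicator (hms j)).const_mul _
  rw [← h2]
  exact (setLIntegral_mono' hG h1).trans (lintegral_mono_set hGI)

end Run7.h772
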