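import Mathlib
import Pool.Agent.Run7.h772.Main
import Pool.Agent.Run7.h772.Layer
import Pool.Agent.Run7.h772.Flow2

open Set Metric Filter MeasureTheory
open scoped ContDiff Topology ComplexConjugate ENNReal

namespace Run7.h772

open IsEulerFlow

/-- A unit segment in an open set and a smooth function on it. -/
structure Seg (D : Set ℂ) (w : ℂ → ℝ) (a e : ℂ) : Prop where
  hD : IsOpen D
  hw : ContDiffOn ℝ ∞ w D
  he : ‖e‖ = 1
  hseg : ∀ s ∈ Icc (0 : ℝ) 1, a + s • e ∈ D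

namespace Seg

variable {D : Set ℂ} {w : ℂ → ℝ} {a e : ℂ}

theorem contDiffOn_f (S : Seg D w a e) :
    ContDiffOn ℝ ∞ (fun s : ℝ => w (a + s • e)) (Icc 0 1) := by
  refine S.hw.comp (g := w) (f := fun s : ℝ => a + s • e) ?_ (fun s hs => S.hseg s hs)
  exact (contDiff_const.add (contDiff_id.smul contDiff_const)).contDiffOn

theorem differentiableAt (S : Seg D w a e) {x : ℂ} (hx : x ∈ D) :
    DifferentiableAt ℝ w x :=
  ((S.hw.contDiffAt (S.hD.mem_nhds hx)).differentiableAt (by simp))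

theorem hasDerivAt_f (S : Seg D w a e) {s : ℝ} (hs : s ∈ Icc (0 : ℝ) 1) :
    HasDerivAt (fun s : ℝ => w (a + s • e)) (fp w a e s) s := by
  have h1 := (S.differentiableAt (S.hseg s hs)).hasFDerivAt
  have h2 : HasDerivAt (fun s : ℝ => a + s • e) e s := by
    simpa using ((hasDerivAt_id s).smul_const e).const_add a
  exact HasFDerivAt.comp_hasDerivAt (f := fun s : ℝ => a + s • e) s h1 h2

theorem continuousOn_fderiv (S : Seg D w a e) :
    ContinuousOn (fun s : ℝ => fderiv ℝ w (a + s • e)) (Icc 0 1) := by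
  have h1 : ContinuousOn (fderiv ℝ w) D :=
    (S.hw.fderiv_of_isOpen S.hD (m := ∞) (by simp)).continuousOn
  exact h1.comp (f := fun s : ℝ => a + s • e) (by fun_prop) (fun s hs => S.hseg s hs)

theorem continuousOn_fp (S : Seg D w a e) : ContinuousOn (fp w a e) (Icc 0 1) :=
  S.continuousOn_fderiv.clm_apply continuousOn_const

theorem continuousOn_g0 (S : Seg D w a e) :
    ContinuousOn (fun s : ℝ => ‖grad w (a + s • e)‖) (Icc 0 1) := by
  have : (fun s : ℝ => ‖grad w (a + s • e)‖) = fun s : ℝ => ‖fderiv ℝ w (a + s • e)‖ := by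
    funext s; exact norm_grad_eq _ _
  rw [this]
  exact S.continuousOn_fderiv.norm

theorem preimage (S : Seg D w a e) (q : ℕ) :
    ∃ C : ℝ, 0 ≤ C ∧ ∀ N : ℕ, 1 ≤ N → ∀ E : Set ℝ, MeasurableSet E →
      ∫⁻ s in Icc 0 1 ∩ (fun s : ℝ => w (a + s • e)) ⁻¹' E, ENNReal.ofReal |fp w a e s|
        ≤ N * 2 ^ q * volume E + ENNReal.ofReal (C / N ^ q) := by
  set f : ℝ → ℝ := fun s : ℝ => w (a + s • e) with hf
  have hcd := S.contDiffOn_f
  have hU : UniqueDiffOn ℝ (Icc (0 : ℝ) 1) := uniqueDiffOn_Icc zero_lt_one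
  obtain ⟨C, hC0, hC⟩ := preimage_measure (F := fun i => iteratedDerivWithin i f (Icc 0 1))
    (by
      intro i s hs
      have h1 : DifferentiableWithinAt ℝ (iteratedDerivWithin i f (Icc 0 1)) (Icc 0 1) s :=
        hcd.differentiableOn_iteratedDerivWithin (WithTop.coe_lt_coe.mpr (ENat.natCast_lt_top i))
          hU s hs
      have h2 := h1.hasDerivWithinAt
      rw [iteratedDerivWithin_succ]
      exact h2) q
  refine ⟨C, hC0, fun N hN E hE => ?_⟩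
  have h1 := hC N hN E hE
  simp only [iteratedDerivWithin_zero] at h1
  refine le_trans (le_of_eq ?_) h1
  have hms : MeasurableSet (Icc (0 : ℝ) 1 ∩ f ⁻¹' E) := measurableSet_Icc_inter hcd.continuousOn hE
  refine setLIntegral_congr_fun hms (fun s hs => ?_)
  have h2 : iteratedDerivWithin 1 f (Icc 0 1) s = fp w a e s := by
    rw [iteratedDerivWithin_one]
    exact ((S.hasDerivAt_f hs.1).hasDerivWithinAt).derivWithin (hU s hs.1)
  rw [h2]

theorem exists_fp_bound (S : Seg D w a e) :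
    ∃ C : ℝ, 0 ≤ C ∧ ∫⁻ s in Icc (0 : ℝ) 1, ENNReal.ofReal |fp w a e s| ≤ ENNReal.ofReal C := by
  obtain ⟨C, hC⟩ := isCompact_Icc.exists_bound_of_continuousOn S.continuousOn_fp
  have hC0 : 0 ≤ C := (norm_nonneg _).trans (hC 0 (by simp))
  refine ⟨C, hC0, ?_⟩
  calc ∫⁻ s in Icc (0 : ℝ) 1, ENNReal.ofReal |fp w a e s|
      ≤ ∫⁻ _ in Icc (0 : ℝ) 1, ENNReal.ofReal C :=
        setLIntegral_mono measurable_const (fun s hs => ENNReal.ofReal_le_ofReal (hC s hs))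
    _ = ENNReal.ofReal C := by
        rw [setLIntegral_const, Real.volume_Icc]; simp

variable {R α : ℝ} {u X : ℝ → ℂ → ℂ} {p : ℝ → ℂ → ℝ} {K M : ℝ → ℝ}

theorem gr_zero (S : Seg D w a e) (V : Evol D w a e R α u p X K M) {s : ℝ}
    (hs : s ∈ Icc (0 : ℝ) 1) :
    gr u X 0 (a + s • e) = grad w (a + s • e) := by
  simp only [gr]
  rw [V.hX.init _ (S.hseg s hs), grad_congr S.hD V.h0 (S.hseg s hs)]

theorem continuousOn_gr (S : Seg D w a e) (V : Evol D w a e R α u p X K M) {t : ℝ}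
    (ht : 0 ≤ t) : ContinuousOn (fun s : ℝ => gr u X t (a + s • e)) (Icc 0 1) :=
  (V.hE.continuousOn_gr_slice S.hD V.hF).comp
    (f := fun s : ℝ => ((t, a + s • e) : ℝ × ℂ)) (by fun_prop)
    (fun s hs => ⟨ht, S.hseg s hs⟩)

theorem fp_eq_zero (_ : Seg D w a e) {s : ℝ} (h : grad w (a + s • e) = 0) : fp w a e s = 0 := by
  have h1 := norm_grad_eq w (a + s • e)
  rw [h, norm_zero] at h1
  simp only [fp]
  rw [norm_eq_zero.mp h1.symm]
  simp

/-- The parameters with a small vorticity gradient at time `t`. -/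
theorem measure_core (S : Seg D w a e) (V : Evol D w a e R α u p X K M) (hR1 : 1 ≤ R)
    (hα : 0 < α) {m : ℕ} (hm : 1 ≤ m * α) {t : ℝ} (ht : 0 ≤ t) {Y δ : ℝ} (hY : 1 ≤ Y)
    (hδ : 0 ≤ δ) (hδr : 8 * M t * Y ^ 2 * δ < ((32 * M t ^ 2 * Y ^ 2) ^ m)⁻¹) :
    ∃ E : Set ℝ, MeasurableSet E ∧ volume E ≤ ENNReal.ofReal
        (501760 * R ^ 2 * M t ^ 3 * Y ^ 4 * (32 * M t ^ 2 * Y ^ 2) ^ (2 * m) * δ ^ 2) ∧
      {s | s ∈ Icc (0 : ℝ) 1 ∧ ‖gr u X t (a + s • e)‖ ≤ δ}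
        ⊆ {s | s ∈ Icc (0 : ℝ) 1 ∧ fp w a e s = 0}
          ∪ ({s | s ∈ Icc (0 : ℝ) 1 ∧ ¬ ClosedContour D w (a + s • e) Y}
          ∪ (Icc 0 1 ∩ (fun s : ℝ => w (a + s • e)) ⁻¹' E)) := by
  obtain ⟨h, hh, hext, _, hB, hH⟩ := V.hreg t ht
  obtain ⟨E, hE1, hE2, hE3⟩ := bad_values hh (V.hM1 t) hY hR1 hα hm hδ hB hH hδr
  refine ⟨E, hE1, hE3, ?_⟩
  rintro s ⟨hs, hsδ⟩
  by_cases h0 : grad w (a + s • e) = 0
  · left; exact ⟨hs, S.fp_eq_zero h0⟩
  right
  by_cases hc : ClosedContour D w (a + s • e) Y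
  · right
    refine ⟨hs, ?_⟩
    have h1 := bad_inclusion V.hE S.hD V.hX V.hF V.h0 ht hext (S.hseg s hs) (V.hR t ht s hs)
      (by rw [S.gr_zero V hs]; exact h0) hsδ hc
    have h2 := hE2 _ h1
    rw [hext _ (V.hX.mem _ (S.hseg s hs) t ht),
      V.hE.curl_transport S.hD V.hX (S.hseg s hs) ht, V.h0 _ (S.hseg s hs)] at h2
    exact h2
  · left; exact ⟨hs, hc⟩

theorem null_part (S : Seg D w a e) :
    ∫⁻ s in {s | s ∈ Icc (0 : ℝ) 1 ∧ fp w a e s = 0}, ENNReal.ofReal |fp w a e s| = 0 := by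
  have hms : MeasurableSet {s | s ∈ Icc (0 : ℝ) 1 ∧ fp w a e s = 0} := by
    have : {s | s ∈ Icc (0 : ℝ) 1 ∧ fp w a e s = 0} = Icc (0 : ℝ) 1 ∩ (fp w a e) ⁻¹' {0} := rfl
    rw [this]
    exact (S.continuousOn_fp.preimage_isClosed_of_isClosed isClosed_Icc
      isClosed_singleton).measurableSet
  have h1 : ∫⁻ s in {s | s ∈ Icc (0 : ℝ) 1 ∧ fp w a e s = 0}, ENNReal.ofReal |fp w a e s|
      = ∫⁻ s in {s | s ∈ Icc (0 : ℝ) 1 ∧ fp w a e s = 0}, 0 :=
    setLIntegral_congr_fun hms (fun s hs => by simp only [hs.2, abs_zero, ENNReal.ofReal_zero])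
  rw [h1, lintegral_zero]

/-- Lower bound of the vorticity gradient. -/
theorem lower_at (S : Seg D w a e) (V : Evol D w a e R α u p X K M) {t T : ℝ} (ht : 0 ≤ t)
    (htT : t ≤ T) {s : ℝ} (hs : s ∈ Icc (0 : ℝ) 1) :
    ‖grad w (a + s • e)‖ * Real.exp (-(K T * t)) ≤ ‖gr u X t (a + s • e)‖ := by
  have h1 := V.hE.norm_grad_lower S.hD V.hX V.hF (S.hseg s hs) le_rfl ht htT
  rw [sub_zero] at h1
  refine le_trans ?_ h1
  have h3 : gr u X 0 (a + s • e) = grad w (a + s • e) := S.gr_zero V hs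
  have h4 : ‖grad (curl (u 0)) (X 0 (a + s • e))‖ = ‖grad w (a + s • e)‖ := by
    rw [← h3]; rfl
  rw [h4]

/-- The measure of the set of parameters with a small vorticity gradient at time `t`. -/
theorem measure_bound (S : Seg D w a e)
    (hR1 : 1 ≤ R) (hα : 0 < α) {m : ℕ} (hm : 1 ≤ m * α) {A Ct Cp : ℝ} (hA : 1 ≤ A)
    (hCt : 0 ≤ Ct) (hCp : 0 ≤ Cp)
    (htail : ∀ Y : ℝ, 1 ≤ Y →
      ∫⁻ s in {s | s ∈ Icc (0 : ℝ) 1 ∧ ¬ ClosedContour D w (a + s • e) Y},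
        ENNReal.ofReal |fp w a e s| ≤ ENNReal.ofReal (Ct * Real.exp (-(Y / A))))
    {P : ℕ → ℝ} (hP : ∀ j, 1 ≤ P j)
    (hpre : ∀ (j : ℕ) (E : Set ℝ), MeasurableSet E →
      ∫⁻ s in Icc 0 1 ∩ (fun s : ℝ => w (a + s • e)) ⁻¹' E, ENNReal.ofReal |fp w a e s|
        ≤ ENNReal.ofReal (Cp * P j) * volume E
          + ENNReal.ofReal (Cp * Real.exp (-(2 * (j : ℝ))))) :
    ∃ C : ℝ, 0 ≤ C ∧ ∀ (u : ℝ → ℂ → ℂ) (p : ℝ → ℂ → ℝ) (X : ℝ → ℂ → ℂ) (K M : ℝ → ℝ),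
      Evol D w a e R α u p X K M → ∀ t, 0 ≤ t →
      ∀ j : ℕ, ∫⁻ s in {s | s ∈ Icc (0 : ℝ) 1 ∧ ‖gr u X t (a + s • e)‖ ≤ Real.exp (-(j : ℝ))},
        ENNReal.ofReal |fp w a e s|
        ≤ ENNReal.ofReal (C * M t ^ (4 * m + 3)
          * (P j * (j + 1) ^ (4 * m + 4) * Real.exp (-(2 * (j : ℝ))))) := by
  obtain ⟨Cν, hCν0, hCν⟩ := S.exists_fp_bound
  set C' : ℝ := Cp * (501760 * R ^ 2 * 32 ^ (2 * m) * (2 * A) ^ (4 * m + 4)) with hC'
  have hC'0 : 0 ≤ C' := by positivity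
  set C'' : ℝ := Cν * (8 * 32 ^ m * (2 * A) ^ (2 * m + 2)) ^ 2 with hC''
  have hC''0 : 0 ≤ C'' := by positivity
  refine ⟨Ct + C' + Cp + C'', by positivity, ?_⟩
  intro u p X K Mf V t ht j
  set M : ℝ := Mf t with hMdef
  have hM : 1 ≤ M := V.hM1 t
  have hM0 : 0 < M := by linarith
  have hj0 : (0 : ℝ) ≤ j := Nat.cast_nonneg j
  have hj1 : (1 : ℝ) ≤ (j : ℝ) + 1 := by linarith
  generalize hx : (j : ℝ) + 1 = x at hj1 ⊢
  set ex : ℝ := Real.exp (-(2 * (j : ℝ))) with hex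
  have hex0 : 0 < ex := Real.exp_pos _
  have hPj := hP j
  have hPj0 : 0 < P j := by linarith
  set W : ℝ := M ^ (4 * m + 3) * (P j * x ^ (4 * m + 4) * ex) with hW
  have hW0 : 0 < W := by positivity
  set Z : Set ℝ := {s | s ∈ Icc (0 : ℝ) 1 ∧ ‖gr u X t (a + s • e)‖ ≤ Real.exp (-(j : ℝ))} with hZ
  have hexW : ex ≤ W := by
    have h1 : (1 : ℝ) ≤ M ^ (4 * m + 3) := one_le_pow₀ hM
    have h2 : (1 : ℝ) ≤ x ^ (4 * m + 4) := one_le_pow₀ hj1
    calc ex = 1 * (1 * 1 * ex) := by ring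
      _ ≤ M ^ (4 * m + 3) * (P j * x ^ (4 * m + 4) * ex) := by gcongr
  rw [mul_assoc, ← hW]
  obtain ⟨Y, hY⟩ : ∃ Y : ℝ, Y = 2 * A * x := ⟨_, rfl⟩
  have hY1 : 1 ≤ Y := by rw [hY]; nlinarith
  have hY0 : 0 < Y := by linarith
  set δ : ℝ := Real.exp (-(j : ℝ)) with hδ
  have hδ0 : 0 < δ := Real.exp_pos _
  have hδ2 : δ ^ 2 = ex := by
    rw [hδ, ← Real.exp_nat_mul]; congr 1; push_cast; ring
  by_cases hcase : 8 * 32 ^ m * M ^ (2 * m + 1) * Y ^ (2 * m + 2) * δ < 1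
  · -- the geometric case
    have hfac : 8 * M * Y ^ 2 * (32 * M ^ 2 * Y ^ 2) ^ m
        = 8 * 32 ^ m * M ^ (2 * m + 1) * Y ^ (2 * m + 2) := by
      ring
    have hδr : 8 * M * Y ^ 2 * δ < ((32 * M ^ 2 * Y ^ 2) ^ m)⁻¹ := by
      rw [← one_div, lt_div_iff₀ (by positivity)]
      refine lt_of_le_of_lt (le_of_eq ?_) hcase
      rw [← hfac]; ring
    obtain ⟨E, hE1, hE3, hincl⟩ := S.measure_core V hR1 hα hm ht hY1 hδ0.le hδr
    have hb1' : ENNReal.ofReal (Ct * Real.exp (-(Y / A))) ≤ ENNReal.ofReal (Ct * W) := by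
      refine ENNReal.ofReal_le_ofReal ?_
      have h1 : Real.exp (-(Y / A)) ≤ ex := by
        rw [hex]
        apply Real.exp_le_exp.mpr
        have : Y / A = 2 * x := by rw [hY]; field_simp
        rw [this]; linarith
      have h2 := h1.trans hexW
      gcongr
    have hb2' : ENNReal.ofReal (Cp * ex) ≤ ENNReal.ofReal (Cp * W) := by
      refine ENNReal.ofReal_le_ofReal ?_
      gcongr
    have hb3' : ENNReal.ofReal (Cp * P j) * volume E ≤ ENNReal.ofReal (C' * W) := by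
      refine (mul_le_mul_right hE3 _).trans ?_
      rw [← ENNReal.ofReal_mul (by positivity)]
      refine ENNReal.ofReal_le_ofReal (le_of_eq ?_)
      have hf2 : (32 * M ^ 2 * Y ^ 2) ^ (2 * m) = 32 ^ (2 * m) * M ^ (4 * m) * Y ^ (4 * m) := by
        ring
      rw [hC', hW, hδ2, hf2, hY]
      generalize 2 * A = B
      ring
    calc ∫⁻ s in Z, ENNReal.ofReal |fp w a e s|
        ≤ ∫⁻ s in {s | s ∈ Icc (0 : ℝ) 1 ∧ fp w a e s = 0}
          ∪ ({s | s ∈ Icc (0 : ℝ) 1 ∧ ¬ ClosedContour D w (a + s • e) Y}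
          ∪ (Icc 0 1 ∩ (fun s : ℝ => w (a + s • e)) ⁻¹' E)),
          ENNReal.ofReal |fp w a e s| := lintegral_mono_set hincl
      _ ≤ _ := lintegral_union_le _ _ _
      _ ≤ 0 + (ENNReal.ofReal (Ct * Real.exp (-(Y / A)))
          + (ENNReal.ofReal (Cp * P j) * volume E + ENNReal.ofReal (Cp * ex))) := by
          refine add_le_add S.null_part.le ((lintegral_union_le _ _ _).trans ?_)
          exact add_le_add (htail Y hY1) (hpre j E hE1)
      _ ≤ 0 + (ENNReal.ofReal (Ct * W)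
          + (ENNReal.ofReal (C' * W) + ENNReal.ofReal (Cp * W))) :=
          add_le_add le_rfl (add_le_add hb1' (add_le_add hb3' hb2'))
      _ = ENNReal.ofReal ((Ct + C' + Cp) * W) := by
          rw [zero_add, ← ENNReal.ofReal_add (by positivity) (by positivity),
            ← ENNReal.ofReal_add (by positivity) (by positivity)]
          congr 1; ring
      _ ≤ _ := by
          refine ENNReal.ofReal_le_ofReal ?_
          refine mul_le_mul_of_nonneg_right ?_ hW0.le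
          linarith
  · -- the trivial case
    push Not at hcase
    have h1 : ∫⁻ s in Z, ENNReal.ofReal |fp w a e s| ≤ ENNReal.ofReal Cν :=
      (lintegral_mono_set (fun s hs => hs.1)).trans hCν
    refine h1.trans (ENNReal.ofReal_le_ofReal ?_)
    have h2 : 1 ≤ (8 * 32 ^ m * (2 * A) ^ (2 * m + 2)) ^ 2 * W := by
      calc (1 : ℝ) = 1 ^ 2 := by ring
        _ ≤ (8 * 32 ^ m * M ^ (2 * m + 1) * Y ^ (2 * m + 2) * δ) ^ 2 := by gcongr
        _ = (8 * 32 ^ m * (2 * A) ^ (2 * m + 2)) ^ 2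
            * (M ^ (4 * m + 2) * (x ^ (4 * m + 4) * ex)) := by
            rw [hY, ← hδ2]
            generalize 2 * A = B
            ring
        _ ≤ (8 * 32 ^ m * (2 * A) ^ (2 * m + 2)) ^ 2 * W := by
            rw [hW]
            have e1 : M ^ (4 * m + 2) ≤ M ^ (4 * m + 3) := pow_le_pow_right₀ hM (by omega)
            have e2 : x ^ (4 * m + 4) * ex ≤ P j * x ^ (4 * m + 4) * ex := by
              have : 0 ≤ x ^ (4 * m + 4) * ex := by positivity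
              nlinarith
            gcongr
    have h12 : 0 ≤ (Ct + C' + Cp) * W := by positivity
    calc Cν = Cν * 1 := by ring
      _ ≤ Cν * ((8 * 32 ^ m * (2 * A) ^ (2 * m + 2)) ^ 2 * W) := by gcongr
      _ ≤ (Ct + C' + Cp) * W + Cν * ((8 * 32 ^ m * (2 * A) ^ (2 * m + 2)) ^ 2 * W) := by linarith
      _ = _ := by rw [hC'']; ring

end Seg

end Run7.h772
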