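import Mathlib
import Pool.Agent.Run7.h772.Seg

open Set Metric Filter MeasureTheory
open scoped ContDiff Topology ComplexConjugate ENNReal

namespace Run7.h772

open IsEulerFlow

namespace Seg

variable {D : Set ℂ} {w : ℂ → ℝ} {a e : ℂ} {R α : ℝ}

theorem integral_bound (S : Seg D w a e)
    (hR1 : 1 ≤ R) (hα : 0 < α) {m : ℕ} (hm : 1 ≤ m * α) {A Ct Cp : ℝ} (hA : 1 ≤ A)
    (hCt : 0 ≤ Ct) (hCp : 0 ≤ Cp)
    (htail : ∀ Y : ℝ, 1 ≤ Y →
      ∫⁻ s in {s | s ∈ Icc (0 : ℝ) 1 ∧ ¬ ClosedContour D w (a + s • e) Y},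
        ENNReal.ofReal |fp w a e s| ≤ ENNReal.ofReal (Ct * Real.exp (-(Y / A))))
    {P : ℕ → ℝ} (hP : ∀ j, 1 ≤ P j) (hPm : Monotone P)
    (hpre : ∀ (j : ℕ) (E : Set ℝ), MeasurableSet E →
      ∫⁻ s in Icc 0 1 ∩ (fun s : ℝ => w (a + s • e)) ⁻¹' E, ENNReal.ofReal |fp w a e s|
        ≤ ENNReal.ofReal (Cp * P j) * volume E
          + ENNReal.ofReal (Cp * Real.exp (-(2 * (j : ℝ))))) :
    ∃ C : ℝ, 0 ≤ C ∧ ∀ (u : ℝ → ℂ → ℂ) (p : ℝ → ℂ → ℝ) (X : ℝ → ℂ → ℂ) (K M : ℝ → ℝ),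
      Evol D w a e R α u p X K M → ∀ (T : ℝ) (k J : ℕ), (k : ℝ) ≤ T → 2 * (K T * T) ≤ J →
      ∫⁻ s in {s | s ∈ Icc (0 : ℝ) 1 ∧ Real.exp (-(K T * T)) ≤ ‖grad w (a + s • e)‖},
        ENNReal.ofReal (|fp w a e s| * (‖gr u X k (a + s • e)‖ ^ 2)⁻¹)
        ≤ ENNReal.ofReal (C * M T ^ (4 * m + 3) * (P J * ((J : ℝ) + 1) ^ (4 * m + 5))) := by
  obtain ⟨C2, hC20, hC2⟩ := S.measure_bound hR1 hα hm hA hCt hCp htail hP hpre
  obtain ⟨Cν, hCν0, hCν⟩ := S.exists_fp_bound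
  refine ⟨Cν + C2 * Real.exp 2, by positivity, ?_⟩
  intro u p X K Mf V T k J hkT hJ
  have hk0 : (0 : ℝ) ≤ k := Nat.cast_nonneg k
  have hT0 : 0 ≤ T := hk0.trans hkT
  have hK := V.hF.nonneg T
  set M : ℝ := Mf T with hM
  have hM1 : 1 ≤ M := V.hM1 T
  have hMk : Mf k ≤ M := V.hMm hkT
  have hMk1 : 1 ≤ Mf k := V.hM1 k
  have hMk0 : 0 ≤ Mf k := by linarith
  have hbd := hC2 u p X K Mf V k hk0
  have hJ0 : (0 : ℝ) ≤ J := Nat.cast_nonneg J
  have hg0c := S.continuousOn_g0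
  set G : Set ℝ := {s | s ∈ Icc (0 : ℝ) 1 ∧ Real.exp (-(K T * T)) ≤ ‖grad w (a + s • e)‖} with hG
  have hGm : MeasurableSet G := by
    have : G = Icc (0 : ℝ) 1 ∩ (fun s : ℝ => ‖grad w (a + s • e)‖) ⁻¹'
      (Ici (Real.exp (-(K T * T)))) := rfl
    rw [this]
    exact (hg0c.preimage_isClosed_of_isClosed isClosed_Icc isClosed_Ici).measurableSet
  have hgJ : ∀ s ∈ G, Real.exp (-(J : ℝ)) ≤ ‖gr u X k (a + s • e)‖ := by
    rintro s ⟨hs, hsg⟩
    refine le_trans ?_ (S.lower_at V hk0 hkT hs)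
    calc Real.exp (-(J : ℝ)) ≤ Real.exp (-(K T * T)) * Real.exp (-(K T * k)) := by
          rw [← Real.exp_add]
          apply Real.exp_le_exp.mpr
          have : K T * k ≤ K T * T := by gcongr
          linarith
      _ ≤ _ := by gcongr
  have hlay := lintegral_inv_pow_le (g := fun s => ‖gr u X k (a + s • e)‖) (f' := fp w a e)
    (S.continuousOn_gr V hk0).norm S.continuousOn_fp hGm (fun s hs => hs.1) (p := 2)
    (by norm_num) hgJ
  refine hlay.trans ?_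
  have hPJ : 1 ≤ P J := hP J
  have hPJ0 : 0 < P J := by linarith
  have hterm : ∀ j ∈ Finset.range (J + 1), ENNReal.ofReal (Real.exp ((2 : ℕ) * (j + 1)))
      * ∫⁻ s in {s | s ∈ Icc (0 : ℝ) 1 ∧ ‖gr u X k (a + s • e)‖ ≤ Real.exp (-(j : ℝ))},
          ENNReal.ofReal |fp w a e s|
      ≤ ENNReal.ofReal (C2 * M ^ (4 * m + 3) * Real.exp 2 * (P J * ((J : ℝ) + 1) ^ (4 * m + 4))) := by
    intro j hj
    have hjJ' : j ≤ J := Nat.lt_succ_iff.mp (Finset.mem_range.mp hj)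
    have hjJ : (j : ℝ) ≤ J := by exact_mod_cast hjJ'
    have hPj : P j ≤ P J := hPm hjJ'
    have hPj0 : 0 < P j := by linarith [hP j]
    refine (mul_le_mul_right (hbd j) _).trans ?_
    rw [← ENNReal.ofReal_mul (Real.exp_pos _).le]
    refine ENNReal.ofReal_le_ofReal ?_
    have e2 : Real.exp ((2 : ℕ) * ((j : ℝ) + 1)) * Real.exp (-(2 * (j : ℝ))) = Real.exp 2 := by
      rw [← Real.exp_add]; congr 1; push_cast; ring
    calc Real.exp ((2 : ℕ) * ((j : ℝ) + 1)) * (C2 * Mf k ^ (4 * m + 3)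
          * (P j * ((j : ℝ) + 1) ^ (4 * m + 4) * Real.exp (-(2 * (j : ℝ)))))
        = C2 * Mf k ^ (4 * m + 3) * (Real.exp ((2 : ℕ) * ((j : ℝ) + 1))
          * Real.exp (-(2 * (j : ℝ)))) * (P j * ((j : ℝ) + 1) ^ (4 * m + 4)) := by ring
      _ = C2 * Mf k ^ (4 * m + 3) * Real.exp 2 * (P j * ((j : ℝ) + 1) ^ (4 * m + 4)) := by rw [e2]
      _ ≤ C2 * M ^ (4 * m + 3) * Real.exp 2 * (P J * ((J : ℝ) + 1) ^ (4 * m + 4)) := by
          gcongr
  refine (add_le_add hCν (Finset.sum_le_sum hterm)).trans ?_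
  rw [Finset.sum_const, Finset.card_range, nsmul_eq_mul, ← ENNReal.ofReal_natCast,
    ← ENNReal.ofReal_mul (by positivity), ← ENNReal.ofReal_add hCν0 (by positivity)]
  refine ENNReal.ofReal_le_ofReal ?_
  have hMp : 1 ≤ M ^ (4 * m + 3) := one_le_pow₀ hM1
  have hQ : 1 ≤ P J * ((J : ℝ) + 1) ^ (4 * m + 5) :=
    one_le_mul_of_one_le_of_one_le hPJ (one_le_pow₀ (by linarith))
  have h5 : Cν ≤ Cν * M ^ (4 * m + 3) * (P J * ((J : ℝ) + 1) ^ (4 * m + 5)) := by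
    have h6 := one_le_mul_of_one_le_of_one_le hMp hQ
    calc Cν = Cν * 1 := by ring
      _ ≤ Cν * (M ^ (4 * m + 3) * (P J * ((J : ℝ) + 1) ^ (4 * m + 5))) := by gcongr
      _ = _ := by ring
  calc Cν + ((J + 1 : ℕ) : ℝ)
      * (C2 * M ^ (4 * m + 3) * Real.exp 2 * (P J * ((J : ℝ) + 1) ^ (4 * m + 4)))
      = Cν + C2 * Real.exp 2 * M ^ (4 * m + 3) * (P J * ((J : ℝ) + 1) ^ (4 * m + 5)) := by
        push_cast
        rw [show 4 * m + 5 = (4 * m + 4) + 1 by ring, pow_succ ((J : ℝ) + 1) (4 * m + 4)]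
        ring
    _ ≤ Cν * M ^ (4 * m + 3) * (P J * ((J : ℝ) + 1) ^ (4 * m + 5))
        + C2 * Real.exp 2 * M ^ (4 * m + 3) * (P J * ((J : ℝ) + 1) ^ (4 * m + 5)) := by linarith
    _ = _ := by ring

/-- From bounds of the integrated inverse squares to a bound of the length. -/
theorem length_of_integral (S : Seg D w a e) {Cs : ℝ} (hCs : 0 ≤ Cs)
    (hsmall : ∀ ρ : ℝ, 0 < ρ → volume {s : ℝ | s ∈ Icc (0 : ℝ) 1 ∧ ‖grad w (a + s • e)‖ ≤ ρ}
      ≤ ENNReal.ofReal (Cs * ρ))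
    {u X : ℝ → ℂ → ℂ} {p : ℝ → ℂ → ℝ} {K M : ℝ → ℝ} (V : Evol D w a e R α u p X K M)
    {t : ℝ} (ht : 0 ≤ t) {J : ℕ} (hJ : 2 * (K t * t) ≤ J) {B0 : ℝ} (hB0 : 0 ≤ B0)
    (hint : ∀ k : ℕ, (k : ℝ) ≤ t →
      ∫⁻ s in {s | s ∈ Icc (0 : ℝ) 1 ∧ Real.exp (-(K t * t)) ≤ ‖grad w (a + s • e)‖},
        ENNReal.ofReal (|fp w a e s| * (‖gr u X k (a + s • e)‖ ^ 2)⁻¹) ≤ ENNReal.ofReal B0) :
    eVariationOn (fun s : ℝ => X t (a + s • e)) (Icc 0 1)
      ≤ ENNReal.ofReal (Cs + M t * (1 + (J + 1) * (Real.exp 1 * Cs)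
        + Real.exp (3 * K t) * (1 + t) * B0)) := by
  have hK := V.hF.nonneg t
  set c : ℝ := 2 * K t * Real.exp (2 * K t) with hc
  have hc0 : 0 ≤ c := by positivity
  have hcle : c ≤ Real.exp (3 * K t) := by
    have h1 : 2 * K t ≤ Real.exp (K t) := by
      have := Real.quadratic_le_exp_of_nonneg hK
      nlinarith [sq_nonneg (K t - 1)]
    calc c = 2 * K t * Real.exp (2 * K t) := hc
      _ ≤ Real.exp (K t) * Real.exp (2 * K t) := by gcongr
      _ = Real.exp (3 * K t) := by rw [← Real.exp_add]; congr 1; ring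
  set Mt : ℝ := M t with hM
  have hM1 : 1 ≤ Mt := V.hM1 t
  have hM0 : 0 ≤ Mt := by linarith
  have hJ0 : (0 : ℝ) ≤ J := Nat.cast_nonneg J
  obtain ⟨h, _, hext, hB1, _, _⟩ := V.hreg t ht
  have hgM : ∀ s ∈ Icc (0 : ℝ) 1, ‖gr u X t (a + s • e)‖ ≤ Mt := by
    intro s hs
    have hx := S.hseg s hs
    have h1 : gr u X t (a + s • e) = grad h (X t (a + s • e)) :=
      (grad_congr S.hD hext (V.hX.mem _ hx t ht)).symm
    rw [h1, norm_grad_eq]
    exact hB1 _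
  -- the speed
  have hder : ∀ s ∈ Icc (0 : ℝ) 1, HasDerivWithinAt (fun s : ℝ => X t (a + s • e))
      (fderiv ℝ (X t) (a + s • e) e) (Icc 0 1) s := by
    intro s hs
    have h2 : HasDerivAt (fun s : ℝ => a + s • e) e s := by
      simpa using ((hasDerivAt_id s).smul_const e).const_add a
    exact (HasFDerivAt.comp_hasDerivAt (f := fun s : ℝ => a + s • e) s
      (V.hF.hasFDerivAt (S.hseg s hs) ht) h2).hasDerivWithinAt
  set sp : ℝ → ℝ := fun s => ‖fderiv ℝ (X t) (a + s • e) e‖ with hsp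
  have hspc : ContinuousOn sp (Icc 0 1) := by
    have h1 : ContinuousOn (fun s : ℝ => fderiv ℝ (X t) (a + s • e)) (Icc 0 1) :=
      (V.hF.continuousOn_fderiv_flow ht).comp (f := fun s : ℝ => a + s • e) (by fun_prop)
        (fun s hs => S.hseg s hs)
    exact (h1.clm_apply continuousOn_const).norm
  refine (variation_le hder hspc (fun s _ => le_rfl)).trans ?_
  -- the two regions
  have hg0c := S.continuousOn_g0
  set β : ℝ := Real.exp (-(K t * t)) with hβ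
  have hβ0 : 0 < β := Real.exp_pos _
  set G : Set ℝ := {s | s ∈ Icc (0 : ℝ) 1 ∧ β ≤ ‖grad w (a + s • e)‖} with hG
  set Gc : Set ℝ := {s | s ∈ Icc (0 : ℝ) 1 ∧ ‖grad w (a + s • e)‖ ≤ β} with hGc
  have hGm : MeasurableSet G := by
    have : G = Icc (0 : ℝ) 1 ∩ (fun s : ℝ => ‖grad w (a + s • e)‖) ⁻¹' (Ici β) := rfl
    rw [this]
    exact (hg0c.preimage_isClosed_of_isClosed isClosed_Icc isClosed_Ici).measurableSet
  have hGcm : MeasurableSet Gc := by
    have : Gc = Icc (0 : ℝ) 1 ∩ (fun s : ℝ => ‖grad w (a + s • e)‖) ⁻¹' (Iic β) := rfl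
    rw [this]
    exact (hg0c.preimage_isClosed_of_isClosed isClosed_Icc isClosed_Iic).measurableSet
  have hsplit : Icc (0 : ℝ) 1 ⊆ Gc ∪ G := by
    intro s hs
    rcases le_total ‖grad w (a + s • e)‖ β with h1 | h1
    · left; exact ⟨hs, h1⟩
    · right; exact ⟨hs, h1⟩
  refine (lintegral_mono_set hsplit).trans ((lintegral_union_le _ _ _).trans ?_)
  -- the region of small initial gradient
  have hpartc : ∫⁻ s in Gc, ENNReal.ofReal (sp s) ≤ ENNReal.ofReal Cs := by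
    have h1 : ∀ s ∈ Gc, ENNReal.ofReal (sp s) ≤ ENNReal.ofReal (Real.exp (K t * t)) := by
      intro s hs
      refine ENNReal.ofReal_le_ofReal ?_
      refine (ContinuousLinearMap.le_opNorm _ _).trans ?_
      rw [S.he, mul_one]
      exact V.hF.norm_fderiv_le (S.hseg s hs.1) ht
    refine (setLIntegral_mono' hGcm h1).trans ?_
    rw [setLIntegral_const]
    refine (mul_le_mul_right (hsmall β hβ0) _).trans ?_
    rw [← ENNReal.ofReal_mul (Real.exp_pos _).le]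
    refine ENNReal.ofReal_le_ofReal (le_of_eq ?_)
    have : Real.exp (K t * t) * β = 1 := by rw [hβ, ← Real.exp_add]; simp
    calc Real.exp (K t * t) * (Cs * β) = Cs * (Real.exp (K t * t) * β) := by ring
      _ = Cs := by rw [this, mul_one]
  -- the rest
  have hGI : G ⊆ Icc (0 : ℝ) 1 := fun s hs => hs.1
  have hpartG : ∫⁻ s in G, ENNReal.ofReal (sp s) ≤ ENNReal.ofReal (Mt * (1 + (J + 1)
      * (Real.exp 1 * Cs))) + ENNReal.ofReal (Mt * (Real.exp (3 * K t) * (1 + t) * B0)) := by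
    have hspeed : ∀ s ∈ G, sp s ≤ Mt * (|(1 : ℝ)| * (‖grad w (a + s • e)‖ ^ 1)⁻¹)
        + ∑ k ∈ Finset.range (⌊t⌋₊ + 1),
          (Mt * c) * (|fp w a e s| * (‖gr u X k (a + s • e)‖ ^ 2)⁻¹) := by
      intro s hsG
      have hs := hGI hsG
      have hne : gr u X 0 (a + s • e) ≠ 0 := by
        rw [S.gr_zero V hs]
        intro h0
        have := hsG.2
        rw [h0, norm_zero] at this
        linarith
      refine (V.hE.stretch_bound S.hD V.hX V.hF (S.hseg s hs) hne e ht).trans ?_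
      rw [S.he, S.gr_zero V hs, fderiv_congr S.hD V.h0 (S.hseg s hs)]
      have h2 : 2 * K t * |fderiv ℝ w (a + s • e) e| * Real.exp (2 * K t)
          * ∑ k ∈ Finset.range (⌊t⌋₊ + 1), (‖gr u X k (a + s • e)‖ ^ 2)⁻¹
          = ∑ k ∈ Finset.range (⌊t⌋₊ + 1), c * (|fp w a e s| * (‖gr u X k (a + s • e)‖ ^ 2)⁻¹) := by
        rw [Finset.mul_sum]
        refine Finset.sum_congr rfl (fun k _ => ?_)
        rw [hc]
        simp only [fp]
        ring
      rw [h2]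
      have h3 : 0 ≤ ∑ k ∈ Finset.range (⌊t⌋₊ + 1),
          c * (|fp w a e s| * (‖gr u X k (a + s • e)‖ ^ 2)⁻¹) :=
        Finset.sum_nonneg (fun k _ => by positivity)
      have h4 := hgM s hs
      calc ‖gr u X t (a + s • e)‖ * (1 / ‖grad w (a + s • e)‖ + ∑ k ∈ Finset.range (⌊t⌋₊ + 1),
            c * (|fp w a e s| * (‖gr u X k (a + s • e)‖ ^ 2)⁻¹))
          ≤ Mt * (1 / ‖grad w (a + s • e)‖ + ∑ k ∈ Finset.range (⌊t⌋₊ + 1),
            c * (|fp w a e s| * (‖gr u X k (a + s • e)‖ ^ 2)⁻¹)) := by gcongr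
        _ = _ := by
            rw [mul_add, Finset.mul_sum, pow_one, abs_one, one_mul, one_div]
            congr 1
            refine Finset.sum_congr rfl (fun k _ => ?_)
            ring
    have hofB : ∀ s ∈ G, ENNReal.ofReal (sp s)
        ≤ ENNReal.ofReal Mt * ENNReal.ofReal (|(1 : ℝ)| * (‖grad w (a + s • e)‖ ^ 1)⁻¹)
        + ∑ k ∈ Finset.range (⌊t⌋₊ + 1), ENNReal.ofReal (Mt * c)
          * ENNReal.ofReal (|fp w a e s| * (‖gr u X k (a + s • e)‖ ^ 2)⁻¹) := by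
      intro s hs
      refine (ENNReal.ofReal_le_ofReal (hspeed s hs)).trans ?_
      rw [ENNReal.ofReal_add (by positivity) (Finset.sum_nonneg (fun k _ => by positivity)),
        ENNReal.ofReal_sum_of_nonneg (fun k _ => by positivity), ENNReal.ofReal_mul hM0]
      refine add_le_add le_rfl (Finset.sum_le_sum (fun k _ => ?_))
      rw [ENNReal.ofReal_mul (by positivity)]
    refine (setLIntegral_mono' hGm hofB).trans ?_
    have haem0 : AEMeasurable (fun s : ℝ => ENNReal.ofReal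
        (|(1 : ℝ)| * (‖grad w (a + s • e)‖ ^ 1)⁻¹)) (volume.restrict G) := by
      have h1 : AEMeasurable (fun s : ℝ => ‖grad w (a + s • e)‖) (volume.restrict G) :=
        (hg0c.aemeasurable measurableSet_Icc).mono_measure (Measure.restrict_mono hGI le_rfl)
      exact (((h1.pow_const 1).inv).const_mul _).ennreal_ofReal
    have haemk : ∀ k : ℕ, AEMeasurable (fun s : ℝ => ENNReal.ofReal
        (|fp w a e s| * (‖gr u X k (a + s • e)‖ ^ 2)⁻¹)) (volume.restrict G) := by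
      intro k
      have h1 : AEMeasurable (fun s : ℝ => ‖gr u X k (a + s • e)‖) (volume.restrict G) :=
        ((S.continuousOn_gr V (Nat.cast_nonneg k)).norm.aemeasurable
          measurableSet_Icc).mono_measure (Measure.restrict_mono hGI le_rfl)
      have h2 : AEMeasurable (fun s : ℝ => |fp w a e s|) (volume.restrict G) :=
        (S.continuousOn_fp.abs.aemeasurable measurableSet_Icc).mono_measure
          (Measure.restrict_mono hGI le_rfl)
      exact (h2.mul ((h1.pow_const 2).inv)).ennreal_ofReal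
    rw [lintegral_add_left' (haem0.const_mul _), lintegral_const_mul'' _ haem0,
      lintegral_finsetSum' _ (fun k _ => (haemk k).const_mul _)]
    -- first part
    have hfirst : ∫⁻ s in G, ENNReal.ofReal (|(1 : ℝ)| * (‖grad w (a + s • e)‖ ^ 1)⁻¹)
        ≤ ENNReal.ofReal (1 + (J + 1) * (Real.exp 1 * Cs)) := by
      have hgJ : ∀ s ∈ G, Real.exp (-(J : ℝ)) ≤ ‖grad w (a + s • e)‖ := by
        intro s hs
        refine le_trans ?_ hs.2
        rw [hβ]
        apply Real.exp_le_exp.mpr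
        have : 0 ≤ K t * t := by positivity
        linarith
      refine (lintegral_inv_pow_le (g := fun s => ‖grad w (a + s • e)‖) (f' := fun _ => 1)
        hg0c continuousOn_const hGm hGI (p := 1) le_rfl hgJ).trans ?_
      have h1 : ∀ j ∈ Finset.range (J + 1), ENNReal.ofReal (Real.exp ((1 : ℕ) * (j + 1)))
          * ∫⁻ s in {s | s ∈ Icc (0 : ℝ) 1 ∧ ‖grad w (a + s • e)‖ ≤ Real.exp (-(j : ℝ))},
              ENNReal.ofReal |(1 : ℝ)| ≤ ENNReal.ofReal (Real.exp 1 * Cs) := by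
        intro j _
        rw [abs_one, ENNReal.ofReal_one, setLIntegral_one]
        refine (mul_le_mul_right (hsmall _ (Real.exp_pos _)) _).trans ?_
        rw [← ENNReal.ofReal_mul (Real.exp_pos _).le]
        refine ENNReal.ofReal_le_ofReal (le_of_eq ?_)
        have : Real.exp ((1 : ℕ) * ((j : ℝ) + 1)) * Real.exp (-(j : ℝ)) = Real.exp 1 := by
          rw [← Real.exp_add]; congr 1; push_cast; ring
        calc Real.exp ((1 : ℕ) * ((j : ℝ) + 1)) * (Cs * Real.exp (-(j : ℝ)))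
            = (Real.exp ((1 : ℕ) * ((j : ℝ) + 1)) * Real.exp (-(j : ℝ))) * Cs := by ring
          _ = _ := by rw [this]
      refine (add_le_add le_rfl (Finset.sum_le_sum h1)).trans ?_
      rw [abs_one, ENNReal.ofReal_one, setLIntegral_one, Real.volume_Icc, sub_zero,
        ENNReal.ofReal_one, Finset.sum_const, Finset.card_range, nsmul_eq_mul,
        ← ENNReal.ofReal_natCast, ← ENNReal.ofReal_mul (by positivity), ← ENNReal.ofReal_one,
        ← ENNReal.ofReal_add (by norm_num) (by positivity)]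
      refine ENNReal.ofReal_le_ofReal (le_of_eq ?_)
      push_cast
      ring
    have hsecond : ∀ k ∈ Finset.range (⌊t⌋₊ + 1),
        ∫⁻ s in G, ENNReal.ofReal (Mt * c)
          * ENNReal.ofReal (|fp w a e s| * (‖gr u X k (a + s • e)‖ ^ 2)⁻¹)
        ≤ ENNReal.ofReal (Mt * c * B0) := by
      intro k hk
      have hkt : (k : ℝ) ≤ t := by
        have h1 : k ≤ ⌊t⌋₊ := Nat.lt_succ_iff.mp (Finset.mem_range.mp hk)
        exact le_trans (by exact_mod_cast h1) (Nat.floor_le ht)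
      rw [lintegral_const_mul'' _ (haemk k), ENNReal.ofReal_mul (p := Mt * c) (by positivity)]
      exact mul_le_mul_right (hint k hkt) _
    refine add_le_add ?_ ((Finset.sum_le_sum hsecond).trans ?_)
    · rw [ENNReal.ofReal_mul hM0]
      exact mul_le_mul_right hfirst _
    · rw [Finset.sum_const, Finset.card_range, nsmul_eq_mul, ← ENNReal.ofReal_natCast,
        ← ENNReal.ofReal_mul (by positivity)]
      refine ENNReal.ofReal_le_ofReal ?_
      have hfl : ((⌊t⌋₊ + 1 : ℕ) : ℝ) ≤ 1 + t := by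
        push_cast
        have h1 : (⌊t⌋₊ : ℝ) ≤ t := Nat.floor_le ht
        linarith
      calc ((⌊t⌋₊ + 1 : ℕ) : ℝ) * (Mt * c * B0) ≤ (1 + t) * (Mt * Real.exp (3 * K t) * B0) := by
            gcongr
        _ = _ := by ring
  refine (add_le_add hpartc hpartG).trans ?_
  rw [← ENNReal.ofReal_add (by positivity) (by positivity),
    ← ENNReal.ofReal_add (by positivity) (by positivity)]
  refine ENNReal.ofReal_le_ofReal (le_of_eq ?_)
  ring

/-- The a priori estimate in terms of the number `J` of dyadic levels. -/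
theorem length_bound (S : Seg D w a e)
    (hR1 : 1 ≤ R) (hα : 0 < α) {m : ℕ} (hm : 1 ≤ m * α) {A Ct Cp Cs : ℝ} (hA : 1 ≤ A)
    (hCt : 0 ≤ Ct) (hCp : 0 ≤ Cp) (hCs : 0 ≤ Cs)
    (hsmall : ∀ ρ : ℝ, 0 < ρ → volume {s : ℝ | s ∈ Icc (0 : ℝ) 1 ∧ ‖grad w (a + s • e)‖ ≤ ρ}
      ≤ ENNReal.ofReal (Cs * ρ))
    (htail : ∀ Y : ℝ, 1 ≤ Y →
      ∫⁻ s in {s | s ∈ Icc (0 : ℝ) 1 ∧ ¬ ClosedContour D w (a + s • e) Y},
        ENNReal.ofReal |fp w a e s| ≤ ENNReal.ofReal (Ct * Real.exp (-(Y / A))))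
    {P : ℕ → ℝ} (hP : ∀ j, 1 ≤ P j) (hPm : Monotone P)
    (hpre : ∀ (j : ℕ) (E : Set ℝ), MeasurableSet E →
      ∫⁻ s in Icc 0 1 ∩ (fun s : ℝ => w (a + s • e)) ⁻¹' E, ENNReal.ofReal |fp w a e s|
        ≤ ENNReal.ofReal (Cp * P j) * volume E
          + ENNReal.ofReal (Cp * Real.exp (-(2 * (j : ℝ))))) :
    ∃ C : ℝ, 0 ≤ C ∧ ∀ (u : ℝ → ℂ → ℂ) (p : ℝ → ℂ → ℝ) (X : ℝ → ℂ → ℂ) (K M : ℝ → ℝ),
      Evol D w a e R α u p X K M → ∀ (t : ℝ) (J : ℕ), 0 ≤ t → 2 * (K t * t) ≤ J →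
      eVariationOn (fun s : ℝ => X t (a + s • e)) (Icc 0 1)
        ≤ ENNReal.ofReal (C * (1 + t) * Real.exp (3 * K t) * M t ^ (4 * m + 4)
          * (P J * ((J : ℝ) + 1) ^ (4 * m + 5))) := by
  obtain ⟨CI, hCI0, hCI⟩ := S.integral_bound hR1 hα hm hA hCt hCp htail hP hPm hpre
  refine ⟨Cs + (1 + Real.exp 1 * Cs) + CI, by positivity, ?_⟩
  intro u p X K Mf V t J ht hJ
  have hK := V.hF.nonneg t
  have hPJ := hP J
  have hPJ0 : 0 < P J := by linarith
  have hJ0 : (0 : ℝ) ≤ J := Nat.cast_nonneg J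
  have hM1 : 1 ≤ Mf t := V.hM1 t
  have hM0 : 0 ≤ Mf t := by linarith
  generalize hQ : P J * ((J : ℝ) + 1) ^ (4 * m + 5) = Q at *
  have hQ1 : 1 ≤ Q := by
    rw [← hQ]
    exact one_le_mul_of_one_le_of_one_le hPJ (one_le_pow₀ (by linarith))
  have hQJ : (J : ℝ) + 1 ≤ Q := by
    rw [← hQ]
    have h1 : ((J : ℝ) + 1) ^ 1 ≤ ((J : ℝ) + 1) ^ (4 * m + 5) :=
      pow_le_pow_right₀ (by linarith) (by omega)
    rw [pow_one] at h1
    have h2 : 0 ≤ ((J : ℝ) + 1) ^ (4 * m + 5) := by positivity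
    nlinarith
  have hQ0 : 0 < Q := by linarith
  have hB : 0 ≤ CI * Mf t ^ (4 * m + 3) * Q := by positivity
  refine (S.length_of_integral hCs hsmall V ht hJ hB (fun k hk => ?_)).trans ?_
  · have := hCI u p X K Mf V t k J hk hJ
    rwa [hQ] at this
  refine ENNReal.ofReal_le_ofReal ?_
  have hE : 1 ≤ Real.exp (3 * K t) := Real.one_le_exp (by positivity)
  have hP1 : 1 ≤ Mf t ^ (4 * m + 4) := one_le_pow₀ hM1
  have hMp : Mf t ≤ Mf t ^ (4 * m + 4) := by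
    calc Mf t = Mf t ^ 1 := (pow_one _).symm
      _ ≤ Mf t ^ (4 * m + 4) := pow_le_pow_right₀ hM1 (by omega)
  set F : ℝ := (1 + t) * Real.exp (3 * K t) with hF
  have hF1 : 1 ≤ F := one_le_mul_of_one_le_of_one_le (by linarith) hE
  have hF0 : 0 < F := by linarith
  have h1 : Cs ≤ Cs * (F * Mf t ^ (4 * m + 4) * Q) := by
    have : 1 ≤ F * Mf t ^ (4 * m + 4) * Q :=
      one_le_mul_of_one_le_of_one_le (one_le_mul_of_one_le_of_one_le hF1 hP1) hQ1
    nlinarith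
  have h2 : Mf t * (1 + (J + 1) * (Real.exp 1 * Cs))
      ≤ (1 + Real.exp 1 * Cs) * (F * Mf t ^ (4 * m + 4) * Q) := by
    have e1 : 1 + (J + 1) * (Real.exp 1 * Cs) ≤ (1 + Real.exp 1 * Cs) * Q := by
      have e2 : 0 ≤ Real.exp 1 * Cs := by positivity
      nlinarith
    calc Mf t * (1 + (J + 1) * (Real.exp 1 * Cs))
        ≤ Mf t ^ (4 * m + 4) * ((1 + Real.exp 1 * Cs) * Q) := by gcongr
      _ = 1 * (Mf t ^ (4 * m + 4) * ((1 + Real.exp 1 * Cs) * Q)) := by ring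
      _ ≤ F * (Mf t ^ (4 * m + 4) * ((1 + Real.exp 1 * Cs) * Q)) := by gcongr
      _ = _ := by ring
  calc Cs + Mf t * (1 + (J + 1) * (Real.exp 1 * Cs)
        + Real.exp (3 * K t) * (1 + t) * (CI * Mf t ^ (4 * m + 3) * Q))
      = Cs + Mf t * (1 + (J + 1) * (Real.exp 1 * Cs))
        + CI * (F * (Mf t ^ (4 * m + 3) * Mf t) * Q) := by rw [hF]; ring
    _ ≤ Cs * (F * Mf t ^ (4 * m + 4) * Q) + (1 + Real.exp 1 * Cs) * (F * Mf t ^ (4 * m + 4) * Q)
        + CI * (F * Mf t ^ (4 * m + 4) * Q) := by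
        rw [← pow_succ]
        linarith
    _ = _ := by rw [hF]; ring

end Seg

end Run7.h772
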