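import Mathlib
import Pool.Agent.Run7.h772.Seg2
import Pool.Agent.Run7.h772.Morse4

open Set Metric Filter MeasureTheory
open scoped ContDiff Topology ComplexConjugate ENNReal

namespace Run7.h772

open IsEulerFlow

/-- A continuous function without zeros inside an interval has constant sign there. -/
theorem SignPW.one_of_no_zero {g : ℝ → ℝ} {a b : ℝ} (hab : a ≤ b) (hg : ContinuousOn g (Icc a b))
    (h0 : ∀ x ∈ Ioo a b, g x ≠ 0) : SignPW g a b 1 := by
  rcases eq_or_lt_of_le hab with h | h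
  · subst h
    rcases le_total 0 (g a) with h1 | h1
    · exact SignPW.pos le_rfl (fun x hx => by
        have : x = a := le_antisymm hx.2 hx.1
        rwa [this])
    · exact SignPW.neg le_rfl (fun x hx => by
        have : x = a := le_antisymm hx.2 hx.1
        rwa [this])
  set c : ℝ := (a + b) / 2 with hc
  have hca : a < c := by rw [hc]; linarith
  have hcb : c < b := by rw [hc]; linarith
  rcases lt_or_gt_of_ne (h0 c ⟨hca, hcb⟩) with h1 | h1
  · refine SignPW.neg hab (fun x hx => ?_)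
    by_contra hcon
    push Not at hcon
    rcases lt_trichotomy x c with h2 | h2 | h2
    · obtain ⟨y, hy, hy0⟩ := intermediate_value_Icc' h2.le
        (hg.mono (Icc_subset_Icc hx.1 hcb.le)) ⟨h1.le, hcon.le⟩
      have hyx : y ≠ x := fun h => by rw [h] at hy0; linarith
      have hyc : y ≠ c := fun h => by rw [h] at hy0; linarith
      exact h0 y ⟨lt_of_le_of_lt hx.1 (lt_of_le_of_ne hy.1 hyx.symm), lt_of_le_of_lt hy.2 hcb⟩ hy0
    · rw [h2] at hcon; linarith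
    · obtain ⟨y, hy, hy0⟩ := intermediate_value_Icc h2.le
        (hg.mono (Icc_subset_Icc hca.le hx.2)) ⟨h1.le, hcon.le⟩
      have hyx : y ≠ x := fun h => by rw [h] at hy0; linarith
      exact h0 y ⟨lt_of_lt_of_le hca hy.1, lt_of_lt_of_le (lt_of_le_of_ne hy.2 hyx) hx.2⟩ hy0
  · refine SignPW.pos hab (fun x hx => ?_)
    by_contra hcon
    push Not at hcon
    rcases lt_trichotomy x c with h2 | h2 | h2
    · obtain ⟨y, hy, hy0⟩ := intermediate_value_Icc h2.le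
        (hg.mono (Icc_subset_Icc hx.1 hcb.le)) ⟨hcon.le, h1.le⟩
      have hyx : y ≠ x := fun h => by rw [h] at hy0; linarith
      exact h0 y ⟨lt_of_le_of_lt hx.1 (lt_of_le_of_ne hy.1 hyx.symm), lt_of_le_of_lt hy.2 hcb⟩ hy0
    · rw [h2] at hcon; linarith
    · obtain ⟨y, hy, hy0⟩ := intermediate_value_Icc' h2.le
        (hg.mono (Icc_subset_Icc hca.le hx.2)) ⟨hcon.le, h1.le⟩
      have hyx : y ≠ x := fun h => by rw [h] at hy0; linarith
      exact h0 y ⟨lt_of_lt_of_le hca hy.1, lt_of_lt_of_le (lt_of_le_of_ne hy.2 hyx) hx.2⟩ hy0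

theorem exists_signPW {g : ℝ → ℝ} (n : ℕ) : ∀ {a b : ℝ}, a ≤ b → ContinuousOn g (Icc a b) →
    {x | x ∈ Ioo a b ∧ g x = 0}.Finite → {x | x ∈ Ioo a b ∧ g x = 0}.ncard ≤ n →
    ∃ k, SignPW g a b k := by
  induction n with
  | zero =>
    intro a b hab hg hfin hcard
    have hemp : {x | x ∈ Ioo a b ∧ g x = 0} = ∅ := (Set.ncard_eq_zero hfin).mp (by omega)
    refine ⟨1, SignPW.one_of_no_zero hab hg (fun x hx h0 => ?_)⟩
    have : x ∈ {x | x ∈ Ioo a b ∧ g x = 0} := ⟨hx, h0⟩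
    rw [hemp] at this
    exact absurd this (notMem_empty _)
  | succ n ih =>
    intro a b hab hg hfin hcard
    by_cases hemp : {x | x ∈ Ioo a b ∧ g x = 0} = ∅
    · refine ⟨1, SignPW.one_of_no_zero hab hg (fun x hx h0 => ?_)⟩
      have : x ∈ {x | x ∈ Ioo a b ∧ g x = 0} := ⟨hx, h0⟩
      rw [hemp] at this
      exact absurd this (notMem_empty _)
    · obtain ⟨c, hc⟩ := nonempty_iff_ne_empty.mpr hemp
      have hlt := Set.ncard_sdiff_singleton_lt_of_mem hc hfin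
      have hsub1 : {x | x ∈ Ioo a c ∧ g x = 0} ⊆ {x | x ∈ Ioo a b ∧ g x = 0} \ {c} := by
        rintro x ⟨hx, hx0⟩
        exact ⟨⟨⟨hx.1, hx.2.trans hc.1.2⟩, hx0⟩, fun h => by
          rw [mem_singleton_iff] at h; exact absurd hx.2 (by rw [h]; exact lt_irrefl _)⟩
      have hsub2 : {x | x ∈ Ioo c b ∧ g x = 0} ⊆ {x | x ∈ Ioo a b ∧ g x = 0} \ {c} := by
        rintro x ⟨hx, hx0⟩
        exact ⟨⟨⟨hc.1.1.trans hx.1, hx.2⟩, hx0⟩, fun h => by
          rw [mem_singleton_iff] at h; exact absurd hx.1 (by rw [h]; exact lt_irrefl _)⟩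
      have hfin' := hfin.sdiff (t := {c})
      obtain ⟨k1, hk1⟩ := ih hc.1.1.le (hg.mono (Icc_subset_Icc_right hc.1.2.le))
        (hfin'.subset hsub1) (by have := Set.ncard_le_ncard hsub1 hfin'; omega)
      obtain ⟨k2, hk2⟩ := ih hc.1.2.le (hg.mono (Icc_subset_Icc_left hc.1.1.le))
        (hfin'.subset hsub2) (by have := Set.ncard_le_ncard hsub2 hfin'; omega)
      exact ⟨k1 + k2, SignPW.glue hk1 hk2⟩

/-- A power is dominated by an exponential. -/
theorem pow_le_exp (n : ℕ) {η : ℝ} (hη : 0 < η) {x : ℝ} (hx : 0 ≤ x) :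
    x ^ n ≤ (n.factorial : ℝ) / η ^ n * Real.exp (η * x) := by
  have h1 := Real.pow_div_factorial_le_exp (η * x) (by positivity) n
  have hf : (0 : ℝ) < n.factorial := by exact_mod_cast n.factorial_pos
  rw [div_le_iff₀ hf, mul_pow] at h1
  rw [div_mul_eq_mul_div, le_div_iff₀ (by positivity)]
  linarith

namespace Seg

variable {D : Set ℂ} {w : ℂ → ℝ} {a e : ℂ} {R α : ℝ}

theorem pre_exp (S : Seg D w a e) {η : ℝ} (hη : 0 < η) :
    ∃ Cp : ℝ, 0 ≤ Cp ∧ ∀ (j : ℕ) (E : Set ℝ), MeasurableSet E →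
      ∫⁻ s in Icc 0 1 ∩ (fun s : ℝ => w (a + s • e)) ⁻¹' E, ENNReal.ofReal |fp w a e s|
        ≤ ENNReal.ofReal (Cp * Real.exp (η * j)) * volume E
          + ENNReal.ofReal (Cp * Real.exp (-(2 * (j : ℝ)))) := by
  obtain ⟨q, hq⟩ : ∃ q : ℕ, 2 / η ≤ q := exists_nat_ge _
  have hqη : 2 ≤ q * η := by rwa [div_le_iff₀ hη] at hq
  obtain ⟨C, hC0, hC⟩ := S.preimage q
  refine ⟨2 * 2 ^ q + C, by positivity, fun j E hE => ?_⟩
  have hj0 : (0 : ℝ) ≤ j := Nat.cast_nonneg j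
  set Y : ℝ := Real.exp (η * j) with hY
  have hY1 : 1 ≤ Y := Real.one_le_exp (by positivity)
  have hY0 : 0 < Y := by linarith
  set N : ℕ := ⌈Y⌉₊ with hN
  have hNY : Y ≤ N := Nat.le_ceil _
  have hN1 : 1 ≤ N := by
    have : (1 : ℝ) ≤ N := hY1.trans hNY
    exact_mod_cast this
  have hN2 : (N : ℝ) ≤ 2 * Y := by
    have := Nat.ceil_lt_add_one hY0.le
    linarith
  refine (hC N hN1 E hE).trans (add_le_add ?_ ?_)
  · have e1 : (N : ℝ≥0∞) * 2 ^ q = ENNReal.ofReal (N * 2 ^ q) := by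
      rw [ENNReal.ofReal_mul (by positivity), ENNReal.ofReal_natCast,
        ENNReal.ofReal_pow (by norm_num)]
      norm_num
    rw [e1]
    refine mul_le_mul_left (ENNReal.ofReal_le_ofReal ?_) _
    calc (N : ℝ) * 2 ^ q ≤ (2 * Y) * 2 ^ q := by gcongr
      _ = (2 * 2 ^ q) * Y := by ring
      _ ≤ (2 * 2 ^ q + C) * Y := by gcongr; linarith
  · refine ENNReal.ofReal_le_ofReal ?_
    have hYn : Real.exp (2 * (j : ℝ)) ≤ Y ^ q := by
      rw [hY, ← Real.exp_nat_mul]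
      apply Real.exp_le_exp.mpr
      nlinarith
    calc C / (N : ℝ) ^ q ≤ C / Y ^ q := by gcongr
      _ = C * (Y ^ q)⁻¹ := by ring
      _ ≤ C * Real.exp (-(2 * (j : ℝ))) := by
          rw [Real.exp_neg]
          gcongr
      _ ≤ (2 * 2 ^ q + C) * Real.exp (-(2 * (j : ℝ))) := by
          gcongr
          have : (0 : ℝ) ≤ 2 * 2 ^ q := by positivity
          linarith

theorem pre_sign (S : Seg D w a e) {n : ℕ} (h : SignPW (fp w a e) 0 1 n) (j : ℕ) (E : Set ℝ)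
    (hE : MeasurableSet E) :
    ∫⁻ s in Icc 0 1 ∩ (fun s : ℝ => w (a + s • e)) ⁻¹' E, ENNReal.ofReal |fp w a e s|
      ≤ ENNReal.ofReal (n * 1) * volume E + ENNReal.ofReal (n * Real.exp (-(2 * (j : ℝ)))) := by
  refine (h.lintegral_le (f := fun s : ℝ => w (a + s • e))
    (fun s hs => (S.hasDerivAt_f hs).hasDerivWithinAt) hE).trans ?_
  rw [mul_one, ENNReal.ofReal_natCast]
  exact le_self_add

/-- The turnover times along a segment have an exponential tail in the Morse case. -/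
theorem tail (S : Seg D w a e) {K0 : Set ℂ} (hM : MorseData D w K0)
    (hK : ∀ s ∈ Icc (0 : ℝ) 1, a + s • e ∈ K0) :
    ∃ A Ct : ℝ, 1 ≤ A ∧ 0 ≤ Ct ∧ ∀ Y : ℝ, 1 ≤ Y →
      ∫⁻ s in {s | s ∈ Icc (0 : ℝ) 1 ∧ ¬ ClosedContour D w (a + s • e) Y},
        ENNReal.ofReal |fp w a e s| ≤ ENNReal.ofReal (Ct * Real.exp (-(Y / A))) := by
  obtain ⟨F, C1, hC1, hlog⟩ := hM.turnover_log
  obtain ⟨C, hC0, hC⟩ := S.preimage 1
  obtain ⟨Cν, hCν0, hCν⟩ := S.exists_fp_bound
  have hC10 : 0 < C1 := by linarith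
  refine ⟨2 * C1, (8 * F.card + C + Cν) * Real.exp (1 / 2), by linarith, by positivity,
    fun Y _ => ?_⟩
  by_cases hYC : C1 ≤ Y
  · set ε : ℝ := Real.exp (1 - Y / C1) with hε
    have hε0 : 0 < ε := Real.exp_pos _
    have hε1 : ε ≤ 1 := by
      rw [hε]
      apply Real.exp_le_one_iff.mpr
      have : 1 ≤ Y / C1 := by rw [le_div_iff₀ hC10]; linarith
      linarith
    have hYε : C1 * (1 + Real.log (1 / ε)) = Y := by
      rw [one_div, Real.log_inv, hε, Real.log_exp]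
      field_simp
      ring
    set E : Set ℝ := ⋃ c ∈ F, Ioo (c - ε) (c + ε) with hE
    have hEm : MeasurableSet E := F.measurableSet_biUnion (fun c _ => measurableSet_Ioo)
    have hincl : {s | s ∈ Icc (0 : ℝ) 1 ∧ ¬ ClosedContour D w (a + s • e) Y}
        ⊆ Icc 0 1 ∩ (fun s : ℝ => w (a + s • e)) ⁻¹' E := by
      rintro s ⟨hs, hsY⟩
      refine ⟨hs, ?_⟩
      by_contra hcon
      apply hsY
      rw [← hYε]
      refine hlog ε hε0 hε1 _ (hK s hs) (fun c hc => ?_)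
      by_contra hlt
      push Not at hlt
      rw [abs_lt] at hlt
      apply hcon
      rw [mem_preimage, hE, mem_iUnion₂]
      exact ⟨c, hc, by linarith [hlt.1], by linarith [hlt.2]⟩
    have hEv : volume E ≤ ENNReal.ofReal (F.card * (2 * ε)) := by
      refine (measure_biUnion_finset_le _ _).trans ?_
      have : ∀ c ∈ F, volume (Ioo (c - ε) (c + ε)) ≤ ENNReal.ofReal (2 * ε) := by
        intro c _
        rw [Real.volume_Ioo]
        exact ENNReal.ofReal_le_ofReal (le_of_eq (by ring))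
      refine (Finset.sum_le_sum this).trans ?_
      rw [Finset.sum_const, nsmul_eq_mul, ← ENNReal.ofReal_natCast,
        ← ENNReal.ofReal_mul (by positivity)]
    set σ : ℝ := Real.exp (1 / 2 - Y / (2 * C1)) with hσ
    have hσ0 : 0 < σ := Real.exp_pos _
    have hσ2 : ε = σ ^ 2 := by
      rw [hσ, ← Real.exp_nat_mul, hε]
      congr 1
      push_cast
      field_simp
    have hσ1 : σ ≤ 1 := by
      by_contra hcon
      push Not at hcon
      have : 1 < σ ^ 2 := one_lt_pow₀ hcon (by norm_num)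
      linarith
    set N : ℕ := ⌈σ⁻¹⌉₊ with hN
    have hσi : 1 ≤ σ⁻¹ := (one_le_inv₀ hσ0).mpr hσ1
    have hNY : σ⁻¹ ≤ N := Nat.le_ceil _
    have hN1 : 1 ≤ N := by
      have : (1 : ℝ) ≤ N := hσi.trans hNY
      exact_mod_cast this
    have hN0 : (0 : ℝ) < N := by exact_mod_cast hN1
    have hN2 : (N : ℝ) ≤ 2 * σ⁻¹ := by
      have := Nat.ceil_lt_add_one (by positivity : 0 ≤ σ⁻¹)
      linarith
    refine (lintegral_mono_set hincl).trans ((hC N hN1 E hEm).trans ?_)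
    have e1 : (N : ℝ≥0∞) * 2 ^ 1 = ENNReal.ofReal (N * 2) := by
      rw [ENNReal.ofReal_mul (by positivity), ENNReal.ofReal_natCast, pow_one]
      norm_num
    rw [e1]
    refine (add_le_add (mul_le_mul_right hEv _) le_rfl).trans ?_
    rw [← ENNReal.ofReal_mul (by positivity), ← ENNReal.ofReal_add (by positivity)
      (by positivity)]
    refine ENNReal.ofReal_le_ofReal ?_
    have h1 : (N : ℝ) * 2 * (F.card * (2 * ε)) ≤ 8 * F.card * σ := by
      calc (N : ℝ) * 2 * (F.card * (2 * ε)) ≤ (2 * σ⁻¹) * 2 * (F.card * (2 * ε)) := by gcongr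
        _ = 8 * F.card * σ := by rw [hσ2]; field_simp; ring
    have h2 : C / (N : ℝ) ^ 1 ≤ C * σ := by
      rw [pow_one, div_le_iff₀ hN0]
      have : 1 ≤ σ * N := by
        calc (1 : ℝ) = σ * σ⁻¹ := by field_simp
          _ ≤ σ * N := by gcongr
      nlinarith
    have h3 : Real.exp (1 / 2) * Real.exp (-(Y / (2 * C1))) = σ := by
      rw [← Real.exp_add, hσ]; congr 1
    have h4 : 0 ≤ Cν * σ := by positivity
    calc (N : ℝ) * 2 * (F.card * (2 * ε)) + C / (N : ℝ) ^ 1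
        ≤ 8 * F.card * σ + C * σ + Cν * σ := by linarith
      _ = (8 * F.card + C + Cν) * σ := by ring
      _ = (8 * F.card + C + Cν) * (Real.exp (1 / 2) * Real.exp (-(Y / (2 * C1)))) := by rw [h3]
      _ = _ := by ring
  · push Not at hYC
    refine ((lintegral_mono_set (fun s hs => hs.1)).trans hCν).trans ?_
    refine ENNReal.ofReal_le_ofReal ?_
    have h1 : 1 ≤ Real.exp (1 / 2) * Real.exp (-(Y / (2 * C1))) := by
      rw [← Real.exp_add]
      apply Real.one_le_exp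
      have : Y / (2 * C1) ≤ 1 / 2 := by
        rw [div_le_div_iff₀ (by positivity) (by norm_num)]
        linarith
      linarith
    calc Cν = Cν * 1 := by ring
      _ ≤ (8 * F.card + C + Cν) * (Real.exp (1 / 2) * Real.exp (-(Y / (2 * C1)))) := by
          gcongr
          have : 0 ≤ 8 * (F.card : ℝ) + C := by positivity
          linarith
      _ = _ := by ring

/-- The a priori estimate for an arbitrary segment, Morse case. -/
theorem morse_bound (S : Seg D w a e) {K0 : Set ℂ} (hM : MorseData D w K0)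
    (hK : ∀ s ∈ Icc (0 : ℝ) 1, a + s • e ∈ K0) (hR1 : 1 ≤ R) (hα : 0 < α) {m : ℕ}
    (hm : 1 ≤ m * α) {η : ℝ} (hη : 0 < η) :
    ∃ C : ℝ, 0 ≤ C ∧ ∀ (u : ℝ → ℂ → ℂ) (p : ℝ → ℂ → ℝ) (X : ℝ → ℂ → ℂ) (K M : ℝ → ℝ),
      Evol D w a e R α u p X K M → ∀ t, 0 ≤ t →
      eVariationOn (fun s : ℝ => X t (a + s • e)) (Icc 0 1)
        ≤ ENNReal.ofReal (C * (1 + t) * Real.exp ((3 + η * t) * K t) * M t ^ (4 * m + 4)) := by
  obtain ⟨A, Ct, hA, hCt, htail⟩ := S.tail hM hK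
  obtain ⟨Cs, hCs, hsmall⟩ := hM.small_grad
  set η1 : ℝ := η / 4 with hη1
  have hη10 : 0 < η1 := by positivity
  obtain ⟨Cp, hCp, hpre⟩ := S.pre_exp hη10
  obtain ⟨C, hC0, hC⟩ := S.length_bound hR1 hα hm hA hCt hCp hCs (hsmall a e S.he hK) htail
    (P := fun j => Real.exp (η1 * j))
    (fun j => Real.one_le_exp (by positivity))
    (fun i j hij => Real.exp_le_exp.mpr (by
      have : (i : ℝ) ≤ j := by exact_mod_cast hij
      gcongr)) hpre
  set B : ℝ := ((4 * m + 5).factorial : ℝ) / η1 ^ (4 * m + 5) with hB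
  have hB0 : 0 < B := by positivity
  refine ⟨C * (B * Real.exp (3 * η1)), by positivity, fun u p X K Mf V t ht => ?_⟩
  have hKt := V.hF.nonneg t
  have hM1 : 1 ≤ Mf t := V.hM1 t
  have hM0 : 0 ≤ Mf t := by linarith
  set J : ℕ := ⌈2 * (K t * t)⌉₊ with hJ
  have hJ1 : 2 * (K t * t) ≤ J := Nat.le_ceil _
  have hJ2 : (J : ℝ) ≤ 2 * (K t * t) + 1 := (Nat.ceil_lt_add_one (by positivity)).le
  have hJ0 : (0 : ℝ) ≤ J := Nat.cast_nonneg J
  refine (hC u p X K Mf V t J ht hJ1).trans (ENNReal.ofReal_le_ofReal ?_)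
  have h1 : Real.exp (η1 * J) * ((J : ℝ) + 1) ^ (4 * m + 5)
      ≤ B * Real.exp (3 * η1) * Real.exp (η * t * K t) := by
    have h2 := pow_le_exp (4 * m + 5) hη10 (x := (J : ℝ) + 1) (by positivity)
    calc Real.exp (η1 * J) * ((J : ℝ) + 1) ^ (4 * m + 5)
        ≤ Real.exp (η1 * J) * (B * Real.exp (η1 * (J + 1))) := by gcongr
      _ = B * Real.exp (2 * η1 * J + η1) := by
          rw [show 2 * η1 * (J : ℝ) + η1 = η1 * J + η1 * (J + 1) by ring, Real.exp_add (η1 * J)]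
          ring
      _ ≤ B * Real.exp (3 * η1 + η * t * K t) := by
          refine mul_le_mul_of_nonneg_left (Real.exp_le_exp.mpr ?_) hB0.le
          have h3 : 2 * η1 * (J : ℝ) ≤ 2 * η1 * (2 * (K t * t) + 1) := by gcongr
          have h4 : 2 * η1 * (2 * (K t * t) + 1) = η * t * K t + 2 * η1 := by rw [hη1]; ring
          linarith
      _ = _ := by rw [Real.exp_add]; ring
  calc C * (1 + t) * Real.exp (3 * K t) * Mf t ^ (4 * m + 4)
        * (Real.exp (η1 * J) * ((J : ℝ) + 1) ^ (4 * m + 5))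
      ≤ C * (1 + t) * Real.exp (3 * K t) * Mf t ^ (4 * m + 4)
        * (B * Real.exp (3 * η1) * Real.exp (η * t * K t)) := by gcongr
    _ = C * (B * Real.exp (3 * η1)) * (1 + t) * (Real.exp (3 * K t) * Real.exp (η * t * K t))
        * Mf t ^ (4 * m + 4) := by ring
    _ = _ := by rw [← Real.exp_add, show 3 * K t + η * t * K t = (3 + η * t) * K t by ring]

/-- The polynomial form of the a priori estimate. -/
theorem morse_bound_poly (S : Seg D w a e) {K0 : Set ℂ} (hM : MorseData D w K0)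
    (hK : ∀ s ∈ Icc (0 : ℝ) 1, a + s • e ∈ K0) (hR1 : 1 ≤ R) (hα : 0 < α) {m : ℕ}
    (hm : 1 ≤ m * α) (hz : {s : ℝ | s ∈ Icc (0 : ℝ) 1 ∧ fp w a e s = 0}.Finite) :
    ∃ C : ℝ, 0 ≤ C ∧ ∀ (u : ℝ → ℂ → ℂ) (p : ℝ → ℂ → ℝ) (X : ℝ → ℂ → ℂ) (K M : ℝ → ℝ),
      Evol D w a e R α u p X K M → ∀ t, 0 ≤ t →
      eVariationOn (fun s : ℝ => X t (a + s • e)) (Icc 0 1)
        ≤ ENNReal.ofReal (C * (1 + t) * (1 + t * K t) ^ (4 * m + 5) * Real.exp (3 * K t)
          * M t ^ (4 * m + 4)) := by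
  obtain ⟨A, Ct, hA, hCt, htail⟩ := S.tail hM hK
  obtain ⟨Cs, hCs, hsmall⟩ := hM.small_grad
  obtain ⟨n, hn⟩ := exists_signPW (g := fp w a e) _ zero_le_one S.continuousOn_fp
    (hz.subset (fun s hs => ⟨Ioo_subset_Icc_self hs.1, hs.2⟩)) le_rfl
  obtain ⟨C, hC0, hC⟩ := S.length_bound hR1 hα hm hA hCt (Nat.cast_nonneg n) hCs
    (hsmall a e S.he hK) htail (P := fun _ => 1) (fun _ => le_rfl) monotone_const
    (S.pre_sign hn)
  refine ⟨C * 2 ^ (4 * m + 5), by positivity, fun u p X K Mf V t ht => ?_⟩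
  have hKt := V.hF.nonneg t
  have hM1 : 1 ≤ Mf t := V.hM1 t
  have hM0 : 0 ≤ Mf t := by linarith
  set J : ℕ := ⌈2 * (K t * t)⌉₊ with hJ
  have hJ1 : 2 * (K t * t) ≤ J := Nat.le_ceil _
  have hJ2 : (J : ℝ) ≤ 2 * (K t * t) + 1 := (Nat.ceil_lt_add_one (by positivity)).le
  refine (hC u p X K Mf V t J ht hJ1).trans (ENNReal.ofReal_le_ofReal ?_)
  have h1 : ((J : ℝ) + 1) ^ (4 * m + 5) ≤ 2 ^ (4 * m + 5) * (1 + t * K t) ^ (4 * m + 5) := by
    rw [← mul_pow]
    have : (J : ℝ) + 1 ≤ 2 * (1 + t * K t) := by linarith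
    gcongr
  calc C * (1 + t) * Real.exp (3 * K t) * Mf t ^ (4 * m + 4) * (1 * ((J : ℝ) + 1) ^ (4 * m + 5))
      ≤ C * (1 + t) * Real.exp (3 * K t) * Mf t ^ (4 * m + 4)
        * (1 * (2 ^ (4 * m + 5) * (1 + t * K t) ^ (4 * m + 5))) := by gcongr
    _ = _ := by ring

end Seg

end Run7.h772
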