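import Mathlib
import Pool.Agent.Run7.h772.Seg3

open Set Metric Filter MeasureTheory
open scoped ContDiff Topology ComplexConjugate ENNReal

namespace Run7.h772

open IsEulerFlow

/-- The trapezoidal rule along a segment of the plane. -/
theorem trapezoid {h : ℂ → ℝ} (hh : ContDiff ℝ 2 h) {M α : ℝ} (hα : 0 < α)
    (hM : 0 ≤ M)
    (hH : ∀ x y, ‖fderiv ℝ (fderiv ℝ h) x - fderiv ℝ (fderiv ℝ h) y‖ ≤ M * ‖x - y‖ ^ α)
    (x v : ℂ) :
    |h (x + v) - h x - (fderiv ℝ h x v + fderiv ℝ h (x + v) v) / 2|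
      ≤ 2 * (M * (‖v‖ ^ α * ‖v‖ ^ 2)) := by
  set A := fderiv ℝ (fderiv ℝ h) x v v with hA
  set B : ℝ := M * (‖v‖ ^ α * ‖v‖ ^ 2) with hB
  have hB0 : 0 ≤ B := by positivity
  have hline : ∀ t : ℝ, HasDerivAt (fun t : ℝ => x + t • v) v t := fun t => by
    simpa using ((hasDerivAt_id t).smul_const v).const_add x
  set g1 : ℝ → ℝ := fun t => fderiv ℝ h (x + t • v) v - fderiv ℝ h x v - t * A with hg1
  have hd1 : ∀ t : ℝ, HasDerivAt g1 (fderiv ℝ (fderiv ℝ h) (x + t • v) v v - A) t := by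
    intro t
    have h1 : HasDerivAt (fun t : ℝ => fderiv ℝ h (x + t • v))
        (fderiv ℝ (fderiv ℝ h) (x + t • v) v) t :=
      HasFDerivAt.comp_hasDerivAt (f := fun t : ℝ => x + t • v) t
        (hasFDerivAt_fderiv hh (x + t • v)) (hline t)
    have h2 := (h1.clm_apply (hasDerivAt_const t v)).sub_const (fderiv ℝ h x v)
    have h3 := (hasDerivAt_id t).mul_const A
    refine (h2.sub h3).congr_deriv ?_
    simp
  have hb1 : ∀ t ∈ Icc (0 : ℝ) 1, ‖fderiv ℝ (fderiv ℝ h) (x + t • v) v v - A‖ ≤ B := by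
    intro t ht
    have h1 : fderiv ℝ (fderiv ℝ h) (x + t • v) v v - A
        = (fderiv ℝ (fderiv ℝ h) (x + t • v) - fderiv ℝ (fderiv ℝ h) x) v v := by simp [hA]
    rw [h1]
    refine (ContinuousLinearMap.le_opNorm _ _).trans ?_
    have h2 := ContinuousLinearMap.le_opNorm
      (fderiv ℝ (fderiv ℝ h) (x + t • v) - fderiv ℝ (fderiv ℝ h) x) v
    have h3 := hH (x + t • v) x
    have h4 : ‖x + t • v - x‖ ≤ ‖v‖ := by
      rw [add_sub_cancel_left, norm_smul, Real.norm_eq_abs, abs_of_nonneg ht.1]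
      have := norm_nonneg v
      nlinarith [ht.2]
    have h5 : ‖x + t • v - x‖ ^ α ≤ ‖v‖ ^ α := Real.rpow_le_rpow (norm_nonneg _) h4 hα.le
    calc ‖(fderiv ℝ (fderiv ℝ h) (x + t • v) - fderiv ℝ (fderiv ℝ h) x) v‖ * ‖v‖
        ≤ ((M * ‖x + t • v - x‖ ^ α) * ‖v‖) * ‖v‖ := by
          gcongr
          exact h2.trans (by gcongr)
      _ ≤ ((M * ‖v‖ ^ α) * ‖v‖) * ‖v‖ := by gcongr
      _ = B := by rw [hB]; ring
  have hg1b : ∀ t ∈ Icc (0 : ℝ) 1, ‖g1 t‖ ≤ B := by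
    intro t ht
    have h1 := (convex_Icc (0 : ℝ) 1).norm_image_sub_le_of_norm_hasDerivWithin_le
      (fun t _ => (hd1 t).hasDerivWithinAt) hb1 (left_mem_Icc.mpr zero_le_one) ht
    have h2 : g1 0 = 0 := by simp [hg1]
    rw [h2, sub_zero, sub_zero, Real.norm_eq_abs t, abs_of_nonneg ht.1] at h1
    refine h1.trans ?_
    nlinarith [ht.2]
  set g0 : ℝ → ℝ := fun t => h (x + t • v) - h x - t * fderiv ℝ h x v - t ^ 2 * A / 2 with hg0
  have hd0 : ∀ t : ℝ, HasDerivAt g0 (g1 t) t := by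
    intro t
    have h1 : HasDerivAt (fun t : ℝ => h (x + t • v)) (fderiv ℝ h (x + t • v) v) t :=
      HasFDerivAt.comp_hasDerivAt (f := fun t : ℝ => x + t • v) t
        ((hh.differentiable (by norm_num) _).hasFDerivAt) (hline t)
    have h2 := (((hasDerivAt_id t).fun_pow 2).mul_const A).div_const 2
    have h3 := (hasDerivAt_id t).mul_const (fderiv ℝ h x v)
    refine (((h1.sub_const (h x)).sub h3).sub h2).congr_deriv ?_
    simp [hg1]
    ring
  have h1 := (convex_Icc (0 : ℝ) 1).norm_image_sub_le_of_norm_hasDerivWithin_le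
    (fun t _ => (hd0 t).hasDerivWithinAt) hg1b (left_mem_Icc.mpr zero_le_one)
    (right_mem_Icc.mpr zero_le_one)
  have h2 : g0 0 = 0 := by simp [hg0]
  rw [h2, sub_zero, sub_zero, norm_one, mul_one] at h1
  have h3 := hg1b 1 (right_mem_Icc.mpr zero_le_one)
  rw [Real.norm_eq_abs] at h1 h3
  have e : h (x + v) - h x - (fderiv ℝ h x v + fderiv ℝ h (x + v) v) / 2
      = g0 1 - g1 1 / 2 := by
    simp only [hg0, hg1, one_smul]
    ring
  rw [e]
  have h4 : |g1 1 / 2| ≤ B := by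
    rw [abs_div, abs_of_pos (by norm_num : (0 : ℝ) < 2)]
    linarith [abs_nonneg (g1 1)]
  exact (abs_sub _ _).trans (by linarith)

/-- Quantitative Sard estimate for functions with Hölder continuous second derivative. -/
theorem near_critical_values {h : ℂ → ℝ} (hh : ContDiff ℝ 2 h) {M R α δ : ℝ} (hM : 1 ≤ M)
    (hR : 1 ≤ R) (hα : 0 < α) (hδ : 0 < δ) (hδ1 : δ ≤ 1)
    (hH : ∀ x y, ‖fderiv ℝ (fderiv ℝ h) x - fderiv ℝ (fderiv ℝ h) y‖ ≤ M * ‖x - y‖ ^ α) :
    ∃ E : Set ℝ, MeasurableSet E ∧ (∀ y, ‖y‖ ≤ R → ‖fderiv ℝ h y‖ ≤ δ → h y ∈ E) ∧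
      volume E ≤ ENNReal.ofReal (294 * R ^ 2 * M * δ ^ (α / (1 + α))) := by
  have hM0 : 0 < M := by linarith
  set r : ℝ := δ ^ (1 / (1 + α)) with hr
  have hr0 : 0 < r := Real.rpow_pos_of_pos hδ _
  have hr1 : r ≤ 1 := Real.rpow_le_one hδ.le hδ1 (by positivity)
  have hrα : r ^ α = δ ^ (α / (1 + α)) := by
    rw [hr, ← Real.rpow_mul hδ.le]; congr 1; field_simp
  have hδr : δ = r ^ α * r := by
    have h1 : r ^ α * r = r ^ (α + 1) := by rw [Real.rpow_add hr0, Real.rpow_one]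
    rw [h1, hr, ← Real.rpow_mul hδ.le]
    have : 1 / (1 + α) * (α + 1) = 1 := by field_simp; ring
    rw [this, Real.rpow_one]
  obtain ⟨E, hE1, hE2, hE3⟩ := cover_values (h := h) (P := {y | ‖y‖ ≤ R ∧ ‖fderiv ℝ h y‖ ≤ δ})
    (ℓ := 3 * M * (r ^ α * r ^ 2)) hR hr0 hr1 (fun y hy => hy.1) (by
      rintro y1 ⟨_, hy1⟩ y2 ⟨_, hy2⟩ hd
      have h1 := trapezoid hh hα hM0.le hH y1 (y2 - y1)
      rw [add_sub_cancel] at h1
      have e1 : |fderiv ℝ h y1 (y2 - y1)| ≤ δ * r := by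
        rw [← Real.norm_eq_abs]
        refine (ContinuousLinearMap.le_opNorm _ _).trans ?_
        gcongr
      have e2 : |fderiv ℝ h y2 (y2 - y1)| ≤ δ * r := by
        rw [← Real.norm_eq_abs]
        refine (ContinuousLinearMap.le_opNorm _ _).trans ?_
        gcongr
      have e3 : |(fderiv ℝ h y1 (y2 - y1) + fderiv ℝ h y2 (y2 - y1)) / 2| ≤ δ * r := by
        rw [abs_div, abs_of_pos (by norm_num : (0 : ℝ) < 2), div_le_iff₀ (by norm_num)]
        exact (abs_add_le _ _).trans (by linarith)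
      have e4 : δ * r = r ^ α * r ^ 2 := by
        conv_lhs => rw [hδr]
        ring
      have e5 : ‖y2 - y1‖ ^ α * ‖y2 - y1‖ ^ 2 ≤ r ^ α * r ^ 2 := by
        have := Real.rpow_le_rpow (norm_nonneg _) hd hα.le
        gcongr
      have e6 : |h y2 - h y1| ≤ |h y2 - h y1 - (fderiv ℝ h y1 (y2 - y1)
          + fderiv ℝ h y2 (y2 - y1)) / 2| + |(fderiv ℝ h y1 (y2 - y1)
          + fderiv ℝ h y2 (y2 - y1)) / 2| := by
        have e7 : h y2 - h y1 = (h y2 - h y1 - (fderiv ℝ h y1 (y2 - y1)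
          + fderiv ℝ h y2 (y2 - y1)) / 2) + (fderiv ℝ h y1 (y2 - y1)
          + fderiv ℝ h y2 (y2 - y1)) / 2 := by ring
        conv_lhs => rw [e7]
        exact abs_add_le _ _
      have e8 : 0 ≤ r ^ α * r ^ 2 := by positivity
      calc |h y2 - h y1| ≤ 2 * (M * (‖y2 - y1‖ ^ α * ‖y2 - y1‖ ^ 2)) + δ * r := by linarith
        _ ≤ 2 * (M * (r ^ α * r ^ 2)) + r ^ α * r ^ 2 := by
            rw [e4]
            have := mul_le_mul_of_nonneg_left e5 hM0.le
            linarith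
        _ ≤ 3 * M * (r ^ α * r ^ 2) := by nlinarith)
  refine ⟨E, hE1, fun y hy1 hy2 => hE2 y ⟨hy1, hy2⟩, hE3.trans ?_⟩
  refine ENNReal.ofReal_le_ofReal (le_of_eq ?_)
  rw [← hrα]
  field_simp
  ring

/-- The differential of the flow in terms of the components of a vector along and across the
contour. -/
theorem fderiv_split {D : Set ℂ} {u X : ℝ → ℂ → ℂ} {p : ℝ → ℂ → ℝ} {K : ℝ → ℝ}
    (h : IsEulerFlow D u p) (hD : IsOpen D) (hX : IsFlow D u X)
    (hF : FlowData D u X K) {x : ℂ} (hx : x ∈ D) (h0 : gr u X 0 x ≠ 0) {e : ℂ} (he : ‖e‖ = 1)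
    {t : ℝ} (ht : 0 ≤ t) :
    ‖fderiv ℝ (X t) x e‖ ≤ (‖gr u X t x‖
      + |fderiv ℝ (curl (u 0)) x e| * Real.exp (K t * t)) / ‖gr u X 0 x‖ := by
  have hg0 : gr u X 0 x = grad (curl (u 0)) x := by
    simp only [gr]; rw [hX.init x hx]
  set g : ℂ := grad (curl (u 0)) x with hg
  rw [hg0] at h0
  rw [hg0]
  have hgn : 0 < ‖g‖ := norm_pos_iff.mpr h0
  -- decomposition of `e`
  set a1 : ℝ := (conj (Complex.I * g) * e).re / ‖g‖ ^ 2 with ha1
  set a2 : ℝ := (conj g * e).re / ‖g‖ ^ 2 with ha2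
  have hdec : e = a1 • (Complex.I * g) + a2 • g := by
    have h3 : (‖g‖ ^ 2) = g.re * g.re + g.im * g.im := by
      rw [← Complex.normSq_eq_norm_sq, Complex.normSq_apply]
    have h4 : g.re * g.re + g.im * g.im ≠ 0 := by rw [← h3]; positivity
    have b1 : a1 = (g.re * e.im - g.im * e.re) / (g.re * g.re + g.im * g.im) := by
      rw [ha1, h3]
      congr 1
      simp
    have b2 : a2 = (g.re * e.re + g.im * e.im) / (g.re * g.re + g.im * g.im) := by
      rw [ha2, h3]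
      congr 1
      simp
    clear_value a1 a2 g
    obtain ⟨S, hS⟩ : ∃ S, S = g.re * g.re + g.im * g.im := ⟨_, rfl⟩
    rw [← hS] at b1 b2 h4
    apply Complex.ext
    · have : (a1 • (Complex.I * g) + a2 • g).re = -(a1 * g.im) + a2 * g.re := by simp
      rw [this, b1, b2]
      field_simp
      rw [hS]
      ring
    · have : (a1 • (Complex.I * g) + a2 • g).im = a1 * g.re + a2 * g.im := by simp
      rw [this, b1, b2]
      field_simp
      rw [hS]
      ring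
  have hβ : fderiv ℝ (curl (u 0)) x e = (conj g * e).re := by
    rw [grad_inner]
    simp
    ring
  have hn1 : |a1| ≤ 1 / ‖g‖ := by
    rw [ha1, abs_div, abs_of_pos (pow_pos hgn 2), div_le_div_iff₀ (pow_pos hgn 2) hgn]
    have h1 : |(conj (Complex.I * g) * e).re| ≤ ‖g‖ := by
      refine (Complex.abs_re_le_norm _).trans (le_of_eq ?_)
      simp [he]
    nlinarith
  have hn2 : |a2| * ‖g‖ = |fderiv ℝ (curl (u 0)) x e| / ‖g‖ := by
    rw [ha2, hβ, abs_div, abs_of_pos (pow_pos hgn 2)]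
    field_simp
  have h5 : fderiv ℝ (X t) x e = a1 • (Complex.I * gr u X t x) + a2 • fderiv ℝ (X t) x g := by
    conv_lhs => rw [hdec]
    rw [map_add, map_smul, map_smul, h.leaf hD hX hF hx ht]
    rfl
  rw [h5]
  refine (norm_add_le _ _).trans ?_
  rw [norm_smul, norm_smul, norm_mul, Complex.norm_I, one_mul, Real.norm_eq_abs,
    Real.norm_eq_abs]
  have h6 : ‖fderiv ℝ (X t) x g‖ ≤ Real.exp (K t * t) * ‖g‖ :=
    (ContinuousLinearMap.le_opNorm _ _).trans (by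
      have := hF.norm_fderiv_le hx ht
      gcongr)
  calc |a1| * ‖gr u X t x‖ + |a2| * ‖fderiv ℝ (X t) x g‖
      ≤ (1 / ‖g‖) * ‖gr u X t x‖ + |a2| * (Real.exp (K t * t) * ‖g‖) := by gcongr
    _ = (1 / ‖g‖) * ‖gr u X t x‖ + Real.exp (K t * t) * (|a2| * ‖g‖) := by ring
    _ = (1 / ‖g‖) * ‖gr u X t x‖
        + Real.exp (K t * t) * (|fderiv ℝ (curl (u 0)) x e| / ‖g‖) := by rw [hn2]
    _ = _ := by ring

end Run7.h772
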