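import Mathlib
import Pool.Agent.Run7.h772.Sard

open Set Metric Filter MeasureTheory
open scoped ContDiff Topology ComplexConjugate ENNReal

namespace Run7.h772

open IsEulerFlow

namespace Seg

variable {D : Set ℂ} {w : ℂ → ℝ} {a e : ℂ} {R α : ℝ}

theorem exists_lower (S : Seg D w a e) (hn : ∀ s ∈ Icc (0 : ℝ) 1, grad w (a + s • e) ≠ 0) :
    ∃ m0 : ℝ, 0 < m0 ∧ m0 ≤ 1 ∧ ∀ s ∈ Icc (0 : ℝ) 1, m0 ≤ ‖grad w (a + s • e)‖ := by
  obtain ⟨s0, hs0, hmin⟩ := isCompact_Icc.exists_isMinOn (nonempty_Icc.mpr zero_le_one)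
    S.continuousOn_g0
  have hpos : 0 < ‖grad w (a + s0 • e)‖ := norm_pos_iff.mpr (hn s0 hs0)
  refine ⟨min ‖grad w (a + s0 • e)‖ 1, by positivity, min_le_right _ _, fun s hs => ?_⟩
  exact (min_le_left _ _).trans (hmin hs)

/-- Measure of the parameters with small vorticity gradient, from the quantitative Sard
estimate. -/
theorem measure_sard (S : Seg D w a e) (hR1 : 1 ≤ R) (hα : 0 < α) {η : ℝ} (hη : 0 < η) :
    ∃ C : ℝ, 0 ≤ C ∧ ∀ (u : ℝ → ℂ → ℂ) (p : ℝ → ℂ → ℝ) (X : ℝ → ℂ → ℂ) (K M : ℝ → ℝ),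
      Evol D w a e R α u p X K M → ∀ t, 0 ≤ t →
      ∀ j : ℕ, ∫⁻ s in {s | s ∈ Icc (0 : ℝ) 1 ∧ ‖gr u X t (a + s • e)‖ ≤ Real.exp (-(j : ℝ))},
        ENNReal.ofReal |fp w a e s|
        ≤ ENNReal.ofReal (C * M t * Real.exp (-((α / (1 + α) - η) * j))) := by
  obtain ⟨Cp, hCp, hpre⟩ := S.pre_exp hη
  refine ⟨Cp * (294 * R ^ 2) + Cp, by positivity, ?_⟩
  intro u p X K Mf V t ht j
  set M : ℝ := Mf t with hMdef
  have hM : 1 ≤ M := V.hM1 t
  have hM0 : 0 < M := by linarith
  have hj0 : (0 : ℝ) ≤ j := Nat.cast_nonneg j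
  set δ : ℝ := Real.exp (-(j : ℝ)) with hδ
  have hδ0 : 0 < δ := Real.exp_pos _
  have hδ1 : δ ≤ 1 := Real.exp_le_one_iff.mpr (by linarith)
  obtain ⟨h, hh, hext, _, _, hH⟩ := V.hreg t ht
  obtain ⟨E, hE1, hE2, hE3⟩ := near_critical_values hh hM hR1 hα hδ0 hδ1 hH
  have hincl : {s | s ∈ Icc (0 : ℝ) 1 ∧ ‖gr u X t (a + s • e)‖ ≤ δ}
      ⊆ Icc 0 1 ∩ (fun s : ℝ => w (a + s • e)) ⁻¹' E := by
    rintro s ⟨hs, hsδ⟩
    refine ⟨hs, ?_⟩
    have hx := S.hseg s hs
    have h1 : gr u X t (a + s • e) = grad h (X t (a + s • e)) :=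
      (grad_congr S.hD hext (V.hX.mem _ hx t ht)).symm
    have h2 := hE2 (X t (a + s • e)) (V.hR t ht s hs) (by
      rw [← norm_grad_eq, ← h1]; exact hsδ)
    rw [hext _ (V.hX.mem _ hx t ht), V.hE.curl_transport S.hD V.hX hx ht, V.h0 _ hx] at h2
    exact h2
  refine (lintegral_mono_set hincl).trans ((hpre j E hE1).trans ?_)
  refine (add_le_add (mul_le_mul_right hE3 _) le_rfl).trans ?_
  rw [← ENNReal.ofReal_mul (by positivity), ← ENNReal.ofReal_add (by positivity) (by positivity)]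
  refine ENNReal.ofReal_le_ofReal ?_
  have h1 : δ ^ (α / (1 + α)) = Real.exp (-(α / (1 + α) * j)) := by
    rw [hδ, ← Real.exp_mul]; congr 1; ring
  have h2 : Real.exp (η * j) * Real.exp (-(α / (1 + α) * j))
      = Real.exp (-((α / (1 + α) - η) * j)) := by
    rw [← Real.exp_add]; congr 1; ring
  have h3 : Real.exp (-(2 * (j : ℝ))) ≤ Real.exp (-((α / (1 + α) - η) * j)) := by
    apply Real.exp_le_exp.mpr
    have e1 : α / (1 + α) ≤ 1 := by rw [div_le_one (by positivity)]; linarith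
    nlinarith
  rw [h1]
  set G : ℝ := Real.exp (-((α / (1 + α) - η) * j)) with hG
  have hG0 : 0 < G := Real.exp_pos _
  calc Cp * Real.exp (η * j) * (294 * R ^ 2 * M * Real.exp (-(α / (1 + α) * j)))
        + Cp * Real.exp (-(2 * (j : ℝ)))
      = Cp * (294 * R ^ 2) * M * (Real.exp (η * j) * Real.exp (-(α / (1 + α) * j)))
        + Cp * Real.exp (-(2 * (j : ℝ))) := by ring
    _ ≤ Cp * (294 * R ^ 2) * M * G + Cp * (M * G) := by
        rw [h2]
        have h4 : Real.exp (-(2 * (j : ℝ))) ≤ M * G := by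
          calc Real.exp (-(2 * (j : ℝ))) ≤ G := h3
            _ = 1 * G := by ring
            _ ≤ M * G := by gcongr
        gcongr
    _ = _ := by ring

/-- Improved Gronwall bound without any hypothesis on the contours. -/
theorem sard_length (S : Seg D w a e) (hn : ∀ s ∈ Icc (0 : ℝ) 1, grad w (a + s • e) ≠ 0)
    (hR1 : 1 ≤ R) (hα : 0 < α) {η : ℝ} (hη : 0 < η) (hηθ : η ≤ α / (1 + α)) :
    ∃ C : ℝ, 0 ≤ C ∧ ∀ (u : ℝ → ℂ → ℂ) (p : ℝ → ℂ → ℝ) (X : ℝ → ℂ → ℂ) (K M : ℝ → ℝ),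
      Evol D w a e R α u p X K M → ∀ t, 0 ≤ t →
      eVariationOn (fun s : ℝ => X t (a + s • e)) (Icc 0 1)
        ≤ ENNReal.ofReal (C * (1 + t) * Real.exp (3 * K t
          + (1 - α / (1 + α) / 2 + η) * (K t * t)) * M t ^ 2) := by
  obtain ⟨Cm, hCm0, hCm⟩ := S.measure_sard hR1 hα hη (R := R)
  obtain ⟨m0, hm00, hm01, hm0⟩ := S.exists_lower hn
  obtain ⟨Cν, hCν0, hCν⟩ := S.exists_fp_bound
  set θ : ℝ := α / (1 + α) with hθ
  have hθ0 : 0 < θ := by positivity
  have hθ1 : θ ≤ 1 := by rw [hθ, div_le_one (by positivity)]; linarith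
  -- constant for the number of levels
  set B : ℝ := 1 / η * Real.exp (2 * η) with hB
  have hB0 : 0 < B := by positivity
  set C1 : ℝ := Cν + Cm * Real.exp 2 * B * Real.exp 2 with hC1
  have hC10 : 0 ≤ C1 := by positivity
  refine ⟨1 / m0 + Cm / m0 + (1 / m0 + C1), by positivity, ?_⟩
  intro u p X K Mf V t ht
  have hK := V.hF.nonneg t
  set M : ℝ := Mf t with hMdef
  have hM1 : 1 ≤ M := V.hM1 t
  have hM0 : 0 < M := by linarith
  set c : ℝ := 2 * K t * Real.exp (2 * K t) with hc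
  have hc0 : 0 ≤ c := by positivity
  have hcle : c ≤ Real.exp (3 * K t) := by
    have h1 : 2 * K t ≤ Real.exp (K t) := by
      have := Real.quadratic_le_exp_of_nonneg hK
      nlinarith [sq_nonneg (K t - 1)]
    calc c = 2 * K t * Real.exp (2 * K t) := hc
      _ ≤ Real.exp (K t) * Real.exp (2 * K t) := by gcongr
      _ = Real.exp (3 * K t) := by rw [← Real.exp_add]; congr 1; ring
  set κ : ℝ := K t * t with hκ
  have hκ0 : 0 ≤ κ := by positivity
  set J : ℕ := ⌈κ / 2⌉₊ with hJ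
  have hJ1 : κ / 2 ≤ J := Nat.le_ceil _
  have hJ2 : (J : ℝ) ≤ κ / 2 + 1 := (Nat.ceil_lt_add_one (by positivity)).le
  have hJ0 : (0 : ℝ) ≤ J := Nat.cast_nonneg J
  obtain ⟨h, _, hext, hB1, _, _⟩ := V.hreg t ht
  have hgM : ∀ s ∈ Icc (0 : ℝ) 1, ‖gr u X t (a + s • e)‖ ≤ M := by
    intro s hs
    have hx := S.hseg s hs
    have h1 : gr u X t (a + s • e) = grad h (X t (a + s • e)) :=
      (grad_congr S.hD hext (V.hX.mem _ hx t ht)).symm
    rw [h1, norm_grad_eq]
    exact hB1 _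
  have hne : ∀ s ∈ Icc (0 : ℝ) 1, gr u X 0 (a + s • e) ≠ 0 := by
    intro s hs
    rw [S.gr_zero V hs]; exact hn s hs
  -- the speed
  have hder : ∀ s ∈ Icc (0 : ℝ) 1, HasDerivWithinAt (fun s : ℝ => X t (a + s • e))
      (fderiv ℝ (X t) (a + s • e) e) (Icc 0 1) s := by
    intro s hs
    have h2 : HasDerivAt (fun s : ℝ => a + s • e) e s := by
      simpa using ((hasDerivAt_id s).smul_const e).const_add a
    exact (HasFDerivAt.comp_hasDerivAt (f := fun s : ℝ => a + s • e) s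
      (V.hF.hasFDerivAt (S.hseg s hs) ht) h2).hasDerivWithinAt
  set sp : ℝ → ℝ := fun s => ‖fderiv ℝ (X t) (a + s • e) e‖ with hsp
  have hspc : ContinuousOn sp (Icc 0 1) := by
    have h1 : ContinuousOn (fun s : ℝ => fderiv ℝ (X t) (a + s • e)) (Icc 0 1) :=
      (V.hF.continuousOn_fderiv_flow ht).comp (f := fun s : ℝ => a + s • e) (by fun_prop)
        (fun s hs => S.hseg s hs)
    exact (h1.clm_apply continuousOn_const).norm
  refine (variation_le hder hspc (fun s _ => le_rfl)).trans ?_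
  -- the bad parameters
  set δ : ℝ := Real.exp (-(J : ℝ)) with hδ
  have hδ0 : 0 < δ := Real.exp_pos _
  set Z : ℕ → Set ℝ := fun k => {s | s ∈ Icc (0 : ℝ) 1 ∧ ‖gr u X k (a + s • e)‖ ≤ δ} with hZ
  have hZm : ∀ k, MeasurableSet (Z k) := by
    intro k
    have : Z k = Icc (0 : ℝ) 1 ∩ (fun s : ℝ => ‖gr u X k (a + s • e)‖) ⁻¹' (Iic δ) := rfl
    rw [this]
    exact ((S.continuousOn_gr V (Nat.cast_nonneg k)).norm.preimage_isClosed_of_isClosed
      isClosed_Icc isClosed_Iic).measurableSet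
  set Bd : Set ℝ := ⋃ k ∈ Finset.range (⌊t⌋₊ + 1), Z k with hBd
  have hBdm : MeasurableSet Bd := Finset.measurableSet_biUnion _ (fun k _ => hZm k)
  have hBdI : Bd ⊆ Icc (0 : ℝ) 1 := by
    intro s hs
    rw [hBd, mem_iUnion₂] at hs
    obtain ⟨k, _, hk⟩ := hs
    exact hk.1
  set G : Set ℝ := Icc (0 : ℝ) 1 \ Bd with hG
  have hGm : MeasurableSet G := measurableSet_Icc.diff hBdm
  have hGI : G ⊆ Icc (0 : ℝ) 1 := sdiff_subset
  have hsplit : Icc (0 : ℝ) 1 ⊆ Bd ∪ G := by
    intro s hs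
    by_cases h1 : s ∈ Bd
    · left; exact h1
    · right; exact ⟨hs, h1⟩
  refine (lintegral_mono_set hsplit).trans ((lintegral_union_le _ _ _).trans ?_)
  have hfl : ((⌊t⌋₊ + 1 : ℕ) : ℝ) ≤ 1 + t := by
    push_cast
    have h1 : (⌊t⌋₊ : ℝ) ≤ t := Nat.floor_le ht
    linarith
  have hkt : ∀ k ∈ Finset.range (⌊t⌋₊ + 1), (k : ℝ) ≤ t := by
    intro k hk
    have h1 : k ≤ ⌊t⌋₊ := Nat.lt_succ_iff.mp (Finset.mem_range.mp hk)
    exact le_trans (by exact_mod_cast h1) (Nat.floor_le ht)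
  have hMk : ∀ k ∈ Finset.range (⌊t⌋₊ + 1), Mf k ≤ M := fun k hk => V.hMm (hkt k hk)
  have hMk0 : ∀ k : ℕ, 0 ≤ Mf k := fun k => by linarith [V.hM1 k]
  set Ex : ℝ := Real.exp ((1 - θ / 2 + η) * κ) with hEx
  have hEx0 : 0 < Ex := Real.exp_pos _
  have hEx1 : 1 ≤ Ex := Real.one_le_exp (by
    have : 0 ≤ 1 - θ / 2 + η := by linarith
    positivity)
  have hfpm : AEMeasurable (fun s => ENNReal.ofReal |fp w a e s|)
      (volume.restrict (Icc (0 : ℝ) 1)) :=
    (S.continuousOn_fp.abs.aemeasurable measurableSet_Icc).ennreal_ofReal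
  -- the bad part
  have hpartB : ∫⁻ s in Bd, ENNReal.ofReal (sp s)
      ≤ ENNReal.ofReal (M * (1 / m0) + Cm / m0 * (1 + t) * M * Ex) := by
    have h1 : ∀ s ∈ Bd, ENNReal.ofReal (sp s) ≤ ENNReal.ofReal (M * (1 / m0))
        + ENNReal.ofReal (Real.exp κ * (1 / m0)) * ENNReal.ofReal |fp w a e s| := by
      intro s hs
      have hsI := hBdI hs
      have h2 := fderiv_split V.hE S.hD V.hX V.hF (S.hseg s hsI) (hne s hsI) S.he ht
      rw [S.gr_zero V hsI, fderiv_congr S.hD V.h0 (S.hseg s hsI)] at h2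
      have h3 := hm0 s hsI
      have h4 := hgM s hsI
      have h5 : sp s ≤ M * (1 / m0) + Real.exp κ * (1 / m0) * |fp w a e s| := by
        calc sp s ≤ (‖gr u X t (a + s • e)‖ + |fderiv ℝ w (a + s • e) e| * Real.exp (K t * t))
              / ‖grad w (a + s • e)‖ := h2
          _ = (‖gr u X t (a + s • e)‖ + |fp w a e s| * Real.exp κ) / ‖grad w (a + s • e)‖ := rfl
          _ ≤ (M + |fp w a e s| * Real.exp κ) / m0 := by gcongr
          _ = _ := by ring
      refine (ENNReal.ofReal_le_ofReal h5).trans (le_of_eq ?_)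
      rw [ENNReal.ofReal_add (by positivity) (by positivity),
        ENNReal.ofReal_mul (p := Real.exp κ * (1 / m0)) (by positivity)]
    refine (setLIntegral_mono' hBdm h1).trans ?_
    rw [lintegral_add_left (by fun_prop), setLIntegral_const,
      lintegral_const_mul'' _ (hfpm.mono_measure (Measure.restrict_mono hBdI le_rfl))]
    have h2 : volume Bd ≤ 1 := by
      refine (measure_mono hBdI).trans ?_
      rw [Real.volume_Icc]; simp
    have h3 : ∫⁻ s in Bd, ENNReal.ofReal |fp w a e s|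
        ≤ ENNReal.ofReal ((1 + t) * (Cm * M * Real.exp (-((θ - η) * J)))) := by
      refine (lintegral_biUnion_le' _ _ _).trans ?_
      have h4 : ∀ k ∈ Finset.range (⌊t⌋₊ + 1), ∫⁻ s in Z k, ENNReal.ofReal |fp w a e s|
          ≤ ENNReal.ofReal (Cm * M * Real.exp (-((θ - η) * J))) := by
        intro k hk
        refine (hCm u p X K Mf V k (Nat.cast_nonneg k) J).trans (ENNReal.ofReal_le_ofReal ?_)
        have := hMk k hk
        gcongr
      refine (Finset.sum_le_sum h4).trans ?_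
      rw [Finset.sum_const, Finset.card_range, nsmul_eq_mul, ← ENNReal.ofReal_natCast,
        ← ENNReal.ofReal_mul (by positivity)]
      refine ENNReal.ofReal_le_ofReal ?_
      gcongr
    refine (add_le_add (mul_le_mul_right h2 _) (mul_le_mul_right h3 _)).trans ?_
    rw [mul_one, ← ENNReal.ofReal_mul (by positivity), ← ENNReal.ofReal_add (by positivity)
      (by positivity)]
    refine ENNReal.ofReal_le_ofReal ?_
    have h5 : Real.exp κ * Real.exp (-((θ - η) * J)) ≤ Ex := by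
      rw [← Real.exp_add, hEx]
      apply Real.exp_le_exp.mpr
      have h6 : (θ - η) * (κ / 2) ≤ (θ - η) * J :=
        mul_le_mul_of_nonneg_left hJ1 (by linarith)
      nlinarith
    calc M * (1 / m0) + Real.exp κ * (1 / m0) * ((1 + t) * (Cm * M * Real.exp (-((θ - η) * J))))
        = M * (1 / m0) + Cm / m0 * (1 + t) * M * (Real.exp κ * Real.exp (-((θ - η) * J))) := by
          ring
      _ ≤ M * (1 / m0) + Cm / m0 * (1 + t) * M * Ex := by gcongr
  -- the good part
  have hpartG : ∫⁻ s in G, ENNReal.ofReal (sp s)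
      ≤ ENNReal.ofReal (M * (1 / m0) + M * (Real.exp (3 * K t) * (1 + t) * (C1 * M * Ex))) := by
    have hspeed : ∀ s ∈ G, ENNReal.ofReal (sp s) ≤ ENNReal.ofReal (M * (1 / m0))
        + ∑ k ∈ Finset.range (⌊t⌋₊ + 1), ENNReal.ofReal (M * c)
          * ENNReal.ofReal (|fp w a e s| * (‖gr u X k (a + s • e)‖ ^ 2)⁻¹) := by
      intro s hsG
      have hs := hGI hsG
      have h1 := V.hE.stretch_bound S.hD V.hX V.hF (S.hseg s hs) (hne s hs) e ht
      rw [S.he, S.gr_zero V hs, fderiv_congr S.hD V.h0 (S.hseg s hs)] at h1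
      have h2 : 2 * K t * |fderiv ℝ w (a + s • e) e| * Real.exp (2 * K t)
          * ∑ k ∈ Finset.range (⌊t⌋₊ + 1), (‖gr u X k (a + s • e)‖ ^ 2)⁻¹
          = ∑ k ∈ Finset.range (⌊t⌋₊ + 1), c * (|fp w a e s| * (‖gr u X k (a + s • e)‖ ^ 2)⁻¹) := by
        rw [Finset.mul_sum]
        refine Finset.sum_congr rfl (fun k _ => ?_)
        rw [hc]
        simp only [fp]
        ring
      rw [h2] at h1
      have h3 : 0 ≤ ∑ k ∈ Finset.range (⌊t⌋₊ + 1),
          c * (|fp w a e s| * (‖gr u X k (a + s • e)‖ ^ 2)⁻¹) :=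
        Finset.sum_nonneg (fun k _ => by positivity)
      have h4 := hgM s hs
      have h5 := hm0 s hs
      have h6 : sp s ≤ M * (1 / m0) + ∑ k ∈ Finset.range (⌊t⌋₊ + 1),
          (M * c) * (|fp w a e s| * (‖gr u X k (a + s • e)‖ ^ 2)⁻¹) := by
        calc sp s ≤ ‖gr u X t (a + s • e)‖ * (1 / ‖grad w (a + s • e)‖
              + ∑ k ∈ Finset.range (⌊t⌋₊ + 1),
                c * (|fp w a e s| * (‖gr u X k (a + s • e)‖ ^ 2)⁻¹)) := h1
          _ ≤ M * (1 / m0 + ∑ k ∈ Finset.range (⌊t⌋₊ + 1),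
                c * (|fp w a e s| * (‖gr u X k (a + s • e)‖ ^ 2)⁻¹)) := by gcongr
          _ = _ := by
              rw [mul_add, Finset.mul_sum]
              congr 1
              refine Finset.sum_congr rfl (fun k _ => ?_)
              ring
      refine (ENNReal.ofReal_le_ofReal h6).trans ?_
      rw [ENNReal.ofReal_add (by positivity) (Finset.sum_nonneg (fun k _ => by positivity)),
        ENNReal.ofReal_sum_of_nonneg (fun k _ => by positivity)]
      refine add_le_add le_rfl (Finset.sum_le_sum (fun k _ => ?_))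
      rw [ENNReal.ofReal_mul (by positivity)]
    refine (setLIntegral_mono' hGm hspeed).trans ?_
    have haemk : ∀ k : ℕ, AEMeasurable (fun s : ℝ => ENNReal.ofReal
        (|fp w a e s| * (‖gr u X k (a + s • e)‖ ^ 2)⁻¹)) (volume.restrict G) := by
      intro k
      have h1 : AEMeasurable (fun s : ℝ => ‖gr u X k (a + s • e)‖) (volume.restrict G) :=
        ((S.continuousOn_gr V (Nat.cast_nonneg k)).norm.aemeasurable
          measurableSet_Icc).mono_measure (Measure.restrict_mono hGI le_rfl)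
      have h2 : AEMeasurable (fun s : ℝ => |fp w a e s|) (volume.restrict G) :=
        (S.continuousOn_fp.abs.aemeasurable measurableSet_Icc).mono_measure
          (Measure.restrict_mono hGI le_rfl)
      exact (h2.mul ((h1.pow_const 2).inv)).ennreal_ofReal
    rw [lintegral_add_left (by fun_prop), setLIntegral_const,
      lintegral_finsetSum' _ (fun k _ => (haemk k).const_mul _)]
    have h2 : volume G ≤ 1 := by
      refine (measure_mono hGI).trans ?_
      rw [Real.volume_Icc]; simp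
    have hsecond : ∀ k ∈ Finset.range (⌊t⌋₊ + 1),
        ∫⁻ s in G, ENNReal.ofReal (M * c)
          * ENNReal.ofReal (|fp w a e s| * (‖gr u X k (a + s • e)‖ ^ 2)⁻¹)
        ≤ ENNReal.ofReal (M * c * (C1 * M * Ex)) := by
      intro k hk
      rw [lintegral_const_mul'' _ (haemk k), ENNReal.ofReal_mul (p := M * c) (by positivity)]
      refine mul_le_mul_right ?_ _
      have hgJ : ∀ s ∈ G, Real.exp (-(J : ℝ)) ≤ ‖gr u X k (a + s • e)‖ := by
        intro s hs
        by_contra hcon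
        push Not at hcon
        apply hs.2
        rw [hBd, mem_iUnion₂]
        exact ⟨k, hk, hs.1, hcon.le⟩
      refine (lintegral_inv_pow_le (g := fun s => ‖gr u X k (a + s • e)‖) (f' := fp w a e)
        (S.continuousOn_gr V (Nat.cast_nonneg k)).norm S.continuousOn_fp hGm hGI (p := 2)
        (by norm_num) hgJ).trans ?_
      have hterm : ∀ j ∈ Finset.range (J + 1), ENNReal.ofReal (Real.exp ((2 : ℕ) * (j + 1)))
          * ∫⁻ s in {s | s ∈ Icc (0 : ℝ) 1 ∧ ‖gr u X k (a + s • e)‖ ≤ Real.exp (-(j : ℝ))},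
              ENNReal.ofReal |fp w a e s|
          ≤ ENNReal.ofReal (Cm * M * Real.exp 2 * Real.exp ((2 - θ + η) * J)) := by
        intro j hj
        have hjJ : (j : ℝ) ≤ J := by
          exact_mod_cast Nat.lt_succ_iff.mp (Finset.mem_range.mp hj)
        refine (mul_le_mul_right (hCm u p X K Mf V k (Nat.cast_nonneg k) j) _).trans ?_
        rw [← ENNReal.ofReal_mul (Real.exp_pos _).le]
        refine ENNReal.ofReal_le_ofReal ?_
        have e2 : Real.exp ((2 : ℕ) * ((j : ℝ) + 1)) * Real.exp (-((θ - η) * j))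
            = Real.exp 2 * Real.exp ((2 - θ + η) * j) := by
          rw [← Real.exp_add, ← Real.exp_add]; congr 1; push_cast; ring
        have h7 := hMk k hk
        have h8 := hMk0 k
        calc Real.exp ((2 : ℕ) * ((j : ℝ) + 1)) * (Cm * Mf k * Real.exp (-((θ - η) * j)))
            = Cm * Mf k * (Real.exp ((2 : ℕ) * ((j : ℝ) + 1)) * Real.exp (-((θ - η) * j))) := by
              ring
          _ = Cm * Mf k * (Real.exp 2 * Real.exp ((2 - θ + η) * j)) := by rw [e2]
          _ ≤ Cm * M * (Real.exp 2 * Real.exp ((2 - θ + η) * J)) := by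
              have h9 : 0 ≤ 2 - θ + η := by linarith
              gcongr
          _ = _ := by ring
      refine (add_le_add hCν (Finset.sum_le_sum hterm)).trans ?_
      rw [Finset.sum_const, Finset.card_range, nsmul_eq_mul, ← ENNReal.ofReal_natCast,
        ← ENNReal.ofReal_mul (by positivity), ← ENNReal.ofReal_add hCν0 (by positivity)]
      refine ENNReal.ofReal_le_ofReal ?_
      have h9 : ((J + 1 : ℕ) : ℝ) * Real.exp ((2 - θ + η) * J) ≤ B * Real.exp 2 * Ex := by
        have e1 : ((J + 1 : ℕ) : ℝ) ≤ 1 / η * Real.exp (η * (J + 1)) := by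
          push_cast
          have h1 : η * (J + 1) + 1 ≤ Real.exp (η * (J + 1)) := Real.add_one_le_exp _
          rw [div_mul_eq_mul_div, one_mul, le_div_iff₀ hη]
          linarith
        calc ((J + 1 : ℕ) : ℝ) * Real.exp ((2 - θ + η) * J)
            ≤ (1 / η * Real.exp (η * (J + 1))) * Real.exp ((2 - θ + η) * J) := by gcongr
          _ = 1 / η * Real.exp ((2 - θ + 2 * η) * J + η) := by
              rw [mul_assoc, ← Real.exp_add]; congr 2; ring
          _ ≤ 1 / η * Real.exp (2 * η + 2 + (1 - θ / 2 + η) * κ) := by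
              refine mul_le_mul_of_nonneg_left (Real.exp_le_exp.mpr ?_) (by positivity)
              have e3 : (2 - θ + 2 * η) * (J : ℝ) ≤ (2 - θ + 2 * η) * (κ / 2 + 1) :=
                mul_le_mul_of_nonneg_left hJ2 (by linarith)
              have e4 : (2 - θ + 2 * η) * (κ / 2 + 1)
                  = (1 - θ / 2 + η) * κ + (2 - θ + 2 * η) := by ring
              rw [e4] at e3
              linarith
          _ = _ := by rw [hB, hEx, Real.exp_add, Real.exp_add]; ring
      have hMEx : 1 ≤ M * Ex := one_le_mul_of_one_le_of_one_le hM1 hEx1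
      calc Cν + ((J + 1 : ℕ) : ℝ) * (Cm * M * Real.exp 2 * Real.exp ((2 - θ + η) * J))
          = Cν * 1 + Cm * M * Real.exp 2 * (((J + 1 : ℕ) : ℝ)
            * Real.exp ((2 - θ + η) * J)) := by ring
        _ ≤ Cν * (M * Ex) + Cm * M * Real.exp 2 * (B * Real.exp 2 * Ex) := by gcongr
        _ = _ := by rw [hC1]; ring
    refine (add_le_add (mul_le_mul_right h2 _) (Finset.sum_le_sum hsecond)).trans ?_
    rw [mul_one, Finset.sum_const, Finset.card_range, nsmul_eq_mul, ← ENNReal.ofReal_natCast,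
      ← ENNReal.ofReal_mul (by positivity), ← ENNReal.ofReal_add (by positivity) (by positivity)]
    refine ENNReal.ofReal_le_ofReal ?_
    calc M * (1 / m0) + ((⌊t⌋₊ + 1 : ℕ) : ℝ) * (M * c * (C1 * M * Ex))
        ≤ M * (1 / m0) + (1 + t) * (M * Real.exp (3 * K t) * (C1 * M * Ex)) := by gcongr
      _ = _ := by ring
  refine (add_le_add hpartB hpartG).trans ?_
  rw [← ENNReal.ofReal_add (by positivity) (by positivity)]
  refine ENNReal.ofReal_le_ofReal ?_
  have hE3 : 1 ≤ Real.exp (3 * K t) := Real.one_le_exp (by positivity)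
  set E3 : ℝ := Real.exp (3 * K t) with hE3d
  have hEt : Real.exp (3 * K t + (1 - θ / 2 + η) * κ) = E3 * Ex := by
    rw [Real.exp_add]
  rw [hEt]
  have hT1 : 1 ≤ 1 + t := by linarith
  have hbig : 1 ≤ (1 + t) * E3 * Ex :=
    one_le_mul_of_one_le_of_one_le (one_le_mul_of_one_le_of_one_le hT1 hE3) hEx1
  have hMM : M ≤ M ^ 2 := by nlinarith
  have f1 : M * (1 / m0) ≤ 1 / m0 * ((1 + t) * E3 * Ex * M ^ 2) := by
    calc M * (1 / m0) = 1 / m0 * (1 * M) := by ring
      _ ≤ 1 / m0 * ((1 + t) * E3 * Ex * M ^ 2) := by gcongr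
  have f2 : Cm / m0 * (1 + t) * M * Ex ≤ Cm / m0 * ((1 + t) * E3 * Ex * M ^ 2) := by
    calc Cm / m0 * (1 + t) * M * Ex = Cm / m0 * ((1 + t) * 1 * Ex * M) := by ring
      _ ≤ Cm / m0 * ((1 + t) * E3 * Ex * M ^ 2) := by gcongr
  calc M * (1 / m0) + Cm / m0 * (1 + t) * M * Ex
        + (M * (1 / m0) + M * (E3 * (1 + t) * (C1 * M * Ex)))
      ≤ 1 / m0 * ((1 + t) * E3 * Ex * M ^ 2) + Cm / m0 * ((1 + t) * E3 * Ex * M ^ 2)
        + (1 / m0 * ((1 + t) * E3 * Ex * M ^ 2) + C1 * ((1 + t) * E3 * Ex * M ^ 2)) := by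
        have f3 : M * (E3 * (1 + t) * (C1 * M * Ex)) = C1 * ((1 + t) * E3 * Ex * M ^ 2) := by
          ring
        rw [f3]
        linarith
    _ = _ := by ring

end Seg

end Run7.h772
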