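import Mathlib
import Pool.Agent.Run7.h772.Sard2

open Set Metric Filter MeasureTheory
open scoped ContDiff Topology ComplexConjugate ENNReal

namespace Run7.h772

open IsEulerFlow

namespace Seg

variable {D : Set ℂ} {w : ℂ → ℝ} {a e : ℂ} {R α : ℝ} {u X : ℝ → ℂ → ℂ} {p : ℝ → ℂ → ℝ}
  {K M : ℝ → ℝ}

/-- Pointwise bound of the stretching when the vorticity gradient does not decay too fast along
the trajectory. -/
theorem speed_of_lower (S : Seg D w a e) (V : Evol D w a e R α u p X K M) {K0 : ℝ}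
    (hK0 : ∀ t, K t ≤ K0) {μ Cμ : ℝ} (hCμ : 0 ≤ Cμ)
    (hM : ∀ t, 0 ≤ t → M t ≤ Cμ * Real.exp (μ * t)) {σ lam : ℝ} (hσ : 0 ≤ σ)
    (hlam : μ + 2 * σ < lam) {s : ℝ} (hs : s ∈ Icc (0 : ℝ) 1) (hne : grad w (a + s • e) ≠ 0)
    (hlow : fp w a e s ≠ 0 → ∀ᶠ n : ℕ in atTop, Real.exp (-(σ * n)) ≤ ‖gr u X n (a + s • e)‖) :
    ∃ C : ℝ, ∀ t, 0 ≤ t → ‖fderiv ℝ (X t) (a + s • e) e‖ ≤ C * Real.exp (lam * t) := by
  set g : ℕ → ℝ := fun n => ‖gr u X n (a + s • e)‖ with hg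
  -- bound of the inverse squares
  obtain ⟨B, hB0, hB⟩ : ∃ B : ℝ, 0 ≤ B ∧ ∀ k : ℕ,
      |fp w a e s| * (g k ^ 2)⁻¹ ≤ B * Real.exp (2 * σ * k) := by
    by_cases h0 : fp w a e s = 0
    · exact ⟨0, le_rfl, fun k => by rw [h0]; simp⟩
    obtain ⟨N, hN⟩ := eventually_atTop.mp (hlow h0)
    refine ⟨|fp w a e s| * (1 + ∑ i ∈ Finset.range N, (g i ^ 2)⁻¹), by positivity, fun k => ?_⟩
    rw [mul_assoc]
    refine mul_le_mul_of_nonneg_left ?_ (abs_nonneg _)
    have hsum0 : 0 ≤ ∑ i ∈ Finset.range N, (g i ^ 2)⁻¹ :=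
      Finset.sum_nonneg (fun i _ => by positivity)
    have hexp1 : 1 ≤ Real.exp (2 * σ * k) := Real.one_le_exp (by positivity)
    by_cases hk : k < N
    · have h1 : (g k ^ 2)⁻¹ ≤ ∑ i ∈ Finset.range N, (g i ^ 2)⁻¹ :=
        Finset.single_le_sum (f := fun i => (g i ^ 2)⁻¹) (fun i _ => by positivity)
          (Finset.mem_range.mpr hk)
      calc (g k ^ 2)⁻¹ ≤ (1 + ∑ i ∈ Finset.range N, (g i ^ 2)⁻¹) * 1 := by linarith
        _ ≤ _ := by gcongr
    · push Not at hk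
      have h1 := hN k hk
      have h2 : (g k ^ 2)⁻¹ ≤ Real.exp (2 * σ * k) := by
        have h3 : Real.exp (-(2 * σ * k)) ≤ g k ^ 2 := by
          calc Real.exp (-(2 * σ * k)) = Real.exp (-(σ * k)) ^ 2 := by
                rw [← Real.exp_nat_mul]; congr 1; push_cast; ring
            _ ≤ g k ^ 2 := by gcongr
        rw [inv_le_comm₀ (lt_of_lt_of_le (Real.exp_pos _) h3) (Real.exp_pos _), ← Real.exp_neg]
        exact h3
      calc (g k ^ 2)⁻¹ ≤ 1 * Real.exp (2 * σ * k) := by linarith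
        _ ≤ _ := by gcongr; linarith
  have hg0 : 0 < ‖grad w (a + s • e)‖ := norm_pos_iff.mpr hne
  set c0 : ℝ := 2 * K0 * Real.exp (2 * K0) with hc0
  have hK00 : 0 ≤ K0 := (V.hF.nonneg 0).trans (hK0 0)
  have hc00 : 0 ≤ c0 := by positivity
  set ι : ℝ := lam - (μ + 2 * σ) with hι
  have hι0 : 0 < ι := by linarith
  refine ⟨Cμ * (1 / ‖grad w (a + s • e)‖ + c0 * B) * (1 / ι + 1), fun t ht => ?_⟩
  have hKt := V.hF.nonneg t
  have hne0 : gr u X 0 (a + s • e) ≠ 0 := by rw [S.gr_zero V hs]; exact hne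
  obtain ⟨h, _, hext, hB1, _, _⟩ := V.hreg t ht
  have hgM : ‖gr u X t (a + s • e)‖ ≤ M t := by
    have hx := S.hseg s hs
    have h1 : gr u X t (a + s • e) = grad h (X t (a + s • e)) :=
      (grad_congr S.hD hext (V.hX.mem _ hx t ht)).symm
    rw [h1, norm_grad_eq]
    exact hB1 _
  refine (V.hE.stretch_bound S.hD V.hX V.hF (S.hseg s hs) hne0 e ht).trans ?_
  rw [S.he, S.gr_zero V hs, fderiv_congr S.hD V.h0 (S.hseg s hs)]
  have hfl : ((⌊t⌋₊ + 1 : ℕ) : ℝ) ≤ 1 + t := by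
    push_cast
    have h1 : (⌊t⌋₊ : ℝ) ≤ t := Nat.floor_le ht
    linarith
  have h2 : 2 * K t * |fderiv ℝ w (a + s • e) e| * Real.exp (2 * K t)
      * ∑ k ∈ Finset.range (⌊t⌋₊ + 1), (‖gr u X k (a + s • e)‖ ^ 2)⁻¹
      ≤ c0 * ((1 + t) * (B * Real.exp (2 * σ * t))) := by
    have h3 : 2 * K t * |fderiv ℝ w (a + s • e) e| * Real.exp (2 * K t)
        * ∑ k ∈ Finset.range (⌊t⌋₊ + 1), (‖gr u X k (a + s • e)‖ ^ 2)⁻¹
        = (2 * K t * Real.exp (2 * K t))
          * ∑ k ∈ Finset.range (⌊t⌋₊ + 1), |fp w a e s| * (g k ^ 2)⁻¹ := by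
      rw [← Finset.mul_sum]
      simp only [fp, hg]
      ring
    rw [h3]
    have h4 : ∑ k ∈ Finset.range (⌊t⌋₊ + 1), |fp w a e s| * (g k ^ 2)⁻¹
        ≤ (1 + t) * (B * Real.exp (2 * σ * t)) := by
      have h5 : ∀ k ∈ Finset.range (⌊t⌋₊ + 1), |fp w a e s| * (g k ^ 2)⁻¹
          ≤ B * Real.exp (2 * σ * t) := by
        intro k hk
        have hkt : (k : ℝ) ≤ t := by
          have h1 : k ≤ ⌊t⌋₊ := Nat.lt_succ_iff.mp (Finset.mem_range.mp hk)
          exact le_trans (by exact_mod_cast h1) (Nat.floor_le ht)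
        refine (hB k).trans ?_
        gcongr
      refine (Finset.sum_le_sum h5).trans ?_
      rw [Finset.sum_const, Finset.card_range, nsmul_eq_mul]
      gcongr
    have h6 : 0 ≤ ∑ k ∈ Finset.range (⌊t⌋₊ + 1), |fp w a e s| * (g k ^ 2)⁻¹ :=
      Finset.sum_nonneg (fun k _ => by positivity)
    have h7 : 2 * K t * Real.exp (2 * K t) ≤ c0 := by
      have := hK0 t
      rw [hc0]
      gcongr
    gcongr
  have h8 : 1 + t ≤ (1 / ι + 1) * Real.exp (ι * t) := by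
    have e1 : ι * t + 1 ≤ Real.exp (ι * t) := Real.add_one_le_exp _
    have e2 : t ≤ 1 / ι * Real.exp (ι * t) := by
      rw [div_mul_eq_mul_div, le_div_iff₀ hι0]; linarith
    have e3 : 1 ≤ Real.exp (ι * t) := Real.one_le_exp (by positivity)
    linarith
  have h9 : 1 ≤ (1 + t) * Real.exp (2 * σ * t) :=
    one_le_mul_of_one_le_of_one_le (by linarith) (Real.one_le_exp (by positivity))
  have h10 : 0 ≤ 2 * K t * |fderiv ℝ w (a + s • e) e| * Real.exp (2 * K t)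
      * ∑ k ∈ Finset.range (⌊t⌋₊ + 1), (‖gr u X k (a + s • e)‖ ^ 2)⁻¹ := by
    have : 0 ≤ ∑ k ∈ Finset.range (⌊t⌋₊ + 1), (‖gr u X k (a + s • e)‖ ^ 2)⁻¹ :=
      Finset.sum_nonneg (fun k _ => by positivity)
    positivity
  calc ‖gr u X t (a + s • e)‖ * (1 / ‖grad w (a + s • e)‖
        + 2 * K t * |fderiv ℝ w (a + s • e) e| * Real.exp (2 * K t)
          * ∑ k ∈ Finset.range (⌊t⌋₊ + 1), (‖gr u X k (a + s • e)‖ ^ 2)⁻¹)
      ≤ (Cμ * Real.exp (μ * t)) * (1 / ‖grad w (a + s • e)‖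
        + c0 * ((1 + t) * (B * Real.exp (2 * σ * t)))) := by
        have := hgM.trans (hM t ht)
        gcongr
    _ ≤ (Cμ * Real.exp (μ * t)) * ((1 / ‖grad w (a + s • e)‖)
          * ((1 + t) * Real.exp (2 * σ * t))
        + c0 * ((1 + t) * (B * Real.exp (2 * σ * t)))) := by
        have : 1 / ‖grad w (a + s • e)‖ ≤ (1 / ‖grad w (a + s • e)‖)
          * ((1 + t) * Real.exp (2 * σ * t)) := le_mul_of_one_le_right (by positivity) h9
        gcongr
    _ = Cμ * (1 / ‖grad w (a + s • e)‖ + c0 * B)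
        * ((1 + t) * (Real.exp (μ * t) * Real.exp (2 * σ * t))) := by ring
    _ ≤ Cμ * (1 / ‖grad w (a + s • e)‖ + c0 * B)
        * (((1 / ι + 1) * Real.exp (ι * t)) * (Real.exp (μ * t) * Real.exp (2 * σ * t))) := by
        gcongr
    _ = Cμ * (1 / ‖grad w (a + s • e)‖ + c0 * B) * (1 / ι + 1)
        * (Real.exp (ι * t) * (Real.exp (μ * t) * Real.exp (2 * σ * t))) := by ring
    _ = _ := by
        rw [← Real.exp_add, ← Real.exp_add]
        congr 2
        rw [hι]; ring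

/-- Almost everywhere bound of the exponential rate of stretching. -/
theorem ae_exponent (S : Seg D w a e) (hn : ∀ s ∈ Icc (0 : ℝ) 1, grad w (a + s • e) ≠ 0)
    (hR1 : 1 ≤ R) (hα : 0 < α) (V : Evol D w a e R α u p X K M) {K0 : ℝ}
    (hK0 : ∀ t, K t ≤ K0) {μ Cμ : ℝ} (hμ : 0 ≤ μ)
    (hM : ∀ t, 0 ≤ t → M t ≤ Cμ * Real.exp (μ * t)) {lam : ℝ} (hlam : (3 + 2 / α) * μ < lam) :
    ∀ᵐ s ∂(volume.restrict (Icc (0 : ℝ) 1)), ∃ C : ℝ, ∀ t, 0 ≤ t →
      ‖fderiv ℝ (X t) (a + s • e) e‖ ≤ C * Real.exp (lam * t) := by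
  have hCμ : 0 ≤ Cμ := by
    have h1 := hM 0 le_rfl
    have h2 := V.hM1 0
    rw [mul_zero, Real.exp_zero, mul_one] at h1
    linarith
  set θ : ℝ := α / (1 + α) with hθ
  have hθ0 : 0 < θ := by positivity
  have hθi : μ / θ = (1 + 1 / α) * μ := by rw [hθ]; field_simp; ring
  set x : ℝ := (lam - μ) / 2 with hx
  have hxθ : μ / θ < x := by
    rw [hθi, hx]
    have : (3 + 2 / α) * μ = μ + 2 * ((1 + 1 / α) * μ) := by ring
    linarith
  set σ : ℝ := (μ / θ + x) / 2 with hσ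
  have hμθ0 : 0 ≤ μ / θ := by positivity
  have hσ1 : μ / θ < σ := by rw [hσ]; linarith
  have hσ2 : σ < x := by rw [hσ]; linarith
  have hσ0 : 0 < σ := by linarith
  have hθσ : μ < θ * σ := by
    rw [div_lt_iff₀ hθ0] at hσ1
    linarith
  set η : ℝ := (θ * σ - μ) / (2 * σ) with hη
  have hη0 : 0 < η := by
    have : 0 < θ * σ - μ := by linarith
    positivity
  have hησ : η * σ = (θ * σ - μ) / 2 := by rw [hη]; field_simp
  set g : ℝ := (θ * σ - μ) / 2 with hg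
  have hg0 : 0 < g := by linarith
  have hθη : 0 ≤ θ - η := by
    by_contra hcon
    push Not at hcon
    have : (θ - η) * σ < 0 := mul_neg_of_neg_of_pos hcon hσ0
    nlinarith
  obtain ⟨C, hC0, hC⟩ := S.measure_sard hR1 hα hη0 (R := R)
  set Z : ℕ → Set ℝ := fun n => {s | s ∈ Icc (0 : ℝ) 1 ∧
    ‖gr u X n (a + s • e)‖ ≤ Real.exp (-((⌊σ * n⌋₊ : ℕ) : ℝ))} with hZ
  set f : ℝ → ℝ≥0∞ := fun s => ENNReal.ofReal |fp w a e s| with hf
  have hfm : AEMeasurable f (volume.restrict (Icc (0 : ℝ) 1)) :=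
    (S.continuousOn_fp.abs.aemeasurable measurableSet_Icc).ennreal_ofReal
  have hZm : ∀ n, MeasurableSet (Z n) := by
    intro n
    have : Z n = Icc (0 : ℝ) 1 ∩ (fun s : ℝ => ‖gr u X n (a + s • e)‖) ⁻¹'
      (Iic (Real.exp (-((⌊σ * n⌋₊ : ℕ) : ℝ)))) := rfl
    rw [this]
    exact ((S.continuousOn_gr V (Nat.cast_nonneg n)).norm.preimage_isClosed_of_isClosed
      isClosed_Icc isClosed_Iic).measurableSet
  set C' : ℝ := C * Cμ * Real.exp (θ - η) with hC'
  have hC'0 : 0 ≤ C' := by positivity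
  have hν : ∀ n, ((volume.restrict (Icc (0 : ℝ) 1)).withDensity f) (Z n)
      ≤ ENNReal.ofReal (C' * Real.exp (-g) ^ n) := by
    intro n
    rw [withDensity_apply _ (hZm n), Measure.restrict_restrict (hZm n)]
    have hZI : Z n ∩ Icc 0 1 = Z n := inter_eq_left.mpr (fun s hs => hs.1)
    rw [hZI]
    refine (hC u p X K M V n (Nat.cast_nonneg n) ⌊σ * n⌋₊).trans (ENNReal.ofReal_le_ofReal ?_)
    have h1 : σ * n - 1 ≤ (⌊σ * n⌋₊ : ℝ) := by
      have := Nat.lt_floor_add_one (σ * n)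
      linarith
    have h2 : Real.exp (-((θ - η) * (⌊σ * n⌋₊ : ℝ)))
        ≤ Real.exp (θ - η) * Real.exp (-((θ - η) * (σ * n))) := by
      rw [← Real.exp_add]
      apply Real.exp_le_exp.mpr
      have := mul_le_mul_of_nonneg_left h1 hθη
      linarith
    have h3 := hM n (Nat.cast_nonneg n)
    have h4 : Real.exp (μ * n) * Real.exp (-((θ - η) * (σ * n))) = Real.exp (-g) ^ n := by
      rw [← Real.exp_add, ← Real.exp_nat_mul]
      congr 1
      have : (θ - η) * σ = μ + g := by rw [sub_mul, hησ, hg]; ring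
      calc μ * n + -((θ - η) * (σ * n)) = (μ - (θ - η) * σ) * n := by ring
        _ = n * -g := by rw [this]; ring
    calc C * M n * Real.exp (-((θ - η) * (⌊σ * n⌋₊ : ℝ)))
        ≤ C * (Cμ * Real.exp (μ * n))
          * (Real.exp (θ - η) * Real.exp (-((θ - η) * (σ * n)))) := by gcongr
      _ = C' * (Real.exp (μ * n) * Real.exp (-((θ - η) * (σ * n)))) := by rw [hC']; ring
      _ = _ := by rw [h4]
  have hsum : (∑' n, ((volume.restrict (Icc (0 : ℝ) 1)).withDensity f) (Z n)) ≠ ⊤ := by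
    refine ne_top_of_le_ne_top ?_ (ENNReal.tsum_le_tsum hν)
    have hs : Summable (fun n : ℕ => C' * Real.exp (-g) ^ n) :=
      (summable_geometric_of_lt_one (Real.exp_pos _).le
        (Real.exp_lt_one_iff.mpr (by linarith))).mul_left _
    exact hs.tsum_ofReal_ne_top
  have hae := ae_eventually_notMem hsum
  rw [ae_withDensity_iff' hfm] at hae
  filter_upwards [hae, ae_restrict_mem measurableSet_Icc] with s hs hsI
  refine S.speed_of_lower V hK0 hCμ hM hσ0.le (by rw [hx] at hσ2; linarith) hsI (hn s hsI)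
    (fun hfp => ?_)
  have h1 : f s ≠ 0 := by
    simp only [hf, ne_eq, ENNReal.ofReal_eq_zero, not_le]
    exact abs_pos.mpr hfp
  filter_upwards [hs h1] with n hn'
  by_contra hcon
  push Not at hcon
  apply hn'
  refine ⟨hsI, hcon.le.trans ?_⟩
  apply Real.exp_le_exp.mpr
  have : (⌊σ * n⌋₊ : ℝ) ≤ σ * n := Nat.floor_le (by positivity)
  linarith

end Seg

end Run7.h772
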